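import Pool.Agent.Work.MP_abe657_gt.SurfDefs

/-!
Short names for the statement of MP_abe657_gt.
-/

set_option autoImplicit false

namespace Pool.Agent.Work.MP_abe657_gt

open scoped Manifold ContDiff

variable {M : Type*} [TopologicalSpace M] [ChartedSpace E2 M]

/-- `x` is a smooth map to Euclidean 3-space -/
def SmoothMap (x : M → E3) : Prop := ContMDiff (𝓡 2) 𝓘(ℝ, E3) ∞ x

/-- the differential of `x` is injective at every point (in all charts of the atlas) -/
def Immersed (x : M → E3) : Prop :=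
  ∀ e ∈ atlas E2 M, ∀ u ∈ e.target, Function.Injective (fderiv ℝ (x ∘ e.symm) u)

theorem immersed_mfderiv (x : M → E3) (hx : SmoothMap x) (hi : Immersed x) (p : M) :
    Function.Injective (mfderiv (𝓡 2) 𝓘(ℝ, E3) x p) := by
  have h1 : MDifferentiableAt (𝓡 2) 𝓘(ℝ, E3) x p := (hx p).mdifferentiableAt (by simp)
  have h2 : mfderiv (𝓡 2) 𝓘(ℝ, E3) x p = fderiv ℝ (x ∘ (chartAt E2 p).symm) (chartAt E2 p p) := by
    rw [h1.mfderiv]
    have h3 : writtenInExtChartAt (𝓡 2) 𝓘(ℝ, E3) p x = x ∘ (chartAt E2 p).symm := by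
      funext u
      simp [writtenInExtChartAt, extChartAt] <;> (rw [chartAt_self_eq (H := E3)]; try rfl)
    have h4 : (extChartAt (𝓡 2) p) p = chartAt E2 p p := by simp [extChartAt]
    have h5 : Set.range (𝓡 2) = Set.univ := ModelWithCorners.range_eq_univ _
    rw [h3, h4, h5, fderivWithin_univ]
  rw [h2]
  exact hi _ (chart_mem_atlas E2 p) _ (mem_chart_target E2 p)

end Pool.Agent.Work.MP_abe657_gt
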