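import Pool.Agent.Work.MP_abe657_gt.Ord

/-!
Module CoreBig (M). If the inverse metric blows up in the radial direction, `Δ^n A` has exact order
`-1 - n τ`, so `P(Δ)A ≠ 0`.

Setting: `g22 = 4 A²`, `D = g11 g22 - g12²` has order `δ > -2` with leading coefficient `θ`, `g12` has
exponents `≥ -1`. Put `τ = 2 + δ > 0`. Then `g11 = (D + g12²)/g22` has exponents `≥ 0`
(since `min(δ, -2) + 2 = 0`). With `a = g22/D` (order `-τ`, leading coefficient `4/θ`), `b = -g12/D`
(exponents `≥ -1 - δ = 1 - τ`), `c = g11/D` (exponents `≥ -δ = 2 - τ`), for `Ge u r`: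
`lapFun u = -(thA(a thA u) + (thA D/(2D)) a thA u) + (exponents ≥ r + 1 - τ)`, and the coefficient at
`r - τ`: `thA` multiplies the coefficient at `q` by `-q`; `thA D/D` has coefficient `-δ` at `0`; so
`cf (Δ u) (r - τ) = -(4/θ) (-r) ((τ - r) - δ/2) (cf u r)`. With `ρ = -r`:
`(τ + ρ - δ/2) = ρ + 2 + δ/2`. For `r = -1 - n τ`, `ρ = 1 + n τ > 0` and `ρ + 2 + δ/2 > 0`, so the
coefficient is non-zero: by induction `Δ^n A` has order exactly `-1 - n τ`. As `P ≠ 0` of degree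
`k`, the coefficient of `P(Δ) A` at `-1 - k τ` is non-zero.
-/

set_option autoImplicit false

namespace Pool.Agent.Work.MP_abe657_gt

private lemma coreBig_div_ge {x D : LL} {a δ : ℚ} (hx : Ge x a) (hD : Ge D δ)
    (hD0 : cf D δ ≠ 0) : Ge (x / D) (a - δ) := by
  rw [div_eq_mul_inv, sub_eq_add_neg]
  exact hx.mul (hD.inv hD0)

private lemma coreBig_div_cf {x D : LL} {a δ : ℚ} (hx : Ge x a) (hD : Ge D δ)
    (hD0 : cf D δ ≠ 0) : cf (x / D) (a - δ) = cf x a / cf D δ := by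
  rw [div_eq_mul_inv, sub_eq_add_neg, cf_mul_lead hx (hD.inv hD0), cf_inv_lead hD hD0,
    div_eq_mul_inv]

private lemma coreBig_two_mul_cf (x : LL) (q : ℚ) : cf (2 * x) q = 2 * cf x q := by
  have h : (2 : LL) * x = x + x := by ring
  rw [h, cf_add]; ring

private lemma coreBig_two_ge {x : LL} {a : ℚ} (hx : Ge x a) : Ge (2 * x) a := by
  intro q hq
  rw [coreBig_two_mul_cf, hx q hq, mul_zero]

private lemma coreBig_g22_mul_cf (x : LL) (q : ℚ) : cf (4 * AA ^ 2 * x) q = 4 * cf x (q + 2) := by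
  have h : 4 * AA ^ 2 * x = 2 * (2 * (AA * (AA * x))) := by ring
  rw [h, coreBig_two_mul_cf, coreBig_two_mul_cf, cf_AA_mul, cf_AA_mul]
  have h2 : q + 1 + 1 = q + 2 := by ring
  rw [h2]; ring

/-- the effect of the Laplacian on leading exponents -/
private lemma coreBig_step (g11 g12 : LL) (δ : ℚ)
    (hD1 : Ge (g11 * (4 * AA ^ 2) - g12 ^ 2) δ)
    (hD2 : cf (g11 * (4 * AA ^ 2) - g12 ^ 2) δ ≠ 0)
    (h12 : Ge g12 (-1)) (h11 : Ge g11 0) (u : LL) (r : ℚ) (hu : Ge u r) :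
    Ge (lapFun thA dT g11 g12 (4 * AA ^ 2) u) (r - (2 + δ)) ∧
    cf (lapFun thA dT g11 g12 (4 * AA ^ 2) u) (r - (2 + δ)) =
      -(((4 * r * (r - 2 - δ / 2) : ℚ) : kk) * cf u r /
        cf (g11 * (4 * AA ^ 2) - g12 ^ 2) δ) := by
  set D := g11 * (4 * AA ^ 2) - g12 ^ 2 with hDdef
  set θ := cf D δ with hθ
  -- the numerator of the first component
  have hN1 : Ge (4 * AA ^ 2 * thA u - g12 * dT u) (r - 2) := by
    refine Ge.sub ?_ ?_
    · intro q hq
      rw [coreBig_g22_mul_cf, cf_thA, hu (q + 2) (by linarith), mul_zero, neg_zero, mul_zero]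
    · exact (h12.mul hu.dT).mono (by linarith)
  have hN1c : cf (4 * AA ^ 2 * thA u - g12 * dT u) (r - 2) = -(4 * ((r : kk) * cf u r)) := by
    rw [cf_sub, coreBig_g22_mul_cf, cf_thA, (h12.mul hu.dT) (r - 2) (by linarith), sub_zero]
    have h2 : r - 2 + 2 = r := by ring
    rw [h2]; ring
  have hW1 : Ge ((4 * AA ^ 2 * thA u - g12 * dT u) / D) (r - (2 + δ)) := by
    have := coreBig_div_ge hN1 hD1 hD2
    exact this.mono (by linarith)
  have hW1c : cf ((4 * AA ^ 2 * thA u - g12 * dT u) / D) (r - (2 + δ)) =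
      -(4 * ((r : kk) * cf u r)) / θ := by
    have := coreBig_div_cf hN1 hD1 hD2
    rw [hN1c] at this
    have h2 : r - (2 + δ) = r - 2 - δ := by ring
    rw [h2, this]
  have hN2 : Ge (g11 * dT u - g12 * thA u) (r - 1) := by
    refine Ge.sub ?_ ?_
    · exact (h11.mul hu.dT).mono (by linarith)
    · exact (h12.mul hu.thA).mono (by linarith)
  have hW2 : Ge ((g11 * dT u - g12 * thA u) / D) (r - (2 + δ) + 1) :=
    (coreBig_div_ge hN2 hD1 hD2).mono (by linarith)
  -- the logarithmic derivatives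
  have h2D : Ge (2 * D) δ := coreBig_two_ge hD1
  have h2Dc : cf (2 * D) δ = 2 * θ := coreBig_two_mul_cf D δ
  have h2D0 : cf (2 * D) δ ≠ 0 := by
    rw [h2Dc]; exact mul_ne_zero two_ne_zero hD2
  have hL1 : Ge (thA D / (2 * D)) 0 :=
    (coreBig_div_ge hD1.thA h2D h2D0).mono (by linarith)
  have hL1c : cf (thA D / (2 * D)) 0 = -((δ : kk) / 2) := by
    have := coreBig_div_cf hD1.thA h2D h2D0
    rw [sub_self, h2Dc, cf_thA] at this
    rw [this]
    have hθ0 : cf D δ ≠ 0 := hD2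
    rw [← hθ] at hθ0 ⊢
    field_simp
  have hL2 : Ge (dT D / (2 * D)) 0 :=
    (coreBig_div_ge hD1.dT h2D h2D0).mono (by linarith)
  -- the four terms
  have hT2 : Ge (dT ((g11 * dT u - g12 * thA u) / D)) (r - (2 + δ) + 1) := hW2.dT
  have hT3 : Ge (thA D / (2 * D) * ((4 * AA ^ 2 * thA u - g12 * dT u) / D)) (r - (2 + δ)) :=
    (hL1.mul hW1).mono (by linarith)
  have hT3c : cf (thA D / (2 * D) * ((4 * AA ^ 2 * thA u - g12 * dT u) / D)) (r - (2 + δ)) =
      -((δ : kk) / 2) * (-(4 * ((r : kk) * cf u r)) / θ) := by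
    have := cf_mul_lead hL1 hW1
    rw [zero_add] at this
    rw [this, hL1c, hW1c]
  have hT4 : Ge (dT D / (2 * D) * ((g11 * dT u - g12 * thA u) / D)) (r - (2 + δ) + 1) :=
    (hL2.mul hW2).mono (by linarith)
  have hlt : r - (2 + δ) < r - (2 + δ) + 1 := by linarith
  constructor
  · unfold lapFun
    refine Ge.neg (Ge.add (Ge.add (Ge.add hW1.thA ?_) hT3) ?_)
    · exact hT2.mono hlt.le
    · exact hT4.mono hlt.le
  · unfold lapFun
    rw [cf_neg, cf_add, cf_add, cf_add, cf_thA, ← hDdef, hT2 _ hlt, hT4 _ hlt, hT3c, hW1c]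
    have hθ0 : θ ≠ 0 := hD2
    push_cast
    field_simp
    ring

theorem core_big (g11 g12 : LL) (δ : ℚ) (hδ : -2 < δ)
    (hD1 : Ge (g11 * (4 * AA ^ 2) - g12 ^ 2) δ)
    (hD2 : cf (g11 * (4 * AA ^ 2) - g12 ^ 2) δ ≠ 0)
    (h12 : Ge g12 (-1)) (P : Polynomial ℂ) (hP : P ≠ 0)
    (h1 : Polynomial.aeval (lapO thA dT g11 g12 (4 * AA ^ 2)) P AA = 0) : False := by
  -- exponents of `g11`
  have h11 : Ge g11 0 := by
    intro q hq
    have e1 : cf (4 * AA ^ 2 * g11) (q - 2) = 4 * cf g11 q := by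
      rw [coreBig_g22_mul_cf]
      have : q - 2 + 2 = q := by ring
      rw [this]
    have e2 : 4 * AA ^ 2 * g11 = (g11 * (4 * AA ^ 2) - g12 ^ 2) + g12 * g12 := by ring
    have e3 : Ge ((g11 * (4 * AA ^ 2) - g12 ^ 2) + g12 * g12) (-2) := by
      refine Ge.add (hD1.mono hδ.le) ?_
      exact (h12.mul h12).mono (by norm_num)
    have e4 : cf (4 * AA ^ 2 * g11) (q - 2) = 0 := by
      rw [e2]; exact e3 _ (by linarith)
    rw [e1] at e4
    exact (mul_eq_zero.mp e4).resolve_left (by norm_num)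
  set Δ := lapO thA dT g11 g12 (4 * AA ^ 2) with hΔ
  have hτ : 0 < 2 + δ := by linarith
  have hind : ∀ n : ℕ, Ge ((Δ ^ n) AA) (-1 - n * (2 + δ)) ∧
      cf ((Δ ^ n) AA) (-1 - n * (2 + δ)) ≠ 0 := by
    intro n
    induction n with
    | zero =>
      simp only [pow_zero, Module.End.one_apply, Nat.cast_zero, zero_mul, sub_zero]
      exact ⟨Ge_AA, by rw [cf_AA]; exact one_ne_zero⟩
    | succ n ih =>
      obtain ⟨ih1, ih2⟩ := ih
      have hs := coreBig_step g11 g12 δ hD1 hD2 h12 h11 _ _ ih1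
      have e : (-1 - (n : ℚ) * (2 + δ)) - (2 + δ) = -1 - ((n + 1 : ℕ) : ℚ) * (2 + δ) := by
        push_cast; ring
      rw [e] at hs
      have e2 : (Δ ^ (n + 1)) AA = lapFun thA dT g11 g12 (4 * AA ^ 2) ((Δ ^ n) AA) := by
        rw [pow_succ', Module.End.mul_apply]; rfl
      rw [e2]
      refine ⟨hs.1, ?_⟩
      rw [hs.2]
      have hn : (0 : ℚ) ≤ (n : ℚ) * (2 + δ) := by positivity
      refine neg_ne_zero.mpr (div_ne_zero (mul_ne_zero ?_ ih2) hD2)
      rw [Rat.cast_ne_zero]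
      refine mul_ne_zero (mul_ne_zero (by norm_num) ?_) ?_
      · linarith
      · linarith
  -- the coefficient of `P(Δ) A`
  set k := P.natDegree with hk
  have hcf : cf (Polynomial.aeval Δ P AA) (-1 - k * (2 + δ)) =
      iotaK (P.coeff k) * cf ((Δ ^ k) AA) (-1 - k * (2 + δ)) := by
    have e1 : Polynomial.aeval Δ P AA = ∑ i ∈ Finset.range (k + 1), P.coeff i • (Δ ^ i) AA := by
      rw [Polynomial.aeval_eq_sum_range, LinearMap.sum_apply]
      rfl
    let φ : LL →+ kk :=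
      { toFun := fun x => cf x (-1 - k * (2 + δ))
        map_zero' := rfl
        map_add' := fun x y => cf_add x y _ }
    have e2 : ∀ x : LL, cf x (-1 - k * (2 + δ)) = φ x := fun _ => rfl
    rw [e1, e2, map_sum, Finset.sum_range_succ]
    have e3 : ∑ i ∈ Finset.range k, φ (P.coeff i • (Δ ^ i) AA) = 0 := by
      refine Finset.sum_eq_zero ?_
      intro i hi
      rw [← e2, cf_smul, (hind i).1, mul_zero]
      have hik : (i : ℚ) < (k : ℚ) := by exact_mod_cast Finset.mem_range.mp hi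
      have := mul_lt_mul_of_pos_right hik hτ
      linarith
    rw [e3, zero_add, ← e2, cf_smul]
  rw [h1] at hcf
  have h0 : cf (0 : LL) (-1 - k * (2 + δ)) = 0 := rfl
  rw [h0] at hcf
  have hlc : P.coeff k ≠ 0 := by
    have := Polynomial.leadingCoeff_ne_zero.mpr hP
    exact this
  have hlc2 : iotaK (P.coeff k) ≠ 0 := (map_ne_zero iotaK).mpr hlc
  exact mul_ne_zero hlc2 (hind k).2 hcf.symm

end Pool.Agent.Work.MP_abe657_gt
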