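import Pool.Agent.Work.MP_abe657_gt.Ord

/-!
Module CoreMid (M-L). The borderline case: the determinant has order exactly `-2`.

Setting: `ψ` has exponents `≥ -1`; `g11 = thA ψ - ψ`, `g12 = dT ψ / 2`, `g22 = 4 A²`,
`D = g11 g22 - g12²` has order `-2`, `θ := cf D (-2) ≠ 0`. Put `q = cf ψ (-1)`, `Δ = lapO ...`.
`g12` has exponents `≥ -1` and `cf g12 (-1) = dk q / 2`; `g11 = (D + g12²)/g22` has exponents `≥ 0`.
`a = g22/D`: exponents `≥ 0`, `cf a 0 = 4/θ`; `b = -g12/D`: exponents `≥ 1`, `cf b 1 = -dk q/(2θ)`;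
`c = g11/D`: exponents `≥ 2`; `thA D/(2D)`: exponents `≥ 0`, `cf 0 = 1`; `dT D/(2D)`: exponents `≥ 0`.
(1) For `Ge u r` (put `ρ = -r`): `Ge (Δ u) r`, `cf (Δ u) r = -(4/θ) ρ (ρ+1) cf u r`.
(2) `P(Δ)A = 0` at exponent `-1`: `P(λ) = 0` with `λ = -8/θ`; `λ ≠ 0` as `P(0) ≠ 0`; as `P` splits over `ℂ`,
`λ ∈ iotaK ℂ`, so `dk λ = 0`, `dk θ = 0`. `cf (Δ^n A) (-1) = λ^n`.
(3) `[Δ, t] u := Δ(t u) - t Δ u = -(thA(b u) + dT(c u) + b thA u + c dT u + (thA D/(2D)) b u
 + (dT D/(2D)) c u)` (as `thA t = 0`, `dT t = 1`): for `Ge u r` it has exponents `≥ r + 1`, and the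
coefficient at `r + 1` is `-(2 ρ) (cf b 1) (cf u r) = (dk q/θ) ρ (cf u r)`.
(4) `0 = P(Δ)(tA) - t P(Δ)A = ∑_n P_n ∑_{i+j=n-1} Δ^i [Δ,t] Δ^j A`. Its coefficient at `0`: by (1) with
`r = 0` (`ρ = 0`), `Δ` kills the coefficient at `0`, so only `i = 0` contributes:
`∑_{n≥1} P_n (dk q/θ) λ^(n-1) = (dk q/θ)(P(λ) - P(0))/λ = -(dk q/θ) P(0)/λ`. Hence `dk q = 0`.
(5) Now `cf b 1 = 0`, so `[Δ,t]` maps `Ge u r` to exponents `> r + 1` (coefficient at `r+1` is `0`).
`P(Δ)(A t²) = t P(Δ)(tA) + ∑_n P_n ∑_{i+j=n-1} Δ^i [Δ,t] Δ^j (tA)` has coefficient `0` at `0` and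
no negative exponents; `ψ/(4A)` has exponents `≥ 0` and coefficient `q/4` at `0`, so by (1)
`cf (P(Δ)(ψ/(4A))) 0 = P(0) q/4`. From `P(Δ)(A t² - ψ/(4A)) = 0`: `P(0) q/4 = 0`, so `q = 0`.
-/

set_option autoImplicit false

namespace Pool.Agent.Work.MP_abe657_gt

namespace CoreMidAux

private theorem cf_iota_ite (c : kk) (q : ℚ) : cf (iotaL c) q = if q = 0 then c else 0 := by
  have h : cf (iotaL c) q = (HahnSeries.single (0 : ℚ) c : HahnSeries ℚ kk).coeff q := rfl
  rw [h, HahnSeries.coeff_single]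
  by_cases hq : q = 0
  · rw [if_pos hq, if_pos hq]
  · rw [if_neg hq, if_neg hq]

private theorem dk_tk : dk tk = 1 := by
  have h : (dk tk : kk) = ddFun (R := ℂ) (HahnSeries.single (1 : ℚ) (1 : ℂ)) := rfl
  rw [h]
  have h2 : ddFun (R := ℂ) (HahnSeries.single (1 : ℚ) (1 : ℂ)) = (1 : HahnSeries ℚ ℂ) := by
    ext q
    rw [ddFun_coeff, HahnSeries.coeff_single, HahnSeries.coeff_one]
    by_cases hq : q = 0
    · subst hq; simp
    · have : q + 1 ≠ 1 := by
        intro h'; apply hq; linarith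
      simp [hq]
  rw [h2]
  rfl

private theorem thA_tL : thA tL = 0 := by
  apply LL_ext
  intro q
  rw [cf_thA, tL, cf_iota_ite]
  have h0 : cf (0 : LL) q = 0 := rfl
  rw [h0]
  by_cases hq : q = 0
  · subst hq; simp
  · simp [hq]

private theorem dT_tL : dT tL = 1 := by
  apply LL_ext
  intro q
  rw [cf_dT, tL, cf_iota_ite]
  have h1 : cf (1 : LL) q = if q = 0 then 1 else 0 := by
    have : (1 : LL) = iotaL 1 := by rw [map_one]
    rw [this, cf_iota_ite]
  rw [h1]
  by_cases hq : q = 0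
  · rw [if_pos hq, if_pos hq, dk_tk]
  · rw [if_neg hq, if_neg hq, map_zero]

section

variable {a b c α β : LL}

/-- the Laplacian in terms of its coefficients -/
private noncomputable def Lf (a b c α β : LL) (u : LL) : LL :=
  -(thA (a * thA u + b * dT u) + dT (b * thA u + c * dT u)
    + α * (a * thA u + b * dT u) + β * (b * thA u + c * dT u))

/-- the commutator with `t` -/
private noncomputable def Br (b c α β : LL) (u : LL) : LL :=
  -(thA (b * u) + dT (c * u) + b * thA u + c * dT u + α * (b * u) + β * (c * u))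

private theorem Lf_t (u : LL) :
    Lf a b c α β (tL * u) = tL * Lf a b c α β u + Br b c α β u := by
  have e1 : thA (tL * u) = tL * thA u := by
    rw [Derivation.leibniz, thA_tL]; simp
  have e2 : dT (tL * u) = tL * dT u + u := by
    rw [Derivation.leibniz, dT_tL]; simp
  have e3 : ∀ x, thA (tL * x) = tL * thA x := by
    intro x; rw [Derivation.leibniz, thA_tL]; simp
  have e4 : ∀ x, dT (tL * x) = tL * dT x + x := by
    intro x; rw [Derivation.leibniz, dT_tL]; simp
  unfold Lf Br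
  rw [e1, e2]
  have e5 : a * (tL * thA u) + b * (tL * dT u + u) = tL * (a * thA u + b * dT u) + b * u := by ring
  have e6 : b * (tL * thA u) + c * (tL * dT u + u) = tL * (b * thA u + c * dT u) + c * u := by ring
  rw [e5, e6, map_add thA, map_add dT, e3, e4]
  ring

private theorem Ge.zero_add' {x : LL} {r : ℚ} (h : Ge x (0 + r)) : Ge x r := by
  rwa [zero_add] at h

private theorem Lf_lead (ha : Ge a 0) (hb : Ge b 1) (hc : Ge c 2) (hα : Ge α 0) (hβ : Ge β 0)
    (hα1 : cf α 0 = 1) {u : LL} {r : ℚ} (hu : Ge u r) :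
    Ge (Lf a b c α β u) r ∧
      cf (Lf a b c α β u) r = -(cf a 0 * ((r : kk) * ((r : kk) - 1))) * cf u r := by
  have hX1 : Ge (a * thA u) r := Ge.zero_add' (ha.mul hu.thA)
  have hX2' : Ge (b * dT u) (1 + r) := hb.mul hu.dT
  have hX2 : Ge (b * dT u) r := hX2'.mono (by linarith)
  have hX := hX1.add hX2
  have cX : cf (a * thA u + b * dT u) r = -(cf a 0 * ((r : kk) * cf u r)) := by
    rw [cf_add, hX2' r (by linarith), add_zero]
    have := cf_mul_lead ha hu.thA
    rw [zero_add] at this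
    rw [this, cf_thA]
    ring
  have hY1 : Ge (b * thA u) (1 + r) := hb.mul hu.thA
  have hY2 : Ge (c * dT u) (1 + r) := (hc.mul hu.dT).mono (by linarith)
  have hY := hY1.add hY2
  have h1 : Ge (thA (a * thA u + b * dT u)) r := hX.thA
  have h2 : Ge (dT (b * thA u + c * dT u)) (1 + r) := hY.dT
  have h3 : Ge (α * (a * thA u + b * dT u)) r := Ge.zero_add' (hα.mul hX)
  have h4 : Ge (β * (b * thA u + c * dT u)) (1 + r) := Ge.zero_add' (hβ.mul hY)
  refine ⟨?_, ?_⟩
  · unfold Lf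
    exact (((h1.add (h2.mono (by linarith))).add h3).add (h4.mono (by linarith))).neg
  · unfold Lf
    rw [cf_neg, cf_add, cf_add, cf_add, h2 r (by linarith), h4 r (by linarith), cf_thA, cX]
    have h5 := cf_mul_lead hα hX
    rw [zero_add, cX, hα1] at h5
    rw [h5]
    ring

private theorem Br_lead (hb : Ge b 1) (hc : Ge c 2) (hα : Ge α 0) (hβ : Ge β 0)
    (hα1 : cf α 0 = 1) {u : LL} {r : ℚ} (hu : Ge u r) :
    Ge (Br b c α β u) (1 + r) ∧
      cf (Br b c α β u) (1 + r) = 2 * (r : kk) * cf b 1 * cf u r := by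
  have hbu : Ge (b * u) (1 + r) := hb.mul hu
  have hcu : Ge (c * u) (2 + r) := hc.mul hu
  have h1 : Ge (thA (b * u)) (1 + r) := hbu.thA
  have h2 : Ge (dT (c * u)) (2 + r) := hcu.dT
  have h3 : Ge (b * thA u) (1 + r) := hb.mul hu.thA
  have h4 : Ge (c * dT u) (2 + r) := hc.mul hu.dT
  have h5 : Ge (α * (b * u)) (1 + r) := Ge.zero_add' (hα.mul hbu)
  have h6 : Ge (β * (c * u)) (2 + r) := Ge.zero_add' (hβ.mul hcu)
  have cbu : cf (b * u) (1 + r) = cf b 1 * cf u r := cf_mul_lead hb hu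
  refine ⟨?_, ?_⟩
  · unfold Br
    exact (((((h1.add (h2.mono (by linarith))).add h3).add (h4.mono (by linarith))).add h5).add
      (h6.mono (by linarith))).neg
  · unfold Br
    rw [cf_neg, cf_add, cf_add, cf_add, cf_add, cf_add, h2 (1 + r) (by linarith),
      h4 (1 + r) (by linarith), h6 (1 + r) (by linarith), cf_thA, cbu, cf_mul_lead hb hu.thA, cf_thA]
    have h7 := cf_mul_lead hα hbu
    rw [zero_add, cbu, hα1] at h7
    rw [h7]
    push_cast
    ring

end

/-- the coefficient as an additive map -/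
private noncomputable def cfH (r : ℚ) : LL →+ kk where
  toFun := fun x => cf x r
  map_zero' := rfl
  map_add' := fun x y => cf_add x y r

private theorem cf_aeval (Δ : Module.End ℂ LL) (P : Polynomial ℂ) (x : LL) (r : ℚ) :
    cf (Polynomial.aeval Δ P x) r = P.sum fun n b => iotaK b * cf ((Δ ^ n) x) r := by
  rw [Polynomial.aeval_endomorphism, Polynomial.sum, Polynomial.sum]
  have h := map_sum (cfH r) (fun n => P.coeff n • (Δ ^ n) x) P.support
  have h2 : ∀ y, cfH r y = cf y r := fun y => rfl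
  rw [h2] at h
  rw [h]
  refine Finset.sum_congr rfl fun n _ => ?_
  rw [h2, cf_smul]

end CoreMidAux

open CoreMidAux in
theorem core_mid (ψ : LL) (hψ : Ge ψ (-1)) (hq : cf ψ (-1) ≠ 0)
    (hD1 : Ge ((thA ψ - ψ) * (4 * AA ^ 2) - (dT ψ / 2) ^ 2) (-2))
    (hD2 : cf ((thA ψ - ψ) * (4 * AA ^ 2) - (dT ψ / 2) ^ 2) (-2) ≠ 0)
    (P : Polynomial ℂ) (hP0 : P.eval 0 ≠ 0)
    (h1 : Polynomial.aeval (lapO thA dT (thA ψ - ψ) (dT ψ / 2) (4 * AA ^ 2)) P AA = 0)
    (h2 : Polynomial.aeval (lapO thA dT (thA ψ - ψ) (dT ψ / 2) (4 * AA ^ 2)) P (AA * tL) = 0)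
    (h3 : Polynomial.aeval (lapO thA dT (thA ψ - ψ) (dT ψ / 2) (4 * AA ^ 2)) P
      (AA * tL ^ 2 - ψ / (4 * AA)) = 0) : False := by
  set g11 : LL := thA ψ - ψ with hg11
  set g12 : LL := dT ψ / 2 with hg12
  set g22 : LL := 4 * AA ^ 2 with hg22
  set D : LL := g11 * g22 - g12 ^ 2 with hD
  set θ : kk := cf D (-2) with hθ
  set q : kk := cf ψ (-1) with hqd
  have hD0 : D ≠ 0 := ne_zero_of_cf hD2
  have hnum : ∀ (n : kk) (x : LL) (r : ℚ), cf (iotaL n * x) r = n * cf x r := fun n x r =>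
    cf_iotaL_mul n x r
  have h4 : (4 : LL) = iotaL 4 := by rw [map_ofNat]
  have h2i : (2 : LL)⁻¹ = iotaL (2⁻¹) := by rw [map_inv₀, map_ofNat]
  have hAA0 : AA ≠ 0 := ne_zero_of_cf (a := -1) (by rw [cf_AA]; exact one_ne_zero)
  -- g22
  have hA2 : Ge (AA ^ 2) (-2) := by
    have := Ge_AA.mul Ge_AA
    rw [pow_two]
    norm_num at this
    exact this
  have cA2 : cf (AA ^ 2) (-2) = 1 := by
    have := cf_mul_lead Ge_AA Ge_AA
    rw [cf_AA] at this
    rw [pow_two]
    norm_num at this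
    exact this
  have hg22' : Ge g22 (-2) := by
    have := (Ge_iotaL 4).mul hA2
    rw [zero_add] at this
    rw [hg22, h4]
    exact this
  have cg22 : cf g22 (-2) = 4 := by
    rw [hg22, h4, hnum, cA2, mul_one]
  have h4ne : (4 : kk) ≠ 0 := by norm_num
  have hDi : Ge D⁻¹ 2 := by
    have := Ge.inv hD1 hD2
    norm_num at this
    exact this
  have cDi : cf D⁻¹ 2 = θ⁻¹ := by
    have := cf_inv_lead hD1 hD2
    norm_num at this
    exact this
  have hg22i : Ge g22⁻¹ 2 := by
    have := Ge.inv hg22' (by rw [cg22]; exact h4ne)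
    norm_num at this
    exact this
  have hg12' : Ge g12 (-1) := by
    have e : g12 = iotaL 2⁻¹ * dT ψ := by rw [hg12, ← h2i]; ring
    have := (Ge_iotaL 2⁻¹).mul hψ.dT
    rw [zero_add] at this
    rw [e]; exact this
  have cg12 : cf g12 (-1) = dk q / 2 := by
    have e : g12 = iotaL 2⁻¹ * dT ψ := by rw [hg12, ← h2i]; ring
    rw [e, hnum, cf_dT, ← hqd]
    ring
  have hg22ne : g22 ≠ 0 := ne_zero_of_cf (a := -2) (by rw [cg22]; exact h4ne)
  have hg11' : Ge g11 0 := by
    have e : g11 = (D + g12 * g12) * g22⁻¹ := by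
      rw [hD]
      field_simp
      ring
    have e2 : Ge (g12 * g12) (-2) := by
      have := hg12'.mul hg12'
      norm_num at this
      exact this
    have e3 := (hD1.add e2).mul hg22i
    norm_num at e3
    rw [e]
    exact e3
  set a : LL := g22 * D⁻¹ with ha
  set b : LL := -g12 * D⁻¹ with hb
  set c : LL := g11 * D⁻¹ with hc
  set α : LL := thA D * (iotaL 2⁻¹ * D⁻¹) with hα
  set β : LL := dT D * (iotaL 2⁻¹ * D⁻¹) with hβ
  have Ga : Ge a 0 := by
    have := hg22'.mul hDi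
    norm_num at this
    exact this
  have ca : cf a 0 = 4 * θ⁻¹ := by
    have := cf_mul_lead hg22' hDi
    rw [cg22, cDi] at this
    norm_num at this
    exact this
  have Gb : Ge b 1 := by
    have := hg12'.neg.mul hDi
    norm_num at this
    rw [hb]
    convert this using 1
    ring
  have cb : cf b 1 = -(dk q / 2) * θ⁻¹ := by
    have := cf_mul_lead hg12'.neg hDi
    rw [cf_neg, cg12, cDi] at this
    have e : (-1 + 2 : ℚ) = 1 := by norm_num
    rw [e] at this
    exact this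
  have Gc : Ge c 2 := by
    have := hg11'.mul hDi
    rw [zero_add] at this
    exact this
  have GhD : Ge (iotaL 2⁻¹ * D⁻¹) 2 := by
    have := (Ge_iotaL 2⁻¹).mul hDi
    rw [zero_add] at this
    exact this
  have Gα : Ge α 0 := by
    have := hD1.thA.mul GhD
    have e : (-2 + 2 : ℚ) = 0 := by norm_num
    rw [e] at this
    exact this
  have Gβ : Ge β 0 := by
    have := hD1.dT.mul GhD
    have e : (-2 + 2 : ℚ) = 0 := by norm_num
    rw [e] at this
    exact this
  have cα : cf α 0 = 1 := by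
    have := cf_mul_lead hD1.thA GhD
    rw [cf_thA, hnum, cDi] at this
    have e : (-2 + 2 : ℚ) = 0 := by norm_num
    rw [e] at this
    rw [hα, this, ← hθ]
    push_cast
    field_simp
  set Δ := lapO thA dT g11 g12 g22 with hΔ
  have hΔf : ∀ u, Δ u = Lf a b c α β u := by
    intro u
    rw [hΔ, lapO_apply, lapFun, ← hD, Lf]
    have e1 : (g22 * thA u - g12 * dT u) / D = a * thA u + b * dT u := by
      rw [ha, hb]; ring
    have e2 : (g11 * dT u - g12 * thA u) / D = b * thA u + c * dT u := by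
      rw [hb, hc]; ring
    have e3 : thA D / (2 * D) = α := by
      rw [hα, ← h2i]; field_simp
    have e4 : dT D / (2 * D) = β := by
      rw [hβ, ← h2i]; field_simp
    rw [e1, e2, e3, e4]
  have hθ0 : θ ≠ 0 := hD2
  set lam : kk := -8 * θ⁻¹ with hlam
  have hlam0 : lam ≠ 0 := by
    rw [hlam]
    exact mul_ne_zero (by norm_num) (inv_ne_zero hθ0)
  have step : ∀ {u : LL} {r : ℚ}, Ge u r → Ge (Δ u) r ∧
      cf (Δ u) r = -(4 * θ⁻¹ * ((r : kk) * ((r : kk) - 1))) * cf u r := by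
    intro u r hu
    rw [hΔf, ← ca]
    exact Lf_lead Ga Gb Gc Gα Gβ cα hu
  have powS : ∀ (n : ℕ) (x : LL), (Δ ^ (n + 1)) x = Δ ((Δ ^ n) x) := by
    intro n x
    rw [pow_succ', Module.End.mul_apply]
  -- (2) powers at exponent -1
  have hm1 : ∀ (n : ℕ) {x : LL}, Ge x (-1) → Ge ((Δ ^ n) x) (-1) ∧
      cf ((Δ ^ n) x) (-1) = lam ^ n * cf x (-1) := by
    intro n x hx
    induction n with
    | zero => simpa using hx
    | succ n ih =>
      rw [powS]
      obtain ⟨s1, s2⟩ := step ih.1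
      refine ⟨s1, ?_⟩
      rw [s2, ih.2, pow_succ, hlam]
      push_cast
      ring
  have hm0 : ∀ (n : ℕ) {x : LL}, Ge x 0 → Ge ((Δ ^ n) x) 0 ∧
      (1 ≤ n → cf ((Δ ^ n) x) 0 = 0) := by
    intro n x hx
    induction n with
    | zero => exact ⟨by simpa using hx, fun h => by omega⟩
    | succ n ih =>
      rw [powS]
      obtain ⟨s1, s2⟩ := step ih.1
      refine ⟨s1, fun _ => ?_⟩
      rw [s2]
      push_cast
      ring
  have hPlam : (P.sum fun n b => iotaK b * lam ^ n) = 0 := by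
    have h5 := congrArg (fun x => cf x (-1)) h1
    rw [cf_aeval] at h5
    have h6 : cf (0 : LL) (-1) = 0 := rfl
    rw [h6] at h5
    rw [← h5, Polynomial.sum, Polynomial.sum]
    refine Finset.sum_congr rfl fun n _ => ?_
    rw [(hm1 n Ge_AA).2, cf_AA, mul_one]
  have hcomm : ∀ u, Δ (tL * u) = tL * Δ u + Br b c α β u := by
    intro u
    rw [hΔf, hΔf, Lf_t]
  have hbr : ∀ {u : LL} {r : ℚ}, Ge u r → Ge (Br b c α β u) (1 + r) ∧
      cf (Br b c α β u) (1 + r) = 2 * (r : kk) * cf b 1 * cf u r := fun hu =>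
    Br_lead Gb Gc Gα Gβ cα hu
  have htA : Ge (tL * AA) (-1) := by
    have := (Ge_iotaL tk).mul Ge_AA
    rw [zero_add] at this
    exact this
  -- (4)
  have hT : ∀ n : ℕ, Ge ((Δ ^ n) (tL * AA) - tL * (Δ ^ n) AA) 0 ∧
      cf ((Δ ^ (n + 1)) (tL * AA) - tL * (Δ ^ (n + 1)) AA) 0 = -2 * cf b 1 * lam ^ n := by
    intro n
    induction n with
    | zero =>
      refine ⟨?_, ?_⟩
      · intro r hr
        simp only [pow_zero, Module.End.one_apply, sub_self]
        rfl
      · rw [powS, powS]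
        simp only [pow_zero, Module.End.one_apply, mul_one]
        rw [hcomm]
        obtain ⟨s1, s2⟩ := hbr Ge_AA
        have e : (1 + -1 : ℚ) = 0 := by norm_num
        rw [e, cf_AA] at s2
        have e2 : tL * Δ AA + Br b c α β AA - tL * Δ AA = Br b c α β AA := by ring
        rw [e2, s2]
        push_cast
        ring
    | succ n ih =>
      have e0 : ∀ m : ℕ, (Δ ^ (m + 1)) (tL * AA) - tL * (Δ ^ (m + 1)) AA =
          Δ ((Δ ^ m) (tL * AA) - tL * (Δ ^ m) AA) + Br b c α β ((Δ ^ m) AA) := by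
        intro m
        rw [powS, powS]
        have e3 := hcomm ((Δ ^ m) AA)
        rw [map_sub]
        rw [e3]
        ring
      have e : (1 + -1 : ℚ) = 0 := by norm_num
      have key : Ge ((Δ ^ (n + 1)) (tL * AA) - tL * (Δ ^ (n + 1)) AA) 0 := by
        rw [e0 n]
        obtain ⟨s1, s2⟩ := hbr (hm1 n Ge_AA).1
        rw [e] at s1
        exact (step ih.1).1.add s1
      refine ⟨key, ?_⟩
      rw [e0 (n + 1), cf_add, (step key).2]
      obtain ⟨s1, s2⟩ := hbr (hm1 (n + 1) Ge_AA).1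
      rw [e, (hm1 (n + 1) Ge_AA).2, cf_AA] at s2
      rw [s2]
      push_cast
      ring
  have hdkq : dk q = 0 := by
    have h5 : Polynomial.aeval Δ P (tL * AA) - tL * Polynomial.aeval Δ P AA = 0 := by
      rw [h1, mul_comm tL AA, h2]; ring
    have h6 := congrArg (fun x => cf x 0) h5
    rw [cf_sub, cf_aeval] at h6
    have h7 : cf (tL * Polynomial.aeval Δ P AA) 0 =
        P.sum fun n b => iotaK b * cf (tL * (Δ ^ n) AA) 0 := by
      have h8 : ∀ x, cf (tL * x) 0 = tk * cf x 0 := fun x => cf_iotaL_mul tk x 0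
      rw [h8, cf_aeval, Polynomial.sum, Polynomial.sum, Finset.mul_sum]
      refine Finset.sum_congr rfl fun n _ => ?_
      rw [h8]
      ring
    rw [h7, Polynomial.sum, Polynomial.sum, ← Finset.sum_sub_distrib] at h6
    have h9 : cf (0 : LL) 0 = 0 := rfl
    rw [h9] at h6
    -- each term
    have h10 : ∀ n : ℕ, lam * (cf ((Δ ^ n) (tL * AA)) 0 - cf (tL * (Δ ^ n) AA) 0) =
        -2 * cf b 1 * (lam ^ n - if n = 0 then 1 else 0) := by
      intro n
      rw [← cf_sub]
      rcases n with _ | n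
      · simp only [pow_zero, Module.End.one_apply, sub_self, if_true, mul_zero]
        have : cf (0 : LL) 0 = 0 := rfl
        rw [this, mul_zero]
      · rw [(hT n).2]
        simp only [Nat.succ_ne_zero, if_false, sub_zero]
        rw [pow_succ]
        ring
    have h11 : lam * ∑ n ∈ P.support, (iotaK (P.coeff n) * cf ((Δ ^ n) (tL * AA)) 0
        - iotaK (P.coeff n) * cf (tL * (Δ ^ n) AA) 0) =
        -2 * cf b 1 * ((P.sum fun n b => iotaK b * lam ^ n) - iotaK (P.coeff 0)) := by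
      rw [Finset.mul_sum, Polynomial.sum]
      have h12 : iotaK (P.coeff 0) = ∑ n ∈ P.support, iotaK (P.coeff n) * (if n = 0 then 1 else 0) := by
        rw [Finset.sum_eq_single 0]
        · simp
        · intro n _ hn
          simp [hn]
        · intro h0
          rw [Polynomial.notMem_support_iff.1 h0]
          simp
      rw [h12, ← Finset.sum_sub_distrib, Finset.mul_sum]
      refine Finset.sum_congr rfl fun n _ => ?_
      have := h10 n
      linear_combination (iotaK (P.coeff n)) * this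
    rw [h6, hPlam, mul_zero, zero_sub] at h11
    have h13 : iotaK (P.coeff 0) ≠ 0 := by
      rw [Polynomial.coeff_zero_eq_eval_zero]
      intro h14
      exact hP0 ((map_eq_zero iotaK).1 h14)
    have h14 : cf b 1 = 0 := by
      have h15 : 2 * (cf b 1 * iotaK (P.coeff 0)) = 0 := by linear_combination -h11
      have h16 := (mul_eq_zero.1 h15).resolve_left two_ne_zero
      exact (mul_eq_zero.1 h16).resolve_right h13
    rw [cb] at h14
    have h17 := (mul_eq_zero.1 h14).resolve_right (inv_ne_zero hθ0)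
    have h18 : dk q / 2 = 0 := neg_eq_zero.1 h17
    exact (div_eq_zero_iff.1 h18).resolve_right two_ne_zero
  -- (5)
  have cb0 : cf b 1 = 0 := by
    rw [cb, hdkq]; simp
  have hU : ∀ n : ℕ, Ge ((Δ ^ n) (tL * (tL * AA)) - tL * (Δ ^ n) (tL * AA)) 0 ∧
      cf ((Δ ^ n) (tL * (tL * AA)) - tL * (Δ ^ n) (tL * AA)) 0 = 0 := by
    intro n
    induction n with
    | zero =>
      simp only [pow_zero, Module.End.one_apply, sub_self]
      exact ⟨fun r _ => rfl, rfl⟩
    | succ n ih =>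
      have e0 : (Δ ^ (n + 1)) (tL * (tL * AA)) - tL * (Δ ^ (n + 1)) (tL * AA) =
          Δ ((Δ ^ n) (tL * (tL * AA)) - tL * (Δ ^ n) (tL * AA)) +
            Br b c α β ((Δ ^ n) (tL * AA)) := by
        rw [powS, powS]
        have e3 := hcomm ((Δ ^ n) (tL * AA))
        rw [map_sub, e3]
        ring
      obtain ⟨s1, s2⟩ := hbr (hm1 n htA).1
      have e : (1 + -1 : ℚ) = 0 := by norm_num
      rw [e] at s1 s2
      obtain ⟨t1, t2⟩ := step ih.1
      rw [e0]
      refine ⟨t1.add s1, ?_⟩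
      rw [cf_add, t2, s2, cb0]
      push_cast
      ring
  have h4i : (4 * AA)⁻¹ = iotaL 4⁻¹ * AA⁻¹ := by
    rw [mul_inv, h4, ← map_inv₀]
  have hAi : Ge AA⁻¹ 1 := by
    have := Ge.inv Ge_AA (by rw [cf_AA]; exact one_ne_zero)
    norm_num at this
    exact this
  have cAi : cf AA⁻¹ 1 = 1 := by
    have := cf_inv_lead Ge_AA (by rw [cf_AA]; exact one_ne_zero)
    rw [cf_AA] at this
    norm_num at this
    exact this
  have hw : Ge (ψ / (4 * AA)) 0 ∧ cf (ψ / (4 * AA)) 0 = q * 4⁻¹ := by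
    have e : ψ / (4 * AA) = iotaL 4⁻¹ * (ψ * AA⁻¹) := by
      rw [div_eq_mul_inv, h4i]; ring
    have e1 : Ge (ψ * AA⁻¹) 0 := by
      have := hψ.mul hAi
      norm_num at this
      exact this
    have e2 : cf (ψ * AA⁻¹) 0 = q := by
      have := cf_mul_lead hψ hAi
      rw [cAi] at this
      norm_num at this
      exact this
    rw [e]
    refine ⟨?_, ?_⟩
    · have := (Ge_iotaL 4⁻¹).mul e1
      rw [zero_add] at this
      exact this
    · rw [hnum, e2]; ring
  have e20 : AA * tL ^ 2 = tL * (tL * AA) := by ring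
  have h21 : Polynomial.aeval Δ P (tL * (tL * AA)) = Polynomial.aeval Δ P (ψ / (4 * AA)) := by
    rw [e20, map_sub] at h3
    exact sub_eq_zero.1 h3
  have h22 : cf (Polynomial.aeval Δ P (tL * (tL * AA))) 0 = 0 := by
    have h23 : cf (Polynomial.aeval Δ P (tL * (tL * AA))) 0 =
        cf (Polynomial.aeval Δ P (tL * (tL * AA)) - tL * Polynomial.aeval Δ P (tL * AA)) 0 := by
      rw [mul_comm tL AA, h2, mul_zero, sub_zero]
    rw [h23, cf_sub, cf_aeval]
    have h8 : ∀ x, cf (tL * x) 0 = tk * cf x 0 := fun x => cf_iotaL_mul tk x 0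
    rw [h8, cf_aeval, Polynomial.sum, Polynomial.sum, Finset.mul_sum, ← Finset.sum_sub_distrib]
    refine Finset.sum_eq_zero fun n _ => ?_
    have h24 := (hU n).2
    rw [cf_sub, h8 ((Δ ^ n) (tL * AA))] at h24
    linear_combination (iotaK (P.coeff n)) * h24
  have h25 : cf (Polynomial.aeval Δ P (ψ / (4 * AA))) 0 = iotaK (P.coeff 0) * (q * 4⁻¹) := by
    rw [cf_aeval, Polynomial.sum, Finset.sum_eq_single 0]
    · simp only [pow_zero, Module.End.one_apply]
      rw [hw.2]
    · intro n _ hn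
      rw [(hm0 n hw.1).2 (Nat.one_le_iff_ne_zero.2 hn), mul_zero]
    · intro h0
      rw [Polynomial.notMem_support_iff.1 h0]
      simp
  rw [← h21, h22] at h25
  have h13 : iotaK (P.coeff 0) ≠ 0 := by
    rw [Polynomial.coeff_zero_eq_eval_zero]
    intro h14
    exact hP0 ((map_eq_zero iotaK).1 h14)
  have h26 := (mul_eq_zero.1 h25.symm).resolve_left h13
  have h27 := (mul_eq_zero.1 h26).resolve_right (inv_ne_zero h4ne)
  exact hq h27

end Pool.Agent.Work.MP_abe657_gt
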