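import Pool.Agent.Work.MP_abe657_gt.CoreSmall
import Pool.Agent.Work.MP_abe657_gt.CoreBig
import Pool.Agent.Work.MP_abe657_gt.CoreMid

/-!
Module Core (M). Assembly of the three cases.

Let `m ∈ [-2, 0)` be the order of `ψ`, `p = cf ψ m ≠ 0`, `g11 = thA ψ - ψ`, `g12 = dT ψ/2`, `g22 = 4A²`,
`D = g11 g22 - g12² ≠ 0` of order `δ`. `cf g11 m = (-m - 1) p`, `cf g12 m = dk p/2`.
`g11 g22` has exponents `≥ m - 2` with coefficient `4(-m-1)p` there, `g12²` has exponents `≥ 2m`.
If `m ∉ {-1, -2}`: `m - 2 < 2m`, so `δ = m - 2 < -2`. If `m = -2`: the coefficient of `D` at `-4` is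
`4 p - (dk p)²/4 ≠ 0` by hL, so `δ = -4`. If `m = -1`: `δ` is some rational number `≥ -3`.
Case `δ < -2`: `g22/D` has exponents `≥ -2 - δ`, `g12/D` and `g11/D` have exponents `≥ m - δ ≥ -2 - δ`
(as `m ≥ -2`): `core_small` with `ε = -2 - δ`. Otherwise `m = -1` and `δ > -2`: `core_big`, or `δ = -2`:
`core_mid`.
-/

set_option autoImplicit false

namespace Pool.Agent.Work.MP_abe657_gt

private lemma core_div_ge {x D : LL} {a δ : ℚ} (hx : Ge x a) (hD : Ge D δ)
    (hD0 : cf D δ ≠ 0) : Ge (x / D) (a - δ) := by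
  rw [div_eq_mul_inv, sub_eq_add_neg]
  exact hx.mul (hD.inv hD0)

private lemma core_two_mul_cf (x : LL) (q : ℚ) : cf (2 * x) q = 2 * cf x q := by
  have h : (2 : LL) * x = x + x := by ring
  rw [h, cf_add]; ring

private lemma core_half_cf (x : LL) (q : ℚ) : cf (x / 2) q = cf x q / 2 := by
  have h : cf (2 * (x / 2)) q = 2 * cf (x / 2) q := core_two_mul_cf _ _
  have h2 : 2 * (x / 2) = x := by ring
  rw [h2] at h
  rw [h]; ring

private lemma core_mul_g22_cf (x : LL) (q : ℚ) : cf (x * (4 * AA ^ 2)) q = 4 * cf x (q + 2) := by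
  have h : x * (4 * AA ^ 2) = 2 * (2 * (AA * (AA * x))) := by ring
  rw [h, core_two_mul_cf, core_two_mul_cf, cf_AA_mul, cf_AA_mul]
  have h2 : q + 1 + 1 = q + 2 := by ring
  rw [h2]; ring

theorem core (ψ : LL) (m : ℚ) (hm1 : -2 ≤ m) (hm2 : m < 0) (hψ : Ge ψ m) (hp : cf ψ m ≠ 0)
    (hL : m = -2 → (dk (cf ψ m)) ^ 2 ≠ 16 * cf ψ m)
    (hD : (thA ψ - ψ) * (4 * AA ^ 2) - (dT ψ / 2) ^ 2 ≠ 0)
    (P : Polynomial ℂ) (hP0 : P.eval 0 ≠ 0)
    (h1 : Polynomial.aeval (lapO thA dT (thA ψ - ψ) (dT ψ / 2) (4 * AA ^ 2)) P AA = 0)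
    (h2 : Polynomial.aeval (lapO thA dT (thA ψ - ψ) (dT ψ / 2) (4 * AA ^ 2)) P (AA * tL) = 0)
    (h3 : Polynomial.aeval (lapO thA dT (thA ψ - ψ) (dT ψ / 2) (4 * AA ^ 2)) P
      (AA * tL ^ 2 - ψ / (4 * AA)) = 0) : False := by
  have hg11 : Ge (thA ψ - ψ) m := hψ.thA.sub hψ
  have hg12 : Ge (dT ψ / 2) m := by
    intro q hq
    rw [core_half_cf, hψ.dT q hq, zero_div]
  have hg22 : Ge (4 * AA ^ 2) (-2) := by
    intro q hq
    have h := core_mul_g22_cf 1 q
    rw [one_mul] at h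
    rw [h]
    have h1 : cf (1 : LL) (q + 2) = 0 := by
      have h1' := Ge_iotaL 1 (q + 2) (by linarith)
      rwa [map_one] at h1'
    rw [h1, mul_zero]
  have hsq : Ge ((dT ψ / 2) ^ 2) (2 * m) := by
    rw [pow_two]
    exact (hg12.mul hg12).mono (by linarith)
  have hsqc : cf ((dT ψ / 2) ^ 2) (2 * m) = dk (cf ψ m) ^ 2 / 4 := by
    have := cf_mul_lead hg12 hg12
    rw [← pow_two, core_half_cf, cf_dT] at this
    have e : 2 * m = m + m := by ring
    rw [e, this]; ring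
  have hgc : cf ((thA ψ - ψ) * (4 * AA ^ 2)) (m - 2) = 4 * (-((m : kk) * cf ψ m) - cf ψ m) := by
    rw [core_mul_g22_cf]
    have e : m - 2 + 2 = m := by ring
    rw [e, cf_sub, cf_thA]
  obtain ⟨δ, hδ1, hδ2⟩ := exists_ord hD
  -- the small case
  have small : δ < -2 → False := by
    intro hlt
    refine core_small (thA ψ - ψ) (dT ψ / 2) (4 * AA ^ 2) hD (-2 - δ) (by linarith) ?_ ?_ ?_ P hP0 h1
    · exact core_div_ge hg22 hδ1 hδ2
    · exact (core_div_ge hg12 hδ1 hδ2).mono (by linarith)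
    · exact (core_div_ge hg11 hδ1 hδ2).mono (by linarith)
  by_cases hcase : m = -1
  · subst hcase
    rcases lt_trichotomy δ (-2) with hlt | heq | hgt
    · exact small hlt
    · subst heq
      exact core_mid ψ hψ hp hδ1 hδ2 P hP0 h1 h2 h3
    · refine core_big (thA ψ - ψ) (dT ψ / 2) δ hgt hδ1 hδ2 hg12 P ?_ h1
      rintro rfl
      simp at hP0
  · -- the coefficient of the determinant at `m - 2` is not zero
    have key : cf ((thA ψ - ψ) * (4 * AA ^ 2) - (dT ψ / 2) ^ 2) (m - 2) ≠ 0 := by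
      rw [cf_sub, hgc]
      by_cases hm : m = -2
      · have e : m - 2 = 2 * m := by rw [hm]; norm_num
        rw [e, hsqc]
        have h := hL hm
        rw [show ((m : ℚ) : kk) = -2 by rw [hm]; push_cast; ring]
        intro h0
        apply h
        linear_combination (-4) * h0
      · have hlt : m - 2 < 2 * m := by
          have : -2 < m := lt_of_le_of_ne hm1 (Ne.symm hm)
          linarith
        rw [hsq _ hlt, sub_zero]
        have e : 4 * (-((m : kk) * cf ψ m) - cf ψ m) = ((-4 * (m + 1) : ℚ) : kk) * cf ψ m := by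
          push_cast; ring
        rw [e]
        refine mul_ne_zero ?_ hp
        rw [Rat.cast_ne_zero]
        refine mul_ne_zero (by norm_num) ?_
        intro h0
        exact hcase (by linarith)
    have hle : δ ≤ m - 2 := by
      by_contra hcon
      exact key (hδ1 _ (not_le.mp hcon))
    exact small (by linarith)

end Pool.Agent.Work.MP_abe657_gt
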