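import Mathlib

/-!
Module HahnClosed (L). Hahn series over `ℚ` with coefficients in an algebraically closed field of
characteristic zero are algebraically closed.

Proof (uses `Mathlib.Analysis.Normed.Unbundled.SpectralNorm`). Let `K = HahnSeries ℚ k`,
`‖f‖ = exp (-(order f))` for `f ≠ 0`, `‖0‖ = 0`. This is a nontrivially normed ultrametric field
(`order_mul`, `order (x+y) ≥ min`), and it is complete: for a Cauchy sequence every coefficient is
eventually constant, uniformly below every bound `q`; the limit is the series of the eventual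
coefficients (its support below `q` is the support below `q` of one member of the sequence, so it
is partially well ordered). Let `p` be monic irreducible of degree `n` over `K`, `α` a root in
`AlgebraicClosure K`, `|.|` the spectral norm (multiplicative: `spectralAlgNorm_mul`, ultrametric,
depends only on the minimal polynomial, extends `‖.‖`). Replace `α` by `α - a`, `a ∈ K`, so that
the coefficient of `X^(n-1)` in its minimal polynomial is `0` (char 0). If `α = 0`, done: `n = 1`.
Otherwise `|α| = ‖p(0)‖^(1/n)` (`spectralNorm_eq_norm_coeff_zero_rpow`) and `p(0)` has order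
`m ∈ ℚ`, so dividing `α` by `single (m/n) 1` we may assume `|α| = 1`; the `X^(n-1)` coefficient is
still `0`. All roots `β_i` of `p` have `|β_i| = 1` and all coefficients of `p` have norm `≤ 1`, i.e.
no negative exponents. The polynomial `p̄ ∈ k[X]` of the coefficients of exponent `0` is monic of
degree `n`, so it has a root `c ∈ k`, and `‖p(C c)‖ < 1`. Hence `∏ |c - β_i| < 1`, some
`|c - β_i| < 1`, and as the `c - β_i` have the same minimal polynomial, all `|c - β_i| < 1`. The sum
of the `β_i` is `0`, so `‖n c‖ < 1`, so `c = 0` and `|β_i| < 1`, contradiction.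
-/

set_option autoImplicit false

namespace Pool.Agent.Work.MP_abe657_gt

/-- all exponents are `≥ a` -/
private def GqH {k : Type} [Field k] (x : HahnSeries ℚ k) (a : ℚ) : Prop :=
  ∀ q : ℚ, q < a → x.coeff q = 0

private lemma GqH_mul_gen {R : Type} [Field R] (x y : HahnSeries ℚ R) (a b : ℚ)
    (hx : GqH x a) (hy : GqH y b) :
    GqH (x * y) (a + b) ∧ (x * y).coeff (a + b) = x.coeff a * y.coeff b := by
  constructor
  · intro q hq
    rw [HahnSeries.coeff_mul]
    refine Finset.sum_eq_zero fun ij hij => ?_
    have h : ij.1 + ij.2 = q := (Finset.mem_antidiagonal.mp hij).2.2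
    by_cases h1 : ij.1 < a
    · rw [hx _ h1, zero_mul]
    · rw [hy _ (by linarith), mul_zero]
  · rw [HahnSeries.coeff_mul]
    by_cases hab : x.coeff a = 0 ∨ y.coeff b = 0
    · have h0 : x.coeff a * y.coeff b = 0 := by
        rcases hab with h | h <;> simp [h]
      rw [h0]
      refine Finset.sum_eq_zero fun ij hij => ?_
      have h : ij.1 + ij.2 = a + b := (Finset.mem_antidiagonal.mp hij).2.2
      rcases lt_trichotomy ij.1 a with h1 | h1 | h1
      · rw [hx _ h1, zero_mul]
      · have h2 : ij.2 = b := by linarith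
        rw [h1, h2, h0]
      · rw [hy _ (by linarith), mul_zero]
    · push Not at hab
      rw [Finset.sum_eq_single (a, b)]
      · intro ij hij hne
        have h : ij.1 + ij.2 = a + b := (Finset.mem_antidiagonal.mp hij).2.2
        rcases lt_trichotomy ij.1 a with h1 | h1 | h1
        · rw [hx _ h1, zero_mul]
        · have h2 : ij.2 = b := by linarith
          exact absurd (Prod.ext h1 h2) hne
        · rw [hy _ (by linarith), mul_zero]
      · intro hnot
        exfalso
        apply hnot
        rw [Finset.mem_antidiagonal]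
        exact ⟨hab.1, hab.2, rfl⟩

section
variable {k : Type} [Field k]

private lemma GqH_mul {x y : HahnSeries ℚ k} {a b : ℚ} (hx : GqH x a) (hy : GqH y b) :
    GqH (x * y) (a + b) := (GqH_mul_gen x y a b hx hy).1

private lemma GqH_coeff_mul {x y : HahnSeries ℚ k} {a b : ℚ} (hx : GqH x a) (hy : GqH y b) :
    (x * y).coeff (a + b) = x.coeff a * y.coeff b := (GqH_mul_gen x y a b hx hy).2

private lemma GqH_add {x y : HahnSeries ℚ k} {a : ℚ} (hx : GqH x a) (hy : GqH y a) :
    GqH (x + y) a := fun q hq => by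
  rw [HahnSeries.coeff_add, hx q hq, hy q hq, add_zero]

private lemma GqH_neg {x : HahnSeries ℚ k} {a : ℚ} (hx : GqH x a) :
    GqH (-x) a := fun q hq => by
  rw [HahnSeries.coeff_neg, hx q hq, neg_zero]

private lemma GqH_zero (a : ℚ) : GqH (0 : HahnSeries ℚ k) a := fun _ _ => rfl

private lemma GqH_mono {x : HahnSeries ℚ k} {a b : ℚ} (hx : GqH x a) (h : b ≤ a) :
    GqH x b := fun q hq => hx q (lt_of_lt_of_le hq h)

private lemma GqH_sum {ι : Type*} (s : Finset ι) (f : ι → HahnSeries ℚ k) (a : ℚ)
    (h : ∀ i ∈ s, GqH (f i) a) : GqH (∑ i ∈ s, f i) a := by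
  classical
  induction s using Finset.induction_on with
  | empty => simpa using GqH_zero a
  | insert i s his ih =>
    rw [Finset.sum_insert his]
    exact GqH_add (h i (Finset.mem_insert_self i s))
      (ih fun j hj => h j (Finset.mem_insert_of_mem hj))

private lemma GqH_C (c : k) : GqH (HahnSeries.C c : HahnSeries ℚ k) 0 := by
  intro q hq
  rw [HahnSeries.C_apply, HahnSeries.coeff_single_of_ne (ne_of_lt hq)]

private lemma GqH_one : GqH (1 : HahnSeries ℚ k) 0 := by
  have := GqH_C (1 : k)
  rwa [map_one] at this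

private lemma GqH_iff {x : HahnSeries ℚ k} (hx : x ≠ 0) (a : ℚ) : GqH x a ↔ a ≤ x.order :=
  (HahnSeries.le_order_iff_forall hx).symm

private lemma order_invH {x : HahnSeries ℚ k} (hx : x ≠ 0) : (x⁻¹).order = -x.order := by
  have h := HahnSeries.order_mul hx (inv_ne_zero hx)
  rw [mul_inv_cancel₀ hx, HahnSeries.order_one] at h
  linarith

private lemma GqH_inv {x : HahnSeries ℚ k} (hx : x ≠ 0) {a : ℚ} (h : x.order ≤ -a) :
    GqH x⁻¹ a := by
  rw [GqH_iff (inv_ne_zero hx), order_invH hx]
  linarith

end

section closed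

variable {k : Type} [Field k] {L : Type} [Field L] [Algebra (HahnSeries ℚ k) L]

/-- the monomial `t ^ q` -/
private noncomputable def tq (q : ℚ) : HahnSeries ℚ k := HahnSeries.single q 1

private lemma tq_ne (q : ℚ) : (tq q : HahnSeries ℚ k) ≠ 0 := HahnSeries.single_ne_zero one_ne_zero

private lemma tq_mul (p q : ℚ) : (tq p * tq q : HahnSeries ℚ k) = tq (p + q) := by
  unfold tq
  rw [HahnSeries.single_mul_single, one_mul]

private lemma tq_order (q : ℚ) : (tq q : HahnSeries ℚ k).order = q :=
  HahnSeries.order_single one_ne_zero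

/-- positive exponents only -/
private def Pos (x : HahnSeries ℚ k) : Prop := ∀ q : ℚ, q ≤ 0 → x.coeff q = 0

private lemma Pos_iff {x : HahnSeries ℚ k} (hx : x ≠ 0) : Pos x ↔ 0 < x.order := by
  constructor
  · intro h
    by_contra hlt
    push Not at hlt
    exact hx (HahnSeries.coeff_order_eq_zero.1 (h _ hlt))
  · intro h q hq
    exact HahnSeries.coeff_eq_zero_of_lt_order (lt_of_le_of_lt hq h)

private lemma Pos_mul {x y : HahnSeries ℚ k} (hx : GqH x 0) (hy : Pos y) : Pos (x * y) := by
  intro q hq
  have hy0 : GqH y 0 := fun r hr => hy r hr.le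
  rcases hq.lt_or_eq with h | h
  · have := GqH_mul hx hy0
    rw [add_zero] at this
    exact this q h
  · have := GqH_coeff_mul hx hy0
    rw [add_zero] at this
    rw [h, this, hy 0 le_rfl, mul_zero]

private lemma exists_val : ∃ B : ValuationSubring L,
    (∀ x : HahnSeries ℚ k, GqH x 0 → B.valuation (algebraMap _ L x) ≤ 1) ∧
    (∀ x : HahnSeries ℚ k, Pos x → B.valuation (algebraMap _ L x) < 1) := by
  let O : Subring (HahnSeries ℚ k) :=
    { carrier := {x | GqH x 0}
      mul_mem' := fun {a b} ha hb => by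
        have := GqH_mul ha hb
        rwa [add_zero] at this
      one_mem' := GqH_one
      add_mem' := fun {a b} ha hb => GqH_add ha hb
      zero_mem' := GqH_zero 0
      neg_mem' := fun {a} ha => GqH_neg ha }
  let A : Subring L := O.map (algebraMap (HahnSeries ℚ k) L)
  let I : Ideal A :=
    { carrier := {a | ∃ x : HahnSeries ℚ k, Pos x ∧ algebraMap _ L x = a.1}
      add_mem' := by
        rintro a b ⟨x, hx, hxa⟩ ⟨y, hy, hyb⟩
        refine ⟨x + y, fun q hq => ?_, ?_⟩
        · rw [HahnSeries.coeff_add, hx q hq, hy q hq, add_zero]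
        · rw [map_add, hxa, hyb]
          rfl
      zero_mem' := ⟨0, fun _ _ => rfl, by rw [map_zero]; rfl⟩
      smul_mem' := by
        rintro ⟨a, ha⟩ b ⟨y, hy, hyb⟩
        obtain ⟨x, hx, hxa⟩ := ha
        refine ⟨x * y, Pos_mul hx hy, ?_⟩
        rw [map_mul, hyb]
        have h2 : algebraMap (HahnSeries ℚ k) L x = a := hxa
        change algebraMap (HahnSeries ℚ k) L x * (b : L) = a * (b : L)
        rw [h2] }
  have hI : I ≠ ⊤ := by
    intro h
    have h1 : (1 : A) ∈ I := h ▸ Submodule.mem_top
    obtain ⟨x, hx, hx1⟩ := h1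
    have h2 : algebraMap (HahnSeries ℚ k) L x = 1 := hx1
    have h3 : x = 1 := (algebraMap (HahnSeries ℚ k) L).injective (by rw [h2, map_one])
    have h4 := hx 0 le_rfl
    rw [h3, HahnSeries.coeff_one] at h4
    simp at h4
  obtain ⟨B, hB1, hB2⟩ := Ideal.image_subset_nonunits_valuationSubring I hI
  refine ⟨B, ?_, ?_⟩
  · intro x hx
    rw [ValuationSubring.valuation_le_one_iff]
    exact hB1 ⟨x, hx, rfl⟩
  · intro x hx
    have hxO : algebraMap (HahnSeries ℚ k) L x ∈ A := ⟨x, fun q hq => hx q hq.le, rfl⟩
    exact B.mem_nonunits_iff.1 (hB2 ⟨⟨_, hxO⟩, ⟨x, hx, rfl⟩, rfl⟩)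

variable {Γ : Type} [LinearOrderedCommGroupWithZero Γ] (w : Valuation L Γ)

/-- the two properties of the valuation -/
private def Good (k : Type) [Field k] [Algebra (HahnSeries ℚ k) L] (w : Valuation L Γ) : Prop :=
  (∀ x : HahnSeries ℚ k, GqH x 0 → w (algebraMap _ L x) ≤ 1) ∧
    (∀ x : HahnSeries ℚ k, Pos x → w (algebraMap _ L x) < 1)

/-- value of `t ^ q` -/
private noncomputable def WW (k : Type) [Field k] [Algebra (HahnSeries ℚ k) L] (w : Valuation L Γ)
    (q : ℚ) : Γ := w (algebraMap (HahnSeries ℚ k) L (tq q))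

private lemma WW_ne (q : ℚ) : WW k w q ≠ 0 := by
  unfold WW
  rw [Valuation.ne_zero_iff]
  intro h
  rw [map_eq_zero] at h
  exact tq_ne q h

private lemma WW_mul (p q : ℚ) : WW k w p * WW k w q = WW k w (p + q) := by
  unfold WW
  rw [← map_mul, ← map_mul, tq_mul]

private lemma WW_pow (q : ℚ) (n : ℕ) : WW k w q ^ n = WW k w (n * q) := by
  induction n with
  | zero =>
    rw [pow_zero, Nat.cast_zero, zero_mul]
    unfold WW tq
    rw [show (HahnSeries.single (0 : ℚ) (1 : k)) = (1 : HahnSeries ℚ k) from rfl, map_one, map_one]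
  | succ n ih =>
    rw [pow_succ, ih, WW_mul]
    congr 1
    push_cast
    ring

private lemma val_one (hw : Good k w) {x : HahnSeries ℚ k} (hx : x ≠ 0) (h : x.order = 0) :
    w (algebraMap _ L x) = 1 := by
  apply le_antisymm
  · exact hw.1 x ((GqH_iff hx 0).2 h.ge)
  · have h1 : w (algebraMap _ L x⁻¹) ≤ 1 := hw.1 x⁻¹ (GqH_inv hx (by rw [h]; norm_num))
    rw [map_inv₀, map_inv₀] at h1
    have hne : w (algebraMap _ L x) ≠ 0 := by
      rw [Valuation.ne_zero_iff]
      intro h2
      rw [map_eq_zero] at h2
      exact hx h2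
    have hpos : 0 < w (algebraMap _ L x) := zero_lt_iff.2 hne
    rwa [inv_le_one₀ hpos] at h1

private lemma val_eq (hw : Good k w) {x : HahnSeries ℚ k} (hx : x ≠ 0) :
    w (algebraMap _ L x) = WW k w x.order := by
  have h1 : w (algebraMap _ L (tq (-x.order) * x)) = 1 := by
    apply val_one w hw (mul_ne_zero (tq_ne _) hx)
    rw [HahnSeries.order_mul (tq_ne _) hx, tq_order]
    ring
  rw [map_mul, map_mul] at h1
  have h2 : WW k w x.order * WW k w (-x.order) = 1 := by
    rw [WW_mul, add_neg_cancel]
    unfold WW tq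
    rw [show (HahnSeries.single (0 : ℚ) (1 : k)) = (1 : HahnSeries ℚ k) from rfl, map_one, map_one]
  calc w (algebraMap _ L x) = (WW k w x.order * WW k w (-x.order)) * w (algebraMap _ L x) := by
        rw [h2, one_mul]
    _ = WW k w x.order * (WW k w (-x.order) * w (algebraMap _ L x)) := by rw [mul_assoc]
    _ = WW k w x.order * 1 := by rw [← h1]; rfl
    _ = _ := mul_one _

private lemma WW_anti (hw : Good k w) {p q : ℚ} (h : p < q) : WW k w q < WW k w p := by
  have e : WW k w q = WW k w p * WW k w (q - p) := by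
    rw [WW_mul]
    congr 1
    ring
  rw [e]
  have h1 : WW k w (q - p) < 1 := by
    apply hw.2
    rw [Pos_iff (tq_ne _), tq_order]
    linarith
  exact mul_lt_of_lt_one_right (zero_lt_iff.2 (WW_ne w p)) h1

private lemma lt_of_WW (hw : Good k w) {p q : ℚ} (h : WW k w q < WW k w p) : p < q := by
  by_contra hlt
  push Not at hlt
  rcases hlt.lt_or_eq with h1 | h1
  · exact lt_asymm h (WW_anti w hw h1)
  · rw [h1] at h
    exact lt_irrefl _ h

private lemma exists_q (hw : Good k w) (α : L) (hα : α ≠ 0)
    (halg : IsAlgebraic (HahnSeries ℚ k) α) : ∃ q : ℚ, w α = WW k w q := by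
  classical
  obtain ⟨P, hP0, hP⟩ := halg
  rw [Polynomial.aeval_def, Polynomial.eval₂_eq_sum, Polynomial.sum_def] at hP
  set f : ℕ → L := fun i => algebraMap (HahnSeries ℚ k) L (P.coeff i) * α ^ i with hf
  have hne : P.support.Nonempty := by
    rwa [Finset.nonempty_iff_ne_empty, Ne, Polynomial.support_eq_empty]
  obtain ⟨i, hi, hmax⟩ := Finset.exists_max_image P.support (fun i => w (f i)) hne
  have hfne : ∀ j ∈ P.support, w (f j) ≠ 0 := by
    intro j hj
    rw [Valuation.ne_zero_iff, hf]
    refine mul_ne_zero ?_ (pow_ne_zero _ hα)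
    intro h
    rw [map_eq_zero] at h
    exact (Polynomial.mem_support_iff.1 hj) h
  have hex : ∃ j ∈ P.support, j ≠ i ∧ w (f j) = w (f i) := by
    by_contra hcon
    push Not at hcon
    have h1 : w (∑ j ∈ P.support, f j) = w (f i) := by
      apply Valuation.map_sum_eq_of_lt w hi
      intro j hj
      rw [Finset.mem_sdiff, Finset.mem_singleton] at hj
      exact lt_of_le_of_ne (hmax j hj.1) (hcon j hj.1 hj.2)
    rw [hP, map_zero] at h1
    exact hfne i hi h1.symm
  obtain ⟨j, hj, hji, hij⟩ := hex
  have key : ∀ a b : ℕ, a ∈ P.support → b ∈ P.support → a < b → w (f a) = w (f b) →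
      ∃ q : ℚ, w α = WW k w q := by
    intro a b ha hb hab h
    have hPa : P.coeff a ≠ 0 := Polynomial.mem_support_iff.1 ha
    have hPb : P.coeff b ≠ 0 := Polynomial.mem_support_iff.1 hb
    have hwα : w α ≠ 0 := by rwa [Valuation.ne_zero_iff]
    rw [hf] at h
    simp only at h
    rw [map_mul, map_mul, map_pow, map_pow, val_eq w hw hPa, val_eq w hw hPb] at h
    obtain ⟨n, rfl⟩ := Nat.exists_eq_add_of_lt hab
    set p := (P.coeff a).order
    set r := (P.coeff (a + n + 1)).order
    have h2 : WW k w p = WW k w r * w α ^ (n + 1) := by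
      have h3 : w α ^ (a + n + 1) = w α ^ (n + 1) * w α ^ a := by
        rw [← pow_add]
        congr 1
        ring
      rw [h3, ← mul_assoc] at h
      exact mul_right_cancel₀ (pow_ne_zero _ hwα) h
    refine ⟨(p - r) / (n + 1 : ℕ), ?_⟩
    have hn0 : ((n + 1 : ℕ) : ℚ) ≠ 0 := by positivity
    have h4 : (WW k w ((p - r) / (n + 1 : ℕ))) ^ (n + 1) = w α ^ (n + 1) := by
      rw [WW_pow, mul_div_cancel₀ _ hn0]
      have h5 : WW k w p = WW k w r * WW k w (p - r) := by
        rw [WW_mul]
        congr 1
        ring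
      rw [h5] at h2
      exact mul_left_cancel₀ (WW_ne w r) h2
    exact ((pow_left_inj₀ zero_le zero_le (Nat.succ_ne_zero n)).1 h4).symm
  rcases lt_or_gt_of_ne hji with h | h
  · exact key j i hj hi h hij
  · exact key i j hi hj h hij.symm

private lemma exists_c [IsAlgClosed k] (hw : Good k w) (α : L) (hα : w α = 1)
    (halg : IsAlgebraic (HahnSeries ℚ k) α) :
    ∃ c : k, w (α - algebraMap (HahnSeries ℚ k) L (HahnSeries.C c)) < 1 := by
  classical
  obtain ⟨P, hP0, hP⟩ := halg
  rw [Polynomial.aeval_def, Polynomial.eval₂_eq_sum, Polynomial.sum_def] at hP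
  have hne : P.support.Nonempty := by
    rwa [Finset.nonempty_iff_ne_empty, Ne, Polynomial.support_eq_empty]
  obtain ⟨i, hi, hmin⟩ := Finset.exists_min_image P.support (fun i => (P.coeff i).order) hne
  have hPi : P.coeff i ≠ 0 := Polynomial.mem_support_iff.1 hi
  set m := (P.coeff i).order with hm
  set x : ℕ → HahnSeries ℚ k := fun j => tq (-m) * P.coeff j with hx
  have hxne : ∀ j ∈ P.support, x j ≠ 0 := fun j hj =>
    mul_ne_zero (tq_ne _) (Polynomial.mem_support_iff.1 hj)
  have hxord : ∀ j ∈ P.support, (x j).order = -m + (P.coeff j).order := fun j hj => by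
    rw [hx]
    simp only
    rw [HahnSeries.order_mul (tq_ne _) (Polynomial.mem_support_iff.1 hj), tq_order]
  have hxG : ∀ j ∈ P.support, GqH (x j) 0 := fun j hj => by
    rw [GqH_iff (hxne j hj), hxord j hj]
    have := hmin j hj
    linarith
  have hxi : (x i).coeff 0 ≠ 0 := by
    intro h
    have h1 : (x i).order = 0 := by
      rw [hxord i hi, hm]
      ring
    apply hxne i hi
    rw [← HahnSeries.coeff_order_eq_zero, h1]
    exact h
  set φ : k →+* L := (algebraMap (HahnSeries ℚ k) L).comp (HahnSeries.C : k →+* HahnSeries ℚ k)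
    with hφ
  set Pb : Polynomial k := ∑ j ∈ P.support, Polynomial.monomial j ((x j).coeff 0) with hPb
  have hPb0 : Pb ≠ 0 := by
    intro h
    have h1 := congrArg (fun Q => Polynomial.coeff Q i) h
    simp only [hPb, Polynomial.finsetSum_coeff, Polynomial.coeff_zero] at h1
    rw [Finset.sum_eq_single i] at h1
    · rw [Polynomial.coeff_monomial, if_pos rfl] at h1
      exact hxi h1
    · intro j _ hji
      rw [Polynomial.coeff_monomial, if_neg hji]
    · intro h2
      exact absurd hi h2
  have hval : w (Polynomial.eval₂ φ α Pb) < 1 := by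
    have h0 : ∑ j ∈ P.support, algebraMap (HahnSeries ℚ k) L (x j) * α ^ j = 0 := by
      have : ∑ j ∈ P.support, algebraMap (HahnSeries ℚ k) L (x j) * α ^ j =
          algebraMap (HahnSeries ℚ k) L (tq (-m)) *
            ∑ j ∈ P.support, algebraMap (HahnSeries ℚ k) L (P.coeff j) * α ^ j := by
        rw [Finset.mul_sum]
        refine Finset.sum_congr rfl fun j _ => ?_
        rw [hx]
        simp only
        rw [map_mul, mul_assoc]
      rw [this, hP, mul_zero]
    have h1 : Polynomial.eval₂ φ α Pb = ∑ j ∈ P.support,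
        algebraMap (HahnSeries ℚ k) L (HahnSeries.C ((x j).coeff 0) - x j) * α ^ j := by
      rw [hPb, Polynomial.eval₂_finsetSum, ← sub_zero (∑ j ∈ P.support, _), ← h0,
        ← Finset.sum_sub_distrib]
      refine Finset.sum_congr rfl fun j _ => ?_
      rw [Polynomial.eval₂_monomial, hφ, RingHom.comp_apply, map_sub, sub_mul]
    rw [h1]
    refine Valuation.map_sum_lt w one_ne_zero fun j hj => ?_
    rw [map_mul, map_pow, hα, one_pow, mul_one]
    apply hw.2
    intro q hq
    rw [HahnSeries.coeff_sub]
    rcases hq.lt_or_eq with h | h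
    · rw [GqH_C _ q h, hxG j hj q h, sub_zero]
    · rw [h, HahnSeries.C_apply, HahnSeries.coeff_single_same, sub_self]
  have hsp := (IsAlgClosed.splits Pb).eq_prod_roots
  have hprod : Polynomial.eval₂ φ α Pb =
      φ Pb.leadingCoeff * ((Pb.roots).map (fun r => α - φ r)).prod := by
    conv_lhs => rw [hsp]
    rw [Polynomial.eval₂_mul, Polynomial.eval₂_C]
    congr 1
    have key : ∀ s : Multiset k, Polynomial.eval₂ φ α
        (s.map (fun a => Polynomial.X - Polynomial.C a)).prod = (s.map (fun r => α - φ r)).prod := by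
      intro s
      induction s using Multiset.induction_on with
      | empty => simp
      | cons a s ih =>
        rw [Multiset.map_cons, Multiset.prod_cons, Polynomial.eval₂_mul, ih, Multiset.map_cons,
          Multiset.prod_cons, Polynomial.eval₂_sub, Polynomial.eval₂_X, Polynomial.eval₂_C]
    exact key _
  have hlc : w (φ Pb.leadingCoeff) = 1 := by
    have hne' : Pb.leadingCoeff ≠ 0 := Polynomial.leadingCoeff_ne_zero.2 hPb0
    rw [hφ, RingHom.comp_apply]
    apply val_one w hw
    · exact HahnSeries.C_ne_zero hne'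
    · exact HahnSeries.order_C
  rw [hprod, map_mul, hlc, one_mul] at hval
  by_contra hcon
  push Not at hcon
  have key : ∀ s : Multiset k, 1 ≤ w ((s.map (fun r => α - φ r)).prod) := by
    intro s
    induction s using Multiset.induction_on with
    | empty => simp
    | cons a s ih =>
      rw [Multiset.map_cons, Multiset.prod_cons, map_mul]
      exact one_le_mul (hcon a) ih
  exact absurd hval (not_lt.2 (key _))

private lemma surj [IsAlgClosed k] (hw : Good k w) (α : L)
    (halg : ∀ β : L, IsAlgebraic (HahnSeries ℚ k) β) :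
    ∃ x : HahnSeries ℚ k, algebraMap _ L x = α := by
  classical
  by_contra hcon
  push Not at hcon
  have hne : ∀ a : HahnSeries ℚ k, α - algebraMap _ L a ≠ 0 := fun a h =>
    hcon a (sub_eq_zero.1 h).symm
  have hq : ∀ a : HahnSeries ℚ k, ∃ q : ℚ, w (α - algebraMap _ L a) = WW k w q := fun a =>
    exists_q w hw _ (hne a) (halg _)
  choose Q hQ using hq
  have hstep : ∀ a, ∃ b, Q a < Q b := by
    intro a
    set u : L := (α - algebraMap _ L a) / algebraMap (HahnSeries ℚ k) L (tq (Q a)) with hu
    have ht : algebraMap (HahnSeries ℚ k) L (tq (Q a)) ≠ 0 := by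
      intro h
      rw [map_eq_zero] at h
      exact tq_ne _ h
    have hu1 : w u = 1 := by
      rw [hu, map_div₀, hQ a]
      exact div_self (WW_ne w _)
    obtain ⟨c, hc⟩ := exists_c w hw u hu1 (halg u)
    refine ⟨a + tq (Q a) * HahnSeries.C c, ?_⟩
    apply lt_of_WW w hw
    rw [← hQ]
    have e : α - algebraMap _ L (a + tq (Q a) * HahnSeries.C c) =
        algebraMap (HahnSeries ℚ k) L (tq (Q a)) *
          (u - algebraMap (HahnSeries ℚ k) L (HahnSeries.C c)) := by
      rw [mul_sub, hu, mul_div_cancel₀ _ ht, map_add, map_mul]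
      ring
    rw [e, map_mul]
    exact mul_lt_of_lt_one_right (zero_lt_iff.2 (WW_ne w _)) hc
  have hagree : ∀ (a b : HahnSeries ℚ k) (s : ℚ), s < Q a → s < Q b → a.coeff s = b.coeff s := by
    intro a b s ha hb
    by_cases hab : a = b
    · rw [hab]
    · have hab' : a - b ≠ 0 := sub_ne_zero.2 hab
      have h1 : w (algebraMap _ L (a - b)) < WW k w s := by
        have e : algebraMap _ L (a - b) = (α - algebraMap _ L b) - (α - algebraMap _ L a) := by
          rw [map_sub]
          ring
        rw [e]
        refine lt_of_le_of_lt (Valuation.map_sub w _ _) (max_lt ?_ ?_)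
        · rw [hQ b]
          exact WW_anti w hw hb
        · rw [hQ a]
          exact WW_anti w hw ha
      rw [val_eq w hw hab'] at h1
      have h2 := lt_of_WW w hw h1
      have h3 := HahnSeries.coeff_eq_zero_of_lt_order h2
      rw [HahnSeries.coeff_sub] at h3
      exact sub_eq_zero.1 h3
  set F : ℚ → k := fun s => if h : ∃ a, s < Q a then (Classical.choose h).coeff s else 0 with hF
  have hFeq : ∀ (a : HahnSeries ℚ k) (s : ℚ), s < Q a → F s = a.coeff s := by
    intro a s h
    have hex : ∃ a, s < Q a := ⟨a, h⟩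
    rw [hF]
    simp only
    rw [dif_pos hex]
    exact hagree _ _ s (Classical.choose_spec hex) h
  have hPWO : (Function.support F).IsPWO := by
    rw [Set.isPWO_iff_isWF, Set.isWF_iff_no_descending_seq]
    intro g hg hmem
    have h0 : F (g 0) ≠ 0 := hmem 0
    have hex : ∃ a, g 0 < Q a := by
      by_contra hno
      apply h0
      rw [hF]
      simp only
      rw [dif_neg hno]
    obtain ⟨a, ha⟩ := hex
    have hWF := a.isPWO_support.isWF
    rw [Set.isWF_iff_no_descending_seq] at hWF
    refine hWF g hg fun n => ?_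
    have hn : g n < Q a := lt_of_le_of_lt (hg.antitone (Nat.zero_le n)) ha
    rw [HahnSeries.mem_support, ← hFeq a _ hn]
    exact hmem n
  let fs : HahnSeries ℚ k := ⟨F, hPWO⟩
  obtain ⟨b, hb⟩ := hstep fs
  have hfs : ∀ s, s < Q b → fs.coeff s = b.coeff s := fun s hs => hFeq b s hs
  have h1 : w (algebraMap _ L (b - fs)) ≤ WW k w (Q b) := by
    by_cases hbf : b - fs = 0
    · rw [hbf, map_zero, map_zero]
      exact zero_le
    · rw [val_eq w hw hbf]
      have h2 : Q b ≤ (b - fs).order := by
        rw [← GqH_iff hbf]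
        intro s hs
        rw [HahnSeries.coeff_sub, hfs s hs, sub_self]
      rcases h2.lt_or_eq with h3 | h3
      · exact (WW_anti w hw h3).le
      · rw [← h3]
  have h2 : w (α - algebraMap _ L fs) ≤ WW k w (Q b) := by
    have e : α - algebraMap _ L fs = (α - algebraMap _ L b) + algebraMap _ L (b - fs) := by
      rw [map_sub]
      ring
    rw [e]
    exact (Valuation.map_add w _ _).trans (max_le (hQ b).le h1)
  rw [hQ fs] at h2
  exact absurd (WW_anti w hw hb) (not_lt.2 h2)

end closed

theorem hahn_isAlgClosed (k : Type) [Field k] [CharZero k] [IsAlgClosed k] :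
    IsAlgClosed (HahnSeries ℚ k) := by
  apply IsAlgClosed.of_exists_root
  intro p _ hirr
  obtain ⟨α, hα⟩ := IsAlgClosed.exists_aeval_eq_zero (AlgebraicClosure (HahnSeries ℚ k)) p
    (Polynomial.degree_pos_of_irreducible hirr).ne'
  obtain ⟨B, hB⟩ := exists_val (k := k) (L := AlgebraicClosure (HahnSeries ℚ k))
  obtain ⟨x, hx⟩ := surj (k := k) B.valuation hB α fun β => Algebra.IsAlgebraic.isAlgebraic β
  refine ⟨x, ?_⟩
  rw [← hx, Polynomial.aeval_algebraMap_apply, map_eq_zero] at hα
  rwa [Polynomial.coe_aeval_eq_eval] at hα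

end Pool.Agent.Work.MP_abe657_gt
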