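import Pool.Agent.Work.MP_abe657_gt.Defs

/-!
Module MetXi (M). Metric of the surface at infinity `x = g (A y(t) + C e)`.

With `ψ = -8 A C`, `y = (1-t², i(1+t²), 2t)`, `e = (-2, 2i, 0)`: `⟨y,y⟩ = ⟨e,e⟩ = 0`, `⟨y,e⟩ = -4`,
`y' = (-2t, 2it, 2)`, `⟨y',y'⟩ = 4`, `⟨y,y'⟩ = ⟨y',e⟩ = 0`; `thA A = A`, `dT A = 0`, `thA t = 0`, `dT t = 1`;
constants are killed. So `thA x = g(A y + (thA C) e)`, `dT x = g(A y' + (dT C) e)`; `g` orthogonal
preserves the bilinear form, and `thA ψ = -8 (A C + A thA C)`, `dT ψ = -8 A dT C`. Components of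
`g⁻¹ x = gᵀ x = A y + C e` are `A(1-t²) - 2C`, `i(A(1+t²) + 2C)`, `2At`, so `A`, `At` and
`At² + 2C = At² - ψ/(4A)` are linear combinations with complex coefficients of the components of `x`.
Rank: for the linear combinations `A`, `At` the Jacobian is `A²  ≠ 0`; if all minors of `x` vanish
then so does this one.
-/

set_option autoImplicit false

namespace Pool.Agent.Work.MP_abe657_gt

lemma thA_AA : thA AA = AA := by
  apply LL_ext
  intro q
  rw [cf_thA]
  by_cases h : q = -1
  · subst h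
    have h1 : cf AA (-1) = 1 := HahnSeries.coeff_single_same _ _
    rw [h1]
    push_cast
    ring
  · have h1 : cf AA q = 0 := HahnSeries.coeff_single_of_ne h
    rw [h1]
    ring

lemma thA_iotaL (c : kk) : thA (iotaL c) = 0 := by
  apply LL_ext
  intro q
  rw [cf_thA]
  by_cases h : q = 0
  · subst h
    have h1 : cf (0 : LL) 0 = 0 := rfl
    rw [h1]
    push_cast
    ring
  · have h1 : cf (iotaL c) q = 0 := HahnSeries.coeff_single_of_ne h
    have h2 : cf (0 : LL) q = 0 := rfl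
    rw [h1, h2]
    ring

lemma dT_iotaL (c : kk) : dT (iotaL c) = iotaL (dk c) := by
  apply LL_ext
  intro q
  rw [cf_dT]
  by_cases h : q = 0
  · subst h
    have h1 : cf (iotaL c) 0 = c := HahnSeries.coeff_single_same _ _
    have h2 : cf (iotaL (dk c)) 0 = dk c := HahnSeries.coeff_single_same _ _
    rw [h1, h2]
  · have h1 : cf (iotaL c) q = 0 := HahnSeries.coeff_single_of_ne h
    have h2 : cf (iotaL (dk c)) q = 0 := HahnSeries.coeff_single_of_ne h
    rw [h1, h2, map_zero]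

lemma dT_AA : dT AA = 0 := by
  apply LL_ext
  intro q
  rw [cf_dT]
  have h0 : cf (0 : LL) q = 0 := rfl
  rw [h0]
  by_cases h : q = -1
  · subst h
    have h1 : cf AA (-1) = 1 := HahnSeries.coeff_single_same _ _
    rw [h1]
    exact dk.map_one_eq_zero
  · have h1 : cf AA q = 0 := HahnSeries.coeff_single_of_ne h
    rw [h1, map_zero]

lemma dk_tk : dk tk = 1 := by
  apply HahnSeries.ext
  funext q
  have h := ddFun_coeff (R := ℂ) tk q
  change (ddFun (R := ℂ) tk).coeff q = _
  rw [h]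
  by_cases hq : q = 0
  · subst hq
    have h1 : HahnSeries.coeff (Γ := ℚ) (R := ℂ) tk (0 + 1) = 1 := by
      rw [zero_add]
      exact HahnSeries.coeff_single_same _ _
    have h2 : HahnSeries.coeff (Γ := ℚ) (R := ℂ) (1 : kk) 0 = 1 := HahnSeries.coeff_single_same _ _
    rw [h1, h2]
    push_cast
    ring
  · have h1 : HahnSeries.coeff (Γ := ℚ) (R := ℂ) tk (q + 1) = 0 :=
      HahnSeries.coeff_single_of_ne (by
        intro h
        apply hq
        linarith)
    have h2 : HahnSeries.coeff (Γ := ℚ) (R := ℂ) (1 : kk) q = 0 := HahnSeries.coeff_single_of_ne hq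
    rw [h1, h2, mul_zero]

lemma thA_tL : thA tL = 0 := thA_iotaL tk

lemma dT_tL : dT tL = 1 := by
  rw [tL, dT_iotaL, dk_tk, map_one]

lemma AA_ne_zero : AA ≠ 0 := by
  intro h
  have h1 : cf AA (-1) = 1 := HahnSeries.coeff_single_same _ _
  rw [h] at h1
  have h2 : cf (0 : LL) (-1) = 0 := rfl
  rw [h2] at h1
  exact zero_ne_one h1

/-- the unrotated point -/
private noncomputable def vv (C : LL) (b : Fin 3) : LL := AA * yv tL b + C * evec LL b

private lemma xi_eq (g : Matrix (Fin 3) (Fin 3) ℂ) (C : LL) (a : Fin 3) :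
    xi g C a = ∑ b, algebraMap ℂ LL (g a b) * vv C b := rfl

private lemma der_xi (D : Derivation ℂ LL LL) (g : Matrix (Fin 3) (Fin 3) ℂ) (C : LL)
    (a : Fin 3) : D (xi g C a) = ∑ b, algebraMap ℂ LL (g a b) * D (vv C b) := by
  rw [xi_eq, map_sum]
  refine Finset.sum_congr rfl fun b _ => ?_
  rw [D.leibniz, D.map_algebraMap, smul_zero, add_zero, smul_eq_mul]

private lemma orth (g : Matrix (Fin 3) (Fin 3) ℂ) (hg : g.transpose * g = 1) (b c : Fin 3) :
    ∑ a, algebraMap ℂ LL (g a b) * algebraMap ℂ LL (g a c) = if b = c then 1 else 0 := by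
  have h := congrFun (congrFun hg b) c
  rw [Matrix.mul_apply] at h
  simp only [Matrix.transpose_apply, Matrix.one_apply] at h
  have h2 := congrArg (algebraMap ℂ LL) h
  rw [map_sum] at h2
  simp only [map_mul] at h2
  rw [h2]
  split_ifs <;> simp

private lemma pair_orth (g : Matrix (Fin 3) (Fin 3) ℂ) (hg : g.transpose * g = 1)
    (p q : Fin 3 → LL) :
    ∑ a, (∑ b, algebraMap ℂ LL (g a b) * p b) * (∑ c, algebraMap ℂ LL (g a c) * q c)
      = ∑ b, p b * q b := by
  have h1 : ∀ a, (∑ b, algebraMap ℂ LL (g a b) * p b) * (∑ c, algebraMap ℂ LL (g a c) * q c)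
      = ∑ b, ∑ c, (p b * q c) * (algebraMap ℂ LL (g a b) * algebraMap ℂ LL (g a c)) := by
    intro a
    rw [Finset.sum_mul_sum]
    refine Finset.sum_congr rfl fun b _ => Finset.sum_congr rfl fun c _ => ?_
    ring
  simp only [h1]
  rw [Finset.sum_comm]
  refine Finset.sum_congr rfl fun b _ => ?_
  rw [Finset.sum_comm]
  simp only [← Finset.mul_sum, orth g hg]
  simp

private lemma met_gen (D E : Derivation ℂ LL LL) (g : Matrix (Fin 3) (Fin 3) ℂ)
    (hg : g.transpose * g = 1) (C : LL) :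
    met D E (xi g C) = ∑ b, D (vv C b) * E (vv C b) := by
  rw [met]
  simp only [der_xi]
  exact pair_orth g hg _ _

private lemma II : (algebraMap ℂ LL Complex.I) * (algebraMap ℂ LL Complex.I) = -1 := by
  rw [← map_mul, Complex.I_mul_I, map_neg, map_one]

private lemma vv0 (C : LL) : vv C 0 = AA * (1 - tL ^ 2) - 2 * C := by
  simp only [vv, yv, evec, Matrix.cons_val_zero]
  ring

private lemma vv1 (C : LL) : vv C 1 = algebraMap ℂ LL Complex.I * (AA * (1 + tL ^ 2) + 2 * C) := by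
  simp only [vv, yv, evec, Matrix.cons_val_one, Matrix.cons_val_zero]
  ring

private lemma vv2 (C : LL) : vv C 2 = 2 * (AA * tL) := by
  simp only [vv, yv, evec, Matrix.cons_val]
  ring

private lemma D_two_mul (D : Derivation ℂ LL LL) (x : LL) : D (2 * x) = 2 * D x := by
  have h2 : D (2 : LL) = 0 := by
    have := D.map_algebraMap 2
    rwa [map_ofNat] at this
  rw [D.leibniz, h2, smul_eq_mul, smul_zero, add_zero]

private lemma D_sq (D : Derivation ℂ LL LL) (x : LL) : D (x ^ 2) = 2 * x * D x := by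
  rw [pow_two, D.leibniz, smul_eq_mul]
  ring

private lemma der_vv0 (D : Derivation ℂ LL LL) (C : LL) :
    D (vv C 0) = (1 - tL ^ 2) * D AA - 2 * AA * tL * D tL - 2 * D C := by
  rw [vv0, map_sub, D_two_mul, D.leibniz, map_sub, D.map_one_eq_zero, D_sq, smul_eq_mul,
    smul_eq_mul]
  ring

private lemma der_vv1 (D : Derivation ℂ LL LL) (C : LL) :
    D (vv C 1) = algebraMap ℂ LL Complex.I
      * ((1 + tL ^ 2) * D AA + 2 * AA * tL * D tL + 2 * D C) := by
  rw [vv1, D.leibniz, D.map_algebraMap, smul_zero, add_zero, map_add, D_two_mul, D.leibniz,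
    map_add, D.map_one_eq_zero, D_sq, smul_eq_mul, smul_eq_mul, smul_eq_mul]
  ring

private lemma der_vv2 (D : Derivation ℂ LL LL) (C : LL) :
    D (vv C 2) = 2 * tL * D AA + 2 * AA * D tL := by
  rw [vv2, D_two_mul, D.leibniz, smul_eq_mul, smul_eq_mul]
  ring

private lemma pair_vv (D E : Derivation ℂ LL LL) (C : LL) :
    ∑ b, D (vv C b) * E (vv C b)
      = 4 * AA ^ 2 * D tL * E tL - 4 * D AA * E C - 4 * D C * E AA := by
  rw [Fin.sum_univ_three, der_vv0, der_vv0, der_vv1, der_vv1, der_vv2, der_vv2]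
  linear_combination ((1 + tL ^ 2) * D AA + 2 * AA * tL * D tL + 2 * D C)
    * ((1 + tL ^ 2) * E AA + 2 * AA * tL * E tL + 2 * E C) * II

theorem met_xi (g : Matrix (Fin 3) (Fin 3) ℂ) (hg : g.transpose * g = 1) (C : LL) :
    met thA thA (xi g C) = thA (-8 * AA * C) - (-8 * AA * C) ∧
    met thA dT (xi g C) = dT (-8 * AA * C) / 2 ∧
    met dT dT (xi g C) = 4 * AA ^ 2 := by
  have h8 : ∀ D : Derivation ℂ LL LL, D (-8 * AA * C) = -8 * (AA * D C + C * D AA) := by
    intro D
    have h2 : D (-8 : LL) = 0 := by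
      have := D.map_algebraMap (-8)
      rwa [map_neg, map_ofNat] at this
    rw [D.leibniz, D.leibniz, h2, smul_eq_mul, smul_eq_mul, smul_eq_mul, smul_eq_mul]
    ring
  refine ⟨?_, ?_, ?_⟩
  · rw [met_gen thA thA g hg, pair_vv, h8, thA_AA, thA_tL]
    ring
  · rw [met_gen thA dT g hg, pair_vv, h8, thA_AA, thA_tL, dT_AA, dT_tL]
    ring
  · rw [met_gen dT dT g hg, pair_vv, dT_AA, dT_tL]
    ring

/-- inverting the rotation -/
private lemma vv_of_xi (g : Matrix (Fin 3) (Fin 3) ℂ) (hg : g.transpose * g = 1) (C : LL)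
    (b : Fin 3) : vv C b = ∑ a, algebraMap ℂ LL (g a b) * xi g C a := by
  simp only [xi_eq, Finset.mul_sum]
  rw [Finset.sum_comm]
  have h : ∀ c, ∑ a, algebraMap ℂ LL (g a b) * (algebraMap ℂ LL (g a c) * vv C c)
      = (if b = c then 1 else 0) * vv C c := by
    intro c
    rw [← orth g hg b c, Finset.sum_mul]
    refine Finset.sum_congr rfl fun a _ => ?_
    ring
  simp only [h]
  simp

private lemma AA_of_vv (C : LL) : AA = (1 / 2 : ℂ) • vv C 0 + (-Complex.I / 2) • vv C 1 := by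
  rw [Algebra.smul_def, Algebra.smul_def]
  have h1 : algebraMap ℂ LL (1 / 2) = 1 / 2 := by rw [map_div₀, map_one, map_ofNat]
  have h2 : algebraMap ℂ LL (-Complex.I / 2) = -algebraMap ℂ LL Complex.I / 2 := by
    rw [map_div₀, map_neg, map_ofNat]
  rw [h1, h2]
  rw [vv0, vv1]
  linear_combination (1 / 2) * (AA * (1 + tL ^ 2) + 2 * C) * II

private lemma AAt_of_vv (C : LL) : AA * tL = (1 / 2 : ℂ) • vv C 2 := by
  rw [Algebra.smul_def]
  have h1 : algebraMap ℂ LL (1 / 2) = 1 / 2 := by rw [map_div₀, map_one, map_ofNat]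
  rw [h1, vv2]
  ring

private lemma AAtt_of_vv (C : LL) : AA * tL ^ 2 - (-8 * AA * C) / (4 * AA)
    = (-1 / 2 : ℂ) • vv C 0 + (-Complex.I / 2) • vv C 1 := by
  rw [Algebra.smul_def, Algebra.smul_def]
  have h1 : algebraMap ℂ LL (-1 / 2) = -1 / 2 := by rw [map_div₀, map_neg, map_one, map_ofNat]
  have h2 : algebraMap ℂ LL (-Complex.I / 2) = -algebraMap ℂ LL Complex.I / 2 := by
    rw [map_div₀, map_neg, map_ofNat]
  rw [h1, h2]
  have h3 : (-8 * AA * C) / (4 * AA) = -2 * C := by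
    have := AA_ne_zero
    field_simp
    ring
  rw [h3]
  rw [vv0, vv1]
  linear_combination (1 / 2) * (AA * (1 + tL ^ 2) + 2 * C) * II

theorem comp_xi (g : Matrix (Fin 3) (Fin 3) ℂ) (hg : g.transpose * g = 1) (C : LL)
    (T : Module.End ℂ LL) (hT : ∀ a, T (xi g C a) = 0) :
    T AA = 0 ∧ T (AA * tL) = 0 ∧ T (AA * tL ^ 2 - (-8 * AA * C) / (4 * AA)) = 0 := by
  have hv : ∀ b, T (vv C b) = 0 := by
    intro b
    rw [vv_of_xi g hg C b, map_sum]
    refine Finset.sum_eq_zero fun a _ => ?_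
    rw [← Algebra.smul_def, map_smul, hT, smul_zero]
  refine ⟨?_, ?_, ?_⟩
  · rw [AA_of_vv C, map_add, map_smul, map_smul, hv, hv, smul_zero, smul_zero, add_zero]
  · rw [AAt_of_vv C, map_smul, hv, smul_zero]
  · rw [AAtt_of_vv C, map_add, map_smul, map_smul, hv, hv, smul_zero, smul_zero, add_zero]

theorem rank_xi (g : Matrix (Fin 3) (Fin 3) ℂ) (hg : g.transpose * g = 1) (C : LL) :
    Rank2 thA dT (xi g C) := by
  by_contra hcon
  rw [Rank2] at hcon
  push Not at hcon
  -- the Jacobian of any two constant linear combinations vanishes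
  have key : ∀ b c : Fin 3, thA (vv C b) * dT (vv C c) - thA (vv C c) * dT (vv C b) = 0 := by
    intro b c
    have hD : ∀ (D : Derivation ℂ LL LL) (b : Fin 3),
        D (vv C b) = ∑ a, algebraMap ℂ LL (g a b) * D (xi g C a) := by
      intro D b
      conv_lhs => rw [vv_of_xi g hg C b]
      rw [map_sum]
      refine Finset.sum_congr rfl fun a _ => ?_
      rw [D.leibniz, D.map_algebraMap, smul_zero, add_zero, smul_eq_mul]
    rw [hD, hD, hD, hD, Finset.sum_mul_sum, Finset.sum_mul_sum, Finset.sum_comm (γ := Fin 3),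
      ← Finset.sum_sub_distrib]
    refine Finset.sum_eq_zero fun i _ => ?_
    rw [← Finset.sum_sub_distrib]
    refine Finset.sum_eq_zero fun j _ => ?_
    linear_combination (algebraMap ℂ LL (g j b) * algebraMap ℂ LL (g i c)) * hcon j i
  have hlin : ∀ (D : Derivation ℂ LL LL), D AA = (1 / 2 : ℂ) • D (vv C 0)
      + (-Complex.I / 2) • D (vv C 1) := by
    intro D
    conv_lhs => rw [AA_of_vv C]
    rw [map_add, D.map_smul, D.map_smul]
  have hlin2 : ∀ (D : Derivation ℂ LL LL), D (AA * tL) = (1 / 2 : ℂ) • D (vv C 2) := by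
    intro D
    rw [AAt_of_vv C, D.map_smul]
  have h1 : thA AA * dT (AA * tL) - thA (AA * tL) * dT AA = 0 := by
    rw [hlin, hlin, hlin2, hlin2]
    simp only [Algebra.smul_def]
    linear_combination (algebraMap ℂ LL (1 / 2) * algebraMap ℂ LL (1 / 2)) * key 0 2
      + (algebraMap ℂ LL (-Complex.I / 2) * algebraMap ℂ LL (1 / 2)) * key 1 2
  rw [dT_AA, thA_AA, dT.leibniz, dT_AA, dT_tL] at h1
  simp only [smul_eq_mul, mul_one, mul_zero, add_zero, sub_zero] at h1
  exact AA_ne_zero (mul_self_eq_zero.mp h1)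

end Pool.Agent.Work.MP_abe657_gt
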