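import Pool.Agent.Work.MP_abe657_gt.Indep

/-!
Module Grad (S-M).

`detM d e X = ∑_{a<b} (minor a b)²` (Lagrange identity), so `detM ≠ 0` implies `Rank2`. The vector
`N = (aeval X (∂_a F))_a` is orthogonal (for the bilinear form `∑ v_a w_a`) to `dX` and `eX` (apply `d`,
`e` to `aeval X F = 0`, chain rule), and the cross product `Z = dX × eX` (the minors) is non-zero, so
`N = μ Z` for some `μ ∈ Ω` (`N` is in the orthogonal complement of the span of `dX, eX`, which is
one-dimensional spanned by `Z`: e.g. `N × Z = 0` since `N × (dX × eX) = dX ⟨N,eX⟩ - eX ⟨N,dX⟩ = 0`), and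
`gradsq F X = μ² detM`. `N ≠ 0`: some `∂_a F ≠ 0` (char 0, `F` irreducible hence not constant), its
total degree is smaller than that of `F`, so `F ∤ ∂_a F`, so `aeval X (∂_a F) ≠ 0` by
`dvd_of_aeval_eq_zero`. So `μ ≠ 0`. Both statements follow.
-/

set_option autoImplicit false

namespace Pool.Agent.Work.MP_abe657_gt

open MvPolynomial

private theorem grad_chain {Ω : Type} [Field Ω] [Algebra ℂ Ω] (d : Derivation ℂ Ω Ω)
    (X : Fin 3 → Ω) (F : MvPolynomial (Fin 3) ℂ) :
    d (aeval X F) = ∑ a, aeval X (pderiv a F) * d (X a) := by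
  induction F using MvPolynomial.induction_on with
  | C c =>
    rw [algHom_C, d.map_algebraMap]
    simp
  | add p q hp hq =>
    simp only [map_add, hp, hq, add_mul, Finset.sum_add_distrib]
  | mul_X p n hp =>
    rw [map_mul, aeval_X, Derivation.leibniz, hp]
    simp only [Derivation.leibniz, pderiv_X, smul_eq_mul, map_add, map_mul, aeval_X]
    have h1 : ∀ a : Fin 3, aeval X (Pi.single (M := fun _ => MvPolynomial (Fin 3) ℂ) a
        (1 : MvPolynomial (Fin 3) ℂ) n) = if n = a then (1 : Ω) else 0 := by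
      intro a
      by_cases h : n = a
      · subst h
        simp
      · rw [Pi.single_eq_of_ne h, if_neg h, map_zero]
    simp only [h1, add_mul, Finset.sum_add_distrib]
    rw [Finset.mul_sum]
    simp
    refine Finset.sum_congr rfl (fun a _ => by ring)

private theorem grad_lt (F : MvPolynomial (Fin 3) ℂ) (a : Fin 3) (h : pderiv a F ≠ 0) :
    ¬ F ∣ pderiv a F := by
  rintro ⟨G, hG⟩
  have hF : F ≠ 0 := by
    rintro rfl
    simp at h
  have hG0 : G ≠ 0 := by
    rintro rfl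
    rw [mul_zero] at hG
    exact h hG
  have h1 : degreeOf a (pderiv a F) = degreeOf a F + degreeOf a G := by
    rw [hG, degreeOf_mul_eq hF hG0]
  -- the degree in the variable a drops
  have h2 : degreeOf a F = 0 ∨ degreeOf a (pderiv a F) < degreeOf a F := by
    rcases Nat.eq_zero_or_pos (degreeOf a F) with h0 | h0
    · exact Or.inl h0
    · right
      rw [degreeOf_lt_iff h0]
      intro m hm
      rw [mem_support_iff, coeff_pderiv] at hm
      have h3 : coeff (m + Finsupp.single a 1) F ≠ 0 := by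
        intro h4
        apply hm
        rw [h4]
        simp
      have h4 := monomial_le_degreeOf a (mem_support_iff.mpr h3)
      simp at h4
      omega
  rcases h2 with h2 | h2
  · apply h
    apply pderiv_eq_zero_of_notMem_vars
    intro hmem
    rw [mem_vars_iff_mem_support] at hmem
    obtain ⟨m, hm, ham⟩ := hmem
    have h5 := monomial_le_degreeOf a hm
    have h6 := Finsupp.mem_support_iff.mp ham
    omega
  · omega

private theorem grad_exists (F : MvPolynomial (Fin 3) ℂ) (hF : Irreducible F) :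
    ∃ a, pderiv a F ≠ 0 := by
  by_contra hcon
  push Not at hcon
  have hconst : F = C (coeff 0 F) := by
    ext m
    rw [coeff_C]
    split_ifs with hm
    · rw [hm]
    · by_contra hne
      obtain ⟨a, ha⟩ : ∃ a, m a ≠ 0 := by
        by_contra h0
        push Not at h0
        apply hm
        ext a
        simp [h0 a]
      have h1 := congrArg (coeff (m - Finsupp.single a 1)) (hcon a)
      rw [coeff_pderiv, coeff_zero] at h1
      have h2 : m - Finsupp.single a 1 + Finsupp.single a 1 = m := by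
        apply tsub_add_cancel_of_le
        rw [Finsupp.single_le_iff]
        omega
      rw [h2] at h1
      rcases mul_eq_zero.mp h1 with h3 | h3
      · exact hne h3
      · exact (Nat.cast_add_one_ne_zero _) h3
  have hc : coeff 0 F ≠ 0 := by
    intro h0
    rw [h0, C_0] at hconst
    exact hF.ne_zero hconst
  apply hF.not_isUnit
  rw [hconst]
  exact (IsUnit.mk0 _ hc).map C

private theorem grad_detM {Ω : Type} [Field Ω] [Algebra ℂ Ω] (d e : Derivation ℂ Ω Ω)
    (X : Fin 3 → Ω) : detM d e X = (d (X 1) * e (X 2) - d (X 2) * e (X 1)) ^ 2 +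
      (d (X 2) * e (X 0) - d (X 0) * e (X 2)) ^ 2 +
      (d (X 0) * e (X 1) - d (X 1) * e (X 0)) ^ 2 := by
  unfold detM met
  simp only [Fin.sum_univ_three]
  ring

theorem rank2_of_detM {Ω : Type} [Field Ω] [Algebra ℂ Ω] (d e : Derivation ℂ Ω Ω)
    (X : Fin 3 → Ω) (h : detM d e X ≠ 0) : Rank2 d e X := by
  by_contra hcon
  unfold Rank2 at hcon
  push Not at hcon
  apply h
  rw [grad_detM, hcon 1 2, hcon 2 0, hcon 0 1]
  ring

/-- orthogonality relations of the gradient -/
private theorem grad_orth {Ω : Type} [Field Ω] [Algebra ℂ Ω] (d : Derivation ℂ Ω Ω)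
    (X : Fin 3 → Ω) (F : MvPolynomial (Fin 3) ℂ) (h0 : aeval X F = 0) :
    aeval X (pderiv 0 F) * d (X 0) + aeval X (pderiv 1 F) * d (X 1) +
      aeval X (pderiv 2 F) * d (X 2) = 0 := by
  have h1 := grad_chain d X F
  rw [h0, map_zero, Fin.sum_univ_three] at h1
  exact h1.symm

theorem gradsq_ne_zero {Ω : Type} [Field Ω] [Algebra ℂ Ω] (d e : Derivation ℂ Ω Ω)
    (X : Fin 3 → Ω) (h : detM d e X ≠ 0) (F : MvPolynomial (Fin 3) ℂ) (hF : Irreducible F)
    (h0 : aeval X F = 0) : gradsq F X ≠ 0 := by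
  intro hg
  obtain ⟨a, ha⟩ := grad_exists F hF
  have hNa : aeval X (pderiv a F) ≠ 0 := by
    intro h1
    exact grad_lt F a ha (dvd_of_aeval_eq_zero d e X (rank2_of_detM d e X h) F _ hF h0 h1)
  have o1 := grad_orth d X F h0
  have o2 := grad_orth e X F h0
  unfold gradsq at hg
  rw [Fin.sum_univ_three] at hg
  rw [grad_detM] at h
  set n0 := aeval X (pderiv 0 F)
  set n1 := aeval X (pderiv 1 F)
  set n2 := aeval X (pderiv 2 F)
  set p0 := d (X 0)
  set p1 := d (X 1)
  set p2 := d (X 2)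
  set q0 := e (X 0)
  set q1 := e (X 1)
  set q2 := e (X 2)
  set D := (p1 * q2 - p2 * q1) ^ 2 + (p2 * q0 - p0 * q2) ^ 2 + (p0 * q1 - p1 * q0) ^ 2 with hD
  set NZ := n0 * (p1 * q2 - p2 * q1) + n1 * (p2 * q0 - p0 * q2) + n2 * (p0 * q1 - p1 * q0) with hNZ
  -- N x Z = 0
  have c0 : n1 * (p0 * q1 - p1 * q0) - n2 * (p2 * q0 - p0 * q2) = 0 := by
    linear_combination p0 * o2 - q0 * o1
  have c1 : n2 * (p1 * q2 - p2 * q1) - n0 * (p0 * q1 - p1 * q0) = 0 := by
    linear_combination p1 * o2 - q1 * o1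
  have c2 : n0 * (p2 * q0 - p0 * q2) - n1 * (p1 * q2 - p2 * q1) = 0 := by
    linear_combination p2 * o2 - q2 * o1
  -- (N.Z) ^ 2 = (N.N) D
  have e1 : NZ ^ 2 = (n0 ^ 2 + n1 ^ 2 + n2 ^ 2) * D -
      ((n1 * (p0 * q1 - p1 * q0) - n2 * (p2 * q0 - p0 * q2)) ^ 2 +
       (n2 * (p1 * q2 - p2 * q1) - n0 * (p0 * q1 - p1 * q0)) ^ 2 +
       (n0 * (p2 * q0 - p0 * q2) - n1 * (p1 * q2 - p2 * q1)) ^ 2) := by
    rw [hNZ, hD]
    ring
  rw [hg, c0, c1, c2] at e1
  have e2 : NZ = 0 := by
    have : NZ ^ 2 = 0 := by rw [e1]; ring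
    exact pow_eq_zero_iff two_ne_zero |>.mp this
  have f0 : n0 * D = 0 := by
    linear_combination (p1 * q2 - p2 * q1) * (e2 - hNZ) - (p0 * q1 - p1 * q0) * c1 + (p2 * q0 - p0 * q2) * c2 + n0 * hD
  have f1 : n1 * D = 0 := by
    linear_combination (p2 * q0 - p0 * q2) * (e2 - hNZ) + (p0 * q1 - p1 * q0) * c0 - (p1 * q2 - p2 * q1) * c2 + n1 * hD
  have f2 : n2 * D = 0 := by
    linear_combination (p0 * q1 - p1 * q0) * (e2 - hNZ) - (p2 * q0 - p0 * q2) * c0 + (p1 * q2 - p2 * q1) * c1 + n2 * hD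
  have g0 : n0 = 0 := (mul_eq_zero.mp f0).resolve_right h
  have g1 : n1 = 0 := (mul_eq_zero.mp f1).resolve_right h
  have g2 : n2 = 0 := (mul_eq_zero.mp f2).resolve_right h
  apply hNa
  fin_cases a
  · exact g0
  · exact g1
  · exact g2

theorem detM_ne_zero {Ω : Type} [Field Ω] [Algebra ℂ Ω] (d e : Derivation ℂ Ω Ω)
    (X : Fin 3 → Ω) (hX : Rank2 d e X) (F : MvPolynomial (Fin 3) ℂ)
    (h0 : aeval X F = 0) (hw : gradsq F X ≠ 0) : detM d e X ≠ 0 := by
  intro hdet
  have o1 := grad_orth d X F h0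
  have o2 := grad_orth e X F h0
  unfold gradsq at hw
  rw [Fin.sum_univ_three] at hw
  rw [grad_detM] at hdet
  set n0 := aeval X (pderiv 0 F)
  set n1 := aeval X (pderiv 1 F)
  set n2 := aeval X (pderiv 2 F)
  set p0 := d (X 0) with hp0
  set p1 := d (X 1) with hp1
  set p2 := d (X 2) with hp2
  set q0 := e (X 0) with hq0
  set q1 := e (X 1) with hq1
  set q2 := e (X 2) with hq2
  set z0 := p1 * q2 - p2 * q1 with hz0
  set z1 := p2 * q0 - p0 * q2 with hz1
  set z2 := p0 * q1 - p1 * q0 with hz2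
  set NZ := n0 * z0 + n1 * z1 + n2 * z2 with hNZ
  have c0 : n1 * z2 - n2 * z1 = 0 := by
    rw [hz1, hz2]
    linear_combination p0 * o2 - q0 * o1
  have c1 : n2 * z0 - n0 * z2 = 0 := by
    rw [hz0, hz2]
    linear_combination p1 * o2 - q1 * o1
  have c2 : n0 * z1 - n1 * z0 = 0 := by
    rw [hz0, hz1]
    linear_combination p2 * o2 - q2 * o1
  have e1 : NZ ^ 2 = (n0 ^ 2 + n1 ^ 2 + n2 ^ 2) * (z0 ^ 2 + z1 ^ 2 + z2 ^ 2) -
      ((n1 * z2 - n2 * z1) ^ 2 + (n2 * z0 - n0 * z2) ^ 2 + (n0 * z1 - n1 * z0) ^ 2) := by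
    rw [hNZ]
    ring
  rw [hdet, c0, c1, c2] at e1
  have e2 : NZ = 0 := by
    have : NZ ^ 2 = 0 := by rw [e1]; ring
    exact pow_eq_zero_iff two_ne_zero |>.mp this
  have k0 : z0 * (n0 ^ 2 + n1 ^ 2 + n2 ^ 2) = 0 := by
    linear_combination n0 * (e2 - hNZ) + n2 * c1 - n1 * c2
  have k1 : z1 * (n0 ^ 2 + n1 ^ 2 + n2 ^ 2) = 0 := by
    linear_combination n1 * (e2 - hNZ) - n2 * c0 + n0 * c2
  have k2 : z2 * (n0 ^ 2 + n1 ^ 2 + n2 ^ 2) = 0 := by
    linear_combination n2 * (e2 - hNZ) + n1 * c0 - n0 * c1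
  have y0 : z0 = 0 := (mul_eq_zero.mp k0).resolve_right hw
  have y1 : z1 = 0 := (mul_eq_zero.mp k1).resolve_right hw
  have y2 : z2 = 0 := (mul_eq_zero.mp k2).resolve_right hw
  obtain ⟨i, j, hij⟩ := hX
  apply hij
  rw [hz0] at y0
  rw [hz1] at y1
  rw [hz2] at y2
  fin_cases i <;> fin_cases j
  · ring
  · simp only [Fin.zero_eta, Fin.mk_one]
    linear_combination y2
  · simp only [Fin.zero_eta, Fin.reduceFinMk]
    linear_combination -y1
  · simp only [Fin.zero_eta, Fin.mk_one]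
    linear_combination -y2
  · ring
  · simp only [Fin.mk_one, Fin.reduceFinMk]
    linear_combination y0
  · simp only [Fin.zero_eta, Fin.reduceFinMk]
    linear_combination y1
  · simp only [Fin.mk_one, Fin.reduceFinMk]
    linear_combination -y0
  · ring

end Pool.Agent.Work.MP_abe657_gt
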