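import Pool.Agent.Work.MP_abe657_gt.Univ
import Pool.Agent.Work.MP_abe657_gt.Grad

/-!
Module Transfer. An identity `P(Δ) q(X) = 0` on one surface in `F = 0` transfers to every other
rank two surface in `F = 0`.
-/

set_option autoImplicit false

namespace Pool.Agent.Work.MP_abe657_gt

open MvPolynomial

private lemma transfer_clear (W : MvPolynomial (Fin 3) ℂ) (Q : MvPolynomial (Fin 4) ℂ) :
    ∃ (n : ℕ) (R : MvPolynomial (Fin 3) ℂ), ∀ (Ω : Type) [Field Ω] [Algebra ℂ Ω]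
      (Z : Fin 3 → Ω), aeval Z W ≠ 0 →
      (aeval Z W) ^ n * aeval (Fin.snoc Z (aeval Z W)⁻¹ : Fin 4 → Ω) Q = aeval Z R := by
  induction Q using MvPolynomial.induction_on with
  | C c =>
    refine ⟨0, C c, ?_⟩
    intro Ω _ _ Z _
    rw [pow_zero, one_mul, aeval_C, aeval_C]
  | add p q hp hq =>
    obtain ⟨n1, R1, h1⟩ := hp
    obtain ⟨n2, R2, h2⟩ := hq
    refine ⟨n1 + n2, W ^ n2 * R1 + W ^ n1 * R2, ?_⟩
    intro Ω _ _ Z hZ
    rw [map_add, map_add, map_mul, map_mul, map_pow, map_pow, ← h1 Ω Z hZ, ← h2 Ω Z hZ]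
    ring
  | mul_X p i hp =>
    obtain ⟨n, R, h⟩ := hp
    revert h
    refine Fin.lastCases ?_ (fun b => ?_) i
    · intro h
      refine ⟨n + 1, R, ?_⟩
      intro Ω _ _ Z hZ
      rw [map_mul, aeval_X, Fin.snoc_last, ← h Ω Z hZ]
      generalize aeval (Fin.snoc Z (aeval Z W)⁻¹ : Fin 4 → Ω) p = E
      rw [pow_succ, mul_assoc, mul_comm E, ← mul_assoc (aeval Z W), mul_inv_cancel₀ hZ, one_mul]
    · intro h
      refine ⟨n, R * X b, ?_⟩
      intro Ω _ _ Z hZ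
      rw [map_mul, aeval_X, Fin.snoc_castSucc, map_mul, aeval_X, ← h Ω Z hZ]
      ring

private lemma transfer_gradsq (F : MvPolynomial (Fin 3) ℂ) {Ω : Type} [Field Ω] [Algebra ℂ Ω]
    (Z : Fin 3 → Ω) : gradsq F Z = aeval Z (∑ a, pderiv a F ^ 2) := by
  rw [gradsq, map_sum]
  simp only [map_pow]

private lemma transfer_poly {Ω : Type} [Field Ω] [Algebra ℂ Ω] (Z : Fin 4 → Ω)
    (T : Module.End ℂ Ω) (𝓛 : MvPolynomial (Fin 4) ℂ → MvPolynomial (Fin 4) ℂ)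
    (h : ∀ φ, T (aeval Z φ) = aeval Z (𝓛 φ)) (P : Polynomial ℂ) (φ : MvPolynomial (Fin 4) ℂ) :
    Polynomial.aeval T P (aeval Z φ) = aeval Z (P.sum fun n c => C c * 𝓛^[n] φ) := by
  have hpow : ∀ n, (T ^ n) (aeval Z φ) = aeval Z (𝓛^[n] φ) := by
    intro n
    induction n with
    | zero => simp
    | succ n ih =>
      rw [pow_succ', Module.End.mul_apply, ih, h, Function.iterate_succ_apply']
  rw [Polynomial.aeval_eq_sum_range, Polynomial.sum_over_range]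
  · rw [LinearMap.sum_apply, map_sum]
    refine Finset.sum_congr rfl fun n _ => ?_
    rw [LinearMap.smul_apply, hpow, map_mul, aeval_C, Algebra.smul_def]
  · intro n
    simp

theorem transfer {Ω₁ Ω₂ : Type} [Field Ω₁] [Algebra ℂ Ω₁] [Field Ω₂] [Algebra ℂ Ω₂]
    (d e : Derivation ℂ Ω₁ Ω₁) (hde : ∀ u, d (e u) = e (d u))
    (d' e' : Derivation ℂ Ω₂ Ω₂) (hde' : ∀ u, d' (e' u) = e' (d' u))
    (X : Fin 3 → Ω₁) (Y : Fin 3 → Ω₂) (hX : detM d e X ≠ 0) (hY : Rank2 d' e' Y)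
    (F : MvPolynomial (Fin 3) ℂ) (hF : Irreducible F) (h1 : aeval X F = 0) (h2 : aeval Y F = 0) :
    detM d' e' Y ≠ 0 ∧ ∀ (P : Polynomial ℂ) (q : MvPolynomial (Fin 3) ℂ),
      Polynomial.aeval (lapX d e X) P (aeval X q) = 0 →
      Polynomial.aeval (lapX d' e' Y) P (aeval Y q) = 0 := by
  have hdvd : ∀ Q : MvPolynomial (Fin 3) ℂ, aeval X Q = 0 ↔ F ∣ Q := fun Q =>
    ⟨fun h => dvd_of_aeval_eq_zero d e X (rank2_of_detM d e X hX) F Q hF h1 h, by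
      rintro ⟨R, rfl⟩
      rw [map_mul, h1, zero_mul]⟩
  have hdvd' : ∀ Q : MvPolynomial (Fin 3) ℂ, aeval Y Q = 0 ↔ F ∣ Q := fun Q =>
    ⟨fun h => dvd_of_aeval_eq_zero d' e' Y hY F Q hF h2 h, by
      rintro ⟨R, rfl⟩
      rw [map_mul, h2, zero_mul]⟩
  have hw1 : gradsq F X ≠ 0 := gradsq_ne_zero d e X hX F hF h1
  have hw2 : gradsq F Y ≠ 0 := by
    rw [transfer_gradsq] at hw1 ⊢
    intro h
    exact hw1 ((hdvd _).2 ((hdvd' _).1 h))
  have hY' : detM d' e' Y ≠ 0 := detM_ne_zero d' e' Y hY F h2 hw2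
  refine ⟨hY', fun P q hPq => ?_⟩
  obtain ⟨𝓛, h𝓛⟩ := exists_univ F
  have e1 := transfer_poly (Fin.snoc X (gradsq F X)⁻¹ : Fin 4 → Ω₁) (lapX d e X) 𝓛
    (h𝓛 Ω₁ d e hde X h1 hX hw1) P (rename Fin.castSucc q)
  have e2 := transfer_poly (Fin.snoc Y (gradsq F Y)⁻¹ : Fin 4 → Ω₂) (lapX d' e' Y) 𝓛
    (h𝓛 Ω₂ d' e' hde' Y h2 hY' hw2) P (rename Fin.castSucc q)
  have f1 : aeval (Fin.snoc X (gradsq F X)⁻¹ : Fin 4 → Ω₁) (rename Fin.castSucc q) =
      aeval X q := by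
    rw [aeval_rename]
    congr 2
    funext i
    simp
  have f2 : aeval (Fin.snoc Y (gradsq F Y)⁻¹ : Fin 4 → Ω₂) (rename Fin.castSucc q) =
      aeval Y q := by
    rw [aeval_rename]
    congr 2
    funext i
    simp
  rw [f1, hPq] at e1
  rw [f2] at e2
  rw [e2]
  obtain ⟨n, R, hR⟩ := transfer_clear (∑ a, pderiv a F ^ 2)
    (P.sum fun n c => C c * 𝓛^[n] (rename Fin.castSucc q))
  rw [transfer_gradsq] at e1 hw1 hw2 ⊢
  have g1 := hR Ω₁ X hw1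
  have g2 := hR Ω₂ Y hw2
  rw [← e1, mul_zero] at g1
  rw [(hdvd' R).2 ((hdvd R).1 g1.symm)] at g2
  exact (mul_eq_zero.1 g2).resolve_left (pow_ne_zero _ hw2)

end Pool.Agent.Work.MP_abe657_gt
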