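import Pool.Agent.Work.MP_abe657_gt.Root
import Pool.Agent.Work.MP_abe657_gt.Transfer
import Pool.Agent.Work.MP_abe657_gt.Core
import Pool.Agent.Work.MP_abe657_gt.MetXi
import Pool.Agent.Work.MP_abe657_gt.HahnClosed

/-!
Assembly AlgMain (done by helper32): the algebraic part of the theorem.
-/

set_option autoImplicit false

namespace Pool.Agent.Work.MP_abe657_gt

open MvPolynomial

instance instClosedKK : IsAlgClosed kk := hahn_isAlgClosed ℂ

instance instClosedLL : IsAlgClosed LL := hahn_isAlgClosed kk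

lemma exists_irr_root {Ω : Type} [Field Ω] [Algebra ℂ Ω] (X : Fin 3 → Ω)
    (G : MvPolynomial (Fin 3) ℂ) (hG : G ≠ 0) (h0 : aeval X G = 0) :
    ∃ F, Irreducible F ∧ F ∣ G ∧ aeval X F = 0 := by
  revert hG h0
  refine WfDvdMonoid.induction_on_irreducible (motive := fun G => G ≠ 0 → aeval X G = 0 →
    ∃ F, Irreducible F ∧ F ∣ G ∧ aeval X F = 0) G ?_ ?_ ?_
  · intro h
    exact absurd rfl h
  · intro u hu _ h
    exact absurd h ((hu.map (aeval X : MvPolynomial (Fin 3) ℂ →ₐ[ℂ] Ω)).ne_zero)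
  · intro a i ha hi ih _ h
    rw [map_mul] at h
    rcases mul_eq_zero.mp h with h | h
    · exact ⟨i, hi, dvd_mul_right _ _, h⟩
    · obtain ⟨F, hF1, hF2, hF3⟩ := ih ha h
      exact ⟨F, hF1, Dvd.dvd.mul_left hF2 _, hF3⟩

theorem alg_main (d e : Derivation ℂ LL LL) (hde : ∀ u, d (e u) = e (d u)) (X : Fin 3 → LL)
    (hdet : detM d e X ≠ 0) (P : Polynomial ℂ) (hP0 : P.eval 0 ≠ 0) (c : Fin 3 → ℂ)
    (hP : ∀ a, Polynomial.aeval (lapX d e X) P (X a - algebraMap ℂ LL (c a)) = 0)
    (G : MvPolynomial (Fin 3) ℂ) (hG : G ≠ 0) (hG0 : aeval X G = 0) (hiso : NoIso G) :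
    ∃ r : ℂ, ∑ a, (X a - algebraMap ℂ LL (c a)) ^ 2 = algebraMap ℂ LL r := by
  obtain ⟨F, hF, hFG, hF0⟩ := exists_irr_root X G hG hG0
  have hFne : F ≠ 0 := hF.ne_zero
  set Y : Fin 3 → LL := fun a => X a - algebraMap ℂ LL (c a) with hY
  have hYF : aeval Y (shift c F) = 0 := by
    have h1 : (aeval Y : MvPolynomial (Fin 3) ℂ →ₐ[ℂ] LL).comp
        (aeval (fun a => MvPolynomial.X a + MvPolynomial.C (c a))) = aeval X := by
      apply MvPolynomial.algHom_ext
      intro a
      simp only [AlgHom.comp_apply, aeval_X, map_add, aeval_C, hY]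
      ring
    have h2 := congrArg (fun f => f F) h1
    simp only [AlgHom.comp_apply] at h2
    rw [shift, h2]
    exact hF0
  have hdY : ∀ a, d (Y a) = d (X a) := by
    intro a
    simp only [hY, map_sub, Derivation.map_algebraMap, sub_zero]
  have heY : ∀ a, e (Y a) = e (X a) := by
    intro a
    simp only [hY, map_sub, Derivation.map_algebraMap, sub_zero]
  have hmet1 : met d d Y = met d d X := by simp only [met, hdY]
  have hmet2 : met d e Y = met d e X := by simp only [met, hdY, heY]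
  have hmet3 : met e e Y = met e e X := by simp only [met, heY]
  have hlapY : lapX d e Y = lapX d e X := by rw [lapX, lapX, hmet1, hmet2, hmet3]
  have hdetY : detM d e Y ≠ 0 := by rw [detM, hmet1, hmet2, hmet3]; exact hdet
  have hisoF : NoIso (shift c F) := noIso_shift c F hFne (noIso_of_dvd F G hG hFG hiso)
  have hirr : Irreducible (shift c F) := shift_irreducible c F hF
  by_cases hp : ∃ p : Polynomial ℂ, shift c F = Polynomial.aeval qq p
  · obtain ⟨p, hp⟩ := hp
    have hp0 : p ≠ 0 := by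
      rintro rfl
      rw [map_zero] at hp
      exact hirr.ne_zero hp
    have h1 : Polynomial.aeval (∑ a, Y a ^ 2) p = 0 := by
      rw [hp, ← Polynomial.aeval_algHom_apply] at hYF
      simpa only [qq, map_sum, map_pow, aeval_X] using hYF
    have h2 : (∑ a, Y a ^ 2) ∈ (p.map (algebraMap ℂ LL)).roots := by
      rw [Polynomial.mem_roots_map_of_injective (algebraMap ℂ LL).injective hp0]
      rwa [← Polynomial.aeval_def]
    rw [Polynomial.Splits.roots_map (IsAlgClosed.splits p), Multiset.mem_map] at h2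
    obtain ⟨r, _, hr⟩ := h2
    exact ⟨r, hr.symm⟩
  · exfalso
    obtain ⟨g, C, m, hg, hroot, hm1, hm2, hge, hcf, hL⟩ :=
      exists_root (shift c F) hirr.ne_zero hisoF hp
    obtain ⟨hdetxi, htr⟩ := transfer d e hde thA dT thA_dT_comm Y (xi g C) hdetY
      (rank_xi g hg C) (shift c F) hirr hYF hroot
    have hPxi : ∀ a, Polynomial.aeval (lapX thA dT (xi g C)) P (xi g C a) = 0 := by
      intro a
      have h := htr P (MvPolynomial.X a) (by
        rw [aeval_X, hlapY]
        exact hP a)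
      rwa [aeval_X] at h
    obtain ⟨hm11, hm12, hm22⟩ := met_xi g hg C
    have hlx : lapX thA dT (xi g C) = lapO thA dT (thA (-8 * AA * C) - (-8 * AA * C))
        (dT (-8 * AA * C) / 2) (4 * AA ^ 2) := by
      rw [lapX, hm11, hm12, hm22]
    rw [hlx] at hPxi
    obtain ⟨h1, h2, h3⟩ := comp_xi g hg C _ hPxi
    rw [detM, hm11, hm12, hm22] at hdetxi
    exact core (-8 * AA * C) m hm1 hm2 hge hcf hL hdetxi P hP0 h1 h2 h3

end Pool.Agent.Work.MP_abe657_gt
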