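import Pool.Agent.Work.MP_abe657_gt.Defs2
import Pool.Agent.Work.MP_abe657_gt.Transfer
import Pool.Agent.Work.MP_abe657_gt.MetXi

/-!
Part II, module GoodTr (M). The equation is transferred to all points `(A, B, C)`.

Let `ξ = fr g AA B C`, so `aeval ξ F = aeval ![AA, B, C] (polyFr g F) = 0` (`aeval_polyFr`). The
vectors `y0v, y1v, evec` have the products `y0·y0 = 0, y1·y1 = 4, e·e = 0, y0·y1 = 0, y1·e = 0,
y0·e = -4`, and `g` is orthogonal, so with `thA AA = AA`, `dT AA = 0` (MetXi):
`met thA thA ξ = m11 B C`, `met thA dT ξ = m12 B C`, `met dT dT ξ = m22 B`; rank two: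
`thA AA * dT B - ... = AA dT B ≠ 0`.
`transfer` gives `detM thA dT ξ ≠ 0`, i.e. `mD B C ≠ 0`, and `P(Δ) ξ_a = 0` for all `a`;
by linear combination `P(Δ)` kills `AA, B, C`.
-/

set_option autoImplicit false

namespace Pool.Agent.Work.MP_abe657_gt

open MvPolynomial

/-- the unrotated point -/
private noncomputable def ww (B C : LL) (b : Fin 3) : LL :=
  AA * y0v LL b + B * y1v LL b + C * evec LL b

private lemma fr_eq (g : Matrix (Fin 3) (Fin 3) ℂ) (B C : LL) (a : Fin 3) :
    fr g AA B C a = ∑ b, algebraMap ℂ LL (g a b) * ww B C b := rfl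

private lemma der_fr (D : Derivation ℂ LL LL) (g : Matrix (Fin 3) (Fin 3) ℂ) (B C : LL)
    (a : Fin 3) : D (fr g AA B C a) = ∑ b, algebraMap ℂ LL (g a b) * D (ww B C b) := by
  rw [fr_eq, map_sum]
  refine Finset.sum_congr rfl fun b _ => ?_
  rw [D.leibniz, D.map_algebraMap, smul_zero, add_zero, smul_eq_mul]

private lemma orthF (g : Matrix (Fin 3) (Fin 3) ℂ) (hg : g.transpose * g = 1) (b c : Fin 3) :
    ∑ a, algebraMap ℂ LL (g a b) * algebraMap ℂ LL (g a c) = if b = c then 1 else 0 := by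
  have h := congrFun (congrFun hg b) c
  rw [Matrix.mul_apply] at h
  simp only [Matrix.transpose_apply, Matrix.one_apply] at h
  have h2 := congrArg (algebraMap ℂ LL) h
  rw [map_sum] at h2
  simp only [map_mul] at h2
  rw [h2]
  split_ifs <;> simp

private lemma pair_orthF (g : Matrix (Fin 3) (Fin 3) ℂ) (hg : g.transpose * g = 1)
    (p q : Fin 3 → LL) :
    ∑ a, (∑ b, algebraMap ℂ LL (g a b) * p b) * (∑ c, algebraMap ℂ LL (g a c) * q c)
      = ∑ b, p b * q b := by
  have h1 : ∀ a, (∑ b, algebraMap ℂ LL (g a b) * p b) * (∑ c, algebraMap ℂ LL (g a c) * q c)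
      = ∑ b, ∑ c, (p b * q c) * (algebraMap ℂ LL (g a b) * algebraMap ℂ LL (g a c)) := by
    intro a
    rw [Finset.sum_mul_sum]
    refine Finset.sum_congr rfl fun b _ => Finset.sum_congr rfl fun c _ => ?_
    ring
  simp only [h1]
  rw [Finset.sum_comm]
  refine Finset.sum_congr rfl fun b _ => ?_
  rw [Finset.sum_comm]
  simp only [← Finset.mul_sum, orthF g hg]
  simp

private lemma IIF : (algebraMap ℂ LL Complex.I) * (algebraMap ℂ LL Complex.I) = -1 := by
  rw [← map_mul, Complex.I_mul_I, map_neg, map_one]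

private lemma ww0 (B C : LL) : ww B C 0 = AA - 2 * C := by
  simp only [ww, y0v, y1v, evec, Matrix.cons_val_zero]
  ring

private lemma ww1 (B C : LL) : ww B C 1 = algebraMap ℂ LL Complex.I * (AA + 2 * C) := by
  simp only [ww, y0v, y1v, evec, Matrix.cons_val_one, Matrix.cons_val_zero]
  ring

private lemma ww2 (B C : LL) : ww B C 2 = 2 * B := by
  simp only [ww, y0v, y1v, evec, Matrix.cons_val]
  ring

private lemma D_two_mulF (D : Derivation ℂ LL LL) (x : LL) : D (2 * x) = 2 * D x := by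
  have h2 : D (2 : LL) = 0 := by
    have := D.map_algebraMap 2
    rwa [map_ofNat] at this
  rw [D.leibniz, h2, smul_eq_mul, smul_zero, add_zero]

private lemma pair_ww (D E : Derivation ℂ LL LL) (B C : LL) :
    ∑ b, D (ww B C b) * E (ww B C b)
      = 4 * D B * E B - 4 * D AA * E C - 4 * D C * E AA := by
  have h1 : ∀ D : Derivation ℂ LL LL, D (ww B C 0) = D AA - 2 * D C := by
    intro D
    rw [ww0, map_sub, D_two_mulF]
  have h2 : ∀ D : Derivation ℂ LL LL,
      D (ww B C 1) = algebraMap ℂ LL Complex.I * (D AA + 2 * D C) := by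
    intro D
    rw [ww1, D.leibniz, D.map_algebraMap, smul_zero, add_zero, map_add, D_two_mulF, smul_eq_mul]
  have h3 : ∀ D : Derivation ℂ LL LL, D (ww B C 2) = 2 * D B := by
    intro D
    rw [ww2, D_two_mulF]
  rw [Fin.sum_univ_three, h1, h1, h2, h2, h3, h3]
  linear_combination (D AA + 2 * D C) * (E AA + 2 * E C) * IIF

private lemma met_fr (D E : Derivation ℂ LL LL) (g : Matrix (Fin 3) (Fin 3) ℂ)
    (hg : g.transpose * g = 1) (B C : LL) :
    met D E (fr g AA B C) = 4 * D B * E B - 4 * D AA * E C - 4 * D C * E AA := by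
  rw [met]
  simp only [der_fr]
  rw [pair_orthF g hg, pair_ww]

/-- inverting the rotation -/
private lemma ww_of_fr (g : Matrix (Fin 3) (Fin 3) ℂ) (hg : g.transpose * g = 1) (B C : LL)
    (b : Fin 3) : ww B C b = ∑ a, algebraMap ℂ LL (g a b) * fr g AA B C a := by
  simp only [fr_eq, Finset.mul_sum]
  rw [Finset.sum_comm]
  have h : ∀ c, ∑ a, algebraMap ℂ LL (g a b) * (algebraMap ℂ LL (g a c) * ww B C c)
      = (if b = c then 1 else 0) * ww B C c := by
    intro c
    rw [← orthF g hg b c, Finset.sum_mul]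
    refine Finset.sum_congr rfl fun a _ => ?_
    ring
  simp only [h]
  simp

private lemma AA_of_ww (B C : LL) : AA = (1 / 2 : ℂ) • ww B C 0 + (-Complex.I / 2) • ww B C 1 := by
  rw [Algebra.smul_def, Algebra.smul_def]
  have h1 : algebraMap ℂ LL (1 / 2) = 1 / 2 := by rw [map_div₀, map_one, map_ofNat]
  have h2 : algebraMap ℂ LL (-Complex.I / 2) = -algebraMap ℂ LL Complex.I / 2 := by
    rw [map_div₀, map_neg, map_ofNat]
  rw [h1, h2, ww0, ww1]
  linear_combination (1 / 2) * (AA + 2 * C) * IIF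

private lemma B_of_ww (B C : LL) : B = (1 / 2 : ℂ) • ww B C 2 := by
  rw [Algebra.smul_def]
  have h1 : algebraMap ℂ LL (1 / 2) = 1 / 2 := by rw [map_div₀, map_one, map_ofNat]
  rw [h1, ww2]
  ring

private lemma C_of_ww (B C : LL) :
    C = (-1 / 4 : ℂ) • ww B C 0 + (-Complex.I / 4) • ww B C 1 := by
  rw [Algebra.smul_def, Algebra.smul_def]
  have h1 : algebraMap ℂ LL (-1 / 4) = -1 / 4 := by rw [map_div₀, map_neg, map_one, map_ofNat]
  have h2 : algebraMap ℂ LL (-Complex.I / 4) = -algebraMap ℂ LL Complex.I / 4 := by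
    rw [map_div₀, map_neg, map_ofNat]
  rw [h1, h2, ww0, ww1]
  linear_combination (1 / 4) * (AA + 2 * C) * IIF

private lemma rank_fr (g : Matrix (Fin 3) (Fin 3) ℂ) (hg : g.transpose * g = 1) (B C : LL)
    (hB : dT B ≠ 0) : Rank2 thA dT (fr g AA B C) := by
  by_contra hcon
  rw [Rank2] at hcon
  push Not at hcon
  -- the Jacobian of any two constant linear combinations vanishes
  have key : ∀ b c : Fin 3, thA (ww B C b) * dT (ww B C c) - thA (ww B C c) * dT (ww B C b) = 0 := by
    intro b c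
    have hD : ∀ (D : Derivation ℂ LL LL) (b : Fin 3),
        D (ww B C b) = ∑ a, algebraMap ℂ LL (g a b) * D (fr g AA B C a) := by
      intro D b
      conv_lhs => rw [ww_of_fr g hg B C b]
      rw [map_sum]
      refine Finset.sum_congr rfl fun a _ => ?_
      rw [D.leibniz, D.map_algebraMap, smul_zero, add_zero, smul_eq_mul]
    rw [hD, hD, hD, hD, Finset.sum_mul_sum, Finset.sum_mul_sum, Finset.sum_comm (γ := Fin 3),
      ← Finset.sum_sub_distrib]
    refine Finset.sum_eq_zero fun i _ => ?_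
    rw [← Finset.sum_sub_distrib]
    refine Finset.sum_eq_zero fun j _ => ?_
    linear_combination (algebraMap ℂ LL (g j b) * algebraMap ℂ LL (g i c)) * hcon j i
  have hlin : ∀ (D : Derivation ℂ LL LL), D AA = (1 / 2 : ℂ) • D (ww B C 0)
      + (-Complex.I / 2) • D (ww B C 1) := by
    intro D
    conv_lhs => rw [AA_of_ww B C]
    rw [map_add, D.map_smul, D.map_smul]
  have hlin2 : ∀ (D : Derivation ℂ LL LL), D B = (1 / 2 : ℂ) • D (ww B C 2) := by
    intro D
    conv_lhs => rw [B_of_ww B C]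
    rw [D.map_smul]
  have h1 : thA AA * dT B - thA B * dT AA = 0 := by
    rw [hlin, hlin, hlin2, hlin2]
    simp only [Algebra.smul_def]
    linear_combination (algebraMap ℂ LL (1 / 2) * algebraMap ℂ LL (1 / 2)) * key 0 2
      + (algebraMap ℂ LL (-Complex.I / 2) * algebraMap ℂ LL (1 / 2)) * key 1 2
  rw [dT_AA, thA_AA, mul_zero, sub_zero] at h1
  exact (mul_ne_zero AA_ne_zero hB) h1

theorem good_tr (d e : Derivation ℂ LL LL) (hde : ∀ u, d (e u) = e (d u)) (Y : Fin 3 → LL)
    (hdet : detM d e Y ≠ 0) (P : Polynomial ℂ)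
    (hP : ∀ a, Polynomial.aeval (lapX d e Y) P (Y a) = 0)
    (F : MvPolynomial (Fin 3) ℂ) (hirr : Irreducible F) (hYF : aeval Y F = 0)
    (g : Matrix (Fin 3) (Fin 3) ℂ) (hg : g.transpose * g = 1) : Good (polyFr g F) P := by
  intro B C hB hF
  rw [aeval_polyFr] at hF
  obtain ⟨hdetx, htr⟩ := transfer d e hde thA dT thA_dT_comm Y (fr g AA B C) hdet
    (rank_fr g hg B C hB) F hirr hYF hF
  have h11 : met thA thA (fr g AA B C) = m11 B C := by
    rw [met_fr thA thA g hg, thA_AA, m11]; ring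
  have h12 : met thA dT (fr g AA B C) = m12 B C := by
    rw [met_fr thA dT g hg, thA_AA, dT_AA, m12]; ring
  have h22 : met dT dT (fr g AA B C) = m22 B := by
    rw [met_fr dT dT g hg, dT_AA, m22]; ring
  have hlap : lapX thA dT (fr g AA B C) = lapB B C := by
    rw [lapX, h11, h12, h22, lapB]
  have hfr : ∀ a, Polynomial.aeval (lapB B C) P (fr g AA B C a) = 0 := by
    intro a
    have h := htr P (MvPolynomial.X a) (by
      rw [aeval_X]
      exact hP a)
    rwa [aeval_X, hlap] at h
  have hww : ∀ b, Polynomial.aeval (lapB B C) P (ww B C b) = 0 := by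
    intro b
    rw [ww_of_fr g hg B C b, map_sum]
    refine Finset.sum_eq_zero fun a _ => ?_
    rw [← Algebra.smul_def, map_smul, hfr, smul_zero]
  refine ⟨?_, ?_, ?_, ?_⟩
  · rw [detM, h11, h12, h22] at hdetx
    exact hdetx
  · have h := AA_of_ww B C
    have h2 : Polynomial.aeval (lapB B C) P AA = Polynomial.aeval (lapB B C) P
        ((1 / 2 : ℂ) • ww B C 0 + (-Complex.I / 2) • ww B C 1) := congrArg _ h
    rw [h2, map_add, map_smul, map_smul, hww, hww, smul_zero, smul_zero, add_zero]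
  · have h := B_of_ww B C
    have h2 : Polynomial.aeval (lapB B C) P B = Polynomial.aeval (lapB B C) P
        ((1 / 2 : ℂ) • ww B C 2) := congrArg _ h
    rw [h2, map_smul, hww, smul_zero]
  · have h := C_of_ww B C
    have h2 : Polynomial.aeval (lapB B C) P C = Polynomial.aeval (lapB B C) P
        ((-1 / 4 : ℂ) • ww B C 0 + (-Complex.I / 4) • ww B C 1) := congrArg _ h
    rw [h2, map_add, map_smul, map_smul, hww, hww, smul_zero, smul_zero, add_zero]

end Pool.Agent.Work.MP_abe657_gt
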