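import Pool.Agent.Work.MP_abe657_gt.Defs2

/-!
Part II, module IsoFrame (M-L). Isotropic frames.

(1) For `v ≠ 0` with `∑ v_i^2 = 0` there is an orthogonal `g` (`gᵀ g = 1`) with `g (1, i, 0) = v`.
If `n = y0 - v` has `n·n = -2 y0·v ≠ 0`, take the reflection `x ↦ x - 2 (x·n)/(n·n) n`. If
`y0·v = v 0 + i v 1 = 0`: then `v 2 ^ 2 = -(v 0^2 + v 1^2) = -(v 0 + i v 1)(v 0 - i v 1) = 0`, so
`v = λ y0`, `λ ≠ 0`; take a complex rotation in the plane of the first two coordinates.
(2) For such `g`: `v · fr g A B C = y0 · (A y0 + B y1 + C e) = -4 C` (`y0·y0 = 0`, `y0·y1 = 0`,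
`y0·e = -4`), so `polyFr g (linForm v) = -4 X 2`. `polyFr g` is an injective linear change of
variables, so it preserves the total degree, and it commutes with homogeneous components:
`homogeneousComponent d (polyFr g F) = polyFr g (homogeneousComponent d F)`, `d = F.totalDegree`.
As `linForm v ∣ lead F`, `X 2` divides the component of degree `d` of `polyFr g F`, so all its
monomials have `s 2 ≠ 0`; and `d` is the largest degree of a monomial of `polyFr g F`. (Here
`s 0 + s 1 + s 2` is the degree.)
-/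

set_option autoImplicit false

namespace Pool.Agent.Work.MP_abe657_gt

open MvPolynomial

private theorem iso_mat (v : Fin 3 → ℂ) (hv : v ≠ 0) (hv2 : ∑ i, v i ^ 2 = 0) :
    ∃ g : Matrix (Fin 3) (Fin 3) ℂ, g.transpose * g = 1 ∧ g.mulVec (y0v ℂ) = v := by
  have hI : Complex.I ^ 2 = -1 := Complex.I_sq
  rw [Fin.sum_univ_three] at hv2
  by_cases h : v 0 + Complex.I * v 1 = 0
  · have hv22 : v 2 = 0 := by
      have : v 2 ^ 2 = 0 := by
        linear_combination hv2 - (v 0 - Complex.I * v 1) * h - v 1 ^ 2 * hI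
      exact pow_eq_zero_iff (two_ne_zero) |>.mp this
    have hv1 : v 1 = Complex.I * v 0 := by
      linear_combination (-Complex.I) * h + v 1 * hI
    have hv0 : v 0 ≠ 0 := by
      intro h0
      apply hv
      funext i
      fin_cases i
      · exact h0
      · simpa [h0] using hv1
      · exact hv22
    set a : ℂ := (v 0 + (v 0)⁻¹) / 2 with ha
    set b : ℂ := -Complex.I * (v 0 - (v 0)⁻¹) / 2 with hb
    have h1 : a + Complex.I * b = v 0 := by
      rw [ha, hb]; linear_combination (-(v 0 - (v 0)⁻¹) / 2) * hI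
    have h2 : a - Complex.I * b = (v 0)⁻¹ := by
      rw [ha, hb]; linear_combination ((v 0 - (v 0)⁻¹) / 2) * hI
    have h3 : a ^ 2 + b ^ 2 = 1 := by
      have : (a + Complex.I * b) * (a - Complex.I * b) = 1 := by
        rw [h1, h2, mul_inv_cancel₀ hv0]
      linear_combination this + b ^ 2 * hI
    refine ⟨!![a, b, 0; -b, a, 0; 0, 0, 1], ?_, ?_⟩
    · ext i j
      fin_cases i <;> fin_cases j <;>
        simp [Matrix.mul_apply, Fin.sum_univ_three] <;> first | ring1 | linear_combination h3
    · funext i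
      fin_cases i
      · simp [Matrix.mulVec, dotProduct, Fin.sum_univ_three, y0v]
        linear_combination h1
      · simp [Matrix.mulVec, dotProduct, Fin.sum_univ_three, y0v]
        rw [hv1]
        linear_combination Complex.I * h1 - b * hI
      · simp [Matrix.mulVec, dotProduct, Fin.sum_univ_three, y0v, hv22]
  · -- reflection
    set n : Fin 3 → ℂ := fun i => y0v ℂ i - v i with hn
    have hn0 : n 0 = 1 - v 0 := by simp [hn, y0v]
    have hn1 : n 1 = Complex.I - v 1 := by simp [hn, y0v]
    have hn2 : n 2 = - v 2 := by simp [hn, y0v]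
    have hnn : n 0 ^ 2 + n 1 ^ 2 + n 2 ^ 2 = -2 * (v 0 + Complex.I * v 1) := by
      rw [hn0, hn1, hn2]
      linear_combination hv2 + hI
    set c : ℂ := -(v 0 + Complex.I * v 1)⁻¹ with hc
    have hcn : c * (n 0 ^ 2 + n 1 ^ 2 + n 2 ^ 2) = 2 := by
      rw [hnn, hc]
      field_simp
    refine ⟨fun i j => (if i = j then 1 else 0) - c * n i * n j, ?_, ?_⟩
    · ext i j
      rw [Matrix.mul_apply, Fin.sum_univ_three]
      simp only [Matrix.transpose_apply]
      fin_cases i <;> fin_cases j <;> simp
      · linear_combination (c * n 0 * n 0) * hcn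
      · linear_combination (c * n 0 * n 1) * hcn
      · linear_combination (c * n 0 * n 2) * hcn
      · linear_combination (c * n 1 * n 0) * hcn
      · linear_combination (c * n 1 * n 1) * hcn
      · linear_combination (c * n 1 * n 2) * hcn
      · linear_combination (c * n 2 * n 0) * hcn
      · linear_combination (c * n 2 * n 1) * hcn
      · linear_combination (c * n 2 * n 2) * hcn
    · have hcy : c * (n 0 + Complex.I * n 1) = 1 := by
        rw [hn0, hn1, hc]
        have : (1 - v 0 + Complex.I * (Complex.I - v 1)) = -(v 0 + Complex.I * v 1) := by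
          linear_combination hI
        rw [this]
        field_simp
      have key : ∀ i, y0v ℂ i - c * n i * (n 0 + Complex.I * n 1) = v i := by
        intro i
        have : n i = y0v ℂ i - v i := rfl
        linear_combination (-(n i)) * hcy - this
      funext i
      rw [← key i]
      simp only [Matrix.mulVec, dotProduct, Fin.sum_univ_three]
      fin_cases i
      · simp [y0v]; ring
      · simp [y0v]; ring
      · simp [y0v]; ring

private theorem fr_X (g : Matrix (Fin 3) (Fin 3) ℂ) (a : Fin 3) :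
    fr g (X 0 : MvPolynomial (Fin 3) ℂ) (X 1) (X 2) a =
      C (g.mulVec (y0v ℂ) a) * X 0 + C (g.mulVec (y1v ℂ) a) * X 1
        + C (g.mulVec (evec ℂ) a) * X 2 := by
  simp only [fr, Matrix.mulVec, dotProduct, Fin.sum_univ_three, y0v, y1v, evec, algebraMap_eq]
  simp only [Matrix.cons_val_zero, Matrix.cons_val_one, Matrix.cons_val, map_add, map_mul,
    map_neg, map_zero, mul_zero, add_zero, mul_one, Algebra.algebraMap_self,
    RingHom.id_apply]
  have h2 : (C 2 : MvPolynomial (Fin 3) ℂ) = 2 := rfl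
  rw [h2]
  ring

private theorem fr_homog (g : Matrix (Fin 3) (Fin 3) ℂ) (a : Fin 3) :
    (fr g (X 0 : MvPolynomial (Fin 3) ℂ) (X 1) (X 2) a).IsHomogeneous 1 := by
  rw [fr_X]
  have h : ∀ (c : ℂ) (i : Fin 3), (C c * X i : MvPolynomial (Fin 3) ℂ).IsHomogeneous 1 := by
    intro c i
    have := (isHomogeneous_C (Fin 3) c).mul (isHomogeneous_X ℂ i)
    simpa using this
  exact ((h _ _).add (h _ _)).add (h _ _)

private theorem polyFr_homog (g : Matrix (Fin 3) (Fin 3) ℂ) (H : MvPolynomial (Fin 3) ℂ) (d : ℕ)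
    (hH : H.IsHomogeneous d) : (polyFr g H).IsHomogeneous d := by
  have := hH.aeval (fr g (X 0 : MvPolynomial (Fin 3) ℂ) (X 1) (X 2)) (fr_homog g)
  rw [one_mul] at this
  exact this

private theorem polyFr_comp (g : Matrix (Fin 3) (Fin 3) ℂ) (F : MvPolynomial (Fin 3) ℂ) (m : ℕ) :
    homogeneousComponent m (polyFr g F) = polyFr g (homogeneousComponent m F) := by
  have h1 : polyFr g F = ∑ i ∈ Finset.range (F.totalDegree + 1),
      polyFr g (homogeneousComponent i F) := by
    conv_lhs => rw [← sum_homogeneousComponent F]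
    unfold polyFr
    rw [map_sum]
  rw [h1, map_sum]
  have h2 : ∀ i ∈ Finset.range (F.totalDegree + 1),
      homogeneousComponent m (polyFr g (homogeneousComponent i F)) =
        if m = i then polyFr g (homogeneousComponent i F) else 0 := by
    intro i _
    apply homogeneousComponent_of_mem
    rw [mem_homogeneousSubmodule]
    exact polyFr_homog g _ i (homogeneousComponent_isHomogeneous i F)
  rw [Finset.sum_congr rfl h2, Finset.sum_ite_eq]
  split_ifs with h
  · rfl
  · rw [homogeneousComponent_eq_zero m F (by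
      rw [Finset.mem_range] at h
      omega)]
    unfold polyFr
    rw [map_zero]

private theorem polyFr_inj (g : Matrix (Fin 3) (Fin 3) ℂ) (hg : g.transpose * g = 1)
    (F : MvPolynomial (Fin 3) ℂ) (h : polyFr g F = 0) : F = 0 := by
  apply MvPolynomial.funext
  intro x
  have hg' : g * g.transpose = 1 := mul_eq_one_comm.mp hg
  have hI : Complex.I ^ 2 = -1 := Complex.I_sq
  set z : Fin 3 → ℂ := g.transpose.mulVec x with hz
  have h1 := aeval_polyFr g F ((z 0 - Complex.I * z 1) / 2) (z 2 / 2)
    ((-Complex.I * z 1 - z 0) / 4)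
  rw [h, map_zero] at h1
  have h2 : fr g ((z 0 - Complex.I * z 1) / 2) (z 2 / 2) ((-Complex.I * z 1 - z 0) / 4) = x := by
    have h3 : g.mulVec z = x := by
      rw [hz, Matrix.mulVec_mulVec, hg', Matrix.one_mulVec]
    rw [← h3]
    funext a
    unfold fr Matrix.mulVec dotProduct
    apply Finset.sum_congr rfl
    intro b _
    have : (z 0 - Complex.I * z 1) / 2 * y0v ℂ b + z 2 / 2 * y1v ℂ b +
        (-Complex.I * z 1 - z 0) / 4 * evec ℂ b = z b := by
      fin_cases b
      · simp [y0v, y1v, evec]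
        ring
      · simp [y0v, y1v, evec]
        linear_combination (-(z 1)) * hI
      · simp [y0v, y1v, evec]
    rw [this]
    rfl
  rw [h2] at h1
  rw [map_zero, ← MvPolynomial.coe_aeval_eq_eval]
  exact h1.symm

private theorem polyFr_lin (g : Matrix (Fin 3) (Fin 3) ℂ) (hg : g.transpose * g = 1)
    (v : Fin 3 → ℂ) (hv : g.mulVec (y0v ℂ) = v) : polyFr g (linForm v) = C (-4) * X 2 := by
  have hI : Complex.I * Complex.I = -1 := Complex.I_mul_I
  have h1 : ∀ y : Fin 3 → ℂ, ∑ a, v a * g.mulVec y a = ∑ a, y0v ℂ a * y a := by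
    intro y
    have : v ⬝ᵥ g.mulVec y = y0v ℂ ⬝ᵥ y := by
      rw [← hv, Matrix.dotProduct_mulVec, Matrix.vecMul_mulVec, hg, Matrix.vecMul_one]
    exact this
  have h2 : polyFr g (linForm v) = ∑ a, C (v a) *
      fr g (X 0 : MvPolynomial (Fin 3) ℂ) (X 1) (X 2) a := by
    unfold polyFr linForm
    rw [map_sum]
    apply Finset.sum_congr rfl
    intro a _
    rw [map_mul, aeval_X, aeval_C]
    rfl
  have h3 : ∑ a, C (v a) * fr g (X 0 : MvPolynomial (Fin 3) ℂ) (X 1) (X 2) a =
      C (∑ a, v a * g.mulVec (y0v ℂ) a) * X 0 + C (∑ a, v a * g.mulVec (y1v ℂ) a) * X 1 +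
        C (∑ a, v a * g.mulVec (evec ℂ) a) * X 2 := by
    simp only [fr_X, Fin.sum_univ_three, map_add, map_mul]
    ring
  rw [h2, h3, h1, h1, h1]
  have e1 : ∑ a, y0v ℂ a * y0v ℂ a = 0 := by
    simp [Fin.sum_univ_three, y0v]
  have e2 : ∑ a, y0v ℂ a * y1v ℂ a = 0 := by
    simp [Fin.sum_univ_three, y0v, y1v]
  have e3 : ∑ a, y0v ℂ a * evec ℂ a = -4 := by
    simp [Fin.sum_univ_three, y0v, evec]
    linear_combination 2 * hI
  rw [e1, e2, e3]
  simp

private theorem iso_lead (F : MvPolynomial (Fin 3) ℂ) (hF : F ≠ 0) : lead F ≠ 0 := by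
  intro h
  have hs : F.support.Nonempty := MvPolynomial.support_nonempty.mpr hF
  obtain ⟨s, hs1, hs2⟩ := Finset.exists_mem_eq_sup F.support hs
    (fun m => (Finsupp.toMultiset m).card)
  rw [← totalDegree_eq] at hs2
  have h1 : coeff s (lead F) = coeff s F := by
    unfold lead
    rw [coeff_homogeneousComponent, if_pos]
    rw [hs2, Finsupp.card_toMultiset]
    rfl
  rw [h, coeff_zero] at h1
  exact (mem_support_iff.mp hs1) h1.symm

private theorem iso_degree (s : Fin 3 →₀ ℕ) : Finsupp.degree s = s 0 + s 1 + s 2 := by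
  rw [Finsupp.degree_eq_sum, Fin.sum_univ_three]

theorem iso_frame (F : MvPolynomial (Fin 3) ℂ) (hF : F ≠ 0) (v : Fin 3 → ℂ) (hv : v ≠ 0)
    (hv2 : ∑ i, v i ^ 2 = 0) (hdvd : linForm v ∣ lead F) :
    ∃ g : Matrix (Fin 3) (Fin 3) ℂ, g.transpose * g = 1 ∧ polyFr g F ≠ 0 ∧
      ∀ s ∈ (polyFr g F).support,
        (∀ s' ∈ (polyFr g F).support, s' 0 + s' 1 + s' 2 ≤ s 0 + s 1 + s 2) → s 2 ≠ 0 := by
  obtain ⟨g, hg, hgv⟩ := iso_mat v hv hv2
  refine ⟨g, hg, fun h => hF (polyFr_inj g hg F h), ?_⟩
  intro s hs hmax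
  -- the leading component
  have hD0 : homogeneousComponent F.totalDegree (polyFr g F) ≠ 0 := by
    rw [polyFr_comp]
    intro h
    exact iso_lead F hF (polyFr_inj g hg _ h)
  obtain ⟨s', hs'⟩ := MvPolynomial.ne_zero_iff.mp hD0
  rw [coeff_homogeneousComponent] at hs'
  have hs'1 : Finsupp.degree s' = F.totalDegree := by
    by_contra hne
    rw [if_neg hne] at hs'
    exact hs' rfl
  rw [if_pos hs'1] at hs'
  have h1 := hmax s' (mem_support_iff.mpr hs')
  rw [← iso_degree, ← iso_degree, hs'1] at h1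
  have h2 : homogeneousComponent (Finsupp.degree s) (polyFr g F) ≠ 0 := by
    intro h
    have := coeff_homogeneousComponent (Finsupp.degree s) (polyFr g F) s
    rw [h, if_pos rfl, coeff_zero] at this
    exact (mem_support_iff.mp hs) this.symm
  have h3 : Finsupp.degree s ≤ F.totalDegree := by
    by_contra hlt
    push Not at hlt
    apply h2
    rw [polyFr_comp, homogeneousComponent_eq_zero _ F hlt]
    unfold polyFr
    rw [map_zero]
  have h4 : Finsupp.degree s = F.totalDegree := le_antisymm h3 h1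
  obtain ⟨K, hK⟩ := hdvd
  have h5 : homogeneousComponent F.totalDegree (polyFr g F) =
      X 2 * (C (-4) * polyFr g K) := by
    rw [polyFr_comp]
    have : homogeneousComponent F.totalDegree F = lead F := rfl
    rw [this, hK]
    have h6 : polyFr g (linForm v * K) = polyFr g (linForm v) * polyFr g K := by
      unfold polyFr
      rw [map_mul]
    rw [h6, polyFr_lin g hg v hgv]
    ring
  have h7 : coeff s (homogeneousComponent F.totalDegree (polyFr g F)) = coeff s (polyFr g F) := by
    rw [coeff_homogeneousComponent, if_pos h4]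
  rw [h5, coeff_X_mul'] at h7
  intro h8
  have h9 : (2 : Fin 3) ∉ s.support := by
    rw [Finsupp.notMem_support_iff]
    exact h8
  rw [if_neg h9] at h7
  exact (mem_support_iff.mp hs) h7.symm

end Pool.Agent.Work.MP_abe657_gt
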