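import Pool.Agent.Work.MP_abe657_gt.Defs2

/-!
Part II, module HalfStart (M). Recentering at `b = 1/2`.

For the weights `α = -1, γ1 = 1, γ2 = 2, ω = 1/2`: `wu + ω wv = s 0 + s 1 / 2 =: w(s)`, independent of
`s 2`. Let `M` be its maximum over the support of `F` (nonzero, as `F = 0` makes the claim void: the
support of `shC c F` is then empty). With `Z` as in the statement, the coefficient of `s^(-M)` of
`aeval_ptc` is `∑_{w(s) = M} iotaK (coeff s) tp (-(s 1 + 2 s 2)) (iotaK c tp 2)^(s 2)
= ∑_{w(s) = M} iotaK (coeff s c^(s 2)) tp (-(s 1)) = 0`, so for every `j`: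
(*) `∑_{w(s) = M, s 1 = j} coeff s c^(s 2) = 0` (here `s 0` is fixed by `s 1`).
The coefficient of `A^i B^j C^l` in `shC c F` is `∑_{m ≥ l} binom(m, l) c^(m-l) coeff (i,j,m) F`, so
`w ≤ M` on the support of `shC c F`, and the maximum of `w` on the support of `shC c F` is `M` (the
largest `m` with `(i,j,m)` in the support, `w = M`, stays in the support); an `s` on the face of
`shC c F` has `w(s) = M`. `gsum (shC c F) ... 0 s` is the sum of `coeff s' * 0^(s' 2)` over the `s'` with
`wu s' = wu s`, `wv s' = wv s`; only `s' 2 = 0` contributes, which is at most one monomial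
`(i, j, 0)`, `i + j/2 = M`, with coefficient `∑_m c^m coeff (i,j,m) F = 0` by (*).
-/

set_option autoImplicit false

namespace Pool.Agent.Work.MP_abe657_gt

open MvPolynomial

/-- the exponent vector `(i, j, k)` -/
private noncomputable def hsm (i j k : ℕ) : Fin 3 →₀ ℕ :=
  Finsupp.single 0 i + Finsupp.single 1 j + Finsupp.single 2 k

private theorem hsm_eq (i j k : ℕ) (s : Fin 3 →₀ ℕ) :
    hsm i j k = s ↔ i = s 0 ∧ j = s 1 ∧ k = s 2 := by
  constructor
  · rintro rfl
    simp [hsm]
  · rintro ⟨h0, h1, h2⟩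
    ext a
    fin_cases a
    · simp [hsm, h0]
    · simp [hsm, h1]
    · simp [hsm, h2]

private theorem hs_mon (i j k : ℕ) :
    (X 0 : MvPolynomial (Fin 3) ℂ) ^ i * X 1 ^ j * X 2 ^ k = monomial (hsm i j k) 1 := by
  rw [X_pow_eq_monomial, X_pow_eq_monomial, X_pow_eq_monomial, monomial_mul, monomial_mul]
  simp [hsm]

private theorem hs_coeff_term (c a : ℂ) (i j n : ℕ) (s : Fin 3 →₀ ℕ) :
    coeff s (C a * ((X 0 : MvPolynomial (Fin 3) ℂ) ^ i * X 1 ^ j * (X 2 + C c) ^ n)) =
      if i = s 0 ∧ j = s 1 then a * ((n.choose (s 2) : ℂ) * c ^ (n - s 2)) else 0 := by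
  have h1 : (X 0 : MvPolynomial (Fin 3) ℂ) ^ i * X 1 ^ j * (X 2 + C c) ^ n =
      ∑ k ∈ Finset.range (n + 1), monomial (hsm i j k) (c ^ (n - k) * (n.choose k : ℂ)) := by
    rw [add_pow, Finset.mul_sum]
    refine Finset.sum_congr rfl fun k _ => ?_
    have h2 : (C c : MvPolynomial (Fin 3) ℂ) ^ (n - k) * (n.choose k : MvPolynomial (Fin 3) ℂ) =
        C (c ^ (n - k) * (n.choose k : ℂ)) := by
      rw [map_mul, map_pow, map_natCast]
    rw [mul_assoc (X 2 ^ k), h2, ← mul_assoc, hs_mon, mul_comm, C_mul_monomial, mul_one]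
  rw [h1, coeff_C_mul, coeff_sum]
  by_cases hij : i = s 0 ∧ j = s 1
  · rw [if_pos hij]
    congr 1
    by_cases hn : s 2 ∈ Finset.range (n + 1)
    · rw [Finset.sum_eq_single (s 2)]
      · rw [coeff_monomial, if_pos ((hsm_eq _ _ _ _).2 ⟨hij.1, hij.2, rfl⟩), mul_comm]
      · intro k _ hk
        rw [coeff_monomial, if_neg]
        intro h2
        exact hk ((hsm_eq _ _ _ _).1 h2).2.2
      · intro h2
        exact (h2 hn).elim
    · rw [Finset.mem_range] at hn
      rw [Nat.choose_eq_zero_of_lt (by omega), Nat.cast_zero, zero_mul]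
      refine Finset.sum_eq_zero fun k hk => ?_
      rw [Finset.mem_range] at hk
      rw [coeff_monomial, if_neg]
      intro h2
      have := ((hsm_eq _ _ _ _).1 h2).2.2
      omega
  · rw [if_neg hij]
    have h2 : ∑ k ∈ Finset.range (n + 1),
        coeff s (monomial (hsm i j k) (c ^ (n - k) * (n.choose k : ℂ))) = 0 := by
      refine Finset.sum_eq_zero fun k _ => ?_
      rw [coeff_monomial, if_neg]
      intro h2
      have := (hsm_eq _ _ _ _).1 h2
      exact hij ⟨this.1, this.2.1⟩
    rw [h2, mul_zero]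

private theorem hs_coeff (c : ℂ) (F : MvPolynomial (Fin 3) ℂ) (s : Fin 3 →₀ ℕ) :
    coeff s (shC c F) = ∑ s' ∈ F.support, if s' 0 = s 0 ∧ s' 1 = s 1 then
      coeff s' F * (((s' 2).choose (s 2) : ℂ) * c ^ (s' 2 - s 2)) else 0 := by
  unfold shC
  rw [aeval_vec, coeff_sum]
  refine Finset.sum_congr rfl fun s' _ => ?_
  exact hs_coeff_term c (coeff s' F) (s' 0) (s' 1) (s' 2) s

private noncomputable def hsw (s : Fin 3 →₀ ℕ) : ℚ := (s 0 : ℚ) + 1 / 2 * s 1

private theorem hsw_eq (s : Fin 3 →₀ ℕ) : wu (-1) s + 1 / 2 * wv 1 2 s = hsw s := by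
  unfold wu wv hsw
  ring

private theorem hs_pow {Z : LL} (hZ : Ge Z 0) (n : ℕ) : Ge (Z ^ n) 0 ∧ cf (Z ^ n) 0 = cf Z 0 ^ n := by
  induction n with
  | zero => rw [pow_zero, pow_zero]; exact Ge_cf_one
  | succ n ih =>
    rw [pow_succ, pow_succ]
    have h1 := ih.1.mul hZ
    have h2 := cf_mul_lead ih.1 hZ
    rw [add_zero] at h1 h2
    exact ⟨h1, by rw [h2, ih.2]⟩

private theorem hs_cf_sum {κ : Type} (S : Finset κ) (f : κ → LL) (x : ℚ) :
    cf (∑ i ∈ S, f i) x = ∑ i ∈ S, cf (f i) x := by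
  classical
  induction S using Finset.induction_on with
  | empty => simp [cf_zero]
  | insert a S ha ih =>
    rw [Finset.sum_insert ha, Finset.sum_insert ha, ← ih]
    rfl

private theorem hs_ckf_sum {κ : Type} (S : Finset κ) (f : κ → kk) (x : ℚ) :
    ckf (∑ i ∈ S, f i) x = ∑ i ∈ S, ckf (f i) x := by
  classical
  induction S using Finset.induction_on with
  | empty => simp [ckf_zero]
  | insert a S ha ih => rw [Finset.sum_insert ha, Finset.sum_insert ha, ckf_add, ih]

theorem half_start (F : MvPolynomial (Fin 3) ℂ) (c : ℂ) (Z : LL) (hZ : Ge Z 0)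
    (hc : cf Z 0 = iotaK c * tp 2) (h0 : aeval (ptc (-1) 1 2 (1 / 2) Z) F = 0)
    (s : Fin 3 →₀ ℕ) (hs : OnFace (shC c F) (-1) 1 2 (1 / 2) s) :
    gsum (shC c F) (-1) 1 2 0 s = 0 := by
  classical
  -- weights on the support of `shC c F`
  have hsupp : ∀ t ∈ (shC c F).support, ∃ t' ∈ F.support, t' 0 = t 0 ∧ t' 1 = t 1 := by
    intro t ht
    by_contra hno
    push Not at hno
    rw [mem_support_iff, hs_coeff] at ht
    apply ht
    refine Finset.sum_eq_zero fun t' ht' => ?_
    rw [if_neg]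
    rintro ⟨e1, e2⟩
    exact hno t' ht' e1 e2
  obtain ⟨hs1, hs2⟩ := hs
  obtain ⟨s0, hs0, hs0a, hs0b⟩ := hsupp s hs1
  -- the maximum `M` on the support of `F`
  obtain ⟨m, hm, hmax⟩ := Finset.exists_max_image F.support hsw ⟨s0, hs0⟩
  -- `s` has the maximal weight
  have hsM : hsw s = hsw m := by
    apply le_antisymm
    · have : hsw s = hsw s0 := by
        unfold hsw
        rw [hs0a, hs0b]
      rw [this]
      exact hmax s0 hs0
    · obtain ⟨m', hm', hmax'⟩ := Finset.exists_max_image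
        (F.support.filter (fun t => t 0 = m 0 ∧ t 1 = m 1)) (fun t => t 2)
        ⟨m, Finset.mem_filter.2 ⟨hm, rfl, rfl⟩⟩
      rw [Finset.mem_filter] at hm'
      obtain ⟨hm'1, hm'2, hm'3⟩ := hm'
      have h1 : coeff m' (shC c F) = coeff m' F := by
        rw [hs_coeff, Finset.sum_eq_single m']
        · rw [if_pos ⟨rfl, rfl⟩]
          simp
        · intro t ht htne
          by_cases h2 : t 0 = m' 0 ∧ t 1 = m' 1
          · rw [if_pos h2]
            have h3 := hmax' t (Finset.mem_filter.2 ⟨ht, h2.1.trans hm'2, h2.2.trans hm'3⟩)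
            have h4 : t 2 ≠ m' 2 := by
              intro h5
              apply htne
              ext a
              fin_cases a
              · exact h2.1
              · exact h2.2
              · exact h5
            have h5 : t 2 < m' 2 := lt_of_le_of_ne h3 h4
            rw [Nat.choose_eq_zero_of_lt h5]
            simp
          · rw [if_neg h2]
        · intro h2
          exact (h2 hm'1).elim
      have h2 : m' ∈ (shC c F).support := by
        rw [mem_support_iff, h1]
        exact mem_support_iff.1 hm'1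
      have h3 := hs2 m' h2
      rw [hsw_eq, hsw_eq] at h3
      have h4 : hsw m' = hsw m := by
        unfold hsw
        rw [hm'2, hm'3]
      rw [← h4]
      exact h3
  -- the relation (*)
  have hstar : ∀ j : ℕ, ∑ t ∈ F.support, (if hsw t = hsw m ∧ t 1 = j then
      coeff t F * c ^ (t 2) else 0) = 0 := by
    intro j
    have h1 := congrArg (fun x => cf x (-(hsw m))) h0
    beta_reduce at h1
    rw [aeval_ptc, hs_cf_sum, cf_zero] at h1
    have h2 : ∀ t ∈ F.support, cf (algebraMap ℂ LL (coeff t F) *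
        (mon (-(wu (-1) t + 1 / 2 * wv 1 2 t)) (-(wv 1 2 t)) * Z ^ (t 2))) (-(hsw m)) =
        if hsw t = hsw m then iotaK (coeff t F * c ^ (t 2)) * tp (-(t 1 : ℚ)) else 0 := by
      intro t ht
      have h3 : algebraMap ℂ LL (coeff t F) = iotaL (iotaK (coeff t F)) := rfl
      rw [h3, cf_iotaL_mul, cf_mon_mul, hsw_eq]
      obtain ⟨g1, g2⟩ := hs_pow hZ (t 2)
      split_ifs with h4
      · rw [h4, sub_self, g2, hc, mul_pow, tp_pow, map_mul, map_pow]
        have h5 : tp (-(wv 1 2 t)) * tp (((t 2 : ℕ) : ℚ) * 2) = tp (-(t 1 : ℚ)) := by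
          rw [tp_mul]
          congr 1
          unfold wv
          ring
        rw [← h5]
        ring
      · have h5 : hsw t < hsw m := lt_of_le_of_ne (hmax t ht) h4
        rw [g1 (-hsw m - -hsw t) (by linarith), mul_zero, mul_zero]
    rw [Finset.sum_congr rfl h2] at h1
    have h3 := congrArg (fun x => ckf x (-(j : ℚ))) h1
    beta_reduce at h3
    rw [hs_ckf_sum, ckf_zero] at h3
    refine Eq.trans ?_ h3
    refine Finset.sum_congr rfl fun t _ => ?_
    by_cases h4 : hsw t = hsw m
    · by_cases h5 : t 1 = j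
      · rw [if_pos ⟨h4, h5⟩, if_pos h4, ckf_iotaK_mul, h5, ckf_tp, mul_one]
      · rw [if_neg (fun h6 => h5 h6.2), if_pos h4, ckf_iotaK_mul, ckf_tp_of_ne, mul_zero]
        intro h6
        apply h5
        have : (t 1 : ℚ) = j := by linarith
        exact_mod_cast this
    · rw [if_neg (fun h6 => h4 h6.1), if_neg h4, ckf_zero]
  -- every coefficient with `C`-exponent zero vanishes
  unfold gsum
  refine Finset.sum_eq_zero fun t ht => ?_
  rw [Finset.mem_filter] at ht
  obtain ⟨_, ht1, ht2⟩ := ht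
  by_cases h2 : t 2 = 0
  · have hwt : hsw t = hsw m := by
      rw [← hsM, ← hsw_eq, ← hsw_eq, ht1, ht2]
    have h3 : coeff t (shC c F) = 0 := by
      rw [hs_coeff]
      refine Eq.trans ?_ (hstar (t 1))
      refine Finset.sum_congr rfl fun t' _ => ?_
      rw [h2]
      have h4 : (t' 0 = t 0 ∧ t' 1 = t 1) ↔ (hsw t' = hsw m ∧ t' 1 = t 1) := by
        constructor
        · rintro ⟨e1, e2⟩
          refine ⟨?_, e2⟩
          rw [← hwt]
          unfold hsw
          rw [e1, e2]
        · rintro ⟨e1, e2⟩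
          refine ⟨?_, e2⟩
          rw [← hwt] at e1
          unfold hsw at e1
          rw [e2] at e1
          have e3 : (t' 0 : ℚ) = t 0 := by linarith
          exact_mod_cast e3
      by_cases h5 : t' 0 = t 0 ∧ t' 1 = t 1
      · rw [if_pos h5, if_pos (h4.1 h5)]
        simp
      · rw [if_neg h5, if_neg (fun h6 => h5 (h4.2 h6))]
    rw [h3, zero_mul]
  · rw [zero_pow h2, mul_zero]

end Pool.Agent.Work.MP_abe657_gt
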