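import Pool.Agent.Work.MP_abe657_gt.Ord

/-!
Module CoreSmall (S-M). If the inverse metric is small, the Laplacian raises all exponents by `ε > 0`,
so `P(Δ)A = P(0) A + (higher)` cannot vanish.

Proof. With `D = g11 g22 - g12²`, `a = g22/D`, `b = -g12/D`, `c = g11/D` have exponents `≥ ε`.
`lapFun u = -(thA (a thA u + b dT u) + dT (b thA u + c dT u) + (thA D/(2D)) (a thA u + b dT u)
+ (dT D/(2D)) (b thA u + c dT u))`. If `δ` is the order of `D ≠ 0`, then `thA D`, `dT D` have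
exponents `≥ δ`, so `thA D/(2D)`, `dT D/(2D)` have exponents `≥ 0`. Hence `Ge u r → Ge (Δ u) (r + ε)`,
and, for `n ≥ 1`, `Δ^n A` has exponents `≥ -1 + n ε > -1`. The coefficient at `-1` of
`P(Δ) A = ∑ P_n Δ^n A` is `P(0) ≠ 0`.
-/

set_option autoImplicit false

namespace Pool.Agent.Work.MP_abe657_gt

theorem Ge.smulC {x : LL} {a : ℚ} (c : ℂ) (hx : Ge x a) : Ge (c • x) a := by
  intro q hq
  rw [cf_smul, hx q hq, mul_zero]

theorem half_div (x D : LL) : x / (2 * D) = (1 / 2 : ℂ) • (x * D⁻¹) := by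
  rw [Algebra.smul_def, map_div₀, map_one, map_ofNat]
  rw [div_eq_mul_inv, mul_inv]
  ring

/-- coefficient as an additive map -/
noncomputable def cfHom (q : ℚ) : LL →+ kk where
  toFun := fun x => cf x q
  map_zero' := rfl
  map_add' := fun x y => cf_add x y q

theorem lap_raise (g11 g12 g22 : LL) (hD : g11 * g22 - g12 ^ 2 ≠ 0) (ε : ℚ)
    (ha : Ge (g22 / (g11 * g22 - g12 ^ 2)) ε) (hb : Ge (g12 / (g11 * g22 - g12 ^ 2)) ε)
    (hc : Ge (g11 / (g11 * g22 - g12 ^ 2)) ε) {u : LL} {r : ℚ} (hu : Ge u r) :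
    Ge (lapFun thA dT g11 g12 g22 u) (r + ε) := by
  obtain ⟨δ, hδ, hδ0⟩ := exists_ord hD
  have hDinv := hδ.inv hδ0
  have h1 : Ge (thA (g11 * g22 - g12 ^ 2) / (2 * (g11 * g22 - g12 ^ 2))) 0 := by
    rw [half_div]
    have := (hδ.thA.mul hDinv).smulC (1 / 2 : ℂ)
    rwa [add_neg_cancel] at this
  have h2 : Ge (dT (g11 * g22 - g12 ^ 2) / (2 * (g11 * g22 - g12 ^ 2))) 0 := by
    rw [half_div]
    have := (hδ.dT.mul hDinv).smulC (1 / 2 : ℂ)
    rwa [add_neg_cancel] at this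
  have h3 : Ge ((g22 * thA u - g12 * dT u) / (g11 * g22 - g12 ^ 2)) (r + ε) := by
    have e : (g22 * thA u - g12 * dT u) / (g11 * g22 - g12 ^ 2) =
        thA u * (g22 / (g11 * g22 - g12 ^ 2)) - dT u * (g12 / (g11 * g22 - g12 ^ 2)) := by ring
    rw [e]
    exact (hu.thA.mul ha).sub (hu.dT.mul hb)
  have h4 : Ge ((g11 * dT u - g12 * thA u) / (g11 * g22 - g12 ^ 2)) (r + ε) := by
    have e : (g11 * dT u - g12 * thA u) / (g11 * g22 - g12 ^ 2) =
        dT u * (g11 / (g11 * g22 - g12 ^ 2)) - thA u * (g12 / (g11 * g22 - g12 ^ 2)) := by ring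
    rw [e]
    exact (hu.dT.mul hc).sub (hu.thA.mul hb)
  have h5 := h1.mul h3
  have h6 := h2.mul h4
  rw [zero_add] at h5 h6
  unfold lapFun
  exact (((h3.thA.add h4.dT).add h5).add h6).neg

theorem core_small (g11 g12 g22 : LL) (hD : g11 * g22 - g12 ^ 2 ≠ 0) (ε : ℚ) (hε : 0 < ε)
    (ha : Ge (g22 / (g11 * g22 - g12 ^ 2)) ε) (hb : Ge (g12 / (g11 * g22 - g12 ^ 2)) ε)
    (hc : Ge (g11 / (g11 * g22 - g12 ^ 2)) ε) (P : Polynomial ℂ) (hP0 : P.eval 0 ≠ 0)
    (h1 : Polynomial.aeval (lapO thA dT g11 g12 g22) P AA = 0) : False := by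
  have hpow : ∀ n : ℕ, Ge ((lapO thA dT g11 g12 g22 ^ n) AA) (-1 + n * ε) := by
    intro n
    induction n with
    | zero => simpa using Ge_AA
    | succ n ih =>
      rw [pow_succ', Module.End.mul_apply, lapO_apply]
      have := lap_raise g11 g12 g22 hD ε ha hb hc ih
      have e : (-1 + n * ε + ε : ℚ) = -1 + (n + 1 : ℕ) * ε := by push_cast; ring
      rwa [e] at this
  rw [Polynomial.aeval_eq_sum_range, LinearMap.sum_apply] at h1
  have h2 := congrArg (cfHom (-1)) h1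
  rw [map_sum, map_zero, Finset.sum_eq_single 0] at h2
  · rw [LinearMap.smul_apply, pow_zero, Module.End.one_apply] at h2
    change cf (P.coeff 0 • AA) (-1) = 0 at h2
    rw [cf_smul, cf_AA, mul_one, Polynomial.coeff_zero_eq_eval_zero] at h2
    exact hP0 ((map_eq_zero iotaK).mp h2)
  · intro n _ hn
    change cf ((P.coeff n • lapO thA dT g11 g12 g22 ^ n) AA) (-1) = 0
    rw [LinearMap.smul_apply, cf_smul]
    have hn' : (0 : ℚ) < n := by exact_mod_cast Nat.pos_of_ne_zero hn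
    rw [hpow n (-1) (by nlinarith), mul_zero]
  · intro h
    exact absurd (Finset.mem_range.mpr (Nat.succ_pos _)) h

end Pool.Agent.Work.MP_abe657_gt
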