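import Pool.Agent.Work.MP_abe657_gt.Defs2
import Pool.Agent.Work.MP_abe657_gt.CoreSmall

/-!
Part II, module ZeroA (M). Points `(A, B, C)`, `A = s⁻¹`, `B = 1/t`, `C = c + s t^(-2) Z`,
`ζ = cf Z 0 ≠ 0` with only positive exponents of `t`.

Put `h = t^(-2) ζ`, of order `y > -2` in `t`. All of `m11, m12, m22` have exponents `≥ 0`;
`m22 = 4 t^(-4)`, `cf m12 0 = -4 dk h`, `cf m11 0 = 8 h`, so `D0 := cf mD 0 = 16 (2 h t^(-4) - (dk h)^2)`,
which is not `0`: its coefficient at the exponent `y - 4` is `32 (ckf h y)` (the square has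
exponents `≥ 2 y - 2 > y - 4`). So `mD` has order `0`, by `lap_raise` with `ε = 0` the Laplacian maps
`Ge _ 0` to `Ge _ 0`, and for `Ge u 0`, `k = cf u 0`,
`cf (Δ u) 0 = -(dk (H k') + (dk D0/(2 D0)) H k')`, `H = 8 h/D0`, `k' = dk k`
(`thA` of anything has coefficient `0` at exponent `0`). `H` has order `4` in `t`, so this raises the
exponents of `t` by `2`: if `GeK k a` then `GeK (cf (Δ u) 0) (a + 2)`. Apply this to `u = Δ^n B`,
`B = mon 0 (-1)`: `cf (Δ^n B) 0` has exponents `≥ -1 + 2n`. So the coefficient of `t^(-1)` of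
`cf (P(Δ) B) 0 = 0` is `P(0) = 0`, contradiction.
-/

set_option autoImplicit false

namespace Pool.Agent.Work.MP_abe657_gt

open MvPolynomial

private theorem zeroA_thB : thA (mon 0 (-1)) = 0 := by
  rw [thA_mon]
  simp

private theorem zeroA_dTB : dT (mon 0 (-1)) = -mon 0 (-2) := by
  rw [dT_mon]
  norm_num

private theorem zeroA_thC (c : ℂ) (Z : LL) :
    thA (mon 1 (-2) * Z + algebraMap ℂ LL c) = thA (mon 1 (-2) * Z) := by
  rw [map_add, thA.map_algebraMap, add_zero]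

private theorem zeroA_dTC (c : ℂ) (Z : LL) :
    dT (mon 1 (-2) * Z + algebraMap ℂ LL c) = dT (mon 1 (-2) * Z) := by
  rw [map_add, dT.map_algebraMap, add_zero]

private theorem zeroA_nat_mul (n : ℕ) (x : LL) (q : ℚ) : cf ((n : LL) * x) q = (n : kk) * cf x q := by
  have h : (n : LL) = iotaL (n : kk) := (map_natCast iotaL n).symm
  rw [h, cf_iotaL_mul]

private theorem zeroA_m11 (c : ℂ) (Z : LL) (q : ℚ) :
    cf (m11 (mon 0 (-1)) (mon 1 (-2) * Z + algebraMap ℂ LL c)) q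
      = 8 * ((q + 1 : ℚ) : kk) * (tp (-2) * cf Z q) := by
  have e : m11 (mon 0 (-1)) (mon 1 (-2) * Z + algebraMap ℂ LL c)
      = -(((8 : ℕ) : LL) * (AA * thA (mon 1 (-2) * Z))) := by
    rw [m11, zeroA_thB, zeroA_thC]
    push_cast
    ring
  rw [e, cf_neg, zeroA_nat_mul, cf_AA_mul, cf_thA, cf_mon_mul]
  have : q + 1 - 1 = q := by ring
  rw [this]
  push_cast
  ring

private theorem zeroA_m12 (c : ℂ) (Z : LL) (q : ℚ) :
    cf (m12 (mon 0 (-1)) (mon 1 (-2) * Z + algebraMap ℂ LL c)) q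
      = -(4 * dk (tp (-2) * cf Z q)) := by
  have e : m12 (mon 0 (-1)) (mon 1 (-2) * Z + algebraMap ℂ LL c)
      = -(((4 : ℕ) : LL) * (AA * dT (mon 1 (-2) * Z))) := by
    rw [m12, zeroA_thB, zeroA_dTC]
    push_cast
    ring
  rw [e, cf_neg, zeroA_nat_mul, cf_AA_mul, cf_dT, cf_mon_mul]
  have : q + 1 - 1 = q := by ring
  rw [this]
  push_cast
  ring

private theorem zeroA_m22 : m22 (mon 0 (-1)) = ((4 : ℕ) : LL) * mon 0 (-4) := by
  rw [m22, zeroA_dTB, neg_sq, mon_pow]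
  push_cast
  norm_num

private theorem zeroA_div_ge {x D : LL} {a δ : ℚ} (hx : Ge x a) (hD : Ge D δ)
    (hD0 : cf D δ ≠ 0) : Ge (x / D) (a - δ) := by
  rw [div_eq_mul_inv, sub_eq_add_neg]
  exact hx.mul (hD.inv hD0)

private theorem zeroA_div_cf {x D : LL} (hx : Ge x 0) (hD : Ge D 0)
    (hD0 : cf D 0 ≠ 0) : cf (x / D) 0 = cf x 0 / cf D 0 := by
  have := cf_mul_lead hx (hD.inv hD0)
  rw [neg_zero, add_zero] at this
  have h2 := cf_inv_lead hD hD0
  rw [neg_zero] at h2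
  rw [div_eq_mul_inv, this, h2, div_eq_mul_inv]

private theorem zeroA_mul_cf {x y : LL} (hx : Ge x 0) (hy : Ge y 0) :
    cf (x * y) 0 = cf x 0 * cf y 0 := by
  have := cf_mul_lead hx hy
  rwa [add_zero] at this

theorem zero_a (F : MvPolynomial (Fin 3) ℂ) (P : Polynomial ℂ) (hG : Good F P)
    (hP0 : P.eval 0 ≠ 0) (c : ℂ) (Z : LL) (hZ : Near 0 Z) (hne : cf Z 0 ≠ 0)
    (h0 : aeval ![AA, mon 0 (-1), mon 1 (-2) * Z + algebraMap ℂ LL c] F = 0) : False := by
  have hdTB : dT (mon 0 (-1)) ≠ 0 := by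
    rw [zeroA_dTB]
    exact neg_ne_zero.mpr (mon_ne_zero _ _)
  obtain ⟨hD, -, hPB, -⟩ := hG _ _ hdTB h0
  obtain ⟨hZ0, hζ0, hζz⟩ := hZ
  set B : LL := mon 0 (-1) with hB
  set C : LL := mon 1 (-2) * Z + algebraMap ℂ LL c with hC
  set h : kk := tp (-2) * cf Z 0 with hh
  -- exponents
  have g11 : Ge (m11 B C) 0 := fun q hq => by
    rw [zeroA_m11, hZ0 q hq, mul_zero, mul_zero]
  have g12 : Ge (m12 B C) 0 := fun q hq => by
    rw [zeroA_m12, hZ0 q hq, mul_zero, map_zero, mul_zero, neg_zero]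
  have g22 : Ge (m22 B) 0 := by
    rw [zeroA_m22]
    intro q hq
    rw [zeroA_nat_mul, Ge_mon _ _ q hq, mul_zero]
  have c11 : cf (m11 B C) 0 = 8 * h := by
    rw [zeroA_m11]
    norm_num
    rfl
  have c12 : cf (m12 B C) 0 = -(4 * dk h) := by rw [zeroA_m12]
  have c22 : cf (m22 B) 0 = 4 * tp (-4) := by
    rw [zeroA_m22, zeroA_nat_mul, cf_mon]
    norm_num
  have gD : Ge (mD B C) 0 := by
    rw [mD, sq]
    have h1 := g11.mul g22
    have h2 := g12.mul g12
    rw [add_zero] at h1 h2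
    exact h1.sub h2
  set D0 : kk := 32 * (h * tp (-4)) - 16 * (dk h * dk h) with hD0
  have cD : cf (mD B C) 0 = D0 := by
    rw [mD, sq, cf_sub, zeroA_mul_cf g11 g22, zeroA_mul_cf g12 g12, c11, c12, c22, hD0]
    ring
  -- the order of `h` and of `D0`
  obtain ⟨y0, hy0, hy0'⟩ := exists_ordK hne
  have hy0pos : 0 < y0 := by
    rcases lt_trichotomy y0 0 with hlt | heq | hgt
    · exact absurd (hζ0 y0 hlt) hy0'
    · rw [heq] at hy0'
      exact absurd hζz hy0'
    · exact hgt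
  have hhge : GeK h (-2 + y0) := GeK_tp_mul hy0
  have hhcf : ckf h (-2 + y0) ≠ 0 := by
    rw [hh, ckf_tp_mul]
    have : -2 + y0 - -2 = y0 := by ring
    rw [this]
    exact hy0'
  have hdh : GeK (dk h) (-2 + y0 - 1) := hhge.dk
  have nat_mul : ∀ (n : ℕ) (x : kk) (q : ℚ), ckf ((n : kk) * x) q = (n : ℂ) * ckf x q := by
    intro n x q
    have : (n : kk) = iotaK (n : ℂ) := (map_natCast iotaK n).symm
    rw [this, ckf_iotaK_mul]
  have nat_ge : ∀ (n : ℕ) (x : kk) (a : ℚ), GeK x a → GeK ((n : kk) * x) a := by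
    intro n x a hx q hq
    rw [nat_mul, hx q hq, mul_zero]
  have hlt : (-2 + y0 + -4 : ℚ) < (-2 + y0 - 1) + (-2 + y0 - 1) := by linarith
  have hD0ge : GeK D0 (-2 + y0 + -4) := by
    rw [hD0]
    refine GeK.sub ?_ ?_
    · exact nat_ge 32 _ _ (hhge.mul (GeK_tp (-4)))
    · exact (nat_ge 16 _ _ (hdh.mul hdh)).mono hlt.le
  have hD0cf : ckf D0 (-2 + y0 + -4) = 32 * ckf h (-2 + y0) := by
    rw [hD0, ckf_sub]
    have e1 : ckf (32 * (h * tp (-4))) (-2 + y0 + -4) = 32 * ckf h (-2 + y0) := by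
      have := nat_mul 32 (h * tp (-4)) (-2 + y0 + -4)
      rw [ckf_mul_lead hhge (GeK_tp (-4)), ckf_tp, mul_one] at this
      exact_mod_cast this
    have e2 : ckf (16 * (dk h * dk h)) (-2 + y0 + -4) = 0 :=
      nat_ge 16 _ _ (hdh.mul hdh) _ hlt
    rw [e1, e2, sub_zero]
  have hD0ne' : ckf D0 (-2 + y0 + -4) ≠ 0 := by
    rw [hD0cf]
    exact mul_ne_zero (by norm_num) hhcf
  have hD0ne : D0 ≠ 0 := ne_zero_of_ckf hD0ne'
  have cDne : cf (mD B C) 0 ≠ 0 := by rw [cD]; exact hD0ne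
  have hDinv : GeK D0⁻¹ (-(-2 + y0 + -4)) := hD0ge.inv hD0ne'
  have hH : GeK (8 * h / D0) 4 := by
    rw [div_eq_mul_inv]
    have h1 : GeK (8 * h) (-2 + y0) := nat_ge 8 _ _ hhge
    have h2 := h1.mul hDinv
    exact h2.mono (by linarith)
  have hL : GeK (dk D0 / (2 * D0)) (-1) := by
    have e : dk D0 / (2 * D0) = (1 / 2 : ℂ) • (dk D0 * D0⁻¹) := by
      rw [Algebra.smul_def, map_div₀, map_one, map_ofNat, div_eq_mul_inv, mul_inv]
      ring
    rw [e]
    exact ((hD0ge.dk.mul hDinv).smul _).mono (by linarith)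
  -- the step
  have hDdef : m11 B C * m22 B - m12 B C ^ 2 = mD B C := rfl
  have r22 : Ge (m22 B / mD B C) 0 := by
    have := zeroA_div_ge g22 gD cDne
    rwa [sub_zero] at this
  have r12 : Ge (m12 B C / mD B C) 0 := by
    have := zeroA_div_ge g12 gD cDne
    rwa [sub_zero] at this
  have r11 : Ge (m11 B C / mD B C) 0 := by
    have := zeroA_div_ge g11 gD cDne
    rwa [sub_zero] at this
  have hstep : ∀ u : LL, Ge u 0 → Ge (lapFun thA dT (m11 B C) (m12 B C) (m22 B) u) 0 := by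
    intro u hu
    have := lap_raise (m11 B C) (m12 B C) (m22 B) hD 0 r22 r12 r11 hu
    rwa [add_zero] at this
  have hcf : ∀ u : LL, Ge u 0 → ∀ a : ℚ, GeK (cf u 0) a →
      GeK (cf (lapFun thA dT (m11 B C) (m12 B C) (m22 B) u) 0) (a + 2) := by
    intro u hu a ha
    have w1 : Ge ((m22 B * thA u - m12 B C * dT u) / mD B C) 0 := by
      have h1 := g22.mul hu.thA
      have h2 := g12.mul hu.dT
      rw [add_zero] at h1 h2
      have := zeroA_div_ge (h1.sub h2) gD cDne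
      rwa [sub_zero] at this
    have w2n : Ge (m11 B C * dT u - m12 B C * thA u) 0 := by
      have h1 := g11.mul hu.dT
      have h2 := g12.mul hu.thA
      rw [add_zero] at h1 h2
      exact h1.sub h2
    have w2 : Ge ((m11 B C * dT u - m12 B C * thA u) / mD B C) 0 := by
      have := zeroA_div_ge w2n gD cDne
      rwa [sub_zero] at this
    have w2c : cf ((m11 B C * dT u - m12 B C * thA u) / mD B C) 0
        = 8 * h / D0 * dk (cf u 0) := by
      rw [zeroA_div_cf w2n gD cDne, cf_sub, zeroA_mul_cf g11 hu.dT, zeroA_mul_cf g12 hu.thA,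
        cf_thA, cf_dT, c11, cD]
      push_cast
      ring
    have g2D : Ge (2 * mD B C) 0 := fun q hq => by
      have := zeroA_nat_mul 2 (mD B C) q
      push_cast at this
      rw [this, gD q hq, mul_zero]
    have c2D : cf (2 * mD B C) 0 = 2 * D0 := by
      have := zeroA_nat_mul 2 (mD B C) 0
      push_cast at this
      rw [this, cD]
    have c2Dne : cf (2 * mD B C) 0 ≠ 0 := by
      rw [c2D]
      exact mul_ne_zero two_ne_zero hD0ne
    have l1 : Ge (thA (mD B C) / (2 * mD B C)) 0 := by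
      have := zeroA_div_ge gD.thA g2D c2Dne
      rwa [sub_zero] at this
    have l1c : cf (thA (mD B C) / (2 * mD B C)) 0 = 0 := by
      rw [zeroA_div_cf gD.thA g2D c2Dne, cf_thA]
      simp
    have l2 : Ge (dT (mD B C) / (2 * mD B C)) 0 := by
      have := zeroA_div_ge gD.dT g2D c2Dne
      rwa [sub_zero] at this
    have l2c : cf (dT (mD B C) / (2 * mD B C)) 0 = dk D0 / (2 * D0) := by
      rw [zeroA_div_cf gD.dT g2D c2Dne, cf_dT, c2D, cD]
    have e : cf (lapFun thA dT (m11 B C) (m12 B C) (m22 B) u) 0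
        = -(dk (8 * h / D0 * dk (cf u 0)) + dk D0 / (2 * D0) * (8 * h / D0 * dk (cf u 0))) := by
      unfold lapFun
      rw [hDdef, cf_neg, cf_add, cf_add, cf_add, cf_thA, cf_dT, zeroA_mul_cf l1 w1,
        zeroA_mul_cf l2 w2, l1c, l2c, w2c]
      push_cast
      ring
    rw [e]
    have k1 : GeK (8 * h / D0 * dk (cf u 0)) (4 + (a - 1)) := hH.mul ha.dk
    refine GeK.neg (GeK.add ?_ ?_)
    · exact k1.dk.mono (by linarith)
    · exact (hL.mul k1).mono (by linarith)
  -- iteration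
  set Δ : Module.End ℂ LL := lapB B C with hΔ
  have hpow : ∀ n : ℕ, Ge ((Δ ^ n) B) 0 ∧ GeK (cf ((Δ ^ n) B) 0) (-1 + n * 2) := by
    intro n
    induction n with
    | zero =>
      rw [pow_zero, Module.End.one_apply]
      refine ⟨Ge_mon 0 (-1), ?_⟩
      rw [hB, cf_mon]
      simpa using GeK_tp (-1)
    | succ n ih =>
      have e2 : (Δ ^ (n + 1)) B = lapFun thA dT (m11 B C) (m12 B C) (m22 B) ((Δ ^ n) B) := by
        rw [pow_succ', Module.End.mul_apply]
        rfl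
      rw [e2]
      refine ⟨hstep _ ih.1, ?_⟩
      have := hcf _ ih.1 _ ih.2
      refine this.mono ?_
      push_cast
      linarith
  rw [Polynomial.aeval_eq_sum_range, LinearMap.sum_apply] at hPB
  let φ : LL →+ ℂ :=
    { toFun := fun x => ckf (cf x 0) (-1)
      map_zero' := rfl
      map_add' := fun x y => by rw [cf_add, ckf_add] }
  have h2 := congrArg φ hPB
  rw [map_sum, map_zero, Finset.sum_eq_single 0] at h2
  · rw [LinearMap.smul_apply, pow_zero, Module.End.one_apply] at h2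
    change ckf (cf (P.coeff 0 • B) 0) (-1) = 0 at h2
    rw [cf_smul, ckf_iotaK_mul, hB, cf_mon, ckf_tp, mul_one,
      Polynomial.coeff_zero_eq_eval_zero] at h2
    exact hP0 h2
  · intro n _ hn
    change ckf (cf ((P.coeff n • Δ ^ n) B) 0) (-1) = 0
    rw [LinearMap.smul_apply, cf_smul, ckf_iotaK_mul]
    have hn' : (0 : ℚ) < n := by exact_mod_cast Nat.pos_of_ne_zero hn
    rw [(hpow n).2 (-1) (by linarith), mul_zero]
  · intro h
    exact absurd (Finset.mem_range.mpr (Nat.succ_pos _)) h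

end Pool.Agent.Work.MP_abe657_gt
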