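import Pool.Agent.Work.MP_abe657_gt.Defs2
import Pool.Agent.Work.MP_abe657_gt.CoreSmall

/-!
Part II, module ZeroB (M). Points `(A, B, C)`, `A = s⁻¹`, `B = 1/t`, `C = c + s t^(-2) Z`, where `Z` has
only positive exponents of `s`.

`Z ≠ 0` because `mD ≠ 0` by `Good` (if `Z = 0` then `m11 = m12 = 0`). Let `z > 0` be the order of `Z`,
`ζ = cf Z z ≠ 0`, `h = t^(-2) ζ`. `m22 = 4 t^(-4)`; `m12 = -4 AA dT C` has exponents `≥ z`;
`m11 = -8 AA thA C` has exponents `≥ z` and coefficient `8 (1+z) h` at `z`. So `mD` has order `z` with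
coefficient `32 (1+z) h t^(-4)`, and `m22/mD` has order `-z` with coefficient `g0 = 1/(8 (1+z) h)`,
`m12/mD`, `m11/mD` have exponents `≥ 0`. For `Ge u (-ρ)` with coefficient `k` at `-ρ`,
`Δ u` has exponents `≥ -ρ - z` and its coefficient at `-ρ - z` is `-ρ (ρ + z/2) g0 k`
(the terms: `thA (G thA u)`, `G = m22/mD`, gives `(ρ+z) ρ g0 k`, and `(thA mD/(2 mD)) G thA u` gives
`-(z/2) ρ g0 k`; all other terms have exponents `≥ -ρ`). So by induction `Δ^n A` has exponents
`≥ -1 - n z` with coefficient `∏_{r<n} (-(1 + r z)(1 + r z + z/2) g0) ≠ 0` at `-1 - n z`. With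
`N = P.natDegree` the coefficient of `P(Δ) A = 0` at `-1 - N z` is `P.leadingCoeff` times a nonzero
element: contradiction. (`P ≠ 0` because `P(0) ≠ 0`. Compare the proof of `core_big` in CoreBig.lean,
which can be copied.)
-/

set_option autoImplicit false

namespace Pool.Agent.Work.MP_abe657_gt

open MvPolynomial

private theorem zeroB_thB : thA (mon 0 (-1)) = 0 := by
  rw [thA_mon]
  simp

private theorem zeroB_dTB : dT (mon 0 (-1)) = -mon 0 (-2) := by
  rw [dT_mon]
  norm_num

private theorem zeroB_thC (c : ℂ) (Z : LL) :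
    thA (mon 1 (-2) * Z + algebraMap ℂ LL c) = thA (mon 1 (-2) * Z) := by
  rw [map_add, thA.map_algebraMap, add_zero]

private theorem zeroB_dTC (c : ℂ) (Z : LL) :
    dT (mon 1 (-2) * Z + algebraMap ℂ LL c) = dT (mon 1 (-2) * Z) := by
  rw [map_add, dT.map_algebraMap, add_zero]

private theorem zeroB_nat_mul (n : ℕ) (x : LL) (q : ℚ) : cf ((n : LL) * x) q = (n : kk) * cf x q := by
  have h : (n : LL) = iotaL (n : kk) := (map_natCast iotaL n).symm
  rw [h, cf_iotaL_mul]

private theorem zeroB_m11 (c : ℂ) (Z : LL) (q : ℚ) :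
    cf (m11 (mon 0 (-1)) (mon 1 (-2) * Z + algebraMap ℂ LL c)) q
      = 8 * ((q + 1 : ℚ) : kk) * (tp (-2) * cf Z q) := by
  have e : m11 (mon 0 (-1)) (mon 1 (-2) * Z + algebraMap ℂ LL c)
      = -(((8 : ℕ) : LL) * (AA * thA (mon 1 (-2) * Z))) := by
    rw [m11, zeroB_thB, zeroB_thC]
    push_cast
    ring
  rw [e, cf_neg, zeroB_nat_mul, cf_AA_mul, cf_thA, cf_mon_mul]
  have : q + 1 - 1 = q := by ring
  rw [this]
  push_cast
  ring

private theorem zeroB_m12 (c : ℂ) (Z : LL) (q : ℚ) :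
    cf (m12 (mon 0 (-1)) (mon 1 (-2) * Z + algebraMap ℂ LL c)) q
      = -(4 * dk (tp (-2) * cf Z q)) := by
  have e : m12 (mon 0 (-1)) (mon 1 (-2) * Z + algebraMap ℂ LL c)
      = -(((4 : ℕ) : LL) * (AA * dT (mon 1 (-2) * Z))) := by
    rw [m12, zeroB_thB, zeroB_dTC]
    push_cast
    ring
  rw [e, cf_neg, zeroB_nat_mul, cf_AA_mul, cf_dT, cf_mon_mul]
  have : q + 1 - 1 = q := by ring
  rw [this]
  push_cast
  ring

private theorem zeroB_m22 : m22 (mon 0 (-1)) = ((4 : ℕ) : LL) * mon 0 (-4) := by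
  rw [m22, zeroB_dTB, neg_sq, mon_pow]
  push_cast
  norm_num

private theorem zeroB_div_ge {x D : LL} {a δ : ℚ} (hx : Ge x a) (hD : Ge D δ)
    (hD0 : cf D δ ≠ 0) : Ge (x / D) (a - δ) := by
  rw [div_eq_mul_inv, sub_eq_add_neg]
  exact hx.mul (hD.inv hD0)

private theorem zeroB_div_cf {x D : LL} {a δ : ℚ} (hx : Ge x a) (hD : Ge D δ)
    (hD0 : cf D δ ≠ 0) : cf (x / D) (a - δ) = cf x a / cf D δ := by
  rw [div_eq_mul_inv, sub_eq_add_neg, cf_mul_lead hx (hD.inv hD0), cf_inv_lead hD hD0,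
    div_eq_mul_inv]

theorem zero_b (F : MvPolynomial (Fin 3) ℂ) (P : Polynomial ℂ) (hG : Good F P)
    (hP0 : P.eval 0 ≠ 0) (c : ℂ) (Z : LL) (hZ : Ge Z 0) (hZ0 : cf Z 0 = 0)
    (h0 : aeval ![AA, mon 0 (-1), mon 1 (-2) * Z + algebraMap ℂ LL c] F = 0) : False := by
  have hdTB : dT (mon 0 (-1)) ≠ 0 := by
    rw [zeroB_dTB]
    exact neg_ne_zero.mpr (mon_ne_zero _ _)
  obtain ⟨hD, hPA, -, -⟩ := hG _ _ hdTB h0
  set B : LL := mon 0 (-1) with hB
  set C : LL := mon 1 (-2) * Z + algebraMap ℂ LL c with hC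
  -- `Z ≠ 0`
  have hZne : Z ≠ 0 := by
    intro hZz
    apply hD
    have h11 : m11 B C = 0 := by
      apply LL_ext
      intro q
      rw [zeroB_m11, hZz, cf_zero]
      simp
    have h12 : m12 B C = 0 := by
      apply LL_ext
      intro q
      rw [zeroB_m12, hZz, cf_zero]
      simp
    rw [mD, h11, h12]
    ring
  obtain ⟨z, hz, hz0⟩ := exists_ord hZne
  have hzpos : 0 < z := by
    rcases lt_trichotomy z 0 with hlt | heq | hgt
    · exact absurd (hZ z hlt) hz0
    · rw [heq] at hz0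
      exact absurd hZ0 hz0
    · exact hgt
  set h : kk := tp (-2) * cf Z z with hh
  have hhne : h ≠ 0 := mul_ne_zero (tp_ne_zero _) hz0
  -- exponents
  have g11 : Ge (m11 B C) z := fun q hq => by
    rw [zeroB_m11, hz q hq, mul_zero, mul_zero]
  have g12 : Ge (m12 B C) z := fun q hq => by
    rw [zeroB_m12, hz q hq, mul_zero, map_zero, mul_zero, neg_zero]
  have g22 : Ge (m22 B) 0 := by
    rw [zeroB_m22]
    intro q hq
    rw [zeroB_nat_mul, Ge_mon _ _ q hq, mul_zero]
  have c11 : cf (m11 B C) z = 8 * ((z + 1 : ℚ) : kk) * h := by rw [zeroB_m11]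
  have c22 : cf (m22 B) 0 = 4 * tp (-4) := by
    rw [zeroB_m22, zeroB_nat_mul, cf_mon]
    norm_num
  have g1122 : Ge (m11 B C * m22 B) z := by
    have := g11.mul g22
    rwa [add_zero] at this
  have g1212 : Ge (m12 B C * m12 B C) (z + z) := g12.mul g12
  have hlt : z < z + z := by linarith
  have gD : Ge (mD B C) z := by
    rw [mD, sq]
    exact g1122.sub (g1212.mono hlt.le)
  have cD : cf (mD B C) z = 32 * ((z + 1 : ℚ) : kk) * h * tp (-4) := by
    rw [mD, sq, cf_sub, g1212 z hlt, sub_zero]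
    have := cf_mul_lead g11 g22
    rw [add_zero] at this
    rw [this, c11, c22]
    ring
  have hz1 : ((z + 1 : ℚ) : kk) ≠ 0 := by
    rw [Rat.cast_ne_zero]
    linarith
  have cDne : cf (mD B C) z ≠ 0 := by
    rw [cD]
    exact mul_ne_zero (mul_ne_zero (mul_ne_zero (by norm_num) hz1) hhne) (tp_ne_zero _)
  have hDdef : m11 B C * m22 B - m12 B C ^ 2 = mD B C := rfl
  have g2D : Ge (2 * mD B C) z := fun q hq => by
    have := zeroB_nat_mul 2 (mD B C) q
    push_cast at this
    rw [this, gD q hq, mul_zero]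
  have c2D : cf (2 * mD B C) z = 2 * cf (mD B C) z := by
    have := zeroB_nat_mul 2 (mD B C) z
    push_cast at this
    exact this
  have c2Dne : cf (2 * mD B C) z ≠ 0 := by
    rw [c2D]
    exact mul_ne_zero two_ne_zero cDne
  -- the step
  have hstep : ∀ (u : LL) (r : ℚ), Ge u r →
      Ge (lapFun thA dT (m11 B C) (m12 B C) (m22 B) u) (r - z) ∧
      cf (lapFun thA dT (m11 B C) (m12 B C) (m22 B) u) (r - z) =
        -(((r * (r - z / 2) : ℚ) : kk) * (4 * tp (-4)) * cf u r / cf (mD B C) z) := by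
    intro u r hu
    have n1a : Ge (m22 B * thA u) r := by
      have := g22.mul hu.thA
      rwa [zero_add] at this
    have n1b : Ge (m12 B C * dT u) (z + r) := g12.mul hu.dT
    have hlt1 : r < z + r := by linarith
    have n1 : Ge (m22 B * thA u - m12 B C * dT u) r := n1a.sub (n1b.mono hlt1.le)
    have n1c : cf (m22 B * thA u - m12 B C * dT u) r = -((r : kk) * (4 * tp (-4)) * cf u r) := by
      rw [cf_sub, n1b r hlt1, sub_zero]
      have := cf_mul_lead g22 hu.thA
      rw [zero_add] at this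
      rw [this, c22, cf_thA]
      ring
    have w1 : Ge ((m22 B * thA u - m12 B C * dT u) / mD B C) (r - z) :=
      zeroB_div_ge n1 gD cDne
    have w1c : cf ((m22 B * thA u - m12 B C * dT u) / mD B C) (r - z) =
        -((r : kk) * (4 * tp (-4)) * cf u r) / cf (mD B C) z := by
      rw [zeroB_div_cf n1 gD cDne, n1c]
    have n2 : Ge (m11 B C * dT u - m12 B C * thA u) (z + r) :=
      (g11.mul hu.dT).sub (g12.mul hu.thA)
    have w2 : Ge ((m11 B C * dT u - m12 B C * thA u) / mD B C) r := by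
      have := zeroB_div_ge n2 gD cDne
      exact this.mono (by linarith)
    have l1 : Ge (thA (mD B C) / (2 * mD B C)) 0 := by
      have := zeroB_div_ge gD.thA g2D c2Dne
      rwa [sub_self] at this
    have l1c : cf (thA (mD B C) / (2 * mD B C)) 0 = -((z : kk) / 2) := by
      have := zeroB_div_cf gD.thA g2D c2Dne
      rw [sub_self] at this
      rw [this, cf_thA, c2D]
      field_simp
    have l2 : Ge (dT (mD B C) / (2 * mD B C)) 0 := by
      have := zeroB_div_ge gD.dT g2D c2Dne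
      rwa [sub_self] at this
    have t2 : Ge (dT ((m11 B C * dT u - m12 B C * thA u) / mD B C)) r := w2.dT
    have t3 : Ge (thA (mD B C) / (2 * mD B C) *
        ((m22 B * thA u - m12 B C * dT u) / mD B C)) (r - z) := by
      have := l1.mul w1
      rwa [zero_add] at this
    have t3c : cf (thA (mD B C) / (2 * mD B C) *
        ((m22 B * thA u - m12 B C * dT u) / mD B C)) (r - z) =
        -((z : kk) / 2) * (-((r : kk) * (4 * tp (-4)) * cf u r) / cf (mD B C) z) := by
      have := cf_mul_lead l1 w1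
      rw [zero_add] at this
      rw [this, l1c, w1c]
    have t4 : Ge (dT (mD B C) / (2 * mD B C) *
        ((m11 B C * dT u - m12 B C * thA u) / mD B C)) r := by
      have := l2.mul w2
      rwa [zero_add] at this
    have hlt2 : r - z < r := by linarith
    constructor
    · unfold lapFun
      rw [hDdef]
      exact Ge.neg (Ge.add (Ge.add (Ge.add w1.thA (t2.mono hlt2.le)) t3) (t4.mono hlt2.le))
    · unfold lapFun
      rw [hDdef, cf_neg, cf_add, cf_add, cf_add, cf_thA, t2 _ hlt2, t4 _ hlt2, t3c, w1c]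
      push_cast
      field_simp
      ring
  -- iteration
  set Δ : Module.End ℂ LL := lapB B C with hΔ
  have hind : ∀ n : ℕ, Ge ((Δ ^ n) AA) (-1 - n * z) ∧ cf ((Δ ^ n) AA) (-1 - n * z) ≠ 0 := by
    intro n
    induction n with
    | zero =>
      simp only [pow_zero, Module.End.one_apply, Nat.cast_zero, zero_mul, sub_zero]
      exact ⟨Ge_AA, by rw [cf_AA]; exact one_ne_zero⟩
    | succ n ih =>
      obtain ⟨ih1, ih2⟩ := ih
      have hs := hstep _ _ ih1
      have e : (-1 - (n : ℚ) * z) - z = -1 - ((n + 1 : ℕ) : ℚ) * z := by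
        push_cast; ring
      rw [e] at hs
      have e2 : (Δ ^ (n + 1)) AA = lapFun thA dT (m11 B C) (m12 B C) (m22 B) ((Δ ^ n) AA) := by
        rw [pow_succ', Module.End.mul_apply]
        rfl
      rw [e2]
      refine ⟨hs.1, ?_⟩
      rw [hs.2]
      have hn : (0 : ℚ) ≤ (n : ℚ) * z := by positivity
      refine neg_ne_zero.mpr (div_ne_zero (mul_ne_zero (mul_ne_zero ?_ ?_) ih2) cDne)
      · rw [Rat.cast_ne_zero]
        refine mul_ne_zero ?_ ?_
        · linarith
        · linarith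
      · exact mul_ne_zero (by norm_num) (tp_ne_zero _)
  -- the coefficient of `P(Δ) A`
  set k := P.natDegree with hk
  have hcf : cf (Polynomial.aeval Δ P AA) (-1 - k * z) =
      iotaK (P.coeff k) * cf ((Δ ^ k) AA) (-1 - k * z) := by
    have e1 : Polynomial.aeval Δ P AA = ∑ i ∈ Finset.range (k + 1), P.coeff i • (Δ ^ i) AA := by
      rw [Polynomial.aeval_eq_sum_range, LinearMap.sum_apply]
      rfl
    let φ : LL →+ kk :=
      { toFun := fun x => cf x (-1 - k * z)
        map_zero' := rfl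
        map_add' := fun x y => cf_add x y _ }
    have e2 : ∀ x : LL, cf x (-1 - k * z) = φ x := fun _ => rfl
    rw [e1, e2, map_sum, Finset.sum_range_succ]
    have e3 : ∑ i ∈ Finset.range k, φ (P.coeff i • (Δ ^ i) AA) = 0 := by
      refine Finset.sum_eq_zero ?_
      intro i hi
      rw [← e2, cf_smul, (hind i).1, mul_zero]
      have hik : (i : ℚ) < (k : ℚ) := by exact_mod_cast Finset.mem_range.mp hi
      have := mul_lt_mul_of_pos_right hik hzpos
      linarith
    rw [e3, zero_add, ← e2, cf_smul]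
  rw [hPA] at hcf
  have hP : P ≠ 0 := by
    rintro rfl
    exact hP0 Polynomial.eval_zero
  have hlc : P.coeff k ≠ 0 := Polynomial.leadingCoeff_ne_zero.mpr hP
  have hlc2 : iotaK (P.coeff k) ≠ 0 := (map_ne_zero iotaK).mpr hlc
  exact mul_ne_zero hlc2 (hind k).2 hcf.symm

end Pool.Agent.Work.MP_abe657_gt
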