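import Pool.Agent.Work.MP_abe657_gt.SigContra
import Pool.Agent.Work.MP_abe657_gt.HalfStart
import Pool.Agent.Work.MP_abe657_gt.ZeroA
import Pool.Agent.Work.MP_abe657_gt.ZeroB

/-!
Part II, assembly NoFactor (helper32): the leading form is not divisible by the isotropic form `C`.
-/

set_option autoImplicit false

namespace Pool.Agent.Work.MP_abe657_gt

open MvPolynomial

theorem no_factor [IsAlgClosed kk] [IsAlgClosed LL] (F : MvPolynomial (Fin 3) ℂ)
    (P : Polynomial ℂ) (hG : Good F P) (hP0 : P.eval 0 ≠ 0)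
    (hlead : ∀ s ∈ F.support,
      (∀ s' ∈ F.support, s' 0 + s' 1 + s' 2 ≤ s 0 + s 1 + s 2) → s 2 ≠ 0) : False := by
  have hF : F ≠ 0 := by
    rintro rfl
    exact good_pt 0 P hG 0 (map_zero _)
  have hsh0 : shC 0 F = F := by
    have h1 : (![X 0, X 1, X 2 + MvPolynomial.C (0 : ℂ)] : Fin 3 → MvPolynomial (Fin 3) ℂ) = X := by
      funext i
      fin_cases i <;> simp
    rw [shC, h1, aeval_X_left, AlgHom.id_apply]
  have hw : ∀ s : Fin 3 →₀ ℕ, wu (-1) s + 1 * wv 1 2 s = ((s 0 + s 1 + s 2 : ℕ) : ℚ) := by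
    intro s
    unfold wu wv
    push_cast
    ring
  -- from the leading form to the weight 1/2
  obtain ⟨Z, hZ, hZ0⟩ := chainL F hF (-1) 1 2 one_ne_zero 0 (1 / 2) 1 (by norm_num)
    (by
      intro s hs _
      unfold gsum
      refine Finset.sum_eq_zero fun s' hs' => ?_
      rw [Finset.mem_filter] at hs'
      have h2 : s' 2 ≠ 0 := by
        apply hlead s' hs'.1
        intro s'' hs''
        have h3 := hs.2 s'' hs''
        rw [← hs'.2.1, ← hs'.2.2, hw, hw] at h3
        exact_mod_cast h3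
      rw [zero_pow h2, mul_zero])
    (by
      intro ω hω0 hω1 Z hZ hZ0
      rw [map_zero]
      refine sig_contra F P hG hP0 0 ω (by linarith) hω1 hω0.ne' Z hZ ?_
      rw [hsh0]
      exact hZ0)
  -- the constant
  obtain ⟨c, hc⟩ : ∃ c : ℂ, cf Z 0 = iotaK c * tp 2 := by
    by_cases hne : cf Z 0 = 0
    · exact ⟨0, by rw [hne, map_zero, zero_mul]⟩
    obtain ⟨y, hy, hκy⟩ := near_order hZ hne
    have hX := ptc_X Z hZ.1
    have h1 : aeval ![AA, mon (-(1 / 2)) (-1), mon (1 - 2 * (1 / 2)) 0 * (mon 0 (-2) * Z)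
        + algebraMap ℂ LL 0] F = 0 := by
      rw [map_zero, add_zero, ← ptc_eq]
      exact hZ0
    have hode := isotropic_ode F P hG hP0 0 (1 / 2) (by norm_num) _ hX.1 h1
    rw [hX.2] at hode
    have hode2 : (dv (tp (-2) * cf Z 0)) ^ 2 - tp (-1) * dv (tp (-2) * cf Z 0) = 0 := by
      rw [← hode]
      push_cast
      ring
    obtain ⟨c, hc⟩ := ode_half _ y hy hκy hode2
    refine ⟨c, ?_⟩
    have h2 : tp 2 * (tp (-2) * cf Z 0) = cf Z 0 := by
      rw [← mul_assoc, tp_mul]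
      norm_num [tp_zero]
    rw [← h2, hc]
    ring
  -- from the weight 1/2 to 0
  obtain ⟨W, hW, hW0⟩ := chainL (shC c F) (shC_ne_zero F P hG c) (-1) 1 2 one_ne_zero 0 0 (1 / 2)
    (by norm_num)
    (fun s hs _ => half_start F c Z hZ.1 hc hZ0 s hs)
    (by
      intro ω hω0 hω1 W hW hW0
      rw [map_zero]
      exact sig_contra F P hG hP0 c ω hω0 (by linarith) hω1.ne W hW hW0)
  have h3 : aeval ![AA, mon 0 (-1), mon 1 (-2) * W + algebraMap ℂ LL c] F = 0 := by
    rw [← hW0, ptc, aeval_shC]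
    have e1 : mon (-(0 * 1)) (-1) = mon 0 (-1) := by norm_num
    have e2 : mon (-(-1) - 0 * 2) (-2) = mon 1 (-2) := by norm_num
    rw [e1, e2]
  by_cases hne : cf W 0 = 0
  · exact zero_b F P hG hP0 c W hW.1 hne h3
  · exact zero_a F P hG hP0 c W hW hne h3

end Pool.Agent.Work.MP_abe657_gt
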