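import Mathlib

/-!
Algebraic definitions for MP_abe657_gt: iterated Hahn series, derivations,
the algebraic Laplacian.
-/

set_option autoImplicit false

namespace Pool.Agent.Work.MP_abe657_gt

open HahnSeries

section general

variable {R : Type} [Field R]

/-- Euler operator `s d/ds` on Hahn series, as a function -/
noncomputable def eulFun (x : HahnSeries ℚ R) : HahnSeries ℚ R where
  coeff := fun q => (q : R) * x.coeff q
  isPWO_support' := x.isPWO_support.mono (by
    intro q hq
    simp only [Function.mem_support, HahnSeries.mem_support] at hq ⊢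
    exact right_ne_zero_of_mul hq)

@[simp] lemma eulFun_coeff (x : HahnSeries ℚ R) (q : ℚ) :
    (eulFun x).coeff q = (q : R) * x.coeff q := rfl

lemma eulFun_support (x : HahnSeries ℚ R) : (eulFun x).support ⊆ x.support := by
  intro q hq
  simp only [HahnSeries.mem_support, eulFun_coeff] at hq ⊢
  exact right_ne_zero_of_mul hq

lemma eulFun_add (x y : HahnSeries ℚ R) : eulFun (x + y) = eulFun x + eulFun y := by
  ext q; simp [mul_add]

lemma eulFun_mul [CharZero R] (x y : HahnSeries ℚ R) :
    eulFun (x * y) = x * eulFun y + y * eulFun x := by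
  ext q
  rw [mul_comm y (eulFun x)]
  simp only [eulFun_coeff, HahnSeries.coeff_add]
  rw [HahnSeries.coeff_mul, HahnSeries.coeff_mul_right' y.isPWO_support (eulFun_support y),
    HahnSeries.coeff_mul_left' x.isPWO_support (eulFun_support x), Finset.mul_sum,
    ← Finset.sum_add_distrib]
  refine Finset.sum_congr rfl ?_
  intro ij hij
  have h : ij.1 + ij.2 = q := (Finset.mem_antidiagonal.mp hij).2.2
  simp only [eulFun_coeff]
  rw [← h]
  push_cast
  ring

lemma eulFun_C (c : R) : eulFun (HahnSeries.C c : HahnSeries ℚ R) = 0 := by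
  ext q
  simp only [eulFun_coeff, HahnSeries.coeff_zero, HahnSeries.C_apply]
  by_cases hq : q = 0
  · subst hq; simp
  · rw [HahnSeries.coeff_single_of_ne hq, mul_zero]

lemma eulFun_C_mul [CharZero R] (c : R) (x : HahnSeries ℚ R) :
    eulFun (HahnSeries.C c * x) = HahnSeries.C c * eulFun x := by
  rw [eulFun_mul, eulFun_C, mul_zero, add_zero]

/-- `d/ds` on Hahn series, as a function -/
noncomputable def ddFun (x : HahnSeries ℚ R) : HahnSeries ℚ R :=
  single (-1 : ℚ) (1 : R) * eulFun x

lemma ddFun_add (x y : HahnSeries ℚ R) : ddFun (x + y) = ddFun x + ddFun y := by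
  rw [ddFun, eulFun_add, mul_add]; rfl

lemma ddFun_mul [CharZero R] (x y : HahnSeries ℚ R) :
    ddFun (x * y) = x * ddFun y + y * ddFun x := by
  rw [ddFun, ddFun, ddFun, eulFun_mul]; ring

lemma ddFun_C_mul [CharZero R] (c : R) (x : HahnSeries ℚ R) :
    ddFun (HahnSeries.C c * x) = HahnSeries.C c * ddFun x := by
  rw [ddFun, ddFun, eulFun_C_mul]; ring

lemma ddFun_coeff (x : HahnSeries ℚ R) (q : ℚ) :
    (ddFun x).coeff q = ((q + 1 : ℚ) : R) * x.coeff (q + 1) := by
  have h := HahnSeries.coeff_single_mul_add (Γ := ℚ) (R := R) (r := 1)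
    (x := eulFun x) (a := q + 1) (b := -1)
  rw [one_mul] at h
  have h2 : q + 1 + -1 = q := by ring
  rw [h2] at h
  rw [ddFun, h, eulFun_coeff]

/-- coefficientwise extension of an additive map, as a function -/
noncomputable def cwFun (δ : R →+ R) (x : HahnSeries ℚ R) : HahnSeries ℚ R where
  coeff := fun q => δ (x.coeff q)
  isPWO_support' := x.isPWO_support.mono (by
    intro q hq
    simp only [Function.mem_support, HahnSeries.mem_support] at hq ⊢
    intro h
    exact hq (by rw [h, map_zero]))

@[simp] lemma cwFun_coeff (δ : R →+ R) (x : HahnSeries ℚ R) (q : ℚ) :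
    (cwFun δ x).coeff q = δ (x.coeff q) := rfl

lemma cwFun_support (δ : R →+ R) (x : HahnSeries ℚ R) :
    (cwFun δ x).support ⊆ x.support := by
  intro q hq
  simp only [HahnSeries.mem_support, cwFun_coeff] at hq ⊢
  intro h
  exact hq (by rw [h, map_zero])

lemma cwFun_add (δ : R →+ R) (x y : HahnSeries ℚ R) :
    cwFun δ (x + y) = cwFun δ x + cwFun δ y := by
  ext q; simp

lemma cwFun_mul (δ : R →+ R) (hδ : ∀ a b, δ (a * b) = a * δ b + b * δ a)
    (x y : HahnSeries ℚ R) :
    cwFun δ (x * y) = x * cwFun δ y + y * cwFun δ x := by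
  ext q
  rw [mul_comm y (cwFun δ x)]
  simp only [cwFun_coeff, HahnSeries.coeff_add]
  rw [HahnSeries.coeff_mul, HahnSeries.coeff_mul_right' y.isPWO_support (cwFun_support δ y),
    HahnSeries.coeff_mul_left' x.isPWO_support (cwFun_support δ x), map_sum,
    ← Finset.sum_add_distrib]
  refine Finset.sum_congr rfl ?_
  intro ij hij
  simp only [cwFun_coeff, hδ]
  ring

lemma cwFun_C_mul (δ : R →+ R) (hδ : ∀ a b, δ (a * b) = a * δ b + b * δ a) (c : R)
    (hc : δ c = 0) (x : HahnSeries ℚ R) :
    cwFun δ (HahnSeries.C c * x) = HahnSeries.C c * cwFun δ x := by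
  ext q
  rw [cwFun_coeff, HahnSeries.C_mul_eq_smul, HahnSeries.C_mul_eq_smul, HahnSeries.coeff_smul,
    HahnSeries.coeff_smul, cwFun_coeff, smul_eq_mul, smul_eq_mul, hδ, hc, mul_zero, add_zero]

lemma cwFun_C (δ : R →+ R) (c : R) :
    cwFun δ (HahnSeries.C c : HahnSeries ℚ R) = HahnSeries.C (δ c) := by
  ext q
  simp only [cwFun_coeff, HahnSeries.C_apply]
  by_cases hq : q = 0
  · subst hq; simp
  · rw [HahnSeries.coeff_single_of_ne hq, HahnSeries.coeff_single_of_ne hq, map_zero]

end general

/-! ### the inner field -/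

/-- inner field: Hahn series in `t` over the complex numbers -/
def kk : Type := HahnSeries ℚ ℂ

noncomputable instance instFieldKK : Field kk := inferInstanceAs (Field (HahnSeries ℚ ℂ))

/-- the constants in `kk` -/
noncomputable def iotaK : ℂ →+* kk := (HahnSeries.C : ℂ →+* HahnSeries ℚ ℂ)

noncomputable instance instAlgebraKK : Algebra ℂ kk := iotaK.toAlgebra

instance instCharZeroKK : CharZero kk :=
  charZero_of_injective_ringHom (f := iotaK) HahnSeries.C_injective

/-- `d/dt` on the inner field -/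
noncomputable def dk : Derivation ℂ kk kk :=
  Derivation.mk'
    { toFun := fun x => ddFun (R := ℂ) x
      map_add' := fun x y => ddFun_add (R := ℂ) x y
      map_smul' := fun c x => ddFun_C_mul (R := ℂ) c x }
    (fun x y => ddFun_mul (R := ℂ) x y)

/-- the element `t` of the inner field -/
noncomputable def tk : kk := (single (1 : ℚ) (1 : ℂ) : HahnSeries ℚ ℂ)

/-! ### the outer field -/

/-- outer field: Hahn series in `s` over `kk` -/
def LL : Type := HahnSeries ℚ kk

noncomputable instance instFieldLL : Field LL := inferInstanceAs (Field (HahnSeries ℚ kk))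

/-- the embedding of `kk` into `LL` -/
noncomputable def iotaL : kk →+* LL := (HahnSeries.C : kk →+* HahnSeries ℚ kk)

noncomputable instance instAlgebraLL : Algebra ℂ LL := (iotaL.comp iotaK).toAlgebra

instance instCharZeroLL : CharZero LL :=
  charZero_of_injective_ringHom (f := iotaL) HahnSeries.C_injective

/-- coefficient of `s^q` -/
noncomputable def cf (x : LL) (q : ℚ) : kk := HahnSeries.coeff (Γ := ℚ) (R := kk) x q

/-- Euler operator `s d/ds` on the outer field -/
noncomputable def eulL : Derivation ℂ LL LL :=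
  Derivation.mk'
    { toFun := fun x => eulFun (R := kk) x
      map_add' := fun x y => eulFun_add (R := kk) x y
      map_smul' := fun c x => eulFun_C_mul (R := kk) (iotaK c) x }
    (fun x y => eulFun_mul (R := kk) x y)

/-- `A d/dA = - s d/ds` on the outer field, where `A = s⁻¹` -/
noncomputable def thA : Derivation ℂ LL LL := -eulL

/-- `d/ds` on the outer field -/
noncomputable def dS : Derivation ℂ LL LL :=
  Derivation.mk'
    { toFun := fun x => ddFun (R := kk) x
      map_add' := fun x y => ddFun_add (R := kk) x y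
      map_smul' := fun c x => ddFun_C_mul (R := kk) (iotaK c) x }
    (fun x y => ddFun_mul (R := kk) x y)

/-- `d/dt` on the outer field (coefficientwise) -/
noncomputable def dT : Derivation ℂ LL LL :=
  Derivation.mk'
    { toFun := fun x => cwFun (R := kk) (dk : kk →ₗ[ℂ] kk).toAddMonoidHom x
      map_add' := fun x y => cwFun_add (R := kk) _ x y
      map_smul' := fun c x => cwFun_C_mul (R := kk) (dk : kk →ₗ[ℂ] kk).toAddMonoidHom
        (fun a b => dk.leibniz a b) (iotaK c) (dk.map_algebraMap c) x }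
    (fun x y => cwFun_mul (R := kk) (dk : kk →ₗ[ℂ] kk).toAddMonoidHom
        (fun a b => dk.leibniz a b) x y)

/-- the element `t` of the outer field -/
noncomputable def tL : LL := iotaL tk

/-- the element `A = s⁻¹` of the outer field -/
noncomputable def AA : LL := (single (-1 : ℚ) (1 : kk) : HahnSeries ℚ kk)

@[simp] lemma cf_thA (x : LL) (q : ℚ) : cf (thA x) q = -((q : kk) * cf x q) := rfl

@[simp] lemma cf_dT (x : LL) (q : ℚ) : cf (dT x) q = dk (cf x q) := rfl

lemma cf_eulL (x : LL) (q : ℚ) : cf (eulL x) q = (q : kk) * cf x q := rfl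

lemma cf_dS (x : LL) (q : ℚ) : cf (dS x) q = ((q + 1 : ℚ) : kk) * cf x (q + 1) :=
  ddFun_coeff (R := kk) x q

lemma LL_ext {x y : LL} (h : ∀ q, cf x q = cf y q) : x = y :=
  HahnSeries.ext (funext h)

lemma cf_add (x y : LL) (q : ℚ) : cf (x + y) q = cf x q + cf y q := rfl

/-- the two derivations used at infinity commute -/
lemma thA_dT_comm (x : LL) : thA (dT x) = dT (thA x) := by
  apply LL_ext
  intro q
  simp only [cf_thA, cf_dT]
  rw [map_neg, Derivation.leibniz]
  have h0 : dk (q : kk) = 0 := by
    have := dk.map_algebraMap (q : ℂ)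
    rwa [map_ratCast] at this
  rw [h0]
  simp

/-- the derivations `d/dt` and `d/ds` commute -/
lemma dT_dS_comm (x : LL) : dT (dS x) = dS (dT x) := by
  apply LL_ext
  intro q
  rw [cf_dT, cf_dS, cf_dS, cf_dT, Derivation.leibniz]
  have h0 : dk ((q + 1 : ℚ) : kk) = 0 := by
    have := dk.map_algebraMap ((q + 1 : ℚ) : ℂ)
    rwa [map_ratCast] at this
  rw [h0]
  simp

section laplacian

variable {Ω : Type} [Field Ω] [Algebra ℂ Ω]

/-- the metric coefficient `⟨d X, e X⟩` -/
noncomputable def met (d e : Derivation ℂ Ω Ω) (X : Fin 3 → Ω) : Ω := ∑ a, d (X a) * e (X a)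

/-- determinant of the metric -/
noncomputable def detM (d e : Derivation ℂ Ω Ω) (X : Fin 3 → Ω) : Ω :=
  met d d X * met e e X - met d e X ^ 2

/-- the Laplacian (minus divergence of gradient) in the frame `d, e`, for the metric with
coefficients `g11, g12, g22`, as a function -/
noncomputable def lapFun (d e : Derivation ℂ Ω Ω) (g11 g12 g22 : Ω) (u : Ω) : Ω :=
  -(d ((g22 * d u - g12 * e u) / (g11 * g22 - g12 ^ 2))
    + e ((g11 * e u - g12 * d u) / (g11 * g22 - g12 ^ 2))
    + d (g11 * g22 - g12 ^ 2) / (2 * (g11 * g22 - g12 ^ 2))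
        * ((g22 * d u - g12 * e u) / (g11 * g22 - g12 ^ 2))
    + e (g11 * g22 - g12 ^ 2) / (2 * (g11 * g22 - g12 ^ 2))
        * ((g11 * e u - g12 * d u) / (g11 * g22 - g12 ^ 2)))

/-- the Laplacian in the frame `d, e` as a linear map -/
noncomputable def lapO (d e : Derivation ℂ Ω Ω) (g11 g12 g22 : Ω) : Module.End ℂ Ω where
  toFun := lapFun d e g11 g12 g22
  map_add' := by
    intro u v
    simp only [lapFun, map_add]
    have h1 : (g22 * (d u + d v) - g12 * (e u + e v)) / (g11 * g22 - g12 ^ 2)
        = (g22 * d u - g12 * e u) / (g11 * g22 - g12 ^ 2)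
          + (g22 * d v - g12 * e v) / (g11 * g22 - g12 ^ 2) := by ring
    have h2 : (g11 * (e u + e v) - g12 * (d u + d v)) / (g11 * g22 - g12 ^ 2)
        = (g11 * e u - g12 * d u) / (g11 * g22 - g12 ^ 2)
          + (g11 * e v - g12 * d v) / (g11 * g22 - g12 ^ 2) := by ring
    rw [h1, h2, map_add, map_add]
    ring
  map_smul' := by
    intro c u
    have hd : ∀ x, d (c • x) = c • d x := fun x => d.map_smul c x
    have he : ∀ x, e (c • x) = c • e x := fun x => e.map_smul c x
    simp only [lapFun, hd, he, RingHom.id_apply]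
    have h1 : (g22 * c • d u - g12 * c • e u) / (g11 * g22 - g12 ^ 2)
        = c • ((g22 * d u - g12 * e u) / (g11 * g22 - g12 ^ 2)) := by
      simp only [Algebra.smul_def]; ring
    have h2 : (g11 * c • e u - g12 * c • d u) / (g11 * g22 - g12 ^ 2)
        = c • ((g11 * e u - g12 * d u) / (g11 * g22 - g12 ^ 2)) := by
      simp only [Algebra.smul_def]; ring
    rw [h1, h2, hd, he]
    simp only [Algebra.smul_def]
    ring

lemma lapO_apply (d e : Derivation ℂ Ω Ω) (g11 g12 g22 u : Ω) :
    lapO d e g11 g12 g22 u = lapFun d e g11 g12 g22 u := rfl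

/-- the Laplacian of the surface `X` in the frame `d, e` -/
noncomputable def lapX (d e : Derivation ℂ Ω Ω) (X : Fin 3 → Ω) : Module.End ℂ Ω :=
  lapO d e (met d d X) (met d e X) (met e e X)

/-- rank two condition: some 2x2 minor of the Jacobian is not zero -/
def Rank2 (d e : Derivation ℂ Ω Ω) (X : Fin 3 → Ω) : Prop :=
  ∃ a b, d (X a) * e (X b) - d (X b) * e (X a) ≠ 0

/-- the squared gradient of `F` at `X` -/
noncomputable def gradsq (F : MvPolynomial (Fin 3) ℂ) (X : Fin 3 → Ω) : Ω :=
  ∑ a, (MvPolynomial.aeval X (MvPolynomial.pderiv a F)) ^ 2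

end laplacian

/-- the isotropic curve `y(t) = (1 - t^2, i (1 + t^2), 2 t)` -/
noncomputable def yv {R : Type} [CommRing R] [Algebra ℂ R] (t : R) : Fin 3 → R :=
  ![1 - t ^ 2, algebraMap ℂ R Complex.I * (1 + t ^ 2), 2 * t]

/-- the isotropic vector `e = (-2, 2 i, 0)` -/
noncomputable def evec (R : Type) [CommRing R] [Algebra ℂ R] : Fin 3 → R :=
  ![-2, 2 * algebraMap ℂ R Complex.I, 0]

/-- the points at infinity `g (A y(t) + C e)` -/
noncomputable def xi (g : Matrix (Fin 3) (Fin 3) ℂ) (C : LL) : Fin 3 → LL :=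
  fun a => ∑ b, algebraMap ℂ LL (g a b) * (AA * yv tL b + C * evec LL b)

/-- the leading form of a polynomial -/
noncomputable def lead (F : MvPolynomial (Fin 3) ℂ) : MvPolynomial (Fin 3) ℂ :=
  MvPolynomial.homogeneousComponent F.totalDegree F

/-- the linear form with coefficient vector `v` -/
noncomputable def linForm (v : Fin 3 → ℂ) : MvPolynomial (Fin 3) ℂ :=
  ∑ i, MvPolynomial.C (v i) * MvPolynomial.X i

/-- the leading form of `F` has no isotropic linear factor -/
def NoIso (F : MvPolynomial (Fin 3) ℂ) : Prop :=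
  ∀ v : Fin 3 → ℂ, v ≠ 0 → ∑ i, v i ^ 2 = 0 → ¬ (linForm v ∣ lead F)

/-- the quadratic form `x1^2+x2^2+x3^2` -/
noncomputable def qq : MvPolynomial (Fin 3) ℂ := ∑ i, MvPolynomial.X i ^ 2

end Pool.Agent.Work.MP_abe657_gt
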