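import Mathlib

/-!
Definitions for surfaces of finite type in Euclidean 3-space (MP_abe657_gt).
-/

set_option autoImplicit false

namespace Pool.Agent.Work.MP_abe657_gt

open scoped Manifold ContDiff

/-- the Euclidean plane, in which charts of surfaces take their values -/
abbrev E2 : Type := EuclideanSpace ℝ (Fin 2)

/-- Euclidean 3-space -/
abbrev E3 : Type := EuclideanSpace ℝ (Fin 3)

/-- `i`-th partial derivative of a real function of two variables -/
noncomputable def pd (i : Fin 2) (f : E2 → ℝ) (u : E2) : ℝ :=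
  fderiv ℝ f u (EuclideanSpace.single i 1)

/-- the coefficients `g i j = ⟨∂ᵢ X, ∂ⱼ X⟩` of the first fundamental form of `X` -/
noncomputable def gm (X : E2 → E3) (i j : Fin 2) (u : E2) : ℝ :=
  inner ℝ (fderiv ℝ X u (EuclideanSpace.single i 1)) (fderiv ℝ X u (EuclideanSpace.single j 1))

/-- determinant of the first fundamental form -/
noncomputable def gdet (X : E2 → E3) (u : E2) : ℝ := gm X 0 0 u * gm X 1 1 u - gm X 0 1 u ^ 2

/-- the Laplacian `Δ f = - (1/√g) ∑ ∂ᵢ (√g gⁱʲ ∂ⱼ f)` of the metric induced by `X`, in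
coordinates -/
noncomputable def lap (X : E2 → E3) (f : E2 → ℝ) (u : E2) : ℝ :=
  -(1 / Real.sqrt (gdet X u))
    * (pd 0 (fun w => (gm X 1 1 w * pd 0 f w - gm X 0 1 w * pd 1 f w) / Real.sqrt (gdet X w)) u
      + pd 1 (fun w => (gm X 0 0 w * pd 1 f w - gm X 0 1 w * pd 0 f w) / Real.sqrt (gdet X w)) u)

section manifold

variable {M : Type*} [TopologicalSpace M] [ChartedSpace E2 M]

/-- `Δ f = l f` for the Laplacian of the metric induced by `x : M → E3`, expressed in all charts
of the atlas -/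
def IsEigen (x : M → E3) (f : M → ℝ) (l : ℝ) : Prop :=
  ∀ e ∈ atlas E2 M, ∀ u ∈ e.target, lap (x ∘ e.symm) (f ∘ e.symm) u = l * f (e.symm u)

/-- `x` is of finite type: `x = c + x₁ + ⋯ + x_k` with `c` constant and `x_i` smooth non-constant
maps with `Δ x_i = l_i x_i` -/
def FiniteType [IsManifold (𝓡 2) ∞ M] (x : M → E3) : Prop :=
  ∃ (k : ℕ) (c : E3) (y : Fin k → M → E3) (l : Fin k → ℝ),
    (∀ i, ContMDiff (𝓡 2) 𝓘(ℝ, E3) ∞ (y i)) ∧
    (∀ i, ¬ ∃ v, ∀ p, y i p = v) ∧
    (∀ i a, IsEigen x (fun p => y i p a) (l i)) ∧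
    ∀ p, x p = c + ∑ i, y i p

end manifold

end Pool.Agent.Work.MP_abe657_gt
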