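import Pool.Agent.Work.MP_abe657_gt.Defs
import Pool.Agent.Work.MP_abe657_gt.SurfDefs

/-!
Module Taylor (M). The Taylor expansion at a point as a map into `LL`.

Proof. For `f` smooth at `u0` let `c m n f = (∂₀^m ∂₁^n f)(u0) / (m! n!)` (iterates of `pd 0`, `pd 1`) and
`T f = ∑ c m n f t^m s^n`, i.e. the image of the power series
`PowerSeries.mk (fun n => PowerSeries.mk (fun m => (c m n f : ℂ)))` under
`HahnSeries.ofPowerSeries ℚ ℂ` (coefficientwise) and `HahnSeries.ofPowerSeries ℚ kk`. All iterated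
partial derivatives of `f` are smooth at `u0` and commute near `u0` (symmetry of second
derivatives), and depend only on the germ of `f`. `T (pd 0 f) = dT (T f)`, `T (pd 1 f) = dS (T f)` and
additivity are immediate on coefficients. Multiplicativity: call the constant coefficient
`ε(x) =` coefficient of `t^0 s^0`. An element of the image of power series is `0` as soon as
`ε (w x) = 0` for all words `w` in `dT, dS`. For all smooth `f, g` and all words `w`,
`ε (w (T(fg) - T f T g)) = 0`, by induction on the length of `w`: `T(fg) - T f T g` has `ε = 0`, and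
`dT (T(fg) - T f T g) = (T(∂₀f g) - T(∂₀f) T g) + (T(f ∂₀g) - T f T(∂₀g))`, same for `dS`.
-/

set_option autoImplicit false

namespace Pool.Agent.Work.MP_abe657_gt

open scoped ContDiff Topology

/-- `T` is the Taylor expansion map at `u0` -/
structure IsTaylor (u0 : E2) (T : (E2 → ℝ) → LL) : Prop where
  add : ∀ f g : E2 → ℝ, ContDiffAt ℝ ∞ f u0 → ContDiffAt ℝ ∞ g u0 →
    T (fun u => f u + g u) = T f + T g
  mul : ∀ f g : E2 → ℝ, ContDiffAt ℝ ∞ f u0 → ContDiffAt ℝ ∞ g u0 →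
    T (fun u => f u * g u) = T f * T g
  const : ∀ c : ℝ, T (fun _ => c) = algebraMap ℂ LL (c : ℂ)
  pd0 : ∀ f : E2 → ℝ, ContDiffAt ℝ ∞ f u0 → T (pd 0 f) = dT (T f)
  pd1 : ∀ f : E2 → ℝ, ContDiffAt ℝ ∞ f u0 → T (pd 1 f) = dS (T f)
  congr : ∀ f g : E2 → ℝ, f =ᶠ[𝓝 u0] g → T f = T g
  value : ∀ (f : E2 → ℝ) (z : ℂ), ContDiffAt ℝ ∞ f u0 → T f = algebraMap ℂ LL z →
    z = (f u0 : ℂ)

namespace TaylorAux

/-! ### the calculus side -/

theorem ty_smooth {f : E2 → ℝ} {u0 : E2} (i : Fin 2) (hf : ContDiffAt ℝ ∞ f u0) :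
    ContDiffAt ℝ ∞ (pd i f) u0 := by
  have h1 : ContDiffAt ℝ ∞ (fderiv ℝ f) u0 := hf.fderiv_right (by simp)
  exact h1.clm_apply contDiffAt_const

theorem ty_diff {f : E2 → ℝ} {u0 : E2} (hf : ContDiffAt ℝ ∞ f u0) :
    ∀ᶠ u in 𝓝 u0, DifferentiableAt ℝ f u := by
  have h1 : ContDiffAt ℝ 1 f u0 := hf.of_le (WithTop.coe_le_coe.2 le_top)
  have h2 := h1.eventually (by simp)
  filter_upwards [h2] with u hu
  exact hu.differentiableAt (by simp)

theorem ty_pd_congr {f g : E2 → ℝ} {u0 : E2} (i : Fin 2) (h : f =ᶠ[𝓝 u0] g) :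
    pd i f =ᶠ[𝓝 u0] pd i g := by
  filter_upwards [h.fderiv (𝕜 := ℝ)] with u hu
  rw [pd, pd, hu]

theorem ty_pd_add {f g : E2 → ℝ} {u0 : E2} (i : Fin 2) (hf : ContDiffAt ℝ ∞ f u0)
    (hg : ContDiffAt ℝ ∞ g u0) :
    pd i (fun u => f u + g u) =ᶠ[𝓝 u0] fun u => pd i f u + pd i g u := by
  filter_upwards [ty_diff hf, ty_diff hg] with u h1 h2
  rw [pd, pd, pd, fderiv_fun_add h1 h2]
  rfl

theorem ty_pd_mul {f g : E2 → ℝ} {u0 : E2} (i : Fin 2) (hf : ContDiffAt ℝ ∞ f u0)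
    (hg : ContDiffAt ℝ ∞ g u0) :
    pd i (fun u => f u * g u) =ᶠ[𝓝 u0] fun u => f u * pd i g u + g u * pd i f u := by
  filter_upwards [ty_diff hf, ty_diff hg] with u h1 h2
  rw [pd, pd, pd, fderiv_fun_mul h1 h2]
  rfl

theorem ty_pd_comm {f : E2 → ℝ} {u0 : E2} (i j : Fin 2) (hf : ContDiffAt ℝ ∞ f u0) :
    pd i (pd j f) =ᶠ[𝓝 u0] pd j (pd i f) := by
  have h1 : ContDiffAt ℝ 2 f u0 := hf.of_le (WithTop.coe_le_coe.2 le_top)
  have h2 := h1.eventually (by simp)
  filter_upwards [h2] with u hu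
  have h3 : IsSymmSndFDerivAt ℝ f u := hu.isSymmSndFDerivAt (by simp)
  have h4 : DifferentiableAt ℝ (fderiv ℝ f) u :=
    (hu.fderiv_right (m := 1) (by norm_num)).differentiableAt (by simp)
  have h5 : ∀ v w : E2, fderiv ℝ (fun y => fderiv ℝ f y v) u w = fderiv ℝ (fderiv ℝ f) u w v := by
    intro v w
    rw [fderiv_clm_apply h4 (differentiableAt_const v)]
    simp
  change fderiv ℝ (fun y => fderiv ℝ f y (EuclideanSpace.single j 1)) u
    (EuclideanSpace.single i 1) = fderiv ℝ (fun y => fderiv ℝ f y (EuclideanSpace.single i 1)) u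
    (EuclideanSpace.single j 1)
  rw [h5, h5]
  exact h3.eq _ _

theorem ty_it_smooth {f : E2 → ℝ} {u0 : E2} (i : Fin 2) (n : ℕ) (hf : ContDiffAt ℝ ∞ f u0) :
    ContDiffAt ℝ ∞ ((pd i)^[n] f) u0 := by
  induction n generalizing f with
  | zero => exact hf
  | succ n ih => exact ih (ty_smooth i hf)

theorem ty_it_congr {f g : E2 → ℝ} {u0 : E2} (i : Fin 2) (n : ℕ) (h : f =ᶠ[𝓝 u0] g) :
    (pd i)^[n] f =ᶠ[𝓝 u0] (pd i)^[n] g := by
  induction n generalizing f g with
  | zero => exact h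
  | succ n ih => exact ih (ty_pd_congr i h)

theorem ty_it_add {f g : E2 → ℝ} {u0 : E2} (i : Fin 2) (n : ℕ) (hf : ContDiffAt ℝ ∞ f u0)
    (hg : ContDiffAt ℝ ∞ g u0) :
    (pd i)^[n] (fun u => f u + g u) =ᶠ[𝓝 u0] fun u => (pd i)^[n] f u + (pd i)^[n] g u := by
  induction n generalizing f g with
  | zero => exact Filter.EventuallyEq.rfl
  | succ n ih =>
    exact (ty_it_congr i n (ty_pd_add i hf hg)).trans (ih (ty_smooth i hf) (ty_smooth i hg))

theorem ty_it_comm {f : E2 → ℝ} {u0 : E2} (i j : Fin 2) (n : ℕ) (hf : ContDiffAt ℝ ∞ f u0) :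
    (pd i)^[n] (pd j f) =ᶠ[𝓝 u0] pd j ((pd i)^[n] f) := by
  induction n generalizing f with
  | zero => exact Filter.EventuallyEq.rfl
  | succ n ih =>
    exact (ty_it_congr i n (ty_pd_comm i j hf)).trans (ih (ty_smooth i hf))

/-- the mixed derivatives -/
noncomputable def tyD (m n : ℕ) (f : E2 → ℝ) : E2 → ℝ := (pd 0)^[m] ((pd 1)^[n] f)

theorem tyD_congr {f g : E2 → ℝ} {u0 : E2} (m n : ℕ) (h : f =ᶠ[𝓝 u0] g) :
    tyD m n f u0 = tyD m n g u0 :=
  (ty_it_congr 0 m (ty_it_congr 1 n h)).eq_of_nhds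

theorem tyD_add {f g : E2 → ℝ} {u0 : E2} (m n : ℕ) (hf : ContDiffAt ℝ ∞ f u0)
    (hg : ContDiffAt ℝ ∞ g u0) :
    tyD m n (fun u => f u + g u) u0 = tyD m n f u0 + tyD m n g u0 :=
  ((ty_it_congr 0 m (ty_it_add 1 n hf hg)).trans
    (ty_it_add 0 m (ty_it_smooth 1 n hf) (ty_it_smooth 1 n hg))).eq_of_nhds

theorem tyD_pd0 {f : E2 → ℝ} {u0 : E2} (m n : ℕ) (hf : ContDiffAt ℝ ∞ f u0) :
    tyD m n (pd 0 f) u0 = tyD (m + 1) n f u0 :=
  (ty_it_congr 0 m (ty_it_comm 1 0 n hf)).eq_of_nhds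

theorem tyD_pd1 (f : E2 → ℝ) (u0 : E2) (m n : ℕ) :
    tyD m n (pd 1 f) u0 = tyD m (n + 1) f u0 := rfl

theorem tyD_const (c : ℝ) (u0 : E2) (m n : ℕ) :
    tyD m n (fun _ => c) u0 = if m = 0 ∧ n = 0 then c else 0 := by
  have h0 : ∀ (i : Fin 2) (c : ℝ), pd i (fun _ => c) = fun _ => 0 := by
    intro i c
    funext u
    simp [pd]
  have h1 : ∀ (i : Fin 2) (k : ℕ), (pd i)^[k] (fun _ => (0 : ℝ)) = fun _ => 0 := by
    intro i k
    induction k with
    | zero => rfl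
    | succ k ih => rw [Function.iterate_succ_apply, h0, ih]
  rcases n with _ | n
  · rcases m with _ | m
    · simp [tyD]
    · simp only [tyD, Function.iterate_zero, id_eq, Function.iterate_succ_apply]
      rw [h0, h1]
      simp
  · simp only [tyD, Function.iterate_succ_apply]
    rw [h0, h1, h1]
    simp

/-! ### the algebraic side -/

/-- coefficient of `t^q` in the inner field -/
noncomputable def ck (z : kk) (q : ℚ) : ℂ := HahnSeries.coeff (Γ := ℚ) (R := ℂ) z q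

theorem kk_ext {x y : kk} (h : ∀ q, ck x q = ck y q) : x = y := HahnSeries.ext (funext h)

theorem ck_add (x y : kk) (q : ℚ) : ck (x + y) q = ck x q + ck y q := rfl

theorem ck_sub (x y : kk) (q : ℚ) : ck (x - y) q = ck x q - ck y q := rfl

theorem ck_zero (q : ℚ) : ck 0 q = 0 := rfl

theorem hs_C_mul (c : ℂ) (x : HahnSeries ℚ ℂ) (q : ℚ) :
    (HahnSeries.C c * x).coeff q = c * x.coeff q := by
  rw [HahnSeries.C_mul_eq_smul, HahnSeries.coeff_smul, smul_eq_mul]

theorem ck_rat_mul (r : ℚ) (x : kk) (q : ℚ) : ck ((r : kk) * x) q = (r : ℂ) * ck x q := by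
  have h : (r : kk) = iotaK (r : ℂ) := (map_ratCast iotaK r).symm
  rw [h]
  exact hs_C_mul _ _ _

theorem ck_dk (x : kk) (q : ℚ) : ck (dk x) q = ((q + 1 : ℚ) : ℂ) * ck x (q + 1) :=
  ddFun_coeff (R := ℂ) x q

theorem cf_sub (x y : LL) (q : ℚ) : cf (x - y) q = cf x q - cf y q := rfl

theorem cf_zero (q : ℚ) : cf 0 q = 0 := rfl

/-- power series in the inner field -/
noncomputable def phiK : PowerSeries ℂ →+* kk := HahnSeries.ofPowerSeries ℚ ℂ

/-- power series in the outer field -/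
noncomputable def phiL : PowerSeries kk →+* LL := HahnSeries.ofPowerSeries ℚ kk

theorem ck_phiK (p : PowerSeries ℂ) (n : ℕ) : ck (phiK p) n = PowerSeries.coeff n p :=
  HahnSeries.ofPowerSeries_apply_coeff p n

theorem cf_phiL (p : PowerSeries kk) (n : ℕ) : cf (phiL p) n = PowerSeries.coeff n p :=
  HahnSeries.ofPowerSeries_apply_coeff p n

theorem ck_phiK_ne (p : PowerSeries ℂ) (q : ℚ) (hq : ∀ n : ℕ, q ≠ n) : ck (phiK p) q = 0 := by
  change HahnSeries.coeff (HahnSeries.ofPowerSeries ℚ ℂ p) q = 0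
  rw [HahnSeries.ofPowerSeries_apply]
  apply HahnSeries.embDomain_of_notMem_range
  rintro ⟨n, hn⟩
  exact hq n hn.symm

theorem cf_phiL_ne (p : PowerSeries kk) (q : ℚ) (hq : ∀ n : ℕ, q ≠ n) : cf (phiL p) q = 0 := by
  change HahnSeries.coeff (HahnSeries.ofPowerSeries ℚ kk p) q = 0
  rw [HahnSeries.ofPowerSeries_apply]
  apply HahnSeries.embDomain_of_notMem_range
  rintro ⟨n, hn⟩
  exact hq n hn.symm

/-- double power series in the outer field -/
noncomputable def phi : PowerSeries (PowerSeries ℂ) →+* LL := phiL.comp (PowerSeries.map phiK)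

/-- exponents are natural numbers -/
def Pow (x : LL) : Prop :=
  (∀ q : ℚ, (∀ n : ℕ, q ≠ (n : ℚ)) → cf x q = 0) ∧
    ∀ n : ℕ, ∀ q : ℚ, (∀ m : ℕ, q ≠ (m : ℚ)) → ck (cf x n) q = 0

theorem pow_phi (p : PowerSeries (PowerSeries ℂ)) : Pow (phi p) := by
  constructor
  · intro q hq
    exact cf_phiL_ne _ q hq
  · intro n q hq
    change ck (cf (phiL (PowerSeries.map phiK p)) n) q = 0
    rw [cf_phiL, PowerSeries.coeff_map]
    exact ck_phiK_ne _ q hq

theorem Pow.sub {x y : LL} (hx : Pow x) (hy : Pow y) : Pow (x - y) := by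
  constructor
  · intro q hq
    rw [cf_sub, hx.1 q hq, hy.1 q hq, sub_zero]
  · intro n q hq
    rw [cf_sub, ck_sub, hx.2 n q hq, hy.2 n q hq, sub_zero]

/-- `q + 1` is a natural number or `q = -1` or `q` is not a natural number -/
theorem rat_aux {A : Type*} [Zero A] (F : ℚ → A) (hF : ∀ q : ℚ, (∀ n : ℕ, q ≠ (n : ℚ)) → F q = 0) (q : ℚ)
    (hq : ∀ n : ℕ, q ≠ n) (hq1 : q + 1 ≠ 0) : F (q + 1) = 0 := by
  apply hF
  intro n hn
  rcases n with _ | n
  · exact hq1 (by simpa using hn)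
  · apply hq n
    push_cast at hn
    linarith

theorem Pow.ds {x : LL} (hx : Pow x) : Pow (dS x) := by
  constructor
  · intro q hq
    rw [cf_dS]
    by_cases hq1 : q + 1 = 0
    · rw [hq1]; simp
    · rw [rat_aux (cf x) hx.1 q hq hq1, mul_zero]
  · intro n q hq
    rw [cf_dS, ck_rat_mul]
    have := hx.2 (n + 1) q hq
    push_cast at this
    rw [this, mul_zero]

theorem Pow.dt {x : LL} (hx : Pow x) : Pow (dT x) := by
  constructor
  · intro q hq
    rw [cf_dT, hx.1 q hq, map_zero]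
  · intro n q hq
    rw [cf_dT, ck_dk]
    by_cases hq1 : q + 1 = 0
    · rw [hq1]; simp
    · rw [rat_aux (ck (cf x n)) (hx.2 n) q hq hq1, mul_zero]

/-- the constant coefficient -/
noncomputable def eps (x : LL) : ℂ := ck (cf x 0) 0

theorem eps_sub (x y : LL) : eps (x - y) = eps x - eps y := rfl

theorem cf_dS_it (n : ℕ) (x : LL) (q : ℚ) (hq : 0 ≤ q) : ∃ r : ℚ, r ≠ 0 ∧
    cf (dS^[n] x) q = (r : kk) * cf x (q + n) := by
  induction n generalizing x with
  | zero => exact ⟨1, one_ne_zero, by simp⟩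
  | succ n ih =>
    obtain ⟨r, hr, h⟩ := ih (dS x)
    refine ⟨r * (q + n + 1), mul_ne_zero hr (by positivity), ?_⟩
    rw [Function.iterate_succ_apply, h, cf_dS]
    push_cast
    rw [add_assoc q, mul_assoc]

theorem cf_dT_it (n : ℕ) (x : LL) (q : ℚ) : cf (dT^[n] x) q = dk^[n] (cf x q) := by
  induction n generalizing x with
  | zero => rfl
  | succ n ih => rw [Function.iterate_succ_apply, ih, cf_dT, Function.iterate_succ_apply]

theorem ck_dk_it (n : ℕ) (x : kk) (q : ℚ) (hq : 0 ≤ q) : ∃ r : ℚ, r ≠ 0 ∧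
    ck (dk^[n] x) q = (r : ℂ) * ck x (q + n) := by
  induction n generalizing x with
  | zero => exact ⟨1, one_ne_zero, by simp⟩
  | succ n ih =>
    obtain ⟨r, hr, h⟩ := ih (dk x)
    refine ⟨r * (q + n + 1), mul_ne_zero hr (by positivity), ?_⟩
    rw [Function.iterate_succ_apply, h, ck_dk]
    push_cast
    rw [add_assoc q, mul_assoc]

theorem Pow.eq_zero {x : LL} (hx : Pow x) (h : ∀ m n : ℕ, eps (dT^[m] (dS^[n] x)) = 0) :
    x = 0 := by
  apply LL_ext
  intro q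
  rw [cf_zero]
  by_cases hq : ∀ n : ℕ, q ≠ n
  · exact hx.1 q hq
  push Not at hq
  obtain ⟨n, rfl⟩ := hq
  apply kk_ext
  intro q
  rw [ck_zero]
  by_cases hq : ∀ m : ℕ, q ≠ m
  · exact hx.2 n q hq
  push Not at hq
  obtain ⟨m, rfl⟩ := hq
  have h1 := h m n
  rw [eps, cf_dT_it] at h1
  obtain ⟨r, hr, h2⟩ := cf_dS_it n x 0 le_rfl
  rw [h2, zero_add] at h1
  obtain ⟨r', hr', h3⟩ := ck_dk_it m ((r : kk) * cf x n) 0 le_rfl
  rw [h3, zero_add, ck_rat_mul] at h1
  rcases mul_eq_zero.1 h1 with h4 | h4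
  · exact absurd (by exact_mod_cast h4) hr'
  rcases mul_eq_zero.1 h4 with h5 | h5
  · exact absurd (by exact_mod_cast h5) hr
  · exact h5

/-- the Taylor expansion -/
noncomputable def tyP (u0 : E2) (f : E2 → ℝ) : PowerSeries (PowerSeries ℂ) :=
  PowerSeries.mk fun n => PowerSeries.mk fun m =>
    ((tyD m n f u0 : ℝ) : ℂ) / ((m.factorial : ℂ) * (n.factorial : ℂ))

/-- the Taylor expansion -/
noncomputable def tyT (u0 : E2) (f : E2 → ℝ) : LL := phi (tyP u0 f)

theorem cf_phi (p : PowerSeries (PowerSeries ℂ)) (m n : ℕ) :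
    ck (cf (phi p) n) m = PowerSeries.coeff m (PowerSeries.coeff n p) := by
  change ck (cf (phiL (PowerSeries.map phiK p)) n) m = _
  rw [cf_phiL, PowerSeries.coeff_map, ck_phiK]

theorem cf_tyT (u0 : E2) (f : E2 → ℝ) (m n : ℕ) : ck (cf (tyT u0 f) n) m =
    ((tyD m n f u0 : ℝ) : ℂ) / ((m.factorial : ℂ) * (n.factorial : ℂ)) := by
  rw [tyT, cf_phi, tyP, PowerSeries.coeff_mk, PowerSeries.coeff_mk]

theorem pow_tyT (u0 : E2) (f : E2 → ℝ) : Pow (tyT u0 f) := pow_phi _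

theorem pow_ext {x y : LL} (hx : Pow x) (hy : Pow y)
    (h : ∀ m n : ℕ, ck (cf x n) m = ck (cf y n) m) : x = y := by
  apply LL_ext
  intro q
  by_cases hq : ∀ n : ℕ, q ≠ n
  · rw [hx.1 q hq, hy.1 q hq]
  push Not at hq
  obtain ⟨n, rfl⟩ := hq
  apply kk_ext
  intro q
  by_cases hq : ∀ m : ℕ, q ≠ m
  · rw [hx.2 n q hq, hy.2 n q hq]
  push Not at hq
  obtain ⟨m, rfl⟩ := hq
  exact h m n

theorem tyT_congr {u0 : E2} {f g : E2 → ℝ} (h : f =ᶠ[𝓝 u0] g) : tyT u0 f = tyT u0 g := by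
  have : tyP u0 f = tyP u0 g := by
    simp only [tyP]
    congr 1
    funext n
    congr 1
    funext m
    rw [tyD_congr m n h]
  rw [tyT, this, tyT]

theorem tyT_add {u0 : E2} {f g : E2 → ℝ} (hf : ContDiffAt ℝ ∞ f u0) (hg : ContDiffAt ℝ ∞ g u0) :
    tyT u0 (fun u => f u + g u) = tyT u0 f + tyT u0 g := by
  have : tyP u0 (fun u => f u + g u) = tyP u0 f + tyP u0 g := by
    ext n m
    simp only [tyP, PowerSeries.coeff_mk, map_add, tyD_add m n hf hg]
    push_cast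
    ring
  rw [tyT, this, map_add, tyT, tyT]

theorem tyT_pd0 {u0 : E2} {f : E2 → ℝ} (hf : ContDiffAt ℝ ∞ f u0) :
    tyT u0 (pd 0 f) = dT (tyT u0 f) := by
  apply pow_ext (pow_tyT _ _) (pow_tyT _ _).dt
  intro m n
  have h := cf_tyT u0 f (m + 1) n
  push_cast at h
  rw [cf_tyT, cf_dT, ck_dk, h, tyD_pd0 m n hf, Nat.factorial_succ]
  have h1 : ((m.factorial : ℕ) : ℂ) ≠ 0 := by exact_mod_cast m.factorial_ne_zero
  have h2 : ((n.factorial : ℕ) : ℂ) ≠ 0 := by exact_mod_cast n.factorial_ne_zero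
  have h3 : ((m : ℂ) + 1) ≠ 0 := by exact_mod_cast m.succ_ne_zero
  push_cast
  field_simp

theorem tyT_pd1 {u0 : E2} {f : E2 → ℝ} :
    tyT u0 (pd 1 f) = dS (tyT u0 f) := by
  apply pow_ext (pow_tyT _ _) (pow_tyT _ _).ds
  intro m n
  have h := cf_tyT u0 f m (n + 1)
  push_cast at h
  rw [cf_tyT, cf_dS, ck_rat_mul, h, tyD_pd1, Nat.factorial_succ]
  have h1 : ((m.factorial : ℕ) : ℂ) ≠ 0 := by exact_mod_cast m.factorial_ne_zero
  have h2 : ((n.factorial : ℕ) : ℂ) ≠ 0 := by exact_mod_cast n.factorial_ne_zero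
  have h3 : ((n : ℂ) + 1) ≠ 0 := by exact_mod_cast n.succ_ne_zero
  push_cast
  field_simp

theorem eps_tyT (u0 : E2) (f : E2 → ℝ) : eps (tyT u0 f) = (f u0 : ℂ) := by
  have h := cf_tyT u0 f 0 0
  simp only [Nat.cast_zero, Nat.factorial_zero, Nat.cast_one, mul_one, div_one] at h
  exact h

theorem eps_phi (p : PowerSeries (PowerSeries ℂ)) :
    eps (phi p) = PowerSeries.constantCoeff (PowerSeries.constantCoeff p) := by
  have h := cf_phi p 0 0
  simp only [Nat.cast_zero, PowerSeries.coeff_zero_eq_constantCoeff] at h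
  exact h

theorem phiK_C (c : ℂ) : phiK (PowerSeries.C c) = iotaK c := HahnSeries.ofPowerSeries_C c

theorem phiL_C (c : kk) : phiL (PowerSeries.C c) = iotaL c := HahnSeries.ofPowerSeries_C c

theorem ty_mul_diff {u0 : E2} (n : ℕ) (D : Derivation ℂ LL LL) (i : Fin 2)
    (hD : ∀ f : E2 → ℝ, ContDiffAt ℝ ∞ f u0 → tyT u0 (pd i f) = D (tyT u0 f))
    (Q : LL → Prop) (hQadd : ∀ x y, Q x → Q y → Q (x + y))
    (h0 : ∀ f g : E2 → ℝ, ContDiffAt ℝ ∞ f u0 → ContDiffAt ℝ ∞ g u0 →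
      Q (tyT u0 (fun u => f u * g u) - tyT u0 f * tyT u0 g))
    (f g : E2 → ℝ) (hf : ContDiffAt ℝ ∞ f u0) (hg : ContDiffAt ℝ ∞ g u0) :
    Q (D^[n] (tyT u0 (fun u => f u * g u) - tyT u0 f * tyT u0 g)) := by
  induction n generalizing f g with
  | zero => exact h0 f g hf hg
  | succ n ih =>
    have hf' := ty_smooth i hf
    have hg' := ty_smooth i hg
    have e1 : tyT u0 (pd i (fun u => f u * g u)) =
        tyT u0 (fun u => f u * pd i g u) + tyT u0 (fun u => g u * pd i f u) := by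
      rw [tyT_congr (ty_pd_mul i hf hg)]
      exact tyT_add (hf.mul hg') (hg.mul hf')
    have e2 : D (tyT u0 (fun u => f u * g u) - tyT u0 f * tyT u0 g) =
        (tyT u0 (fun u => f u * pd i g u) - tyT u0 f * tyT u0 (pd i g)) +
        (tyT u0 (fun u => g u * pd i f u) - tyT u0 g * tyT u0 (pd i f)) := by
      rw [map_sub, ← hD _ (hf.mul hg), e1, Derivation.leibniz, ← hD f hf, ← hD g hg, smul_eq_mul,
        smul_eq_mul]
      ring
    have hadd : ∀ x y, D^[n] (x + y) = D^[n] x + D^[n] y := by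
      intro x y
      exact iterate_map_add D n x y
    rw [Function.iterate_succ_apply, e2, hadd]
    exact hQadd _ _ (ih f (pd i g) hf hg') (ih g (pd i f) hg hf')

theorem tyT_mul {u0 : E2} {f g : E2 → ℝ} (hf : ContDiffAt ℝ ∞ f u0) (hg : ContDiffAt ℝ ∞ g u0) :
    tyT u0 (fun u => f u * g u) = tyT u0 f * tyT u0 g := by
  rw [← sub_eq_zero]
  have hpow : Pow (tyT u0 f * tyT u0 g) := by
    rw [tyT, tyT, ← map_mul]
    exact pow_phi _
  apply ((pow_tyT _ _).sub hpow).eq_zero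
  intro m n
  refine ty_mul_diff n dS 1 (fun f _ => tyT_pd1) (fun x => ∀ m : ℕ, eps (dT^[m] x) = 0) ?_ ?_
    f g hf hg m
  · intro x y hx hy m
    rw [iterate_map_add]
    change eps (dT^[m] x) + eps (dT^[m] y) = 0
    rw [hx, hy, add_zero]
  · intro f g hf hg m
    refine ty_mul_diff m dT 0 (fun f hf => tyT_pd0 hf) (fun x => eps x = 0) ?_ ?_ f g hf hg
    · intro x y hx hy
      change eps x + eps y = 0
      rw [hx, hy, add_zero]
    · intro f g hf hg
      rw [eps_sub, eps_tyT, tyT, tyT, ← map_mul, eps_phi, map_mul, map_mul, ← eps_phi, ← eps_phi]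
      change ((f u0 * g u0 : ℝ) : ℂ) - eps (tyT u0 f) * eps (tyT u0 g) = 0
      rw [eps_tyT, eps_tyT]
      push_cast
      ring

theorem tyT_const (u0 : E2) (c : ℝ) : tyT u0 (fun _ => c) = algebraMap ℂ LL (c : ℂ) := by
  have h : tyP u0 (fun _ => c) = PowerSeries.C (PowerSeries.C (c : ℂ)) := by
    ext n m
    simp only [tyP, PowerSeries.coeff_mk, tyD_const, PowerSeries.coeff_C]
    by_cases hn : n = 0
    · subst hn
      by_cases hm : m = 0
      · subst hm
        simp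
      · simp [PowerSeries.coeff_C, hm]
    · simp [hn]
  rw [tyT, h]
  change phiL (PowerSeries.map phiK (PowerSeries.C (PowerSeries.C (c : ℂ)))) = _
  rw [PowerSeries.map_C, phiK_C, phiL_C]
  rfl

end TaylorAux

open TaylorAux in
theorem exists_taylor (u0 : E2) : ∃ T : (E2 → ℝ) → LL, IsTaylor u0 T := by
  refine ⟨tyT u0, ?_⟩
  exact
    { add := fun f g hf hg => tyT_add hf hg
      mul := fun f g hf hg => tyT_mul hf hg
      const := tyT_const u0
      pd0 := fun f hf => tyT_pd0 hf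
      pd1 := fun f _ => tyT_pd1
      congr := fun f g h => tyT_congr h
      value := fun f z _ h => by
        have h1 := congrArg eps h
        rw [eps_tyT] at h1
        rw [h1]
        have h2 := congrArg eps (show phi (PowerSeries.C (PowerSeries.C z)) = algebraMap ℂ LL z by
          change phiL (PowerSeries.map phiK (PowerSeries.C (PowerSeries.C z))) = _
          rw [PowerSeries.map_C, phiK_C, phiL_C]
          rfl)
        rw [← h2, eps_phi]
        simp }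

end Pool.Agent.Work.MP_abe657_gt
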