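import Pool.Agent.Work.MP_abe657_gt.Taylor

/-!
Module TaylorLap (M). The Taylor expansion intertwines `lap` and `lapX`.

Proof. Near `u0` the functions `gm X i j` are smooth and `gdet X > 0` (by injectivity of the derivative at
`u0`: Cauchy-Schwarz strict), so `√(gdet X)` is smooth and positive, and by the quotient rule, near `u0`,
`lap X f = -(pd 0 (A/D) + pd 1 (B/D) + (pd 0 D/(2D)) (A/D) + (pd 1 D/(2D)) (B/D))` with `D = gdet X`,
`A = g22 pd 0 f - g12 pd 1 f`, `B = g11 pd 1 f - g12 pd 0 f` (write `A/√D = √D (A/D)`). Apply `T`: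
`T (1/D) = (T D)⁻¹` from `T (D * (1/D)) = T 1`, where `T D ≠ 0` since otherwise
`T D = algebraMap 0`, so `D u0 = 0` by `value`. `T (gm X i j) = met ..` (inner product as a sum of
products of partial derivatives of components), where `d = dT` is index `0`, `e = dS` is index `1`.
-/

set_option autoImplicit false

namespace Pool.Agent.Work.MP_abe657_gt

open scoped ContDiff Topology

namespace TaylorLapAux

open TaylorAux

theorem field_id {Ω : Type} [Field Ω] [CharZero Ω] [Algebra ℂ Ω] (d e : Derivation ℂ Ω Ω) (S a b : Ω)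
    (hS : S ≠ 0) : (1 / S) * (d (a / S) + e (b / S)) =
      d (a / S ^ 2) + e (b / S ^ 2) + d (S ^ 2) / (2 * S ^ 2) * (a / S ^ 2) +
        e (S ^ 2) / (2 * S ^ 2) * (b / S ^ 2) := by
  have h1 : ∀ (D : Derivation ℂ Ω Ω) (c : Ω), (1 / S) * D (c / S) =
      D (c / S ^ 2) + D (S ^ 2) / (2 * S ^ 2) * (c / S ^ 2) := by
    intro D c
    have e1 : c / S = S * (c / S ^ 2) := by field_simp
    have e2 : D (S ^ 2) = 2 * S * D S := by
      rw [sq, Derivation.leibniz, smul_eq_mul]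
      ring
    rw [e2]
    rw [e1, Derivation.leibniz, smul_eq_mul, smul_eq_mul]
    field_simp
  rw [mul_add, h1, h1]
  ring

section

variable {u0 : E2} {T : (E2 → ℝ) → LL} (hT : IsTaylor u0 T)

include hT

theorem T_neg {f : E2 → ℝ} (hf : ContDiffAt ℝ ∞ f u0) : T (fun u => -f u) = -T f := by
  have h := hT.mul (fun _ => -1) f contDiffAt_const hf
  rw [hT.const] at h
  have h1 : (fun u => (-1 : ℝ) * f u) = fun u => -f u := by
    funext u
    ring
  rw [h1] at h
  rw [h]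
  simp

theorem T_sub {f g : E2 → ℝ} (hf : ContDiffAt ℝ ∞ f u0) (hg : ContDiffAt ℝ ∞ g u0) :
    T (fun u => f u - g u) = T f - T g := by
  have h := hT.add f (fun u => -g u) hf hg.neg
  rw [T_neg hT hg] at h
  have h1 : (fun u => f u + -g u) = fun u => f u - g u := by
    funext u
    ring
  rw [h1] at h
  rw [h]
  ring

end

/-- coordinates -/
theorem smooth_coord {X : E2 → E3} {u0 : E2} (hX : ContDiffAt ℝ ∞ X u0) (a : Fin 3) :
    ContDiffAt ℝ ∞ (fun u => X u a) u0 := by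
  exact (contDiffAt_piLp 2).1 hX a

theorem pd_coord {X : E2 → E3} {u : E2} (hX : DifferentiableAt ℝ X u) (a : Fin 3) (i : Fin 2) :
    pd i (fun u => X u a) u = fderiv ℝ X u (EuclideanSpace.single i 1) a := by
  have h := ((EuclideanSpace.proj (𝕜 := ℝ) a : E3 →L[ℝ] ℝ).hasFDerivAt.comp u hX.hasFDerivAt).fderiv
  have h2 : (fun u => X u a) = (EuclideanSpace.proj (𝕜 := ℝ) a : E3 →L[ℝ] ℝ) ∘ X := rfl
  rw [pd, h2, h]
  rfl

theorem gm_eq {X : E2 → E3} {u : E2} (hX : DifferentiableAt ℝ X u) (i j : Fin 2) :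
    gm X i j u = ∑ a, pd i (fun u => X u a) u * pd j (fun u => X u a) u := by
  rw [gm, PiLp.inner_apply]
  refine Finset.sum_congr rfl fun a _ => ?_
  rw [pd_coord hX, pd_coord hX]
  simp [mul_comm]

theorem gm_smooth {X : E2 → E3} {u0 : E2} (hX : ContDiffAt ℝ ∞ X u0) (i j : Fin 2) :
    ContDiffAt ℝ ∞ (gm X i j) u0 := by
  have h1 : ContDiffAt ℝ ∞ (fderiv ℝ X) u0 := hX.fderiv_right (by simp)
  exact ContDiffAt.inner ℝ (h1.clm_apply contDiffAt_const) (h1.clm_apply contDiffAt_const)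

theorem X_diff {X : E2 → E3} {u0 : E2} (hX : ContDiffAt ℝ ∞ X u0) :
    ∀ᶠ u in 𝓝 u0, DifferentiableAt ℝ X u := by
  have h1 : ContDiffAt ℝ 1 X u0 := hX.of_le (WithTop.coe_le_coe.2 le_top)
  have h2 := h1.eventually (by simp)
  filter_upwards [h2] with u hu
  exact hu.differentiableAt (by simp)

/-- derivations -/
noncomputable def DD (i : Fin 2) : Derivation ℂ LL LL := if i = 0 then dT else dS

theorem T_pd {u0 : E2} {T : (E2 → ℝ) → LL} (hT : IsTaylor u0 T) (i : Fin 2) {f : E2 → ℝ}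
    (hf : ContDiffAt ℝ ∞ f u0) : T (pd i f) = DD i (T f) := by
  fin_cases i
  · exact hT.pd0 f hf
  · exact hT.pd1 f hf

theorem T_gm {u0 : E2} {T : (E2 → ℝ) → LL} (hT : IsTaylor u0 T) {X : E2 → E3}
    (hX : ContDiffAt ℝ ∞ X u0) (i j : Fin 2) :
    T (gm X i j) = met (DD i) (DD j) (fun a => T (fun u => X u a)) := by
  have h1 : gm X i j =ᶠ[𝓝 u0] fun u =>
      (pd i (fun u => X u 0) u * pd j (fun u => X u 0) u +
        pd i (fun u => X u 1) u * pd j (fun u => X u 1) u) +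
          pd i (fun u => X u 2) u * pd j (fun u => X u 2) u := by
    filter_upwards [X_diff hX] with u hu
    rw [gm_eq hu, Fin.sum_univ_three]
  have s : ∀ (i : Fin 2) (a : Fin 3), ContDiffAt ℝ ∞ (pd i (fun u => X u a)) u0 := fun i a =>
    ty_smooth i (smooth_coord hX a)
  rw [hT.congr _ _ h1]
  rw [hT.add _ _ (((s i 0).mul (s j 0)).add ((s i 1).mul (s j 1))) ((s i 2).mul (s j 2)),
    hT.add _ _ ((s i 0).mul (s j 0)) ((s i 1).mul (s j 1)),
    hT.mul _ _ (s i 0) (s j 0), hT.mul _ _ (s i 1) (s j 1), hT.mul _ _ (s i 2) (s j 2)]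
  simp only [T_pd hT _ (smooth_coord hX _)]
  rw [met, Fin.sum_univ_three]

theorem gdet_smooth {X : E2 → E3} {u0 : E2} (hX : ContDiffAt ℝ ∞ X u0) :
    ContDiffAt ℝ ∞ (gdet X) u0 :=
  ((gm_smooth hX 0 0).mul (gm_smooth hX 1 1)).sub ((gm_smooth hX 0 1).pow 2)

theorem T_gdet {u0 : E2} {T : (E2 → ℝ) → LL} (hT : IsTaylor u0 T) {X : E2 → E3}
    (hX : ContDiffAt ℝ ∞ X u0) :
    T (gdet X) = detM dT dS (fun a => T (fun u => X u a)) := by
  have e : gdet X = fun u => gm X 0 0 u * gm X 1 1 u - gm X 0 1 u * gm X 0 1 u := by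
    funext u
    rw [gdet]
    ring
  rw [e, T_sub hT ((gm_smooth hX 0 0).mul (gm_smooth hX 1 1))
    ((gm_smooth hX 0 1).mul (gm_smooth hX 0 1)), hT.mul _ _ (gm_smooth hX 0 0) (gm_smooth hX 1 1),
    hT.mul _ _ (gm_smooth hX 0 1) (gm_smooth hX 0 1), T_gm hT hX, T_gm hT hX, T_gm hT hX, detM]
  change _ = met (DD 0) (DD 0) _ * met (DD 1) (DD 1) _ - met (DD 0) (DD 1) _ ^ 2
  ring

theorem gdet_pos {X : E2 → E3} {u0 : E2} (himm : Function.Injective (fderiv ℝ X u0)) :
    0 < gdet X u0 := by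
  set a := fderiv ℝ X u0 (EuclideanSpace.single 0 1) with ha
  set b := fderiv ℝ X u0 (EuclideanSpace.single 1 1) with hb
  have hD : gdet X u0 = inner ℝ a a * inner ℝ b b - inner ℝ a b ^ 2 := rfl
  have h0 : 0 ≤ gdet X u0 := by
    rw [hD]
    have := real_inner_mul_inner_self_le a b
    nlinarith
  refine lt_of_le_of_ne h0 ?_
  intro h1
  have h2 : inner ℝ b b • a - inner ℝ a b • b = 0 := by
    rw [← inner_self_eq_zero (𝕜 := ℝ)]
    simp only [inner_sub_left, inner_sub_right, inner_smul_left, inner_smul_right,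
      RCLike.conj_to_real, real_inner_comm a b]
    rw [hD] at h1
    rw [real_inner_comm b a] at *
    linear_combination (-(inner ℝ b b)) * h1
  have h3 : fderiv ℝ X u0 (inner ℝ b b • EuclideanSpace.single 0 1 -
      inner ℝ a b • EuclideanSpace.single 1 1) = 0 := by
    rw [map_sub, map_smul, map_smul]
    exact h2
  have h4 := himm (h3.trans (map_zero _).symm)
  have h5 := congrFun (congrArg (WithLp.ofLp) h4) 0
  simp at h5
  have h6 : b = 0 := h5
  have h7 := himm ((hb.symm.trans h6).trans (map_zero _).symm)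
  have h8 := congrFun (congrArg (WithLp.ofLp) h7) 1
  simp at h8

end TaylorLapAux

open TaylorLapAux TaylorAux in
theorem taylor_lap (u0 : E2) (T : (E2 → ℝ) → LL) (hT : IsTaylor u0 T) (X : E2 → E3)
    (hX : ContDiffAt ℝ ∞ X u0) (himm : Function.Injective (fderiv ℝ X u0)) :
    detM dT dS (fun a => T (fun u => X u a)) ≠ 0 ∧
    ∀ f : E2 → ℝ, ContDiffAt ℝ ∞ f u0 →
      T (lap X f) = lapX dT dS (fun a => T (fun u => X u a)) (T f) := by
  have hpos := gdet_pos himm
  have hdet : detM dT dS (fun a => T (fun u => X u a)) ≠ 0 := by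
    intro h
    rw [← T_gdet hT hX] at h
    have h1 := hT.value (gdet X) 0 (gdet_smooth hX) (by rw [h, map_zero])
    have h2 : gdet X u0 = 0 := by exact_mod_cast h1.symm
    exact hpos.ne' h2
  refine ⟨hdet, ?_⟩
  intro f hf
  have hs : ContDiffAt ℝ ∞ (fun u => Real.sqrt (gdet X u)) u0 :=
    (gdet_smooth hX).sqrt hpos.ne'
  have hev : ∀ᶠ u in 𝓝 u0, 0 < gdet X u :=
    (gdet_smooth hX).continuousAt.eventually (lt_mem_nhds hpos)
  have hs0 : Real.sqrt (gdet X u0) ≠ 0 := (Real.sqrt_pos.2 hpos).ne'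
  obtain ⟨S, hS⟩ : ∃ S, S = T (fun u => Real.sqrt (gdet X u)) := ⟨_, rfl⟩
  have hS2 : S ^ 2 = detM dT dS (fun a => T (fun u => X u a)) := by
    rw [← T_gdet hT hX, sq, hS, ← hT.mul _ _ hs hs]
    apply hT.congr
    filter_upwards [hev] with u hu
    exact Real.mul_self_sqrt hu.le
  have hSne : S ≠ 0 := by
    rintro rfl
    rw [zero_pow two_ne_zero] at hS2
    exact hdet hS2.symm
  have hdiv : ∀ A : E2 → ℝ, ContDiffAt ℝ ∞ A u0 →
      T (fun w => A w / Real.sqrt (gdet X w)) = T A / S := by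
    intro A hA
    have hq : ContDiffAt ℝ ∞ (fun w => A w / Real.sqrt (gdet X w)) u0 := hA.div hs hs0
    rw [eq_div_iff hSne, hS, ← hT.mul _ _ hq hs]
    apply hT.congr
    filter_upwards [hev] with u hu
    have : Real.sqrt (gdet X u) ≠ 0 := (Real.sqrt_pos.2 hu).ne'
    field_simp
  have p0 := ty_smooth 0 hf
  have p1 := ty_smooth 1 hf
  have g00 := gm_smooth hX 0 0
  have g01 := gm_smooth hX 0 1
  have g11 := gm_smooth hX 1 1
  have sA : ContDiffAt ℝ ∞ (fun w => gm X 1 1 w * pd 0 f w - gm X 0 1 w * pd 1 f w) u0 :=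
    (g11.mul p0).sub (g01.mul p1)
  have sB : ContDiffAt ℝ ∞ (fun w => gm X 0 0 w * pd 1 f w - gm X 0 1 w * pd 0 f w) u0 :=
    (g00.mul p1).sub (g01.mul p0)
  have sA' : ContDiffAt ℝ ∞ (fun w => (gm X 1 1 w * pd 0 f w - gm X 0 1 w * pd 1 f w) /
      Real.sqrt (gdet X w)) u0 := sA.div hs hs0
  have sB' : ContDiffAt ℝ ∞ (fun w => (gm X 0 0 w * pd 1 f w - gm X 0 1 w * pd 0 f w) /
      Real.sqrt (gdet X w)) u0 := sB.div hs hs0
  have TA : T (fun w => gm X 1 1 w * pd 0 f w - gm X 0 1 w * pd 1 f w) =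
      met dS dS (fun a => T (fun u => X u a)) * dT (T f) -
        met dT dS (fun a => T (fun u => X u a)) * dS (T f) := by
    rw [T_sub hT (g11.mul p0) (g01.mul p1), hT.mul _ _ g11 p0, hT.mul _ _ g01 p1, T_gm hT hX,
      T_gm hT hX, T_pd hT 0 hf, T_pd hT 1 hf]
    rfl
  have TB : T (fun w => gm X 0 0 w * pd 1 f w - gm X 0 1 w * pd 0 f w) =
      met dT dT (fun a => T (fun u => X u a)) * dS (T f) -
        met dT dS (fun a => T (fun u => X u a)) * dT (T f) := by
    rw [T_sub hT (g00.mul p1) (g01.mul p0), hT.mul _ _ g00 p1, hT.mul _ _ g01 p0, T_gm hT hX,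
      T_gm hT hX, T_pd hT 0 hf, T_pd hT 1 hf]
    rfl
  have s1 : ContDiffAt ℝ ∞ (fun u => 1 / Real.sqrt (gdet X u)) u0 := contDiffAt_const.div hs hs0
  have T1 : T (fun u => -(1 / Real.sqrt (gdet X u))) = -(1 / S) := by
    rw [T_neg hT s1, hdiv (fun _ => 1) contDiffAt_const, hT.const]
    simp
  have step : T (lap X f) = -(1 / S) *
      (dT (T (fun w => (gm X 1 1 w * pd 0 f w - gm X 0 1 w * pd 1 f w) / Real.sqrt (gdet X w))) +
      dS (T (fun w => (gm X 0 0 w * pd 1 f w - gm X 0 1 w * pd 0 f w) /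
        Real.sqrt (gdet X w)))) := by
    rw [← T1, ← hT.pd0 _ sA', ← hT.pd1 _ sB', ← hT.add _ _ (ty_smooth 0 sA') (ty_smooth 1 sB'),
      ← hT.mul _ _ s1.neg ((ty_smooth 0 sA').add (ty_smooth 1 sB'))]
    rfl
  rw [step, hdiv _ sA, hdiv _ sB, TA, TB, neg_mul, field_id dT dS S _ _ hSne, hS2]
  rfl

end Pool.Agent.Work.MP_abe657_gt
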