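import Pool.Agent.Work.MP_abe657_gt.SurfDefs

/-!
Module ChartData (S-M). Local representatives in charts of the atlas.

Proof. `e.symm` is smooth on `e.target` (`contMDiffOn_symm_of_mem_maximalAtlas`), so `x ∘ e.symm` is
`ContMDiffOn` on `e.target` between vector spaces, i.e. `ContDiffOn` (`contMDiffOn_iff_contDiffOn`); its
derivative is `mfderiv x (e.symm u) ∘ mfderiv e.symm u` with the second factor injective
(`e ∘ e.symm = id` near `u`). Constancy: `h` has locally zero derivative, so it is locally constant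
(`IsLocallyConstant`), and `M` is connected.
-/

set_option autoImplicit false

namespace Pool.Agent.Work.MP_abe657_gt

open scoped Manifold ContDiff Topology

variable {M : Type*} [TopologicalSpace M] [ChartedSpace E2 M] [IsManifold (𝓡 2) ∞ M]

theorem chart_contDiffOn (x : M → E3) (hx : ContMDiff (𝓡 2) 𝓘(ℝ, E3) ∞ x) (e : OpenPartialHomeomorph M E2)
    (he : e ∈ atlas E2 M) : ContDiffOn ℝ ∞ (x ∘ e.symm) e.target := by
  have h1 : ContMDiffOn (𝓡 2) (𝓡 2) ∞ e.symm e.target :=
    contMDiffOn_symm_of_mem_maximalAtlas (IsManifold.subset_maximalAtlas he)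
  have h2 : ContMDiffOn (𝓡 2) 𝓘(ℝ, E3) ∞ (x ∘ e.symm) e.target :=
    hx.comp_contMDiffOn h1
  exact contMDiffOn_iff_contDiffOn.1 h2

theorem chart_contDiffOn_comp (y : M → E3) (hy : ContMDiff (𝓡 2) 𝓘(ℝ, E3) ∞ y) (a : Fin 3)
    (e : OpenPartialHomeomorph M E2) (he : e ∈ atlas E2 M) :
    ContDiffOn ℝ ∞ ((fun p => y p a) ∘ e.symm) e.target := by
  have h := chart_contDiffOn y hy e he
  rw [contDiffOn_euclidean] at h
  exact h a

theorem chart_injective (x : M → E3) (hx : ContMDiff (𝓡 2) 𝓘(ℝ, E3) ∞ x)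
    (himm : ∀ p, Function.Injective (mfderiv (𝓡 2) 𝓘(ℝ, E3) x p))
    (e : OpenPartialHomeomorph M E2) (he : e ∈ atlas E2 M) (u : E2) (hu : u ∈ e.target) :
    Function.Injective (fderiv ℝ (x ∘ e.symm) u) := by
  haveI : IsManifold (𝓡 2) 1 M := IsManifold.of_le (n := ∞) (by exact_mod_cast le_top)
  have hmd : e.MDifferentiable (𝓡 2) (𝓡 2) := mdifferentiable_of_mem_atlas he
  have h1 : MDifferentiableAt (𝓡 2) 𝓘(ℝ, E3) x (e.symm u) :=
    (hx (e.symm u)).mdifferentiableAt (by simp)
  have h2 : MDifferentiableAt (𝓡 2) (𝓡 2) e.symm u := hmd.symm.mdifferentiableAt hu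
  have h3 := mfderiv_comp u h1 h2
  have h4 : mfderiv (𝓡 2) 𝓘(ℝ, E3) (x ∘ e.symm) u = fderiv ℝ (x ∘ e.symm) u := mfderiv_eq_fderiv
  rw [← h4, h3]
  have h5 : Function.Injective (mfderiv (𝓡 2) (𝓡 2) e.symm u) :=
    (hmd.symm.mfderiv_bijective hu).injective
  exact (himm (e.symm u)).comp h5

theorem chart_fderiv_zero (f : E2 → ℝ) (u : E2) (h : ∀ i, pd i f u = 0) : fderiv ℝ f u = 0 := by
  ext v
  have hv : v = ∑ i, v i • (EuclideanSpace.single i (1 : ℝ)) := by
    ext j
    fin_cases j <;> simp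
  rw [hv, map_sum]
  simp only [map_smul, _root_.zero_apply]
  apply Finset.sum_eq_zero
  intro i _
  have := h i
  unfold pd at this
  rw [this, smul_zero]

theorem const_of_pd_zero [ConnectedSpace M] (h : M → ℝ)
    (hs : ∀ e ∈ atlas E2 M, ContDiffOn ℝ ∞ (h ∘ e.symm) e.target)
    (h0 : ∀ e ∈ atlas E2 M, ∀ u ∈ e.target, ∀ i, pd i (h ∘ e.symm) u = 0) :
    ∃ v, ∀ p, h p = v := by
  have hloc : IsLocallyConstant h := by
    rw [IsLocallyConstant.iff_eventually_eq]
    intro p
    set e := chartAt E2 p with he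
    have hat : e ∈ atlas E2 M := chart_mem_atlas E2 p
    have hp : p ∈ e.source := mem_chart_source E2 p
    have hep : e p ∈ e.target := e.map_source hp
    obtain ⟨ε, hε, hball⟩ := Metric.isOpen_iff.1 e.open_target (e p) hep
    have hev : ∀ᶠ q in 𝓝 p, q ∈ e.source ∧ e q ∈ Metric.ball (e p) ε := by
      have h1 : ∀ᶠ q in 𝓝 p, q ∈ e.source := e.open_source.mem_nhds hp
      have h2 : ∀ᶠ q in 𝓝 p, e q ∈ Metric.ball (e p) ε :=
        (e.continuousAt hp).eventually (Metric.ball_mem_nhds _ hε)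
      exact h1.and h2
    filter_upwards [hev] with q hq
    have hconst : (h ∘ e.symm) (e q) = (h ∘ e.symm) (e p) := by
      apply Metric.isOpen_ball.is_const_of_fderiv_eq_zero (𝕜 := ℝ)
        (convex_ball (e p) ε).isPreconnected
        (((hs e hat).differentiableOn (by simp)).mono hball)
      · intro u hu
        exact chart_fderiv_zero _ u (h0 e hat u (hball hu))
      · exact hq.2
      · exact Metric.mem_ball_self hε
    simp only [Function.comp] at hconst
    rw [e.left_inv hq.1, e.left_inv hp] at hconst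
    exact hconst
  obtain ⟨p0⟩ : Nonempty M := inferInstance
  exact ⟨h p0, fun p => hloc.apply_eq_of_preconnectedSpace p p0⟩

end Pool.Agent.Work.MP_abe657_gt
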