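import Pool.Agent.Work.MP_abe657_gt.SurfDefs

/-!
Module LapForm (M). `lap` in non-divergence form.

Proof. On `U`, `gdet X > 0` (strict Cauchy-Schwarz as the derivative of `X` is injective) and all `gm X i j`
are smooth. By the product rule `lap X f = -(a11 ∂₀∂₀f + 2 a12 ∂₀∂₁f + a22 ∂₁∂₁f + b1 ∂₀f + b2 ∂₁f)`
with `a11 = g22/D`, `a12 = -g12/D`, `a22 = g11/D`, `b1 = (∂₀(g22/√D) - ∂₁(g12/√D))/√D`,
`b2 = (∂₁(g11/√D) - ∂₀(g12/√D))/√D`, using `∂₁∂₀ f = ∂₀∂₁ f`. `a11 a22 - a12² = 1/D`.
-/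

set_option autoImplicit false

namespace Pool.Agent.Work.MP_abe657_gt

open scoped ContDiff Topology

namespace LapFormAux

/-- partial derivatives of smooth functions are smooth -/
theorem pd_smooth (U : Set E2) (hU : IsOpen U) (f : E2 → ℝ) (hf : ContDiffOn ℝ ∞ f U) (i : Fin 2) :
    ContDiffOn ℝ ∞ (pd i f) U := by
  unfold pd
  exact (hf.fderiv_of_isOpen hU (m := ∞) (by simp)).clm_apply contDiffOn_const

theorem gm_smooth (U : Set E2) (hU : IsOpen U) (X : E2 → E3) (hX : ContDiffOn ℝ ∞ X U)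
    (i j : Fin 2) : ContDiffOn ℝ ∞ (gm X i j) U := by
  unfold gm
  have h := hX.fderiv_of_isOpen hU (m := ∞) (by simp)
  exact (h.clm_apply contDiffOn_const).inner ℝ (h.clm_apply contDiffOn_const)

theorem gdet_pos (X : E2 → E3) (u : E2) (himm : Function.Injective (fderiv ℝ X u)) :
    0 < gdet X u := by
  unfold gdet gm
  set a := fderiv ℝ X u (EuclideanSpace.single 0 1) with ha
  set b := fderiv ℝ X u (EuclideanSpace.single 1 1) with hb
  have ha0 : a ≠ 0 := by
    intro h
    have h1 : fderiv ℝ X u (EuclideanSpace.single 0 1) = fderiv ℝ X u 0 := by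
      rw [map_zero]; exact h
    have h2 := himm h1
    have h3 := congrArg (fun v : E2 => v 0) h2
    simp at h3
  have haa : 0 < inner ℝ a a := by
    rw [real_inner_self_eq_norm_sq]
    have := norm_pos_iff.2 ha0
    positivity
  have hw0 : (inner ℝ a a : ℝ) • b - (inner ℝ a b : ℝ) • a ≠ 0 := by
    intro h
    have h1 : fderiv ℝ X u ((inner ℝ a a : ℝ) • EuclideanSpace.single 1 1
        - (inner ℝ a b : ℝ) • EuclideanSpace.single 0 1) = fderiv ℝ X u 0 := by
      rw [map_zero, map_sub, map_smul, map_smul]; exact h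
    have h2 := himm h1
    have h3 := congrArg (fun v : E2 => v 1) h2
    simp at h3
    exact ha0 h3
  have hpos : 0 < inner ℝ ((inner ℝ a a : ℝ) • b - (inner ℝ a b : ℝ) • a)
      ((inner ℝ a a : ℝ) • b - (inner ℝ a b : ℝ) • a) := by
    rw [real_inner_self_eq_norm_sq]
    have := norm_pos_iff.2 hw0
    positivity
  have hexp : inner ℝ ((inner ℝ a a : ℝ) • b - (inner ℝ a b : ℝ) • a)
      ((inner ℝ a a : ℝ) • b - (inner ℝ a b : ℝ) • a)
      = inner ℝ a a * (inner ℝ a a * inner ℝ b b - (inner ℝ a b : ℝ) ^ 2) := by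
    simp only [inner_sub_left, inner_sub_right, inner_smul_left, inner_smul_right,
      real_inner_comm a b, conj_trivial]
    ring
  rw [hexp] at hpos
  exact (mul_pos_iff_of_pos_left haa).1 hpos

theorem pd_mul (F G : E2 → ℝ) (u : E2) (hF : DifferentiableAt ℝ F u) (hG : DifferentiableAt ℝ G u)
    (i : Fin 2) : pd i (fun w => F w * G w) u = pd i F u * G u + F u * pd i G u := by
  unfold pd
  rw [fderiv_fun_mul hF hG]
  simp only [add_apply, smul_apply, smul_eq_mul]
  ring

theorem pd_sub (F G : E2 → ℝ) (u : E2) (hF : DifferentiableAt ℝ F u) (hG : DifferentiableAt ℝ G u)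
    (i : Fin 2) : pd i (fun w => F w - G w) u = pd i F u - pd i G u := by
  unfold pd
  rw [fderiv_fun_sub hF hG]
  rfl

theorem pd_comm (U : Set E2) (hU : IsOpen U) (f : E2 → ℝ) (hf : ContDiffOn ℝ ∞ f U) (u : E2)
    (hu : u ∈ U) : pd 1 (pd 0 f) u = pd 0 (pd 1 f) u := by
  have hfa : ContDiffAt ℝ ∞ f u := hf.contDiffAt (hU.mem_nhds hu)
  have hsym : IsSymmSndFDerivAt ℝ f u := (hfa.of_le (m := 2) ENat.LEInfty.out).isSymmSndFDerivAt
    (by simp)
  have hd : DifferentiableAt ℝ (fderiv ℝ f) u := by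
    have := hf.fderiv_of_isOpen hU (m := ∞) (by simp)
    exact (this.contDiffAt (hU.mem_nhds hu)).differentiableAt (by simp)
  have key : ∀ i j : Fin 2, pd i (pd j f) u
      = fderiv ℝ (fderiv ℝ f) u (EuclideanSpace.single i 1) (EuclideanSpace.single j 1) := by
    intro i j
    unfold pd
    rw [fderiv_clm_apply hd (differentiableAt_const _)]
    simp
  rw [key, key]
  exact hsym _ _

end LapFormAux

open LapFormAux in
theorem lap_nondiv (U : Set E2) (hU : IsOpen U) (X : E2 → E3) (hX : ContDiffOn ℝ ∞ X U)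
    (himm : ∀ u ∈ U, Function.Injective (fderiv ℝ X u)) :
    ∃ a11 a12 a22 b1 b2 : E2 → ℝ,
      ContinuousOn a11 U ∧ ContinuousOn a12 U ∧ ContinuousOn a22 U ∧
      ContinuousOn b1 U ∧ ContinuousOn b2 U ∧
      (∀ u ∈ U, 0 < a11 u ∧ 0 < a11 u * a22 u - a12 u ^ 2) ∧
      ∀ f : E2 → ℝ, ContDiffOn ℝ ∞ f U → ∀ u ∈ U,
        lap X f u = -(a11 u * pd 0 (pd 0 f) u + 2 * a12 u * pd 0 (pd 1 f) u
          + a22 u * pd 1 (pd 1 f) u + b1 u * pd 0 f u + b2 u * pd 1 f u) := by
  have hD : ∀ u ∈ U, 0 < gdet X u := fun u hu => gdet_pos X u (himm u hu)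
  have hDs : ContDiffOn ℝ ∞ (gdet X) U := by
    unfold gdet
    exact ((gm_smooth U hU X hX 0 0).mul (gm_smooth U hU X hX 1 1)).sub
      ((gm_smooth U hU X hX 0 1).pow 2)
  have hQ : ContDiffOn ℝ ∞ (fun w => Real.sqrt (gdet X w)) U :=
    hDs.sqrt fun u hu => (hD u hu).ne'
  have hQ0 : ∀ u ∈ U, 0 < Real.sqrt (gdet X u) := fun u hu => Real.sqrt_pos.2 (hD u hu)
  have hP : ContDiffOn ℝ ∞ (fun w => gm X 1 1 w / Real.sqrt (gdet X w)) U :=
    (gm_smooth U hU X hX 1 1).div hQ fun u hu => (hQ0 u hu).ne'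
  have hR : ContDiffOn ℝ ∞ (fun w => gm X 0 1 w / Real.sqrt (gdet X w)) U :=
    (gm_smooth U hU X hX 0 1).div hQ fun u hu => (hQ0 u hu).ne'
  have hS : ContDiffOn ℝ ∞ (fun w => gm X 0 0 w / Real.sqrt (gdet X w)) U :=
    (gm_smooth U hU X hX 0 0).div hQ fun u hu => (hQ0 u hu).ne'
  set P := fun w => gm X 1 1 w / Real.sqrt (gdet X w) with hPdef
  set R := fun w => gm X 0 1 w / Real.sqrt (gdet X w) with hRdef
  set S := fun w => gm X 0 0 w / Real.sqrt (gdet X w) with hSdef
  set q := fun w => Real.sqrt (gdet X w) with hqdef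
  refine ⟨fun w => P w / q w, fun w => -(R w / q w), fun w => S w / q w,
    fun w => (pd 0 P w - pd 1 R w) / q w, fun w => (pd 1 S w - pd 0 R w) / q w,
    ?_, ?_, ?_, ?_, ?_, ?_, ?_⟩
  · exact (hP.div hQ fun u hu => (hQ0 u hu).ne').continuousOn
  · exact ((hR.div hQ fun u hu => (hQ0 u hu).ne').neg).continuousOn
  · exact (hS.div hQ fun u hu => (hQ0 u hu).ne').continuousOn
  · exact (((pd_smooth U hU P hP 0).sub (pd_smooth U hU R hR 1)).div hQ
      fun u hu => (hQ0 u hu).ne').continuousOn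
  · exact (((pd_smooth U hU S hS 1).sub (pd_smooth U hU R hR 0)).div hQ
      fun u hu => (hQ0 u hu).ne').continuousOn
  · intro u hu
    have hq2 : q u ^ 2 = gdet X u := Real.sq_sqrt (hD u hu).le
    have hq0 : 0 < q u := hQ0 u hu
    have hg11 : 0 < gm X 1 1 u := by
      have h1 : 0 ≤ gm X 1 1 u := by unfold gm; exact real_inner_self_nonneg
      rcases h1.lt_or_eq with h | h
      · exact h
      · exfalso
        have h2 := hD u hu
        unfold gdet at h2
        rw [← h] at h2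
        nlinarith [sq_nonneg (gm X 0 1 u)]
    constructor
    · show 0 < gm X 1 1 u / q u / q u
      positivity
    · show 0 < gm X 1 1 u / q u / q u * (gm X 0 0 u / q u / q u) - (-(gm X 0 1 u / q u / q u)) ^ 2
      have : gm X 1 1 u / q u / q u * (gm X 0 0 u / q u / q u) - (-(gm X 0 1 u / q u / q u)) ^ 2
          = (gm X 0 0 u * gm X 1 1 u - gm X 0 1 u ^ 2) / q u ^ 4 := by
        field_simp
      rw [this]
      have h2 := hD u hu
      unfold gdet at h2
      positivity
  · intro f hf u hu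
    have hUn := hU.mem_nhds hu
    have dP : DifferentiableAt ℝ P u := (hP.contDiffAt hUn).differentiableAt (by simp)
    have dR : DifferentiableAt ℝ R u := (hR.contDiffAt hUn).differentiableAt (by simp)
    have dS : DifferentiableAt ℝ S u := (hS.contDiffAt hUn).differentiableAt (by simp)
    have d0 : DifferentiableAt ℝ (pd 0 f) u :=
      ((pd_smooth U hU f hf 0).contDiffAt hUn).differentiableAt (by simp)
    have d1 : DifferentiableAt ℝ (pd 1 f) u :=
      ((pd_smooth U hU f hf 1).contDiffAt hUn).differentiableAt (by simp)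
    have e1 : (fun w => (gm X 1 1 w * pd 0 f w - gm X 0 1 w * pd 1 f w) / Real.sqrt (gdet X w))
        = fun w => P w * pd 0 f w - R w * pd 1 f w := by
      funext w
      simp only [hPdef, hRdef]
      ring
    have e2 : (fun w => (gm X 0 0 w * pd 1 f w - gm X 0 1 w * pd 0 f w) / Real.sqrt (gdet X w))
        = fun w => S w * pd 1 f w - R w * pd 0 f w := by
      funext w
      simp only [hSdef, hRdef]
      ring
    unfold lap
    rw [e1, e2, pd_sub (fun w => P w * pd 0 f w) (fun w => R w * pd 1 f w) u (dP.mul d0)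
      (dR.mul d1), pd_sub (fun w => S w * pd 1 f w) (fun w => R w * pd 0 f w) u (dS.mul d1)
      (dR.mul d0),
      pd_mul P _ u dP d0, pd_mul R _ u dR d1, pd_mul S _ u dS d1, pd_mul R _ u dR d0,
      pd_comm U hU f hf u hu]
    have hq0 : q u ≠ 0 := (hQ0 u hu).ne'
    change -(1 / q u) * _ = _
    field_simp
    ring

end Pool.Agent.Work.MP_abe657_gt
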