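import Pool.Agent.Work.MP_abe657_gt.StrongMax
import Pool.Agent.Work.MP_abe657_gt.LapForm
import Pool.Agent.Work.MP_abe657_gt.ChartData

/-!
Module EigenZero (S-M). A harmonic function on a compact connected surface is constant.

Proof. `f p = y p a` is continuous on the compact non-empty space `M`, so it has a maximum `m`. The set
`{f = m}` is closed and non-empty. It is open: at `p` with `f p = m` take `e = chartAt E2 p`; on
`e.target` the function `f ∘ e.symm` satisfies `lap = 0` (`IsEigen x f 0`), `lap_nondiv` and `strong_max`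
give `f ∘ e.symm = m` near `e p`. By connectedness `f = m` everywhere.
-/

set_option autoImplicit false

namespace Pool.Agent.Work.MP_abe657_gt

open scoped Manifold ContDiff Topology

theorem eigen_zero {M : Type*} [TopologicalSpace M] [ChartedSpace E2 M] [IsManifold (𝓡 2) ∞ M]
    [CompactSpace M] [ConnectedSpace M] (x : M → E3) (hx : ContMDiff (𝓡 2) 𝓘(ℝ, E3) ∞ x)
    (himm : ∀ p, Function.Injective (mfderiv (𝓡 2) 𝓘(ℝ, E3) x p))
    (y : M → E3) (hy : ContMDiff (𝓡 2) 𝓘(ℝ, E3) ∞ y) (a : Fin 3)
    (h : IsEigen x (fun p => y p a) 0) : ∃ v, ∀ p, y p a = v := by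
  have hycont : Continuous y := hy.continuous
  have hf : Continuous (fun p => y p a) := by fun_prop
  obtain ⟨p0, _, hp0⟩ := isCompact_univ.exists_isMaxOn (Set.univ_nonempty (α := M)) hf.continuousOn
  have hmax : ∀ p, y p a ≤ y p0 a := fun p => hp0 (Set.mem_univ p)
  set m := y p0 a with hm
  have hclosed : IsClosed {p | y p a = m} := isClosed_eq hf continuous_const
  have hopen : IsOpen {p | y p a = m} := by
    rw [isOpen_iff_mem_nhds]
    intro p hp
    have hpm : y p a = m := hp
    set e := chartAt E2 p with he
    have heA : e ∈ atlas E2 M := chart_mem_atlas E2 p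
    have hps : p ∈ e.source := mem_chart_source E2 p
    have hinv : e.symm (e p) = p := e.left_inv hps
    obtain ⟨a11, a12, a22, b1, b2, h11, h12, h22, hb1, hb2, hell, hlap⟩ :=
      lap_nondiv e.target e.open_target (x ∘ e.symm) (chart_contDiffOn x hx e heA)
        (fun u hu => chart_injective x hx himm e heA u hu)
    have hfs : ContDiffOn ℝ ∞ ((fun p => y p a) ∘ e.symm) e.target :=
      chart_contDiffOn_comp y hy a e heA
    have key := strong_max e.target e.open_target a11 a12 a22 b1 b2 h11 h12 h22 hb1 hb2 hell
      ((fun p => y p a) ∘ e.symm) hfs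
      (by
        intro u hu
        have e1 := hlap _ hfs u hu
        have e2 := h e heA u hu
        rw [e1] at e2
        linarith)
      (e p) (e.map_source hps)
      (by
        intro u _
        simp only [Function.comp_apply, hinv, hpm]
        exact hmax _)
    have hcont : Filter.Tendsto e (𝓝 p) (𝓝 (e p)) := e.continuousAt hps
    have h1 := hcont.eventually key
    have h2 : ∀ᶠ q in 𝓝 p, q ∈ e.source := e.open_source.mem_nhds hps
    filter_upwards [h1, h2] with q hq1 hq2
    simp only [Function.comp_apply, e.left_inv hq2, hinv, hpm] at hq1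
    exact hq1
  have huniv : {p | y p a = m} = Set.univ :=
    IsClopen.eq_univ ⟨hclosed, hopen⟩ ⟨p0, rfl⟩
  refine ⟨m, fun p => ?_⟩
  have : p ∈ {p | y p a = m} := by rw [huniv]; exact Set.mem_univ p
  exact this

end Pool.Agent.Work.MP_abe657_gt
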