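import Pool.Agent.Work.MP_abe657_gt.SurfDefs
import Pool.Agent.Work.MP_abe657_gt.ChartData

/-!
Module SphereEnd (S-M). A compact surface immersed in a sphere is the whole sphere.

Proof. `ρ ≥ 0`; `ρ = 0` would make `x` constant, impossible for an immersion of a (non-empty, two
dimensional) manifold. Let `r = √ρ > 0`: `range x ⊆ sphere c r`. Let `z ∈ sphere c r`. The function
`p ↦ ⟨x p - c, z - c⟩` attains its maximum on `M` at some `p₀`. In a chart `e` at `p₀`, with
`X = x ∘ e.symm`, `u₀ = e p₀`: `⟨fderiv X u₀ v, z - c⟩ = 0` for all `v` (local maximum), and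
`⟨fderiv X u₀ v, x p₀ - c⟩ = 0` (derivative of `|X - c|² = ρ`). The range of `fderiv X u₀` is
two-dimensional (`chart_injective`), so its orthogonal complement in `E3` is a line and
`z - c = ± (x p₀ - c)`, both having norm `r`. If the sign is `-`, the maximum is `-r²`, so
`⟨x p - c, z - c⟩ = -r²` for all `p`, so `x p - c = -(z - c)` for all `p`: `x` constant, contradiction.
So `z = x p₀`.
-/

set_option autoImplicit false

namespace Pool.Agent.Work.MP_abe657_gt

open scoped Manifold ContDiff Topology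

theorem sphereEnd_not_const {M : Type*} [TopologicalSpace M] [ChartedSpace E2 M]
    [IsManifold (𝓡 2) ∞ M] [Nonempty M] (x : M → E3) (hx : ContMDiff (𝓡 2) 𝓘(ℝ, E3) ∞ x)
    (himm : ∀ p, Function.Injective (mfderiv (𝓡 2) 𝓘(ℝ, E3) x p)) (v : E3) (hv : ∀ p, x p = v) :
    False := by
  obtain ⟨p⟩ : Nonempty M := inferInstance
  have hinj := chart_injective x hx himm (chartAt E2 p) (chart_mem_atlas E2 p) (chartAt E2 p p)
    ((chartAt E2 p).map_source (mem_chart_source E2 p))
  have hc : (x ∘ (chartAt E2 p).symm) = fun _ => v := by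
    funext u
    exact hv _
  rw [hc, fderiv_fun_const] at hinj
  have h1 : (EuclideanSpace.single (0 : Fin 2) (1 : ℝ)) = (0 : E2) := hinj rfl
  have h2 := congrArg (fun v : E2 => v 0) h1
  simp at h2

theorem sphere_end {M : Type*} [TopologicalSpace M] [ChartedSpace E2 M] [IsManifold (𝓡 2) ∞ M]
    [CompactSpace M] [ConnectedSpace M] (x : M → E3) (hx : ContMDiff (𝓡 2) 𝓘(ℝ, E3) ∞ x)
    (himm : ∀ p, Function.Injective (mfderiv (𝓡 2) 𝓘(ℝ, E3) x p))
    (c : E3) (ρ : ℝ) (hρ : ∀ p, ‖x p - c‖ ^ 2 = ρ) :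
    ∃ r : ℝ, 0 < r ∧ Set.range x = Metric.sphere c r := by
  obtain ⟨p1⟩ : Nonempty M := inferInstance
  have hρ0 : 0 < ρ := by
    rcases (sq_nonneg ‖x p1 - c‖).lt_or_eq with h | h
    · rw [hρ] at h; exact h
    · exfalso
      rw [hρ] at h
      apply sphereEnd_not_const x hx himm c
      intro p
      have := hρ p
      rw [← h] at this
      have h2 : ‖x p - c‖ = 0 := by
        rwa [sq_eq_zero_iff] at this
      exact sub_eq_zero.1 (norm_eq_zero.1 h2)
  have hr : 0 < Real.sqrt ρ := Real.sqrt_pos.2 hρ0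
  have hnorm : ∀ p, ‖x p - c‖ = Real.sqrt ρ := by
    intro p
    rw [← hρ p, Real.sqrt_sq (norm_nonneg _)]
  refine ⟨Real.sqrt ρ, hr, ?_⟩
  apply Set.Subset.antisymm
  · rintro _ ⟨p, rfl⟩
    rw [mem_sphere_iff_norm]
    exact hnorm p
  intro z hz
  rw [mem_sphere_iff_norm] at hz
  have hcont : Continuous fun p => inner ℝ (x p - c) (z - c) :=
    (hx.continuous.sub continuous_const).inner continuous_const
  obtain ⟨p0, -, hp0⟩ := isCompact_univ.exists_isMaxOn (Set.univ_nonempty (α := M))
    hcont.continuousOn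
  have hmax : ∀ p, inner ℝ (x p - c) (z - c) ≤ inner ℝ (x p0 - c) (z - c) := fun p =>
    hp0 (Set.mem_univ p)
  set e := chartAt E2 p0 with he
  have hat : e ∈ atlas E2 M := chart_mem_atlas E2 p0
  have hps : p0 ∈ e.source := mem_chart_source E2 p0
  set u0 := e p0 with hu0
  have hut : u0 ∈ e.target := e.map_source hps
  set X := x ∘ e.symm with hX
  have hXs : ContDiffOn ℝ ∞ X e.target := chart_contDiffOn x hx e hat
  have hXd : DifferentiableAt ℝ X u0 :=
    (hXs.contDiffAt (e.open_target.mem_nhds hut)).differentiableAt (by simp)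
  have hinj : Function.Injective (fderiv ℝ X u0) := chart_injective x hx himm e hat u0 hut
  set L := fderiv ℝ X u0 with hL
  have hLd : HasFDerivAt X L u0 := hXd.hasFDerivAt
  have hX0 : X u0 = x p0 := by
    show x (e.symm (e p0)) = x p0
    rw [e.left_inv hps]
  -- orthogonality to z - c
  have hz1 : ∀ v, inner ℝ (L v) (z - c) = 0 := by
    have h1 : HasFDerivAt (fun u => inner ℝ (X u - c) (z - c))
        ((innerSL ℝ (z - c)).comp L) u0 := by
      have h2 : HasFDerivAt (fun u => (innerSL ℝ (z - c)) (X u - c))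
          ((innerSL ℝ (z - c)).comp L) u0 :=
        (innerSL ℝ (z - c)).hasFDerivAt.comp u0 (hLd.sub_const c)
      refine h2.congr_of_eventuallyEq (Filter.Eventually.of_forall fun u => ?_)
      simp only [innerSL_apply_apply]
      rw [real_inner_comm]
    have h2 : IsLocalMax (fun u => inner ℝ (X u - c) (z - c)) u0 := by
      refine Filter.Eventually.of_forall fun u => ?_
      show inner ℝ (X u - c) (z - c) ≤ inner ℝ (X u0 - c) (z - c)
      rw [hX0]
      exact hmax (e.symm u)
    have h3 := h2.hasFDerivAt_eq_zero h1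
    intro v
    have h4 := congrArg (fun T : E2 →L[ℝ] ℝ => T v) h3
    simp only [ContinuousLinearMap.comp_apply, innerSL_apply_apply] at h4
    rw [real_inner_comm]
    exact h4
  -- orthogonality to x p0 - c
  have hx1 : ∀ v, inner ℝ (L v) (x p0 - c) = 0 := by
    have h1 : HasFDerivAt (fun u => ‖X u - c‖ ^ 2)
        (2 • (innerSL ℝ (X u0 - c)).comp L) u0 := (hLd.sub_const c).norm_sq
    have h2 : (fun u => ‖X u - c‖ ^ 2) = fun _ => ρ := by
      funext u
      exact hρ (e.symm u)
    rw [h2] at h1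
    have h3 := h1.unique (hasFDerivAt_const ρ u0)
    intro v
    have h4 := congrArg (fun T : E2 →L[ℝ] ℝ => T v) h3
    simp only [smul_apply, ContinuousLinearMap.comp_apply, innerSL_apply_apply, hX0] at h4
    rw [real_inner_comm]
    have h5 : (2 : ℕ) • inner ℝ (x p0 - c) (L v) = (0 : ℝ) := h4
    rw [nsmul_eq_mul] at h5
    simpa using h5
  -- the orthogonal complement is a line
  have hrk : Module.finrank ℝ (LinearMap.range (L : E2 →ₗ[ℝ] E3)) = 2 := by
    rw [LinearMap.finrank_range_of_inj hinj, finrank_euclideanSpace_fin]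
  have hrk2 : Module.finrank ℝ (LinearMap.range (L : E2 →ₗ[ℝ] E3))ᗮ = 1 := by
    have h1 := Submodule.finrank_add_finrank_orthogonal (LinearMap.range (L : E2 →ₗ[ℝ] E3))
    rw [hrk, finrank_euclideanSpace_fin] at h1
    omega
  have hm1 : x p0 - c ∈ (LinearMap.range (L : E2 →ₗ[ℝ] E3))ᗮ := by
    rw [Submodule.mem_orthogonal]
    rintro _ ⟨v, rfl⟩
    exact hx1 v
  have hm2 : z - c ∈ (LinearMap.range (L : E2 →ₗ[ℝ] E3))ᗮ := by
    rw [Submodule.mem_orthogonal]
    rintro _ ⟨v, rfl⟩
    exact hz1 v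
  have hne : (⟨x p0 - c, hm1⟩ : (LinearMap.range (L : E2 →ₗ[ℝ] E3))ᗮ) ≠ 0 := by
    intro h
    have h1 := congrArg Subtype.val h
    have h2 : x p0 - c = 0 := h1
    have h3 := hnorm p0
    rw [h2, norm_zero] at h3
    exact hr.ne h3
  obtain ⟨t, ht⟩ := (finrank_eq_one_iff_of_nonzero' _ hne).1 hrk2 ⟨z - c, hm2⟩
  have ht1 : t • (x p0 - c) = z - c := congrArg Subtype.val ht
  have ht2 : |t| = 1 := by
    have h1 := congrArg norm ht1
    rw [norm_smul, hnorm, hz, Real.norm_eq_abs] at h1
    exact mul_right_cancel₀ hr.ne' (by rw [h1, one_mul])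
  rcases eq_or_eq_neg_of_abs_eq ht2 with ht3 | ht3
  · rw [ht3, one_smul] at ht1
    exact ⟨p0, sub_left_injective ht1⟩
  · exfalso
    rw [ht3, neg_smul, one_smul] at ht1
    apply sphereEnd_not_const x hx himm (c - (z - c))
    intro p
    have h1 := hmax p
    have h2 : inner ℝ (x p0 - c) (z - c) = -ρ := by
      rw [← ht1, inner_neg_right, real_inner_self_eq_norm_sq, hρ]
    rw [h2] at h1
    have h3 : ‖(x p - c) + (z - c)‖ ^ 2 = 0 := by
      apply le_antisymm _ (sq_nonneg _)
      rw [norm_add_sq_real, hρ, hz, Real.sq_sqrt hρ0.le]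
      linarith
    have h4 : (x p - c) + (z - c) = 0 := by
      rw [sq_eq_zero_iff, norm_eq_zero] at h3
      exact h3
    have h5 : x p - c = -(z - c) := eq_neg_of_add_eq_zero_left h4
    rw [sub_eq_iff_eq_add] at h5
    rw [h5]
    abel

end Pool.Agent.Work.MP_abe657_gt
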