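import Mathlib

/-!
Module Lift (M). Lifting a root of the reduction.

Proof. Write `H = c₀ ∏ (X - κ_j)` (splits, leading coefficient `c₀ ≠ 0` since `Hb ≠ 0`). With `v` the
order (`v 0 = ∞`): every coefficient of `∏ (X - κ_j)` has order `≥ ∑ min (0, v κ_j)` (induction on
the multiset of roots); as some coefficient of `H` has a non-zero coefficient at exponent `0`, we get
`v c₀ + ∑ min (0, v κ_j) ≤ 0`. Suppose no root `κ_j` has `κ_j - C c` of positive order. Then
`v (C c - κ_j) = min (0, v κ_j)` for all `j` (if `v κ_j < 0` clear, otherwise both sides are `0`), so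
`v (H(C c)) = v c₀ + ∑ min (0, v κ_j) ≤ 0`. But `H(C c)` has no negative exponents and its
coefficient at `0` is `Hb(c) = 0`, so `v (H(C c)) > 0`. Contradiction.
-/

set_option autoImplicit false

namespace Pool.Agent.Work.MP_abe657_gt

/-- all exponents are `≥ a` -/
private def GqL {k : Type} [Field k] (x : HahnSeries ℚ k) (a : ℚ) : Prop :=
  ∀ q : ℚ, q < a → x.coeff q = 0

private lemma GqL_mul_gen {R : Type} [Field R] (x y : HahnSeries ℚ R) (a b : ℚ)
    (hx : GqL x a) (hy : GqL y b) :
    GqL (x * y) (a + b) ∧ (x * y).coeff (a + b) = x.coeff a * y.coeff b := by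
  constructor
  · intro q hq
    rw [HahnSeries.coeff_mul]
    refine Finset.sum_eq_zero fun ij hij => ?_
    have h : ij.1 + ij.2 = q := (Finset.mem_antidiagonal.mp hij).2.2
    by_cases h1 : ij.1 < a
    · rw [hx _ h1, zero_mul]
    · rw [hy _ (by linarith), mul_zero]
  · rw [HahnSeries.coeff_mul]
    by_cases hab : x.coeff a = 0 ∨ y.coeff b = 0
    · have h0 : x.coeff a * y.coeff b = 0 := by
        rcases hab with h | h <;> simp [h]
      rw [h0]
      refine Finset.sum_eq_zero fun ij hij => ?_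
      have h : ij.1 + ij.2 = a + b := (Finset.mem_antidiagonal.mp hij).2.2
      rcases lt_trichotomy ij.1 a with h1 | h1 | h1
      · rw [hx _ h1, zero_mul]
      · have h2 : ij.2 = b := by linarith
        rw [h1, h2, h0]
      · rw [hy _ (by linarith), mul_zero]
    · push Not at hab
      rw [Finset.sum_eq_single (a, b)]
      · intro ij hij hne
        have h : ij.1 + ij.2 = a + b := (Finset.mem_antidiagonal.mp hij).2.2
        rcases lt_trichotomy ij.1 a with h1 | h1 | h1
        · rw [hx _ h1, zero_mul]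
        · have h2 : ij.2 = b := by linarith
          exact absurd (Prod.ext h1 h2) hne
        · rw [hy _ (by linarith), mul_zero]
      · intro hnot
        exfalso
        apply hnot
        rw [Finset.mem_antidiagonal]
        exact ⟨hab.1, hab.2, rfl⟩

section
variable {k : Type} [Field k]

private lemma GqL_mul {x y : HahnSeries ℚ k} {a b : ℚ} (hx : GqL x a) (hy : GqL y b) :
    GqL (x * y) (a + b) := (GqL_mul_gen x y a b hx hy).1

private lemma GqL_coeff_mul {x y : HahnSeries ℚ k} {a b : ℚ} (hx : GqL x a) (hy : GqL y b) :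
    (x * y).coeff (a + b) = x.coeff a * y.coeff b := (GqL_mul_gen x y a b hx hy).2

private lemma GqL_add {x y : HahnSeries ℚ k} {a : ℚ} (hx : GqL x a) (hy : GqL y a) :
    GqL (x + y) a := fun q hq => by
  rw [HahnSeries.coeff_add, hx q hq, hy q hq, add_zero]

private lemma GqL_neg {x : HahnSeries ℚ k} {a : ℚ} (hx : GqL x a) :
    GqL (-x) a := fun q hq => by
  rw [HahnSeries.coeff_neg, hx q hq, neg_zero]

private lemma GqL_zero (a : ℚ) : GqL (0 : HahnSeries ℚ k) a := fun _ _ => rfl

private lemma GqL_mono {x : HahnSeries ℚ k} {a b : ℚ} (hx : GqL x a) (h : b ≤ a) :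
    GqL x b := fun q hq => hx q (lt_of_lt_of_le hq h)

private lemma GqL_sum {ι : Type*} (s : Finset ι) (f : ι → HahnSeries ℚ k) (a : ℚ)
    (h : ∀ i ∈ s, GqL (f i) a) : GqL (∑ i ∈ s, f i) a := by
  classical
  induction s using Finset.induction_on with
  | empty => simpa using GqL_zero a
  | insert i s his ih =>
    rw [Finset.sum_insert his]
    exact GqL_add (h i (Finset.mem_insert_self i s))
      (ih fun j hj => h j (Finset.mem_insert_of_mem hj))

private lemma GqL_C (c : k) : GqL (HahnSeries.C c : HahnSeries ℚ k) 0 := by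
  intro q hq
  rw [HahnSeries.C_apply, HahnSeries.coeff_single_of_ne (ne_of_lt hq)]

private lemma GqL_one : GqL (1 : HahnSeries ℚ k) 0 := by
  have := GqL_C (1 : k)
  rwa [map_one] at this

private lemma GqL_iff {x : HahnSeries ℚ k} (hx : x ≠ 0) (a : ℚ) : GqL x a ↔ a ≤ x.order :=
  (HahnSeries.le_order_iff_forall hx).symm

private lemma order_invL {x : HahnSeries ℚ k} (hx : x ≠ 0) : (x⁻¹).order = -x.order := by
  have h := HahnSeries.order_mul hx (inv_ne_zero hx)
  rw [mul_inv_cancel₀ hx, HahnSeries.order_one] at h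
  linarith

private lemma GqL_inv {x : HahnSeries ℚ k} (hx : x ≠ 0) {a : ℚ} (h : x.order ≤ -a) :
    GqL x⁻¹ a := by
  rw [GqL_iff (inv_ne_zero hx), order_invL hx]
  linarith

end

private lemma coeff_factL {k : Type} [Field k] (d : HahnSeries ℚ k) (c : HahnSeries ℚ k)
    (hd : GqL d 0) (hc : GqL c 0) (P : Polynomial (HahnSeries ℚ k))
    (hP : ∀ l, GqL (P.coeff l) 0) (l : ℕ) :
    GqL (((Polynomial.C d * (Polynomial.X - Polynomial.C c) + 1) * P).coeff l) 0 := by
  have e : (Polynomial.C d * (Polynomial.X - Polynomial.C c) + 1) * P =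
      Polynomial.C d * (Polynomial.X * P) - Polynomial.C (d * c) * P + P := by
    rw [Polynomial.C_mul]
    ring
  rw [e, Polynomial.coeff_add, Polynomial.coeff_sub, Polynomial.coeff_C_mul,
    Polynomial.coeff_C_mul, sub_eq_add_neg]
  have hXP : GqL ((Polynomial.X * P).coeff l) 0 := by
    cases l with
    | zero => rw [Polynomial.coeff_X_mul_zero]; exact GqL_zero 0
    | succ l => rw [Polynomial.coeff_X_mul]; exact hP l
  refine GqL_add (GqL_add ?_ (GqL_neg ?_)) (hP l)
  · simpa using GqL_mul hd hXP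
  · simpa using GqL_mul (GqL_mul hd hc) (hP l)

theorem hahn_lift (k : Type) [Field k] [IsAlgClosed (HahnSeries ℚ k)]
    (H : Polynomial (HahnSeries ℚ k))
    (hH : ∀ l : ℕ, ∀ q : ℚ, q < 0 → (H.coeff l).coeff q = 0)
    (Hb : Polynomial k) (hHb : ∀ l : ℕ, Hb.coeff l = (H.coeff l).coeff 0) (hne : Hb ≠ 0)
    (c : k) (hc : Hb.eval c = 0) :
    ∃ x : HahnSeries ℚ k, H.eval x = 0 ∧ (∀ q : ℚ, q < 0 → x.coeff q = 0) ∧ x.coeff 0 = c := by
  classical
  by_contra hcon
  push Not at hcon
  set c' : HahnSeries ℚ k := HahnSeries.C c with hc'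
  have hH' : ∀ l, GqL (H.coeff l) 0 := hH
  have hc'0 : GqL c' 0 := GqL_C c
  -- value at `c'`
  have hpow : ∀ n : ℕ, GqL (c' ^ n) 0 ∧ (c' ^ n).coeff 0 = c ^ n := by
    intro n
    rw [hc', ← map_pow]
    refine ⟨GqL_C _, ?_⟩
    rw [HahnSeries.C_apply, HahnSeries.coeff_single_same]
  have hev : GqL (H.eval c') 0 ∧ (H.eval c').coeff 0 = 0 := by
    rw [Polynomial.eval_eq_sum_range]
    constructor
    · refine GqL_sum _ _ _ fun i _ => ?_
      simpa using GqL_mul (hH' i) (hpow i).1
    · have hn : Hb.natDegree < H.natDegree + 1 := by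
        rw [Nat.lt_succ_iff, Polynomial.natDegree_le_iff_coeff_eq_zero]
        intro m hm
        rw [hHb, Polynomial.coeff_eq_zero_of_natDegree_lt hm]
        rfl
      rw [HahnSeries.coeff_sum]
      rw [Polynomial.eval_eq_sum_range' hn] at hc
      rw [← hc]
      refine Finset.sum_congr rfl fun i _ => ?_
      have := GqL_coeff_mul (hH' i) (hpow i).1
      rw [add_zero] at this
      rw [this, (hpow i).2, hHb]
  -- factorization
  have hH0 : H ≠ 0 := by
    rintro rfl
    apply hne
    ext l
    rw [hHb]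
    simp
  have hsp := (IsAlgClosed.splits H).eq_prod_roots
  have hroot : ∀ κ ∈ H.roots, c' - κ ≠ 0 ∧ GqL (c' - κ)⁻¹ 0 := by
    intro κ hκ
    rw [Polynomial.mem_roots hH0, Polynomial.IsRoot.def] at hκ
    have hne : c' - κ ≠ 0 := by
      intro h0
      have h1 : κ = c' := (sub_eq_zero.1 h0).symm
      exact hcon c' (h1 ▸ hκ) (GqL_C c) (by
        rw [hc', HahnSeries.C_apply, HahnSeries.coeff_single_same])
    refine ⟨hne, GqL_inv hne ?_⟩
    rw [neg_zero]
    by_contra hlt
    push Not at hlt
    have hd : GqL (c' - κ) 0 := (GqL_iff hne 0).2 hlt.le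
    have hd0 : (c' - κ).coeff 0 = 0 := HahnSeries.coeff_eq_zero_of_lt_order hlt
    refine hcon κ hκ ?_ ?_
    · have : κ = c' + -(c' - κ) := by ring
      rw [this]
      exact GqL_add hc'0 (GqL_neg hd)
    · have : κ = c' + -(c' - κ) := by ring
      rw [this, HahnSeries.coeff_add, HahnSeries.coeff_neg, hd0, hc', HahnSeries.C_apply,
        HahnSeries.coeff_single_same]
      simp
  have key : ∀ s : Multiset (HahnSeries ℚ k), (∀ κ ∈ s, c' - κ ≠ 0 ∧ GqL (c' - κ)⁻¹ 0) →
      ∃ P : Polynomial (HahnSeries ℚ k), (∀ l, GqL (P.coeff l) 0) ∧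
        (s.map (fun a => Polynomial.X - Polynomial.C a)).prod =
          Polynomial.C ((s.map (fun a => c' - a)).prod) * P := by
    intro s
    induction s using Multiset.induction_on with
    | empty =>
      intro _
      refine ⟨1, ?_, by simp⟩
      intro l
      rw [Polynomial.coeff_one]
      split_ifs
      · exact GqL_one
      · exact GqL_zero 0
    | cons a s ih =>
      intro hs
      obtain ⟨P, hP, hPe⟩ := ih fun κ hκ => hs κ (Multiset.mem_cons_of_mem hκ)
      obtain ⟨h1, h2⟩ := hs a (Multiset.mem_cons_self a s)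
      refine ⟨(Polynomial.C (c' - a)⁻¹ * (Polynomial.X - Polynomial.C c') + 1) * P,
        coeff_factL _ _ h2 hc'0 P hP, ?_⟩
      rw [Multiset.map_cons, Multiset.prod_cons, hPe, Multiset.map_cons, Multiset.prod_cons,
        Polynomial.C_mul]
      have h3 : Polynomial.C (c' - a) * Polynomial.C (c' - a)⁻¹ = 1 := by
        rw [← Polynomial.C_mul, mul_inv_cancel₀ h1, Polynomial.C_1]
      have h4 : Polynomial.X - Polynomial.C a = Polynomial.C (c' - a) *
          (Polynomial.C (c' - a)⁻¹ * (Polynomial.X - Polynomial.C c') + 1) := by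
        rw [mul_add, ← mul_assoc, h3, mul_one, one_mul, Polynomial.C_sub]
        ring
      rw [h4]
      ring
  obtain ⟨P, hP, hPe⟩ := key H.roots hroot
  rw [hPe, ← mul_assoc, ← Polynomial.C_mul] at hsp
  have hval : H.eval c' = H.leadingCoeff * ((H.roots).map (fun a => c' - a)).prod :=
    (IsAlgClosed.splits H).eval_eq_prod_roots c'
  rw [← hval] at hsp
  apply hne
  ext l
  rw [hHb, hsp, Polynomial.coeff_C_mul]
  have := GqL_coeff_mul hev.1 (hP l)
  rw [add_zero] at this
  rw [this, hev.2, zero_mul]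
  simp

end Pool.Agent.Work.MP_abe657_gt
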