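import Pool.Agent.Work.MP_abe657_gt.Homog
import Pool.Agent.Work.MP_abe657_gt.Lift

/-!
Module Case1 (M). From the root of the leading form to a root `C` in `LL`.

Setting: `F` of total degree `D = d + 2 a`, `lead F = qq^a * H`, `H` homogeneous of degree `d`,
`κ ∈ kk` non-zero with `H(g (y(t) + κ e)) = 0`.
Proof. Let `P(X) = A^(-D) F(g (A (y(t) + X e))) ∈ LL[X]`, i.e. `P = C (AA^(-D)) * (substF g F).comp (AA X)`.
By homogeneity `P = ∑_{j ≤ D} A^(j-D) F_j(g (y(t) + X e))`, `F_j` the homogeneous components, and the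
coefficients of `F_j(g(y(t) + X e))` lie in `iotaL kk`: so the coefficients of `P` have no exponent
`< 0` (exponents are `D - j ≥ 0`), and the exponent `0` part is
`Hb(X) = lead F (g(y(t) + X e)) = (-8 X)^a H(g (y(t) + X e)) ∈ kk[X]`, because
`qq(g(y + X e)) = 2 X ⟨y, e⟩ = -8 X` (`g` orthogonal). `Hb(κ) = 0`. `Hb ≠ 0`: its coefficient of
`X^(a+d)` is `(-8)^a H(g e) ≠ 0`. By `hahn_lift` there is `x ∈ LL` with `P(x) = 0`, no negative
exponents and `cf x 0 = κ`. Take `C = A x`: `F(g(A y + C e)) = A^D P(x) = 0`. `C` has exponents `≥ -1`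
and `cf C (-1) = κ`.
-/

set_option autoImplicit false

namespace Pool.Agent.Work.MP_abe657_gt

open MvPolynomial

private lemma cf_shift' (j l : ℕ) (z : HahnSeries ℚ kk) (q : ℚ) :
    HahnSeries.coeff ((HahnSeries.single (-(j : ℚ)) (1 : kk) : HahnSeries ℚ kk) *
        (HahnSeries.single (l : ℚ) (1 : kk)) * z) q = z.coeff (q - ((l : ℚ) - j)) := by
  rw [HahnSeries.single_mul_single, mul_one]
  have h2 := HahnSeries.coeff_single_mul_add (Γ := ℚ) (R := kk) (r := 1)
    (x := z) (a := q - ((l : ℚ) - j)) (b := -(j : ℚ) + l)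
  have e : q - ((l : ℚ) - j) + (-(j : ℚ) + l) = q := by ring
  rw [e, one_mul] at h2
  exact h2

private lemma cf_shift (j l : ℕ) (z : LL) (q : ℚ) :
    cf (AA ^ j * (AA⁻¹) ^ l * z) q = cf z (q - ((l : ℚ) - j)) := by
  rw [hg_AA_pow, hg_AA_inv_pow]
  exact cf_shift' j l z q

private lemma lift_LL [h0 : IsAlgClosed LL] (P : Polynomial LL)
    (h : ∀ l : ℕ, ∀ q : ℚ, q < 0 → cf (P.coeff l) q = 0) (Hb : Polynomial kk)
    (hHb : ∀ l : ℕ, Hb.coeff l = cf (P.coeff l) 0) (hne : Hb ≠ 0) (c : kk)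
    (hc : Hb.eval c = 0) :
    ∃ x : LL, P.eval x = 0 ∧ (∀ q : ℚ, q < 0 → cf x q = 0) ∧ cf x 0 = c :=
  @hahn_lift kk _ h0 P h Hb hHb hne c hc

theorem case1 [IsAlgClosed LL] (F H : MvPolynomial (Fin 3) ℂ) (a d : ℕ) (hd : 0 < d)
    (hdeg : F.totalDegree = 2 * a + d) (hlead : lead F = qq ^ a * H) (hH : H.IsHomogeneous d)
    (g : Matrix (Fin 3) (Fin 3) ℂ) (hg : g.transpose * g = 1)
    (hge : eval (g.mulVec (evec ℂ)) H ≠ 0) (κ : kk) (hκ : κ ≠ 0)
    (hroot : aeval (fun a => ∑ b, algebraMap ℂ kk (g a b) * (yv tk b + κ * evec kk b)) H = 0) :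
    ∃ C : LL, aeval (xi g C) F = 0 ∧ (∀ q : ℚ, q < -1 → cf C q = 0) ∧ cf C (-1) = κ := by
  set D := F.totalDegree with hD
  set P : Polynomial LL := Polynomial.C ((AA⁻¹) ^ D) *
    (substF g F).comp (Polynomial.C AA * Polynomial.X) with hP
  have hPc : ∀ l, P.coeff l = AA ^ l * (AA⁻¹) ^ D * (substF g F).coeff l := by
    intro l
    rw [hP, Polynomial.coeff_C_mul, Polynomial.comp_C_mul_X_coeff]
    ring
  have hcf : ∀ (l : ℕ) (q : ℚ), cf (P.coeff l) q = ∑ j ∈ Finset.range (D + 1),
      if q = (D : ℚ) - j then (hg_phiK g (homogeneousComponent j F)).coeff l else 0 := by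
    intro l q
    rw [hPc, cf_shift, hg_cf_substF]
    refine Finset.sum_congr rfl fun j _ => ?_
    congr 1
    apply propext
    constructor
    · intro h
      linarith
    · intro h
      linarith
  set Hb : Polynomial kk := hg_phiK g (lead F) with hHb
  have hHb' : Hb = (Polynomial.C (-8) * Polynomial.X) ^ a * hg_phiK g H := by
    rw [hHb, hlead, hg_phiK_mul, hg_phiK_pow, hg_phiK_qq g hg]
  have hne : Hb ≠ 0 := by
    rw [hHb']
    refine mul_ne_zero (pow_ne_zero _ (mul_ne_zero ?_ Polynomial.X_ne_zero)) ?_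
    · rw [Ne, Polynomial.C_eq_zero]
      norm_num
    · intro h0
      have h1 := (hg_phiK_coeff g H d hH).2
      rw [h0, Polynomial.coeff_zero] at h1
      apply hge
      have := (map_eq_zero (algebraMap ℂ kk)).mp h1.symm
      exact this
  have hc : Hb.eval κ = 0 := by
    rw [hHb', Polynomial.eval_mul, hg_eval_phiK, hroot, mul_zero]
  obtain ⟨x, hx0, hx1, hx2⟩ := lift_LL P
    (by
      intro l q hq
      refine (hcf l q).trans ?_
      refine Finset.sum_eq_zero fun j hj => ?_
      rw [if_neg]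
      intro h
      have hj' : j ≤ D := by
        have := Finset.mem_range.mp hj
        omega
      have hj2 : (j : ℚ) ≤ (D : ℚ) := by exact_mod_cast hj'
      linarith) Hb
    (by
      intro l
      refine Eq.trans ?_ (hcf l 0).symm
      rw [Finset.sum_eq_single D]
      · rw [if_pos (by ring), hHb, lead, hD]
      · intro j _ hj
        rw [if_neg]
        intro h
        apply hj
        have : (j : ℚ) = (D : ℚ) := by linarith
        exact_mod_cast this
      · intro h
        exact absurd (Finset.mem_range.mpr (by omega)) h) hne κ hc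
  have hcx : ∀ q, cf (AA * x) q = cf x (q + 1) := by
    intro q
    have := cf_shift 1 0 x q
    rw [pow_one, pow_zero, mul_one] at this
    rw [this]
    congr 1
    push_cast
    ring
  refine ⟨AA * x, ?_, ?_, ?_⟩
  · rw [← eval_substF]
    have h1 : P.eval x = 0 := hx0
    rw [hP, Polynomial.eval_mul, Polynomial.eval_C, Polynomial.eval_comp, Polynomial.eval_mul,
      Polynomial.eval_C, Polynomial.eval_X] at h1
    rcases mul_eq_zero.mp h1 with h | h
    · exact absurd h (pow_ne_zero _ (inv_ne_zero hg_AA_ne_zero))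
    · exact h
  · intro q hq
    rw [hcx]
    exact hx1 (q + 1) (by linarith)
  · rw [hcx]
    have : (-1 : ℚ) + 1 = 0 := by norm_num
    rw [this]
    exact hx2

end Pool.Agent.Work.MP_abe657_gt
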