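import Pool.Agent.Work.MP_abe657_gt.Defs2

/-!
Part II, module FaceEval (M). Reading off the leading coefficients of an equation.

(a) `face_const`: if `Z` has `cf Z 0 = iotaK z0` and `F` vanishes at `ptc ... Z`, then `z0` is a root
of the polynomials of all weights on the face. Proof: with `M` the maximum of `wu + ω wv`, the
coefficient of `s^(-M)` of `aeval_ptc` is `∑_{s on the face} iotaK (coeff s) tp (-(wv s)) (iotaK z0)^(s 2)
= 0`; the coefficient of `t^(-(wv s))` of this is `gsum F ... z0 s = 0` (two elements of the face with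
the same `wv` have the same `wu`).

(b) `face_back`: if `F` vanishes at `ptcInv ... Y` and `Near z0 Y`, then `gsum F ... z0 s = 0` for the
elements `s` of the face with the smallest `wv`. Proof: the coefficient of `s^(-M)` of `aeval_ptcInv`
is `∑_{face} iotaK (coeff s) tp (wv s) (cf Y 0)^(s 2) = 0`; take the coefficient of the smallest
exponent `wv s` of `t`, using `GeK (cf Y 0) 0` and `ckf (cf Y 0) 0 = z0` (so `(cf Y 0)^n` has
nonnegative exponents and constant coefficient `z0^n`).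
-/

set_option autoImplicit false

namespace Pool.Agent.Work.MP_abe657_gt

open MvPolynomial

/-! ### helpers -/

/-- coefficient as an additive map -/
noncomputable def feCf (q : ℚ) : LL →+ kk where
  toFun x := cf x q
  map_zero' := rfl
  map_add' _ _ := rfl

/-- coefficient as an additive map, inner field -/
noncomputable def feCkf (q : ℚ) : kk →+ ℂ where
  toFun x := ckf x q
  map_zero' := rfl
  map_add' _ _ := rfl

theorem fe_cf_sum {ι : Type} (S : Finset ι) (f : ι → LL) (q : ℚ) :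
    cf (∑ i ∈ S, f i) q = ∑ i ∈ S, cf (f i) q := map_sum (feCf q) f S

theorem fe_ckf_sum {ι : Type} (S : Finset ι) (f : ι → kk) (q : ℚ) :
    ckf (∑ i ∈ S, f i) q = ∑ i ∈ S, ckf (f i) q := map_sum (feCkf q) f S

theorem fe_pow {Z : LL} (hZ : Ge Z 0) (n : ℕ) : Ge (Z ^ n) 0 ∧ cf (Z ^ n) 0 = cf Z 0 ^ n := by
  induction n with
  | zero => rw [pow_zero, pow_zero]; exact Ge_cf_one
  | succ n ih =>
    constructor
    · rw [pow_succ]
      have := ih.1.mul hZ
      rwa [add_zero] at this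
    · rw [pow_succ, pow_succ]
      have := cf_mul_lead ih.1 hZ
      rw [add_zero] at this
      rw [this, ih.2]

theorem fe_powK {z : kk} (hz : GeK z 0) (n : ℕ) : GeK (z ^ n) 0 ∧ ckf (z ^ n) 0 = ckf z 0 ^ n := by
  induction n with
  | zero => rw [pow_zero, pow_zero]; exact ⟨GeK_one, ckf_one⟩
  | succ n ih =>
    constructor
    · rw [pow_succ]
      have := ih.1.mul hz
      rwa [add_zero] at this
    · rw [pow_succ, pow_succ]
      have := ckf_mul_lead ih.1 hz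
      rw [add_zero] at this
      rw [this, ih.2]

theorem fe_cf_C_mul (c : ℂ) (x : LL) (q : ℚ) :
    cf (algebraMap ℂ LL c * x) q = iotaK c * cf x q := cf_iotaL_mul (iotaK c) x q

/-- the coefficient of a term -/
theorem fe_term (c : ℂ) (a b M : ℚ) (Z : LL) (hZ : Ge Z 0) (n : ℕ) (h : M ≤ a) :
    cf (algebraMap ℂ LL c * (mon a b * Z ^ n)) M
      = if a = M then iotaK c * (tp b * cf Z 0 ^ n) else 0 := by
  rw [fe_cf_C_mul, cf_mon_mul]
  by_cases hq : a = M
  · rw [if_pos hq, hq, sub_self, (fe_pow hZ n).2]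
  · rw [if_neg hq, (fe_pow hZ n).1 (M - a)
      (by rcases lt_or_eq_of_le h with h1 | h1
          · linarith
          · exact absurd h1.symm hq), mul_zero, mul_zero]

theorem fe_termK (c : ℂ) (b M : ℚ) (z : kk) (hz : GeK z 0) (n : ℕ) (h : M ≤ b) :
    ckf (iotaK c * (tp b * z ^ n)) M = if b = M then c * ckf z 0 ^ n else 0 := by
  rw [ckf_iotaK_mul, ckf_tp_mul]
  by_cases hq : b = M
  · rw [if_pos hq, hq, sub_self, (fe_powK hz n).2]
  · rw [if_neg hq, (fe_powK hz n).1 (M - b)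
      (by rcases lt_or_eq_of_le h with h1 | h1
          · linarith
          · exact absurd h1.symm hq), mul_zero]

theorem face_const (F : MvPolynomial (Fin 3) ℂ) (α γ1 γ2 ω : ℚ) (z0 : ℂ) (Z : LL) (hZ : Ge Z 0)
    (hc : cf Z 0 = iotaK z0) (h0 : aeval (ptc α γ1 γ2 ω Z) F = 0) (s : Fin 3 →₀ ℕ)
    (hs : OnFace F α γ1 γ2 ω s) : gsum F α γ1 γ2 z0 s = 0 := by
  obtain ⟨_, hmax⟩ := hs
  rw [aeval_ptc] at h0
  have h1 := congrArg (fun x => cf x (-(wu α s + ω * wv γ1 γ2 s))) h0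
  simp only [cf_zero] at h1
  rw [fe_cf_sum] at h1
  have h2 : ∀ s' ∈ F.support, cf (algebraMap ℂ LL (coeff s' F) *
      (mon (-(wu α s' + ω * wv γ1 γ2 s')) (-(wv γ1 γ2 s')) * Z ^ (s' 2)))
        (-(wu α s + ω * wv γ1 γ2 s))
      = if wu α s' + ω * wv γ1 γ2 s' = wu α s + ω * wv γ1 γ2 s then
        iotaK (coeff s' F * z0 ^ (s' 2)) * tp (-(wv γ1 γ2 s')) else 0 := by
    intro s' hs'
    rw [fe_term _ _ _ _ Z hZ _ (neg_le_neg (hmax s' hs'))]
    simp only [neg_inj]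
    split_ifs
    · rw [hc, map_mul, map_pow]; ring
    · rfl
  rw [Finset.sum_congr rfl h2] at h1
  have h3 := congrArg (fun x => ckf x (-(wv γ1 γ2 s))) h1
  simp only [ckf_zero] at h3
  rw [fe_ckf_sum] at h3
  have h4 : ∀ s' ∈ F.support, ckf (if wu α s' + ω * wv γ1 γ2 s' = wu α s + ω * wv γ1 γ2 s then
        iotaK (coeff s' F * z0 ^ (s' 2)) * tp (-(wv γ1 γ2 s')) else 0) (-(wv γ1 γ2 s))
      = if wu α s' = wu α s ∧ wv γ1 γ2 s' = wv γ1 γ2 s then coeff s' F * z0 ^ (s' 2) else 0 := by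
    intro s' _
    by_cases hv : wv γ1 γ2 s' = wv γ1 γ2 s
    · by_cases hu : wu α s' = wu α s
      · rw [if_pos (by rw [hv, hu]), if_pos ⟨hu, hv⟩, ckf_iotaK_mul, hv, ckf_tp, mul_one]
      · rw [if_neg (by rw [hv]; intro h; exact hu (by linarith)), if_neg (fun h => hu h.1), ckf_zero]
    · rw [if_neg (c := wu α s' = wu α s ∧ wv γ1 γ2 s' = wv γ1 γ2 s) (fun h => hv h.2)]
      by_cases hw : wu α s' + ω * wv γ1 γ2 s' = wu α s + ω * wv γ1 γ2 s
      · rw [if_pos hw, ckf_iotaK_mul, ckf_tp_of_ne (by intro h; exact hv (by linarith)), mul_zero]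
      · rw [if_neg hw]
        exact ckf_zero _
  rw [Finset.sum_congr rfl h4, ← Finset.sum_filter] at h3
  exact h3

theorem face_back (F : MvPolynomial (Fin 3) ℂ) (α γ1 γ2 ω : ℚ) (z0 : ℂ) (Y : LL)
    (hY : Near z0 Y) (h0 : aeval (ptcInv α γ1 γ2 ω Y) F = 0) (s : Fin 3 →₀ ℕ)
    (hs : OnFace F α γ1 γ2 ω s)
    (hbot : ∀ s', OnFace F α γ1 γ2 ω s' → wv γ1 γ2 s ≤ wv γ1 γ2 s') :
    gsum F α γ1 γ2 z0 s = 0 := by
  obtain ⟨_, hmax⟩ := hs
  obtain ⟨hY0, hYK, hYc⟩ := hY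
  rw [aeval_ptcInv] at h0
  have h1 := congrArg (fun x => cf x (-(wu α s + ω * wv γ1 γ2 s))) h0
  simp only [cf_zero] at h1
  rw [fe_cf_sum] at h1
  have h2 : ∀ s' ∈ F.support, cf (algebraMap ℂ LL (coeff s' F) *
      (mon (-(wu α s' + ω * wv γ1 γ2 s')) (wv γ1 γ2 s') * Y ^ (s' 2)))
        (-(wu α s + ω * wv γ1 γ2 s))
      = if wu α s' + ω * wv γ1 γ2 s' = wu α s + ω * wv γ1 γ2 s then
        iotaK (coeff s' F) * (tp (wv γ1 γ2 s') * cf Y 0 ^ (s' 2)) else 0 := by
    intro s' hs'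
    rw [fe_term _ _ _ _ Y hY0 _ (neg_le_neg (hmax s' hs'))]
    simp only [neg_inj]
  rw [Finset.sum_congr rfl h2] at h1
  have h3 := congrArg (fun x => ckf x (wv γ1 γ2 s)) h1
  simp only [ckf_zero] at h3
  rw [fe_ckf_sum] at h3
  have h4 : ∀ s' ∈ F.support, ckf (if wu α s' + ω * wv γ1 γ2 s' = wu α s + ω * wv γ1 γ2 s then
        iotaK (coeff s' F) * (tp (wv γ1 γ2 s') * cf Y 0 ^ (s' 2)) else 0) (wv γ1 γ2 s)
      = if wu α s' = wu α s ∧ wv γ1 γ2 s' = wv γ1 γ2 s then coeff s' F * z0 ^ (s' 2) else 0 := by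
    intro s' hs'
    by_cases hw : wu α s' + ω * wv γ1 γ2 s' = wu α s + ω * wv γ1 γ2 s
    · rw [if_pos hw]
      have hface : OnFace F α γ1 γ2 ω s' := ⟨hs', fun s'' hs'' => by rw [hw]; exact hmax s'' hs''⟩
      rw [fe_termK _ _ _ _ hYK _ (hbot s' hface), hYc]
      by_cases hv : wv γ1 γ2 s' = wv γ1 γ2 s
      · rw [if_pos hv, if_pos ⟨by rw [hv] at hw; linarith, hv⟩]
      · rw [if_neg hv, if_neg (fun h => hv h.2)]
    · rw [if_neg hw, if_neg (fun h => hw (by rw [h.1, h.2])), ckf_zero]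
  rw [Finset.sum_congr rfl h4, ← Finset.sum_filter] at h3
  exact h3

end Pool.Agent.Work.MP_abe657_gt
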