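import Pool.Agent.Work.MP_abe657_gt.Defs2
import Pool.Agent.Work.MP_abe657_gt.Lift
import Pool.Agent.Work.MP_abe657_gt.FaceEval

/-!
Part II, module FaceLift (M-L). Lifting a root of the polynomial of a vertex to a point over `LL`.

Let `s0` be on the face at `ω` with the largest `ϑ = wv` on the face, and let `z0` be a root of the
polynomial `g(Z) = ∑ coeff s Z^(s 2)` over the `s` with the weights of `s0` (`gsum ... z0 s0 = 0`).
Let `M = wu s0 + ω wv s0` (the maximum over the support), `V = wv s0`.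

(1) inner lift: the polynomial `h(Z) = ∑_{s on the face} coeff s * tp (V - wv s) Z^(s 2)` over
`kk = HahnSeries ℚ ℂ` has coefficients without negative exponents (`wv s ≤ V` on the face), and its
reduction at `t = 0` (coefficients of exponent `0`) is `g ≠ 0` (`weights_inj`: different `s` with
the same weights have different `s 2`, so `g` has a nonzero coefficient at `s0 2`), `g(z0) = 0`. By
`hahn_lift ℂ` there is `ζ` in `kk` with `h(ζ) = 0`, no negative exponents, constant coefficient `z0`.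

(2) outer lift: the polynomial `H(Z) = ∑_{s in the support} coeff s * mon (M - (wu s + ω wv s))
(V - wv s) Z^(s 2)` over `LL = HahnSeries ℚ kk` has coefficients without negative exponents, its
reduction is `h ≠ 0`. By `hahn_lift kk` there is `Z` with `H(Z) = 0`, `Ge Z 0`, `cf Z 0 = ζ`. Finally
`aeval (ptc ... Z) F = mon (-M) (-V) * H(Z) = 0` (`aeval_ptc`, `mon_mul`).
-/

set_option autoImplicit false

namespace Pool.Agent.Work.MP_abe657_gt

open MvPolynomial

theorem face_lift [IsAlgClosed kk] [IsAlgClosed LL] (F : MvPolynomial (Fin 3) ℂ)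
    (α γ1 γ2 ω : ℚ) (hγ : γ1 ≠ 0) (z0 : ℂ) (s0 : Fin 3 →₀ ℕ) (hs : OnFace F α γ1 γ2 ω s0)
    (htop : ∀ s, OnFace F α γ1 γ2 ω s → wv γ1 γ2 s ≤ wv γ1 γ2 s0)
    (hg : gsum F α γ1 γ2 z0 s0 = 0) :
    ∃ Z : LL, Near z0 Z ∧ aeval (ptc α γ1 γ2 ω Z) F = 0 := by
  classical
  obtain ⟨hs0, hmax⟩ := hs
  obtain ⟨W, hW⟩ : ∃ W : (Fin 3 →₀ ℕ) → ℚ, ∀ s, W s = wu α s + ω * wv γ1 γ2 s :=
    ⟨fun s => wu α s + ω * wv γ1 γ2 s, fun _ => rfl⟩
  obtain ⟨v, hv⟩ : ∃ v : (Fin 3 →₀ ℕ) → ℚ, ∀ s, v s = wv γ1 γ2 s := ⟨fun s => wv γ1 γ2 s, fun _ => rfl⟩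
  simp only [← hW] at hmax
  have htop' : ∀ s ∈ F.support, W s = W s0 → v s ≤ v s0 := by
    intro s hs h'
    rw [hv, hv]
    exact htop s ⟨hs, fun s'' hs'' => by rw [← hW, ← hW, h']; exact hmax s'' hs''⟩
  have hinj : ∀ s ∈ F.support, W s = W s0 → v s = v s0 → s 2 = s0 2 → s = s0 := by
    intro s _ h1 h2 h3
    have h1' := h1
    rw [hW, hW, ← hv, ← hv, h2] at h1'
    exact weights_inj α γ1 γ2 hγ s s0 (by linarith) (by rw [← hv, ← hv]; exact h2) h3
  -- the polynomials
  let G : Polynomial ℂ := ∑ s ∈ F.support with (W s = W s0 ∧ v s = v s0),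
    Polynomial.monomial (s 2) (coeff s F)
  let h : Polynomial kk := ∑ s ∈ F.support with W s = W s0,
    Polynomial.monomial (s 2) (iotaK (coeff s F) * tp (v s0 - v s))
  let H : Polynomial LL := ∑ s ∈ F.support, Polynomial.monomial (s 2)
    (algebraMap ℂ LL (coeff s F) * mon (W s0 - W s) (v s0 - v s))
  have hGc : ∀ l : ℕ, G.coeff l = ∑ s ∈ F.support with (W s = W s0 ∧ v s = v s0),
      if s 2 = l then coeff s F else 0 := by
    intro l
    show (∑ s ∈ F.support with (W s = W s0 ∧ v s = v s0), Polynomial.monomial (s 2) _ :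
      Polynomial ℂ).coeff l = _
    rw [Polynomial.finsetSum_coeff]
    refine Finset.sum_congr rfl fun s _ => ?_
    rw [Polynomial.coeff_monomial]
  have hhc : ∀ l : ℕ, h.coeff l = ∑ s ∈ F.support with W s = W s0,
      if s 2 = l then (iotaK (coeff s F) * tp (v s0 - v s)) else 0 := by
    intro l
    show (∑ s ∈ F.support with W s = W s0, Polynomial.monomial (s 2) _ :
      Polynomial kk).coeff l = _
    rw [Polynomial.finsetSum_coeff]
    refine Finset.sum_congr rfl fun s _ => ?_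
    rw [Polynomial.coeff_monomial]
  have hHc : ∀ l : ℕ, H.coeff l = ∑ s ∈ F.support, if s 2 = l then
      (algebraMap ℂ LL (coeff s F) * mon (W s0 - W s) (v s0 - v s)) else 0 := by
    intro l
    show (∑ s ∈ F.support, Polynomial.monomial (s 2) _ : Polynomial LL).coeff l = _
    rw [Polynomial.finsetSum_coeff]
    refine Finset.sum_congr rfl fun s _ => ?_
    rw [Polynomial.coeff_monomial]
  -- reductions
  have hh0 : ∀ l : ℕ, ∀ q : ℚ, q < 0 → ckf (h.coeff l) q = 0 := by
    intro l q hq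
    rw [hhc, fe_ckf_sum]
    refine Finset.sum_eq_zero fun s hs => ?_
    rw [Finset.mem_filter] at hs
    split_ifs
    · rw [ckf_iotaK_mul, ckf_tp_of_ne (by have := htop' s hs.1 hs.2; intro h'; linarith), mul_zero]
    · exact ckf_zero q
  have hhG : ∀ l : ℕ, G.coeff l = ckf (h.coeff l) 0 := by
    intro l
    rw [hhc, hGc, fe_ckf_sum, Finset.sum_filter, Finset.sum_filter]
    refine Finset.sum_congr rfl fun s _ => ?_
    by_cases hw : W s = W s0
    · rw [if_pos hw]
      by_cases hl : s 2 = l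
      · rw [if_pos hl, if_pos hl, ckf_iotaK_mul]
        by_cases hvv : v s = v s0
        · rw [if_pos ⟨hw, hvv⟩, hvv, sub_self, ckf_tp, mul_one]
        · rw [if_neg (fun h' => hvv h'.2), ckf_tp_of_ne (by intro h'; exact hvv (by linarith)),
            mul_zero]
      · rw [if_neg hl, if_neg hl, ckf_zero, ite_self]
    · rw [if_neg hw, if_neg (fun h' => hw h'.1)]
  have hGne : G ≠ 0 := by
    intro h0
    have h1 : G.coeff (s0 2) = 0 := by rw [h0, Polynomial.coeff_zero]
    rw [hGc, Finset.sum_eq_single s0] at h1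
    · rw [if_pos rfl] at h1
      exact (mem_support_iff.mp hs0) h1
    · intro s hs hne'
      rw [Finset.mem_filter] at hs
      rw [if_neg (fun hl => hne' (hinj s hs.1 hs.2.1 hs.2.2 hl))]
    · intro h'
      exact absurd (Finset.mem_filter.mpr ⟨hs0, (⟨rfl, rfl⟩ : W s0 = W s0 ∧ v s0 = v s0)⟩) h'
  have hGroot : G.eval z0 = 0 := by
    show (∑ s ∈ F.support with (W s = W s0 ∧ v s = v s0), Polynomial.monomial (s 2) _ :
      Polynomial ℂ).eval z0 = 0
    rw [Polynomial.eval_finsetSum]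
    rw [gsum] at hg
    rw [← hg, Finset.sum_filter, Finset.sum_filter]
    refine Finset.sum_congr rfl fun s _ => ?_
    rw [Polynomial.eval_monomial]
    have hiff : (W s = W s0 ∧ v s = v s0) ↔ (wu α s = wu α s0 ∧ wv γ1 γ2 s = wv γ1 γ2 s0) := by
      constructor
      · rintro ⟨h1, h2⟩
        rw [hW, hW] at h1
        rw [hv, hv] at h2
        rw [h2] at h1
        exact ⟨by linarith, h2⟩
      · rintro ⟨h1, h2⟩
        rw [hW, hW, hv, hv, h1, h2]
        exact ⟨rfl, rfl⟩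
    simp only [hiff]
  have : IsAlgClosed (HahnSeries ℚ ℂ) := inferInstanceAs (IsAlgClosed kk)
  obtain ⟨ζ, hζ1, hζ2, hζ3⟩ : ∃ ζ : kk, h.eval ζ = 0 ∧ (∀ q : ℚ, q < 0 → ckf ζ q = 0) ∧
      ckf ζ 0 = z0 := hahn_lift ℂ h hh0 G hhG hGne z0 hGroot
  have hhne : h ≠ 0 := by
    intro h0
    apply hGne
    ext l
    rw [hhG, h0, Polynomial.coeff_zero, Polynomial.coeff_zero]
    exact ckf_zero 0
  have hH0 : ∀ l : ℕ, ∀ q : ℚ, q < 0 → cf (H.coeff l) q = 0 := by
    intro l q hq
    rw [hHc, fe_cf_sum]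
    refine Finset.sum_eq_zero fun s hs => ?_
    split_ifs
    · rw [fe_cf_C_mul, cf_mon_of_ne (by have := hmax s hs; intro h'; linarith), mul_zero]
    · exact cf_zero q
  have hHh : ∀ l : ℕ, h.coeff l = cf (H.coeff l) 0 := by
    intro l
    rw [hHc, hhc, fe_cf_sum, Finset.sum_filter]
    refine Finset.sum_congr rfl fun s _ => ?_
    by_cases hl : s 2 = l
    · rw [if_pos hl, if_pos hl, fe_cf_C_mul]
      by_cases hw : W s = W s0
      · rw [if_pos hw, hw, sub_self, cf_mon]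
      · rw [if_neg hw, cf_mon_of_ne (by intro h'; exact hw (by linarith)), mul_zero]
    · rw [if_neg hl, if_neg hl, cf_zero, ite_self]
  have : IsAlgClosed (HahnSeries ℚ kk) := inferInstanceAs (IsAlgClosed LL)
  obtain ⟨Z, hZ1, hZ2, hZ3⟩ : ∃ Z : LL, H.eval Z = 0 ∧ (∀ q : ℚ, q < 0 → cf Z q = 0) ∧
      cf Z 0 = ζ := hahn_lift kk H hH0 h hHh hhne ζ hζ1
  refine ⟨Z, ⟨hZ2, by rw [hZ3]; exact hζ2, by rw [hZ3, hζ3]⟩, ?_⟩
  rw [aeval_ptc]
  simp only [← hW]
  simp only [← hv]
  have h5 : H.eval Z = ∑ s ∈ F.support, (algebraMap ℂ LL (coeff s F) *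
      mon (W s0 - W s) (v s0 - v s)) * Z ^ (s 2) := by
    show (∑ s ∈ F.support, Polynomial.monomial (s 2) _ : Polynomial LL).eval Z = _
    rw [Polynomial.eval_finsetSum]
    refine Finset.sum_congr rfl fun s _ => ?_
    rw [Polynomial.eval_monomial]
  have h6 : ∑ s ∈ F.support, algebraMap ℂ LL (coeff s F) * (mon (-(W s)) (-(v s)) * Z ^ (s 2))
      = mon (-(W s0)) (-(v s0)) * ∑ s ∈ F.support, (algebraMap ℂ LL (coeff s F) *
      mon (W s0 - W s) (v s0 - v s)) * Z ^ (s 2) := by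
    rw [Finset.mul_sum]
    refine Finset.sum_congr rfl fun s _ => ?_
    have h7 : mon (-(W s)) (-(v s)) = mon (-(W s0)) (-(v s0)) * mon (W s0 - W s) (v s0 - v s) := by
      rw [mon_mul]
      congr 1 <;> ring
    rw [h7]
    ring
  rw [h6, ← h5, hZ1, mul_zero]

end Pool.Agent.Work.MP_abe657_gt
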