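import Pool.Agent.Work.MP_abe657_gt.NPchain
import Pool.Agent.Work.MP_abe657_gt.FaceLift
import Pool.Agent.Work.MP_abe657_gt.FaceEval

/-!
Part II, assembly ChainL (helper32): following a root along the Newton polygon.
-/

set_option autoImplicit false

namespace Pool.Agent.Work.MP_abe657_gt

open MvPolynomial

theorem chainL [IsAlgClosed kk] [IsAlgClosed LL] (F : MvPolynomial (Fin 3) ℂ) (hF : F ≠ 0)
    (α γ1 γ2 : ℚ) (hγ : γ1 ≠ 0) (z0 : ℂ) (ω0 ω1 : ℚ) (h01 : ω0 < ω1)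
    (start : ∀ s, OnFace F α γ1 γ2 ω1 s →
      (∀ s', OnFace F α γ1 γ2 ω1 s' → wv γ1 γ2 s ≤ wv γ1 γ2 s') → gsum F α γ1 γ2 z0 s = 0)
    (step : ∀ ω, ω0 < ω → ω < ω1 → ∀ Z : LL, Near z0 Z → aeval (ptc α γ1 γ2 ω Z) F = 0 →
      cf Z 0 = iotaK z0) :
    ∃ Z : LL, Near z0 Z ∧ aeval (ptc α γ1 γ2 ω0 Z) F = 0 := by
  have hne : F.support.Nonempty := by
    rw [Finset.nonempty_iff_ne_empty]
    intro h
    exact hF (MvPolynomial.support_eq_empty.mp h)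
  have key := np_chain F.support hne (wu α) (wv γ1 γ2) (fun s => gsum F α γ1 γ2 z0 s = 0) ω0 ω1 h01
    (fun s hs h1 h2 => start s ⟨hs, h1⟩ (fun s' hs' => h2 s' hs'.1 hs'.2))
    (by
      intro ω hω0 hω1 hQ s hs h1
      obtain ⟨Z, hZ, hZ0⟩ : ∃ Z : LL, Near z0 Z ∧ aeval (ptc α γ1 γ2 ω Z) F = 0 := by
        have hfin : (F.support.filter (fun s => ∀ s' ∈ F.support,
            wu α s' + ω * wv γ1 γ2 s' ≤ wu α s + ω * wv γ1 γ2 s)).Nonempty := ⟨s, by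
              rw [Finset.mem_filter]; exact ⟨hs, h1⟩⟩
        obtain ⟨s0, hs0, hmax⟩ := Finset.exists_max_image _ (wv γ1 γ2) hfin
        rw [Finset.mem_filter] at hs0
        have hs0f : OnFace F α γ1 γ2 ω s0 := hs0
        refine face_lift F α γ1 γ2 ω hγ z0 s0 hs0f ?_ ?_
        · intro s' hs'
          exact hmax s' (by rw [Finset.mem_filter]; exact hs')
        · refine hQ s0 hs0.1 hs0.2 ?_
          intro s' hs' h2
          exact hmax s' (by rw [Finset.mem_filter]; exact ⟨hs', h2⟩)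
      exact face_const F α γ1 γ2 ω z0 Z hZ.1 (step ω hω0 hω1 Z hZ hZ0) hZ0 s ⟨hs, h1⟩)
  obtain ⟨s0, hs0, hmax⟩ : ∃ s0, OnFace F α γ1 γ2 ω0 s0 ∧
      ∀ s', OnFace F α γ1 γ2 ω0 s' → wv γ1 γ2 s' ≤ wv γ1 γ2 s0 := by
    obtain ⟨s1, hs1, hmax1⟩ := Finset.exists_max_image F.support
      (fun s => wu α s + ω0 * wv γ1 γ2 s) hne
    have hfin : (F.support.filter (fun s => ∀ s' ∈ F.support,
        wu α s' + ω0 * wv γ1 γ2 s' ≤ wu α s + ω0 * wv γ1 γ2 s)).Nonempty := ⟨s1, by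
          rw [Finset.mem_filter]; exact ⟨hs1, hmax1⟩⟩
    obtain ⟨s0, hs0, hmax⟩ := Finset.exists_max_image _ (wv γ1 γ2) hfin
    rw [Finset.mem_filter] at hs0
    exact ⟨s0, hs0, fun s' hs' => hmax s' (by rw [Finset.mem_filter]; exact hs')⟩
  refine face_lift F α γ1 γ2 ω0 hγ z0 s0 hs0 hmax ?_
  exact key s0 hs0.1 hs0.2 (fun s' hs' h2 => hmax s' ⟨hs', h2⟩)

end Pool.Agent.Work.MP_abe657_gt
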