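import Pool.Agent.Work.MP_abe657_gt.Kit2

/-!
Part II, definitions (helper32): isotropic coordinates `x = g (A y0 + B y1 + C e)`,
weights, faces, points at infinity.
-/

set_option autoImplicit false

namespace Pool.Agent.Work.MP_abe657_gt

open MvPolynomial

/-- the vector `(1, i, 0)` -/
noncomputable def y0v (R : Type) [CommRing R] [Algebra ℂ R] : Fin 3 → R :=
  ![1, algebraMap ℂ R Complex.I, 0]

/-- the vector `(0, 0, 2)` -/
noncomputable def y1v (R : Type) [CommRing R] : Fin 3 → R := ![0, 0, 2]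

/-- the point `g (A y0 + B y1 + C e)`; the metric in these coordinates is
`4 dB^2 - 8 dA dC` when `g` is orthogonal -/
noncomputable def fr {R : Type} [CommRing R] [Algebra ℂ R] (g : Matrix (Fin 3) (Fin 3) ℂ)
    (A B C : R) : Fin 3 → R :=
  fun a => ∑ b, algebraMap ℂ R (g a b) * (A * y0v R b + B * y1v R b + C * evec R b)

/-- the polynomial `F` in the coordinates `A, B, C` -/
noncomputable def polyFr (g : Matrix (Fin 3) (Fin 3) ℂ) (F : MvPolynomial (Fin 3) ℂ) :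
    MvPolynomial (Fin 3) ℂ :=
  aeval (fr g (X 0 : MvPolynomial (Fin 3) ℂ) (X 1) (X 2)) F

/-- metric coefficients of the surface `(A, B, C)`, `A = s⁻¹`, in the frame `thA`, `dT` -/
noncomputable def m11 (B C : LL) : LL := 4 * thA B ^ 2 - 8 * AA * thA C

/-- mixed metric coefficient -/
noncomputable def m12 (B C : LL) : LL := 4 * thA B * dT B - 4 * AA * dT C

/-- metric coefficient -/
noncomputable def m22 (B : LL) : LL := 4 * dT B ^ 2

/-- determinant of the metric of the surface `(A, B, C)` -/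
noncomputable def mD (B C : LL) : LL := m11 B C * m22 B - m12 B C ^ 2

/-- the Laplacian of the surface `(A, B, C)` -/
noncomputable def lapB (B C : LL) : Module.End ℂ LL :=
  lapO thA dT (m11 B C) (m12 B C) (m22 B)

/-- every rank two point `(A, B, C)` of the surface `F = 0` over `LL`, with `A = s⁻¹`, has a
nondegenerate metric and satisfies `P(Δ) = 0` -/
def Good (F : MvPolynomial (Fin 3) ℂ) (P : Polynomial ℂ) : Prop :=
  ∀ B C : LL, dT B ≠ 0 → aeval ![AA, B, C] F = 0 →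
    mD B C ≠ 0 ∧ Polynomial.aeval (lapB B C) P AA = 0 ∧ Polynomial.aeval (lapB B C) P B = 0 ∧
      Polynomial.aeval (lapB B C) P C = 0

/-- substitution `C ↦ C + c` -/
noncomputable def shC (c : ℂ) (F : MvPolynomial (Fin 3) ℂ) : MvPolynomial (Fin 3) ℂ :=
  aeval ![(X 0 : MvPolynomial (Fin 3) ℂ), X 1, X 2 + C c] F

/-- substitution `(A, B, C) ↦ (A, T A, C + T^2 A / 2)` -/
noncomputable def tauSub (F : MvPolynomial (Fin 3) ℂ) : MvPolynomial (Fin 3) ℂ :=
  aeval ![(X 0 : MvPolynomial (Fin 3) ℂ), X 1 * X 0, X 2 + C (1 / 2) * (X 1 ^ 2 * X 0)] F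

/-- first weight of a monomial -/
noncomputable def wu (α : ℚ) (s : Fin 3 →₀ ℕ) : ℚ := (s 0 : ℚ) + α * s 2

/-- second weight of a monomial -/
noncomputable def wv (γ1 γ2 : ℚ) (s : Fin 3 →₀ ℕ) : ℚ := γ1 * s 1 + γ2 * s 2

/-- `s` is a monomial of `F` with the largest `wu + ω wv` -/
def OnFace (F : MvPolynomial (Fin 3) ℂ) (α γ1 γ2 ω : ℚ) (s : Fin 3 →₀ ℕ) : Prop :=
  s ∈ F.support ∧ ∀ s' ∈ F.support, wu α s' + ω * wv γ1 γ2 s' ≤ wu α s + ω * wv γ1 γ2 s

/-- the value at `z` of the polynomial in `Z` collecting all monomials of `F` with the same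
weights as `s` -/
noncomputable def gsum (F : MvPolynomial (Fin 3) ℂ) (α γ1 γ2 : ℚ) (z : ℂ) (s : Fin 3 →₀ ℕ) : ℂ :=
  ∑ s' ∈ F.support with (wu α s' = wu α s ∧ wv γ1 γ2 s' = wv γ1 γ2 s), coeff s' F * z ^ (s' 2)

/-- the point `(A, (s^ω t)^(-γ1), A^α (s^ω t)^(-γ2) Z)` -/
noncomputable def ptc (α γ1 γ2 ω : ℚ) (Z : LL) : Fin 3 → LL :=
  ![AA, mon (-(ω * γ1)) (-γ1), mon (-α - ω * γ2) (-γ2) * Z]

/-- the same with `t⁻¹` in place of `t` in the monomials -/
noncomputable def ptcInv (α γ1 γ2 ω : ℚ) (Z : LL) : Fin 3 → LL :=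
  ![AA, mon (-(ω * γ1)) γ1, mon (-α - ω * γ2) γ2 * Z]

/-- `Z = z + (positive exponents of s)` with `z ∈ kk`, `z = z0 + (positive exponents of t)` -/
def Near (z0 : ℂ) (Z : LL) : Prop := Ge Z 0 ∧ GeK (cf Z 0) 0 ∧ ckf (cf Z 0) 0 = z0

/-- the leading part of `F` for the weights `1, b, 2 b - 1` of `A, B, C`, with `A = 1`, as a
polynomial in `B, C` -/
noncomputable def facePoly (F : MvPolynomial (Fin 3) ℂ) (b : ℚ) : MvPolynomial (Fin 2) ℂ :=
  ∑ s ∈ F.support with (∀ s' ∈ F.support, wu (-1) s' + b * wv 1 2 s' ≤ wu (-1) s + b * wv 1 2 s),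
    C (coeff s F) * X 0 ^ (s 1) * X 1 ^ (s 2)

/-! ### evaluation -/

theorem aeval_vec {R : Type} [CommRing R] [Algebra ℂ R] (F : MvPolynomial (Fin 3) ℂ) (a b c : R) :
    aeval ![a, b, c] F = ∑ s ∈ F.support, algebraMap ℂ R (coeff s F) * (a ^ (s 0) * b ^ (s 1)
      * c ^ (s 2)) := by
  rw [aeval_def, eval₂_eq']
  refine Finset.sum_congr rfl fun s _ => ?_
  rw [Fin.prod_univ_three]
  rfl

theorem aeval_polyFr {R : Type} [CommRing R] [Algebra ℂ R] (g : Matrix (Fin 3) (Fin 3) ℂ)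
    (F : MvPolynomial (Fin 3) ℂ) (A B C : R) :
    aeval ![A, B, C] (polyFr g F) = aeval (fr g A B C) F := by
  have h : (aeval ![A, B, C] : MvPolynomial (Fin 3) ℂ →ₐ[ℂ] R).comp
      (aeval (fr g (X 0 : MvPolynomial (Fin 3) ℂ) (X 1) (X 2)))
      = aeval (fr g A B C) := by
    apply MvPolynomial.algHom_ext
    intro a
    simp only [AlgHom.comp_apply, aeval_X, fr, map_sum, map_mul, map_add, AlgHom.commutes]
    refine Finset.sum_congr rfl fun b _ => ?_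
    fin_cases b <;> simp [y0v, y1v, evec]
  exact congrArg (fun f => f F) h

theorem aeval_shC {R : Type} [CommRing R] [Algebra ℂ R] (c : ℂ) (F : MvPolynomial (Fin 3) ℂ)
    (A B C : R) : aeval ![A, B, C] (shC c F) = aeval ![A, B, C + algebraMap ℂ R c] F := by
  have h : (aeval ![A, B, C] : MvPolynomial (Fin 3) ℂ →ₐ[ℂ] R).comp
      (aeval ![(X 0 : MvPolynomial (Fin 3) ℂ), X 1, X 2 + MvPolynomial.C c])
      = aeval ![A, B, C + algebraMap ℂ R c] := by
    apply MvPolynomial.algHom_ext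
    intro a
    fin_cases a <;> simp [algebraMap_eq]
  exact congrArg (fun f => f F) h

theorem aeval_tauSub {R : Type} [CommRing R] [Algebra ℂ R] (F : MvPolynomial (Fin 3) ℂ)
    (A T C : R) : aeval ![A, T, C] (tauSub F)
      = aeval ![A, T * A, C + algebraMap ℂ R (1 / 2) * (T ^ 2 * A)] F := by
  have h : (aeval ![A, T, C] : MvPolynomial (Fin 3) ℂ →ₐ[ℂ] R).comp
      (aeval ![(X 0 : MvPolynomial (Fin 3) ℂ), X 1 * X 0,
        X 2 + MvPolynomial.C (1 / 2) * (X 1 ^ 2 * X 0)])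
      = aeval ![A, T * A, C + algebraMap ℂ R (1 / 2) * (T ^ 2 * A)] := by
    apply MvPolynomial.algHom_ext
    intro a
    fin_cases a <;> simp [algebraMap_eq, -one_div]
  exact congrArg (fun f => f F) h

theorem AA_pow_eq (n : ℕ) : AA ^ n = mon (-(n : ℚ)) 0 := by
  rw [← mon_AA, mon_pow]
  congr 1 <;> ring

/-- the value of a monomial at the point `ptc` -/
theorem ptc_term (α γ1 γ2 ω : ℚ) (Z : LL) (s : Fin 3 →₀ ℕ) :
    AA ^ (s 0) * (mon (-(ω * γ1)) (-γ1)) ^ (s 1) * (mon (-α - ω * γ2) (-γ2) * Z) ^ (s 2)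
      = mon (-(wu α s + ω * wv γ1 γ2 s)) (-(wv γ1 γ2 s)) * Z ^ (s 2) := by
  rw [mul_pow, AA_pow_eq, mon_pow, mon_pow, ← mul_assoc, mon_mul, mon_mul]
  congr 1
  unfold wu wv
  congr 1 <;> ring

theorem ptcInv_term (α γ1 γ2 ω : ℚ) (Z : LL) (s : Fin 3 →₀ ℕ) :
    AA ^ (s 0) * (mon (-(ω * γ1)) γ1) ^ (s 1) * (mon (-α - ω * γ2) γ2 * Z) ^ (s 2)
      = mon (-(wu α s + ω * wv γ1 γ2 s)) (wv γ1 γ2 s) * Z ^ (s 2) := by
  rw [mul_pow, AA_pow_eq, mon_pow, mon_pow, ← mul_assoc, mon_mul, mon_mul]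
  congr 1
  unfold wu wv
  congr 1 <;> ring

theorem aeval_ptc (F : MvPolynomial (Fin 3) ℂ) (α γ1 γ2 ω : ℚ) (Z : LL) :
    aeval (ptc α γ1 γ2 ω Z) F = ∑ s ∈ F.support, algebraMap ℂ LL (coeff s F) *
      (mon (-(wu α s + ω * wv γ1 γ2 s)) (-(wv γ1 γ2 s)) * Z ^ (s 2)) := by
  rw [ptc, aeval_vec]
  refine Finset.sum_congr rfl fun s _ => ?_
  rw [ptc_term]

theorem aeval_ptcInv (F : MvPolynomial (Fin 3) ℂ) (α γ1 γ2 ω : ℚ) (Z : LL) :
    aeval (ptcInv α γ1 γ2 ω Z) F = ∑ s ∈ F.support, algebraMap ℂ LL (coeff s F) *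
      (mon (-(wu α s + ω * wv γ1 γ2 s)) (wv γ1 γ2 s) * Z ^ (s 2)) := by
  rw [ptcInv, aeval_vec]
  refine Finset.sum_congr rfl fun s _ => ?_
  rw [ptcInv_term]

/-- different monomials with the same weights have different `C`-exponents -/
theorem weights_inj (α γ1 γ2 : ℚ) (hγ : γ1 ≠ 0) (s s' : Fin 3 →₀ ℕ)
    (h1 : wu α s = wu α s') (h2 : wv γ1 γ2 s = wv γ1 γ2 s') (h3 : s 2 = s' 2) : s = s' := by
  unfold wu at h1
  unfold wv at h2
  rw [h3] at h1 h2
  have h4 : (s 0 : ℚ) = s' 0 := by linarith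
  have h5 : (s 1 : ℚ) = s' 1 := by
    have : γ1 * (s 1 : ℚ) = γ1 * s' 1 := by linarith
    exact mul_left_cancel₀ hγ this
  ext i
  fin_cases i
  · exact_mod_cast h4
  · exact_mod_cast h5
  · exact h3

end Pool.Agent.Work.MP_abe657_gt
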