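import Pool.Agent.Work.MP_abe657_gt.Defs2
import Pool.Agent.Work.MP_abe657_gt.Core
import Pool.Agent.Work.MP_abe657_gt.MetXi

/-!
Part II, module EndSig (M). Points near the cone in a general direction, `ψ` of degree one.

Put `ψ = -8 AA (c + t^(-ν) Y)`. The point is `(A, A t, C)` with `C = c + t^(-ν) Y + t^2 A/2`, and
`m11 = thA ψ - ψ`, `m12 = dT ψ / 2`, `m22 = 4 AA^2`, `C = (AA tL^2 - ψ/(4 AA))/2`. Now
`Ge ψ (-1)`, `cf ψ (-1) = -8 (c + tp (-ν) (cf Y 0))`, which is not `0`: if it were,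
`tp (-ν) (cf Y 0) = -c`, whose coefficient at the exponent `-ν ≠ 0` is `z0 ≠ 0` on the left and `0`
on the right. Apply `core ψ (-1)` (the hypothesis `hL` is void as `-1 ≠ -2`) with the facts supplied
by `Good` (`aeval ... P` of `C` gives the third one: `AA tL^2 - ψ/(4AA) = 2 C`, use linearity).
-/

set_option autoImplicit false

namespace Pool.Agent.Work.MP_abe657_gt

open MvPolynomial

theorem EndSig_cf_ofNat_mul (n : ℕ) [n.AtLeastTwo] (x : LL) (q : ℚ) :
    cf ((OfNat.ofNat n : LL) * x) q = (OfNat.ofNat n : kk) * cf x q := by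
  have h : (OfNat.ofNat n : LL) * x = (OfNat.ofNat n : ℂ) • x := by
    rw [Algebra.smul_def, map_ofNat]
  rw [h, cf_smul, map_ofNat]

theorem EndSig_Ge_ofNat_mul (n : ℕ) [n.AtLeastTwo] {x : LL} {a : ℚ} (hx : Ge x a) :
    Ge ((OfNat.ofNat n : LL) * x) a := by
  intro q hq
  rw [EndSig_cf_ofNat_mul, hx q hq, mul_zero]

theorem end_sig (F : MvPolynomial (Fin 3) ℂ) (P : Polynomial ℂ) (hG : Good F P)
    (hP0 : P.eval 0 ≠ 0) (c : ℂ) (ν : ℚ) (hν : ν ≠ 0) (z0 : ℂ) (hz : z0 ≠ 0) (Y : LL)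
    (hY : Near z0 Y)
    (h0 : aeval ![AA, mon (-1) 1, mon 0 (-ν) * Y
      + algebraMap ℂ LL (1 / 2) * mon (-1) 2 + algebraMap ℂ LL c] F = 0) : False := by
  obtain ⟨hY0, hYk, hYz⟩ := hY
  have half : (algebraMap ℂ LL (1 / 2)) = 1 / 2 := by
    rw [map_div₀, map_one, map_ofNat]
  rw [half] at h0
  set B : LL := mon (-1) 1 with hB
  set Z : LL := mon 0 (-ν) * Y + algebraMap ℂ LL c with hZ
  set C : LL := mon 0 (-ν) * Y + 1 / 2 * mon (-1) 2 + algebraMap ℂ LL c with hC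
  have eB : B = AA * tL := by
    rw [← mon_AA, ← mon_tL, mon_mul, hB]; congr 1 <;> norm_num
  have eC : C = Z + 1 / 2 * (AA * tL ^ 2) := by
    have : mon (-1) 2 = AA * tL ^ 2 := by
      rw [← mon_AA, ← mon_tL, mon_pow, mon_mul]; congr 1 <;> norm_num
    rw [hC, this, hZ]
    ring
  set ψ : LL := -(8 * (AA * Z)) with hψ
  have hD8 : ∀ (D : Derivation ℂ LL LL) (x : LL), D (8 * x) = 8 * D x := by
    intro D x
    have : (8 : LL) * x = (8 : ℂ) • x := by rw [Algebra.smul_def, map_ofNat]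
    rw [this, D.map_smul, Algebra.smul_def, map_ofNat]
  have hDh : ∀ (D : Derivation ℂ LL LL) (x : LL), D (1 / 2 * x) = 1 / 2 * D x := by
    intro D x
    rw [← half, Derivation.leibniz, Derivation.map_algebraMap, smul_zero, add_zero, smul_eq_mul]
  have hthψ : thA ψ = -(8 * (AA * thA Z + AA * Z)) := by
    rw [hψ, map_neg, hD8, Derivation.leibniz, thA_AA, smul_eq_mul, smul_eq_mul]
    ring
  have hdTψ : dT ψ = -(8 * (AA * dT Z)) := by
    rw [hψ, map_neg, hD8, Derivation.leibniz, dT_AA, smul_eq_mul, smul_zero, add_zero]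
  have hthB : thA B = AA * tL := by
    rw [eB, Derivation.leibniz, thA_AA, thA_tL, smul_eq_mul, smul_eq_mul, mul_zero, zero_add,
      mul_comm]
  have hdTB : dT B = AA := by
    rw [eB, Derivation.leibniz, dT_AA, dT_tL, smul_eq_mul, smul_eq_mul, mul_zero, add_zero,
      mul_one]
  have hthC : thA C = thA Z + 1 / 2 * (AA * tL ^ 2) := by
    rw [eC, map_add, hDh, Derivation.leibniz, thA_AA, pow_two, Derivation.leibniz, thA_tL]
    simp only [smul_eq_mul, mul_zero, add_zero, zero_add]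
    ring
  have hdTC : dT C = dT Z + AA * tL := by
    rw [eC, map_add, hDh, Derivation.leibniz, dT_AA, pow_two, Derivation.leibniz, dT_tL]
    simp only [smul_eq_mul, mul_zero, add_zero, mul_one]
    ring
  have q11 : m11 B C = thA ψ - ψ := by
    unfold m11
    rw [hthB, hthC, hthψ, hψ]
    ring
  have q12 : m12 B C = dT ψ / 2 := by
    unfold m12
    rw [hthB, hdTC, hdTB, hdTψ]
    ring
  have q22 : m22 B = 4 * AA ^ 2 := by
    unfold m22
    rw [hdTB]
  have hdB : dT B ≠ 0 := by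
    rw [hdTB]
    exact AA_ne_zero
  obtain ⟨hD, hA, hB', hC'⟩ := hG B C hdB h0
  unfold lapB at hA hB' hC'
  unfold mD at hD
  rw [q11, q12, q22] at hD hA hB' hC'
  have e3 : AA * tL ^ 2 - ψ / (4 * AA) = (2 : ℂ) • C := by
    rw [Algebra.smul_def, map_ofNat, eC, hψ]
    have := AA_ne_zero
    field_simp
    ring
  -- leading coefficient
  have gZ : Ge Z 0 := by
    rw [hZ]
    refine Ge.add ?_ (Ge_C c)
    simpa using Ge_mon_mul (a := 0) (b := -ν) hY0
  have gψ : Ge ψ (-1) := by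
    rw [hψ]
    exact (EndSig_Ge_ofNat_mul 8 ((Ge_AA.mul gZ).mono (by norm_num))).neg
  have cZ : cf Z 0 = tp (-ν) * cf Y 0 + iotaK c := by
    rw [hZ, cf_add, cf_mon_mul, cf_C, sub_zero]
  have cψ : cf ψ (-1) ≠ 0 := by
    rw [hψ, cf_neg, EndSig_cf_ofNat_mul, cf_AA_mul]
    have e : (-1 : ℚ) + 1 = 0 := by norm_num
    rw [e, cZ]
    refine neg_ne_zero.mpr (mul_ne_zero (by norm_num) ?_)
    intro h
    have h2 := congrArg (fun x => ckf x (-ν)) h
    simp only [ckf_add, ckf_tp_mul, ckf_zero, sub_self] at h2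
    rw [ckf_iotaK_of_ne _ (neg_ne_zero.mpr hν), add_zero, hYz] at h2
    exact hz h2
  refine core ψ (-1) (by norm_num) (by norm_num) gψ cψ (fun h => absurd h (by norm_num)) hD P hP0
    hA ?_ ?_
  · rw [← eB]
    exact hB'
  · rw [e3, map_smul, hC', smul_zero]

end Pool.Agent.Work.MP_abe657_gt
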