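import Pool.Agent.Work.MP_abe657_gt.Defs2
import Pool.Agent.Work.MP_abe657_gt.Lift
import Pool.Agent.Work.MP_abe657_gt.FaceEval

/-!
Part II, module FaceOne (M). The leading polynomial for the weights `1, b, 2b-1`.

At the point `(A, s^(-b) t^(-1), s^(1-2b) X)` a monomial `coeff s A^(s 0) B^(s 1) C^(s 2)` equals
`coeff s * mon (-(wu (-1) s + b wv 1 2 s)) (-(s 1)) X^(s 2)` (because
`wu (-1) s + b wv 1 2 s = s 0 + b s 1 + (2b-1) s 2`).

(a) `face_root`: take the coefficient of `s^(-M)`, `M` the maximum of the weight.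
(b) `face_lift1`: `H(X) = ∑ coeff s * mon (M - weight s) (-(s 1)) X^(s 2)` over `LL = HahnSeries ℚ kk`
has no negative exponents, its reduction `∑_{face} coeff s tp (-(s 1)) X^(s 2)` in `kk[X]` is nonzero
(for a given `s 2`, the elements of the face with this `s 2` have different `s 1`, so the
coefficient of `X^(s 2)` is a nonzero Laurent polynomial in `t`) and has the root `κ`:
apply `hahn_lift kk`.
-/

set_option autoImplicit false

namespace Pool.Agent.Work.MP_abe657_gt

open MvPolynomial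

/-- the weight -/
noncomputable def foW (b : ℚ) (s : Fin 3 →₀ ℕ) : ℚ := wu (-1) s + b * wv 1 2 s

theorem fo_term (b : ℚ) (X : LL) (s : Fin 3 →₀ ℕ) :
    AA ^ (s 0) * (mon (-b) (-1)) ^ (s 1) * (mon (1 - 2 * b) 0 * X) ^ (s 2)
      = mon (-(foW b s)) (-(s 1 : ℚ)) * X ^ (s 2) := by
  rw [mul_pow, AA_pow_eq, mon_pow, mon_pow, ← mul_assoc, mon_mul, mon_mul]
  congr 1
  unfold foW wu wv
  congr 1 <;> ring

theorem fo_aeval (F : MvPolynomial (Fin 3) ℂ) (b : ℚ) (X : LL) :
    aeval ![AA, mon (-b) (-1), mon (1 - 2 * b) 0 * X] F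
      = ∑ s ∈ F.support, algebraMap ℂ LL (coeff s F) *
        (mon (-(foW b s)) (-(s 1 : ℚ)) * X ^ (s 2)) := by
  rw [aeval_vec]
  refine Finset.sum_congr rfl fun s _ => ?_
  rw [fo_term]

theorem fo_facePoly (F : MvPolynomial (Fin 3) ℂ) (b : ℚ) (κ : kk) :
    aeval ![tp (-1), κ] (facePoly F b)
      = ∑ s ∈ F.support with (∀ s' ∈ F.support, foW b s' ≤ foW b s),
        iotaK (coeff s F) * (tp (-(s 1 : ℚ)) * κ ^ (s 2)) := by
  unfold facePoly foW
  rw [map_sum]
  refine Finset.sum_congr rfl fun s _ => ?_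
  rw [map_mul, map_mul, map_pow, map_pow, aeval_X, aeval_X, aeval_C]
  show iotaK (coeff s F) * tp (-1) ^ (s 1) * κ ^ (s 2) = _
  rw [tp_pow, mul_assoc]
  congr 3
  ring

theorem face_root (F : MvPolynomial (Fin 3) ℂ) (b : ℚ) (X : LL) (hX : Ge X 0)
    (h0 : aeval ![AA, mon (-b) (-1), mon (1 - 2 * b) 0 * X] F = 0) :
    aeval ![tp (-1), cf X 0] (facePoly F b) = 0 := by
  rw [fo_facePoly]
  rw [fo_aeval] at h0
  by_cases hF : F.support.Nonempty
  · obtain ⟨s0, hs0, hmax⟩ := Finset.exists_max_image F.support (foW b) hF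
    have h1 := congrArg (fun x => cf x (-(foW b s0))) h0
    simp only [cf_zero] at h1
    rw [fe_cf_sum] at h1
    have h2 : ∀ s' ∈ F.support, cf (algebraMap ℂ LL (coeff s' F) *
        (mon (-(foW b s')) (-(s' 1 : ℚ)) * X ^ (s' 2))) (-(foW b s0))
        = if (∀ s'' ∈ F.support, foW b s'' ≤ foW b s') then
          iotaK (coeff s' F) * (tp (-(s' 1 : ℚ)) * cf X 0 ^ (s' 2)) else 0 := by
      intro s' hs'
      rw [fe_term _ _ _ _ X hX _ (neg_le_neg (hmax s' hs'))]
      by_cases hw : foW b s' = foW b s0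
      · rw [if_pos (by rw [hw]), if_pos (fun s'' hs'' => by rw [hw]; exact hmax s'' hs'')]
      · rw [if_neg (fun h => hw (neg_inj.mp h)),
          if_neg (fun h => hw (le_antisymm (hmax s' hs') (h s0 hs0)))]
    rw [Finset.sum_congr rfl h2, ← Finset.sum_filter] at h1
    exact h1
  · rw [Finset.not_nonempty_iff_eq_empty] at hF
    rw [hF]
    rfl

theorem face_lift1 [IsAlgClosed LL] (F : MvPolynomial (Fin 3) ℂ) (hF : F ≠ 0) (b : ℚ) (κ : kk)
    (h : aeval ![tp (-1), κ] (facePoly F b) = 0) :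
    ∃ X : LL, Ge X 0 ∧ cf X 0 = κ ∧
      aeval ![AA, mon (-b) (-1), mon (1 - 2 * b) 0 * X] F = 0 := by
  classical
  rw [fo_facePoly] at h
  have hne : F.support.Nonempty := support_nonempty.mpr hF
  obtain ⟨s0, hs0, hmax⟩ := Finset.exists_max_image F.support (foW b) hne
  have hface : ∀ s' ∈ F.support, (∀ s'' ∈ F.support, foW b s'' ≤ foW b s') ↔
      foW b s' = foW b s0 := by
    intro s' hs'
    constructor
    · intro h'
      exact le_antisymm (hmax s' hs') (h' s0 hs0)
    · intro h' s'' hs''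
      rw [h']
      exact hmax s'' hs''
  let H : Polynomial LL := ∑ s ∈ F.support, Polynomial.monomial (s 2)
    (algebraMap ℂ LL (coeff s F) * mon (foW b s0 - foW b s) (-(s 1 : ℚ)))
  let Hb : Polynomial kk := ∑ s ∈ F.support with foW b s = foW b s0, Polynomial.monomial (s 2)
    (iotaK (coeff s F) * tp (-(s 1 : ℚ)))
  have hHc : ∀ l : ℕ, H.coeff l = ∑ s ∈ F.support, if s 2 = l then
      (algebraMap ℂ LL (coeff s F) * mon (foW b s0 - foW b s) (-(s 1 : ℚ))) else 0 := by
    intro l
    show (∑ s ∈ F.support, Polynomial.monomial (s 2) _ : Polynomial LL).coeff l = _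
    rw [Polynomial.finsetSum_coeff]
    refine Finset.sum_congr rfl fun s _ => ?_
    rw [Polynomial.coeff_monomial]
  have hHbc : ∀ l : ℕ, Hb.coeff l = ∑ s ∈ F.support with foW b s = foW b s0, if s 2 = l then
      (iotaK (coeff s F) * tp (-(s 1 : ℚ))) else 0 := by
    intro l
    show (∑ s ∈ F.support with foW b s = foW b s0, Polynomial.monomial (s 2) _ :
      Polynomial kk).coeff l = _
    rw [Polynomial.finsetSum_coeff]
    refine Finset.sum_congr rfl fun s _ => ?_
    rw [Polynomial.coeff_monomial]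
  have hH0 : ∀ l : ℕ, ∀ q : ℚ, q < 0 → cf (H.coeff l) q = 0 := by
    intro l q hq
    rw [hHc, fe_cf_sum]
    refine Finset.sum_eq_zero fun s hs => ?_
    split_ifs
    · rw [fe_cf_C_mul, cf_mon_of_ne (by have := hmax s hs; intro h'; linarith), mul_zero]
    · exact cf_zero q
  have hHHb : ∀ l : ℕ, Hb.coeff l = cf (H.coeff l) 0 := by
    intro l
    rw [hHc, hHbc, fe_cf_sum, Finset.sum_filter]
    refine Finset.sum_congr rfl fun s _ => ?_
    by_cases hl : s 2 = l
    · rw [if_pos hl, if_pos hl, fe_cf_C_mul]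
      by_cases hw : foW b s = foW b s0
      · rw [if_pos hw, hw, sub_self, cf_mon]
      · rw [if_neg hw, cf_mon_of_ne (by intro h'; exact hw (by linarith)), mul_zero]
    · rw [if_neg hl, if_neg hl, cf_zero, ite_self]
  have hHbne : Hb ≠ 0 := by
    intro h0
    have h1 : Hb.coeff (s0 2) = 0 := by rw [h0, Polynomial.coeff_zero]
    rw [hHbc] at h1
    have h2 := congrArg (fun x => ckf x (-(s0 1 : ℚ))) h1
    simp only [ckf_zero] at h2
    rw [fe_ckf_sum, Finset.sum_eq_single s0] at h2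
    · rw [if_pos rfl, ckf_iotaK_mul, ckf_tp, mul_one] at h2
      exact (mem_support_iff.mp hs0) h2
    · intro s hs hne'
      rw [Finset.mem_filter] at hs
      by_cases hl : s 2 = s0 2
      · rw [if_pos hl, ckf_iotaK_mul]
        by_cases h1' : s 1 = s0 1
        · exfalso
          apply hne'
          have hw := hs.2
          unfold foW wu wv at hw
          rw [hl, h1'] at hw
          have h0' : (s 0 : ℚ) = s0 0 := by linarith
          ext i
          fin_cases i
          · exact_mod_cast h0'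
          · exact h1'
          · exact hl
        · rw [ckf_tp_of_ne (by
            intro h'
            apply h1'
            have : (s 1 : ℚ) = s0 1 := by linarith
            exact_mod_cast this), mul_zero]
      · rw [if_neg hl, ckf_zero]
    · intro h'
      exact absurd (Finset.mem_filter.mpr ⟨hs0, (rfl : foW b s0 = foW b s0)⟩) h'
  have hroot : Hb.eval κ = 0 := by
    show (∑ s ∈ F.support with foW b s = foW b s0, Polynomial.monomial (s 2) _ :
      Polynomial kk).eval κ = 0
    rw [Polynomial.eval_finsetSum, ← h, Finset.sum_filter, Finset.sum_filter]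
    refine Finset.sum_congr rfl fun s hs => ?_
    simp only [hface s hs, Polynomial.eval_monomial, mul_assoc]
  have : IsAlgClosed (HahnSeries ℚ kk) := inferInstanceAs (IsAlgClosed LL)
  obtain ⟨x, hx1, hx2, hx3⟩ : ∃ x : LL, H.eval x = 0 ∧ (∀ q : ℚ, q < 0 → cf x q = 0) ∧
      cf x 0 = κ := hahn_lift kk H hH0 Hb hHHb hHbne κ hroot
  refine ⟨x, hx2, hx3, ?_⟩
  rw [fo_aeval]
  have hx1' : ∑ s ∈ F.support, (algebraMap ℂ LL (coeff s F) *
      mon (foW b s0 - foW b s) (-(s 1 : ℚ))) * x ^ (s 2) = 0 := by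
    have h5 : H.eval x = ∑ s ∈ F.support, (algebraMap ℂ LL (coeff s F) *
      mon (foW b s0 - foW b s) (-(s 1 : ℚ))) * x ^ (s 2) := by
      show (∑ s ∈ F.support, Polynomial.monomial (s 2) _ : Polynomial LL).eval x = _
      rw [Polynomial.eval_finsetSum]
      refine Finset.sum_congr rfl fun s _ => ?_
      rw [Polynomial.eval_monomial]
    rw [← h5]
    exact hx1
  have h6 : ∑ s ∈ F.support, algebraMap ℂ LL (coeff s F) *
        (mon (-(foW b s)) (-(s 1 : ℚ)) * x ^ (s 2))
      = mon (-(foW b s0)) 0 * ∑ s ∈ F.support, (algebraMap ℂ LL (coeff s F) *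
      mon (foW b s0 - foW b s) (-(s 1 : ℚ))) * x ^ (s 2) := by
    rw [Finset.mul_sum]
    refine Finset.sum_congr rfl fun s _ => ?_
    have h7 : mon (-(foW b s)) (-(s 1 : ℚ))
        = mon (-(foW b s0)) 0 * mon (foW b s0 - foW b s) (-(s 1 : ℚ)) := by
      rw [mon_mul]
      congr 1 <;> ring
    rw [h7]
    ring
  rw [h6, hx1', mul_zero]

end Pool.Agent.Work.MP_abe657_gt
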