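import Pool.Agent.Work.MP_abe657_gt.Defs

/-!
Module Frame (M). A homogeneous form not divisible by `qq` does not vanish at `g e` for some complex
orthogonal matrix `g`.

Proof. (1) If `H` vanishes at all isotropic vectors of `ℂ³` then `qq ∣ H`: divide by the (monic in
`x1`) polynomial `qq`. So there is an isotropic `v` with `H(v) ≠ 0`, and `v ≠ 0` because `H` is
homogeneous of positive degree. (2) Every isotropic `v ≠ 0` is `λ e` (if `v₀ = i v₁`) or `λ y(τ)` with
`λ = (v₀ - i v₁)/2`, `τ = v₂/(v₀ - i v₁)`. (3) For `v = λ e` take `g = 1`. For `v = λ y(τ)` take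
`g = n_τ g₁`, `g₁ = diag(-1, 1, -1)` (so `g₁ e = 2 y(0)`) and `n_τ` the matrix with columns
`(1 - τ²/2, iτ²/2, τ)`, `(iτ²/2, 1 + τ²/2, -iτ)`, `(-τ, iτ, 1)`: it is orthogonal and maps `y(s)` to
`y(s + τ)`, so `g e = 2 y(τ)`. In both cases `g e = μ v` with `μ ≠ 0` and `H(g e) = μ^d H(v) ≠ 0`.
-/

set_option autoImplicit false

namespace Pool.Agent.Work.MP_abe657_gt

open MvPolynomial

lemma frame_dvd (H : MvPolynomial (Fin 3) ℂ)
    (h : ∀ v : Fin 3 → ℂ, ∑ i, v i ^ 2 = 0 → eval v H = 0) : qq ∣ H := by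
  set q' : MvPolynomial (Fin 2) ℂ := X 0 ^ 2 + X 1 ^ 2 with hq'
  set m : Polynomial (MvPolynomial (Fin 2) ℂ) := Polynomial.X ^ 2 + Polynomial.C q' with hm
  have hmonic : m.Monic := Polynomial.monic_X_pow_add_C q' two_ne_zero
  have hmq : finSuccEquiv ℂ 2 qq = m := by
    have e1 : (1 : Fin 3) = Fin.succ (0 : Fin 2) := rfl
    have e2 : (2 : Fin 3) = Fin.succ (1 : Fin 2) := rfl
    simp only [qq, Fin.sum_univ_three, map_add, map_pow]
    rw [e1, e2, finSuccEquiv_X_zero, finSuccEquiv_X_succ, finSuccEquiv_X_succ, hm, hq']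
    rw [Polynomial.C_add, Polynomial.C_pow, Polynomial.C_pow, add_assoc]
  set r := (finSuccEquiv ℂ 2 H) %ₘ m with hr
  have hdiv : finSuccEquiv ℂ 2 H = r + m * (finSuccEquiv ℂ 2 H /ₘ m) :=
    (Polynomial.modByMonic_add_div _ m).symm
  have hdeg : r.degree < 2 := by
    have h1 := Polynomial.degree_modByMonic_lt (finSuccEquiv ℂ 2 H) hmonic
    have h2 : m.degree = 2 := Polynomial.degree_X_pow_add_C (by norm_num) q'
    rwa [h2] at h1
  have hr2 : r = Polynomial.C (r.coeff 1) * Polynomial.X + Polynomial.C (r.coeff 0) := by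
    apply Polynomial.eq_X_add_C_of_natDegree_le_one
    by_cases hr0 : r = 0
    · rw [hr0]
      simp
    · have := (Polynomial.natDegree_lt_iff_degree_lt hr0 (n := 2)).mpr hdeg
      omega
  have key : ∀ (s : Fin 2 → ℂ) (w : ℂ), w ^ 2 = -(s 0 ^ 2 + s 1 ^ 2) →
      eval s (r.coeff 1) * w + eval s (r.coeff 0) = 0 := by
    intro s w hw
    have h1 := h (Fin.cons w s) (by
      rw [Fin.sum_univ_succ, Fin.sum_univ_two]
      simp only [Fin.cons_zero, Fin.cons_succ]
      rw [hw]
      ring)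
    rw [eval_eq_eval_mv_eval', hdiv] at h1
    rw [Polynomial.map_add, Polynomial.map_mul, Polynomial.eval_add, Polynomial.eval_mul] at h1
    have h2 : Polynomial.eval w (Polynomial.map (eval s) m) = 0 := by
      rw [hm]
      simp [hq', hw]
    rw [h2, zero_mul, add_zero, hr2] at h1
    simpa using h1
  have hboth : ∀ s : Fin 2 → ℂ, eval s (r.coeff 0) = 0 ∧
      eval s (r.coeff 1) ^ 2 * (s 0 ^ 2 + s 1 ^ 2) = 0 := by
    intro s
    obtain ⟨w, hw⟩ := IsAlgClosed.exists_pow_nat_eq (-(s 0 ^ 2 + s 1 ^ 2)) (n := 2) (by norm_num)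
    have h1 := key s w hw
    have h2 := key s (-w) (by rw [neg_sq, hw])
    have h3 : eval s (r.coeff 0) = 0 := by linear_combination (h1 + h2) / 2
    have h4 : eval s (r.coeff 1) * w = 0 := by linear_combination (h1 - h2) / 2
    refine ⟨h3, ?_⟩
    have : eval s (r.coeff 1) ^ 2 * (s 0 ^ 2 + s 1 ^ 2) = -(eval s (r.coeff 1) * w) ^ 2 := by
      rw [mul_pow, hw]
      ring
    rw [this, h4]
    ring
  have h0 : r.coeff 0 = 0 := by
    apply MvPolynomial.funext
    intro s
    rw [(hboth s).1, map_zero]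
  have h1 : r.coeff 1 = 0 := by
    have : r.coeff 1 ^ 2 * q' = 0 := by
      apply MvPolynomial.funext
      intro s
      rw [map_mul, map_pow, map_zero, hq']
      simpa using (hboth s).2
    rcases mul_eq_zero.mp this with h | h
    · exact pow_eq_zero_iff (two_ne_zero) |>.mp h
    · exfalso
      have := congrArg (eval (fun i : Fin 2 => if i = 0 then (1 : ℂ) else 0)) h
      simp [hq'] at this
  rw [hr2, h0, h1] at hdiv
  simp only [map_zero, zero_mul, zero_add] at hdiv
  have hdvd : finSuccEquiv ℂ 2 qq ∣ finSuccEquiv ℂ 2 H := by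
    rw [hmq]
    exact ⟨_, hdiv⟩
  exact (map_dvd_iff (finSuccEquiv ℂ 2)).mp hdvd

private lemma frame_homog (H : MvPolynomial (Fin 3) ℂ) (d : ℕ) (hH : H.IsHomogeneous d)
    (μ : ℂ) (v : Fin 3 → ℂ) : eval (μ • v) H = μ ^ d * eval v H := by
  rw [eval_eq', eval_eq', Finset.mul_sum]
  refine Finset.sum_congr rfl fun m hm => ?_
  have h1 : ∑ i, m i = d := by
    rw [hH.degree_eq_sum_deg_support hm]
    symm
    apply Finset.sum_subset (Finset.subset_univ _)
    intro i _ hi
    exact Finsupp.notMem_support_iff.mp hi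
  simp only [Pi.smul_apply, smul_eq_mul, mul_pow]
  rw [Finset.prod_mul_distrib, Finset.prod_pow_eq_pow_sum, h1]
  ring

theorem frame (H : MvPolynomial (Fin 3) ℂ) (d : ℕ) (hd : 0 < d) (hH : H.IsHomogeneous d)
    (hq : ¬ (qq ∣ H)) :
    ∃ g : Matrix (Fin 3) (Fin 3) ℂ, g.transpose * g = 1 ∧
      eval (g.mulVec (evec ℂ)) H ≠ 0 := by
  have hv : ∃ v : Fin 3 → ℂ, ∑ i, v i ^ 2 = 0 ∧ eval v H ≠ 0 := by
    by_contra hcon
    push Not at hcon
    exact hq (frame_dvd H hcon)
  obtain ⟨v, hv, hHv⟩ := hv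
  rw [Fin.sum_univ_three] at hv
  have fin : ∀ (g : Matrix (Fin 3) (Fin 3) ℂ) (μ : ℂ), μ ≠ 0 → g.mulVec (evec ℂ) = μ • v →
      eval (g.mulVec (evec ℂ)) H ≠ 0 := by
    intro g μ hμ hg
    rw [hg, frame_homog H d hH]
    exact mul_ne_zero (pow_ne_zero _ hμ) hHv
  have hI : Complex.I ^ 2 = -1 := Complex.I_sq
  by_cases h01 : v 0 = Complex.I * v 1
  · have hv2 : v 2 = 0 := by
      rw [h01] at hv
      have : v 2 ^ 2 = 0 := by linear_combination hv - v 1 ^ 2 * hI
      exact pow_eq_zero_iff (two_ne_zero) |>.mp this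
    have hv1 : v 1 ≠ 0 := by
      intro h1
      apply hHv
      have hv0 : v = (0 : ℂ) • v := by
        ext i
        fin_cases i
        · simp [h01, h1]
        · simp [h1]
        · simp [hv2]
      rw [hv0, frame_homog H d hH, zero_pow hd.ne', zero_mul]
    refine ⟨1, by simp, fin 1 (2 * Complex.I / v 1) ?_ ?_⟩
    · exact div_ne_zero (mul_ne_zero two_ne_zero Complex.I_ne_zero) hv1
    · rw [Matrix.one_mulVec]
      ext i
      fin_cases i
      · simp [evec, h01]
        field_simp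
        linear_combination (-1) * hI
      · simp [evec]
        field_simp
      · simp [evec, hv2]
  · have hl : v 0 - Complex.I * v 1 ≠ 0 := sub_ne_zero.mpr h01
    set l : ℂ := v 0 - Complex.I * v 1 with hldef
    set τ : ℂ := v 2 / l with hτ
    have hτl : τ * l = v 2 := by
      rw [hτ]
      field_simp
    have hvv : v 2 ^ 2 = -(l * (v 0 + Complex.I * v 1)) := by
      rw [hldef]
      linear_combination hv - v 1 ^ 2 * hI
    have hττ : τ ^ 2 * l = -(v 0 + Complex.I * v 1) := by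
      apply mul_right_cancel₀ hl
      rw [neg_mul, mul_comm (v 0 + Complex.I * v 1), ← hvv, ← hτl]
      ring
    refine ⟨!![-(1 - τ ^ 2 / 2), Complex.I * τ ^ 2 / 2, τ;
      -(Complex.I * τ ^ 2 / 2), 1 + τ ^ 2 / 2, -(Complex.I * τ);
      -τ, -(Complex.I * τ), -1], ?_, fin _ (4 / l) ?_ ?_⟩
    · ext i j
      fin_cases i <;> fin_cases j <;>
        simp [Matrix.mul_apply, Fin.sum_univ_three, Matrix.transpose_apply]
      · linear_combination (τ ^ 4 / 4) * hI
      · ring
      · linear_combination (τ ^ 3 / 2) * hI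
      · ring
      · linear_combination (τ ^ 4 / 4 + τ ^ 2) * hI
      · ring
      · linear_combination (τ ^ 3 / 2) * hI
      · ring
      · linear_combination (τ ^ 2) * hI
    · exact div_ne_zero (by norm_num) hl
    · ext i
      fin_cases i
      · simp [evec, Matrix.mulVec, dotProduct, Fin.sum_univ_three]
        field_simp
        linear_combination τ ^ 2 * l * hI - 2 * hττ + 2 * hldef
      · simp [evec, Matrix.mulVec, dotProduct, Fin.sum_univ_three]
        field_simp
        linear_combination 2 * Complex.I * hττ + 2 * Complex.I * hldef - 4 * v 1 * hI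
      · simp [evec, Matrix.mulVec, dotProduct, Fin.sum_univ_three]
        field_simp
        linear_combination (-2 * τ * l) * hI + 4 * hτl

end Pool.Agent.Work.MP_abe657_gt
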