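import Pool.Agent.Work.MP_abe657_gt.Defs

/-!
Module HomFactor (S-M). Small facts on leading forms.

Proofs. `exists_factor`: `lead F ≠ 0` is homogeneous of degree `F.totalDegree`; `qq` is a non-unit
(homogeneous of degree 2, non-zero), so the multiplicity `a` of `qq` in `lead F` is finite:
`lead F = qq^a * H`, `¬ qq ∣ H`. `H` is homogeneous: if `H = ∑ H_j` is the decomposition into
homogeneous components then `qq^a H_j` are the components of `lead F`, so `qq^a H_j = 0` and
`H_j = 0` for `j + 2a ≠ F.totalDegree`. `lead_mul`: top components multiply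
(`totalDegree_mul_of_isDomain`, `homogeneousComponent` of a product). `lead_shift`: translation of the
variables by a constant vector does not change the leading form and the total degree.
`noIso_of_dvd`: `G = F H`, `lead G = lead F * lead H`.
-/

set_option autoImplicit false

namespace Pool.Agent.Work.MP_abe657_gt

open MvPolynomial

private lemma coeff_zero_of_deg (P : MvPolynomial (Fin 3) ℂ) (n : ℕ) (hP : P.totalDegree ≤ n)
    (a : Fin 3 →₀ ℕ) (ha : n < a.degree) : coeff a P = 0 := by
  apply coeff_eq_zero_of_totalDegree_lt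
  rw [← Finsupp.degree_apply]
  omega

private lemma hc_mul (P Q : MvPolynomial (Fin 3) ℂ) (n m : ℕ) (hP : P.totalDegree ≤ n)
    (hQ : Q.totalDegree ≤ m) :
    homogeneousComponent (n + m) (P * Q) = homogeneousComponent n P * homogeneousComponent m Q := by
  classical
  ext d
  rw [coeff_homogeneousComponent, coeff_mul, coeff_mul]
  split_ifs with hd
  · refine Finset.sum_congr rfl fun ab hab => ?_
    rw [Finset.HasAntidiagonal.mem_antidiagonal] at hab
    rw [coeff_homogeneousComponent, coeff_homogeneousComponent]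
    have hdeg : ab.1.degree + ab.2.degree = n + m := by
      rw [← hd, ← hab, map_add]
    rcases lt_trichotomy ab.1.degree n with h | h | h
    · rw [coeff_zero_of_deg Q m hQ ab.2 (by omega)]
      simp
    · rw [if_pos h, if_pos (by omega)]
    · rw [coeff_zero_of_deg P n hP ab.1 h]
      simp
  · symm
    refine Finset.sum_eq_zero fun ab hab => ?_
    rw [Finset.HasAntidiagonal.mem_antidiagonal] at hab
    rw [coeff_homogeneousComponent, coeff_homogeneousComponent]
    by_cases h1 : ab.1.degree = n
    · by_cases h2 : ab.2.degree = m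
      · exfalso
        apply hd
        rw [← hab, map_add, h1, h2]
      · rw [if_neg h2, mul_zero]
    · rw [if_neg h1, zero_mul]

private lemma hc_mul_hom (P Q : MvPolynomial (Fin 3) ℂ) (m n : ℕ) (hP : P.IsHomogeneous m) :
    homogeneousComponent (m + n) (P * Q) = P * homogeneousComponent n Q := by
  classical
  ext d
  rw [coeff_homogeneousComponent, coeff_mul, coeff_mul]
  split_ifs with hd
  · refine Finset.sum_congr rfl fun ab hab => ?_
    rw [Finset.HasAntidiagonal.mem_antidiagonal] at hab
    rw [coeff_homogeneousComponent]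
    have hdeg : ab.1.degree + ab.2.degree = m + n := by
      rw [← hd, ← hab, map_add]
    by_cases h : ab.1.degree = m
    · rw [if_pos (by omega)]
    · rw [hP.coeff_eq_zero h]
      simp
  · symm
    refine Finset.sum_eq_zero fun ab hab => ?_
    rw [Finset.HasAntidiagonal.mem_antidiagonal] at hab
    rw [coeff_homogeneousComponent]
    by_cases h1 : ab.1.degree = m
    · by_cases h2 : ab.2.degree = n
      · exfalso
        apply hd
        rw [← hab, map_add, h1, h2]
      · rw [if_neg h2, mul_zero]
    · rw [hP.coeff_eq_zero h1, zero_mul]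

theorem lead_ne_zero (F : MvPolynomial (Fin 3) ℂ) (hF : F ≠ 0) : lead F ≠ 0 := by
  intro h
  have hne : F.support.Nonempty := by
    rwa [Finset.nonempty_iff_ne_empty, Ne, support_eq_empty]
  obtain ⟨d, hd, hd2⟩ := Finset.exists_mem_eq_sup F.support hne (fun s => s.degree)
  have hdeg : F.totalDegree = d.degree := hd2
  have hc := congrArg (coeff d) h
  rw [lead, coeff_homogeneousComponent, if_pos hdeg.symm, coeff_zero] at hc
  exact (mem_support_iff.1 hd) hc

private lemma qq_hom : qq.IsHomogeneous 2 := by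
  unfold qq
  exact IsHomogeneous.sum _ _ _ fun i _ => isHomogeneous_X_pow i 2

private lemma qq_ne_zero : qq ≠ 0 := by
  intro h
  have := congrArg (eval (fun i : Fin 3 => if i = 0 then (1 : ℂ) else 0)) h
  simp [qq, Fin.sum_univ_three] at this

private lemma factor_aux : ∀ (n : ℕ) (G : MvPolynomial (Fin 3) ℂ), G ≠ 0 → G.IsHomogeneous n →
    ∃ (a d : ℕ) (H : MvPolynomial (Fin 3) ℂ), n = 2 * a + d ∧
      G = qq ^ a * H ∧ H.IsHomogeneous d ∧ ¬ (qq ∣ H) := by
  intro n
  induction n using Nat.strong_induction_on with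
  | _ n ih =>
    intro G hG hGn
    by_cases hdvd : qq ∣ G
    · obtain ⟨G', hG'⟩ := hdvd
      have hG'0 : G' ≠ 0 := by
        rintro rfl
        exact hG (by rw [hG', mul_zero])
      have hdeg : n = 2 + G'.totalDegree := by
        have h1 := hGn.totalDegree hG
        rw [← h1, hG', totalDegree_mul_of_isDomain qq_ne_zero hG'0, qq_hom.totalDegree qq_ne_zero]
      have hhom : G'.IsHomogeneous G'.totalDegree := by
        have h2 := hc_mul_hom qq G' 2 G'.totalDegree qq_hom
        rw [← hG', ← hdeg, homogeneousComponent_eq_self hGn] at h2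
        have h3 : G' = homogeneousComponent G'.totalDegree G' := by
          apply mul_left_cancel₀ qq_ne_zero
          rw [← h2, ← hG']
        rw [h3]
        have h4 := homogeneousComponent_isHomogeneous G'.totalDegree G'
        rwa [← h3] at h4 ⊢
      obtain ⟨a, d, H, h5, h6, h7, h8⟩ := ih G'.totalDegree (by omega) G' hG'0 hhom
      refine ⟨a + 1, d, H, by omega, ?_, h7, h8⟩
      rw [hG']
      conv_lhs => rw [h6]
      ring
    · exact ⟨0, n, G, by omega, by simp, hGn, hdvd⟩

theorem exists_factor (F : MvPolynomial (Fin 3) ℂ) (hF : F ≠ 0) :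
    ∃ (a d : ℕ) (H : MvPolynomial (Fin 3) ℂ), F.totalDegree = 2 * a + d ∧
      lead F = qq ^ a * H ∧ H.IsHomogeneous d ∧ ¬ (qq ∣ H) :=
  factor_aux _ (lead F) (lead_ne_zero F hF) (homogeneousComponent_isHomogeneous _ _)

theorem lead_mul (F H : MvPolynomial (Fin 3) ℂ) (hF : F ≠ 0) (hH : H ≠ 0) :
    lead (F * H) = lead F * lead H := by
  unfold lead
  rw [totalDegree_mul_of_isDomain hF hH, hc_mul F H _ _ le_rfl le_rfl]

theorem noIso_of_dvd (F G : MvPolynomial (Fin 3) ℂ) (hG : G ≠ 0) (h : F ∣ G) (hiso : NoIso G) :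
    NoIso F := by
  obtain ⟨H, rfl⟩ := h
  have hF : F ≠ 0 := left_ne_zero_of_mul hG
  have hH : H ≠ 0 := right_ne_zero_of_mul hG
  intro v hv hv2 hdvd
  apply hiso v hv hv2
  rw [lead_mul F H hF hH]
  exact Dvd.dvd.mul_right hdvd _

/-- translation of the variables -/
noncomputable def shift (c : Fin 3 → ℂ) (F : MvPolynomial (Fin 3) ℂ) : MvPolynomial (Fin 3) ℂ :=
  aeval (fun a => X a + C (c a)) F

private lemma shift_shift (c d : Fin 3 → ℂ) (h : ∀ a, c a + d a = 0)
    (F : MvPolynomial (Fin 3) ℂ) : shift c (shift d F) = F := by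
  unfold shift
  have e : (aeval (fun a => X a + C (c a)) : MvPolynomial (Fin 3) ℂ →ₐ[ℂ] MvPolynomial (Fin 3) ℂ).comp
      (aeval (fun a => X a + C (d a))) = AlgHom.id ℂ _ := by
    apply MvPolynomial.algHom_ext
    intro a
    rw [AlgHom.comp_apply, aeval_X, map_add, aeval_X, AlgHom.id_apply]
    have h1 : (aeval (fun a => X a + C (c a)) : MvPolynomial (Fin 3) ℂ →ₐ[ℂ] MvPolynomial (Fin 3) ℂ)
        (C (d a)) = C (d a) := by
      rw [aeval_C]
      rfl
    rw [h1, add_assoc, ← C_add, h a, C_0, add_zero]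
  have := DFunLike.congr_fun e F
  rwa [AlgHom.comp_apply, AlgHom.id_apply] at this

/-- translation as an algebra equivalence -/
private noncomputable def shiftE (c : Fin 3 → ℂ) :
    MvPolynomial (Fin 3) ℂ ≃* MvPolynomial (Fin 3) ℂ where
  toFun := shift c
  invFun := shift (fun a => -c a)
  left_inv := shift_shift _ _ (by intro a; ring)
  right_inv := shift_shift _ _ (by intro a; ring)
  map_mul' := by
    intro x y
    unfold shift
    rw [map_mul]

theorem shift_ne_zero (c : Fin 3 → ℂ) (F : MvPolynomial (Fin 3) ℂ) (hF : F ≠ 0) :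
    shift c F ≠ 0 := by
  intro h
  apply hF
  have := shift_shift (fun a => -c a) c (by intro a; ring) F
  rw [h] at this
  rw [← this]
  unfold shift
  rw [map_zero]

theorem shift_irreducible (c : Fin 3 → ℂ) (F : MvPolynomial (Fin 3) ℂ) (hF : Irreducible F) :
    Irreducible (shift c F) :=
  (MulEquiv.irreducible_iff (shiftE c)).2 hF

/-- same component of degree `n`, total degree at most `n` -/
private def Rn (n : ℕ) (P P' : MvPolynomial (Fin 3) ℂ) : Prop :=
  P.totalDegree ≤ n ∧ P'.totalDegree ≤ n ∧ homogeneousComponent n P' = homogeneousComponent n P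

private lemma Rn.mul {n m : ℕ} {P P' Q Q' : MvPolynomial (Fin 3) ℂ} (h : Rn n P P')
    (h' : Rn m Q Q') : Rn (n + m) (P * Q) (P' * Q') :=
  ⟨(totalDegree_mul _ _).trans (add_le_add h.1 h'.1),
    (totalDegree_mul _ _).trans (add_le_add h.2.1 h'.2.1), by
    rw [hc_mul P' Q' n m h.2.1 h'.2.1, hc_mul P Q n m h.1 h'.1, h.2.2, h'.2.2]⟩

private lemma Rn.add {n : ℕ} {P P' Q Q' : MvPolynomial (Fin 3) ℂ} (h : Rn n P P')
    (h' : Rn n Q Q') : Rn n (P + Q) (P' + Q') :=
  ⟨(totalDegree_add _ _).trans (max_le h.1 h'.1),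
    (totalDegree_add _ _).trans (max_le h.2.1 h'.2.1), by
    rw [map_add, map_add, h.2.2, h'.2.2]⟩

private lemma Rn.mono {n m : ℕ} {P P' : MvPolynomial (Fin 3) ℂ} (h : Rn n P P') (hm : n ≤ m) :
    Rn m P P' := by
  rcases hm.eq_or_lt with rfl | hlt
  · exact h
  · refine ⟨h.1.trans hm, h.2.1.trans hm, ?_⟩
    rw [homogeneousComponent_eq_zero _ _ (lt_of_le_of_lt h.1 hlt),
      homogeneousComponent_eq_zero _ _ (lt_of_le_of_lt h.2.1 hlt)]

private lemma Rn_C (n : ℕ) (r : ℂ) : Rn n (C r) (C r) := by
  refine ⟨?_, ?_, rfl⟩ <;> rw [totalDegree_C] <;> exact Nat.zero_le _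

private lemma Rn_X (c : Fin 3 → ℂ) (a : Fin 3) : Rn 1 (X a) (X a + C (c a)) := by
  refine ⟨(totalDegree_X a).le, ?_, ?_⟩
  · refine (totalDegree_add _ _).trans (max_le (totalDegree_X a).le ?_)
    rw [totalDegree_C]
    exact Nat.zero_le _
  · rw [map_add, homogeneousComponent_eq_zero 1 (C (c a)) (by rw [totalDegree_C]; exact one_pos),
      add_zero]

private lemma Rn_X_pow (c : Fin 3 → ℂ) (a : Fin 3) (n : ℕ) :
    Rn n (X a ^ n) ((X a + C (c a)) ^ n) := by
  induction n with
  | zero => simpa using Rn_C 0 1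
  | succ n ih =>
    rw [pow_succ, pow_succ]
    exact ih.mul (Rn_X c a)

private lemma Rn_monomial (c : Fin 3 → ℂ) (s : Fin 3 →₀ ℕ) (r : ℂ) :
    Rn s.degree (monomial s r) (shift c (monomial s r)) := by
  unfold shift
  rw [aeval_monomial, Finsupp.degree_eq_sum, monomial_eq, Finsupp.prod_fintype _ _ (by simp),
    Finsupp.prod_fintype _ _ (by simp), Fin.sum_univ_three, Fin.prod_univ_three,
    Fin.prod_univ_three]
  have h := (Rn_C 0 r).mul (((Rn_X_pow c 0 (s 0)).mul (Rn_X_pow c 1 (s 1))).mul
    (Rn_X_pow c 2 (s 2)))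
  rw [zero_add] at h
  exact h

private lemma Rn_shift (c : Fin 3 → ℂ) (F : MvPolynomial (Fin 3) ℂ) :
    Rn F.totalDegree F (shift c F) := by
  have key : ∀ s : Finset (Fin 3 →₀ ℕ), (∀ d ∈ s, d.degree ≤ F.totalDegree) →
      Rn F.totalDegree (∑ d ∈ s, monomial d (coeff d F))
        (shift c (∑ d ∈ s, monomial d (coeff d F))) := by
    classical
    intro s
    induction s using Finset.induction_on with
    | empty =>
      intro _
      have : shift c (∑ d ∈ (∅ : Finset (Fin 3 →₀ ℕ)), monomial d (coeff d F)) = C 0 := by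
        unfold shift
        simp
      rw [this]
      simpa using Rn_C F.totalDegree 0
    | insert d s hd ih =>
      intro h
      rw [Finset.sum_insert hd]
      have e : shift c (monomial d (coeff d F) + ∑ d ∈ s, monomial d (coeff d F)) =
          shift c (monomial d (coeff d F)) + shift c (∑ d ∈ s, monomial d (coeff d F)) := by
        unfold shift
        rw [map_add]
      rw [e]
      exact ((Rn_monomial c d _).mono (h d (Finset.mem_insert_self d s))).add
        (ih fun x hx => h x (Finset.mem_insert_of_mem hx))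
  have h := key F.support fun d hd => by
    have := le_totalDegree hd
    exact this
  rwa [support_sum_monomial_coeff] at h

private lemma lead_shift (c : Fin 3 → ℂ) (F : MvPolynomial (Fin 3) ℂ) (hF : F ≠ 0) :
    lead (shift c F) = lead F := by
  obtain ⟨_, h2, h3⟩ := Rn_shift c F
  have h4 : (shift c F).totalDegree = F.totalDegree := by
    apply le_antisymm h2
    by_contra hlt
    push Not at hlt
    rw [homogeneousComponent_eq_zero _ _ hlt] at h3
    exact lead_ne_zero F hF h3.symm
  unfold lead
  rw [h4, h3]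

theorem noIso_shift (c : Fin 3 → ℂ) (F : MvPolynomial (Fin 3) ℂ) (hF : F ≠ 0) (hiso : NoIso F) :
    NoIso (shift c F) := by
  intro v hv hv2 hdvd
  rw [lead_shift c F hF] at hdvd
  exact hiso v hv hv2 hdvd

end Pool.Agent.Work.MP_abe657_gt
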