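import Pool.Agent.Work.MP_abe657_gt.RootKK
import Pool.Agent.Work.MP_abe657_gt.HomFactor

/-!
Module Harm (M-L). If `F(A y(t) + C e)`, as a polynomial in `C`, has only terms `A^m C^l` with `m ≤ l`,
then `F` is a polynomial in `x1^2+x2^2+x3^2`.

Proof. Put `X = (x1 - i x2)/2`, `Y = x3/2`, `Z = x1 + i x2`; then `qq = 2 X Z + 4 Y^2`, and at
`A y(t) + C e`: `X = A`, `Y = t A`, `Z = -2 t^2 A - 4 C`, `qq = -8 A C`. Every `F` can be written
`F = ∑_j qq^j r_j` with `r_j = α_j(X,Z) + Y β_j(X,Z)` (replace `Y^2` by `(qq - 2XZ)/4`, induction on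
the degree in `Y`). Let `N` be the largest total degree of an `r_j` (all `r_j = 0`: `F = 0`,
trivial). If `N = 0`, then `F` is a polynomial in `qq`. Suppose `N > 0` and let
`α_{j,N}`, `β_{j,N-1}` be the homogeneous parts. In `qq^j r_j` evaluated at `A y + C e`, a monomial of
`r_j` of total degree `n ≤ N` gives terms `A^(j+m') C^(j+l')`, `m' + l' = n`; so terms `A^m C^l` with
`m - l = N` come only from `l' = 0`, `n = N`, `l = j`, and the coefficient (in `kk`) of
`A^(N+l) C^l` is `(-8)^l (α_{l,N}(1, -2t^2) + t β_{l,N-1}(1, -2t^2))`. By the hypothesis it is `0`;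
`t` is transcendental over `ℂ`, the powers `t^(2γ)` and `t^(2γ+1)` are different, so all coefficients
of `α_{l,N}` and `β_{l,N-1}` are `0`, for every `l`: contradiction to the choice of `N`.
(`A = AA = s⁻¹` has `cf` only at `-1`; `t = tL = iotaL tk`.)
-/

set_option autoImplicit false

namespace Pool.Agent.Work.MP_abe657_gt

open MvPolynomial

private lemma gv_one {R : Type} [CommRing R] [Algebra ℂ R] (z : Fin 3 → R) : hg_gv 1 z = z := by
  funext a
  simp [hg_gv, Matrix.one_apply]

private lemma y_ne (H : MvPolynomial (Fin 3) ℂ) (d : ℕ) (hd : 0 < d)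
    (hH : H.IsHomogeneous d) (hq : ¬ (qq ∣ H)) : aeval (yv tk) H ≠ 0 := by
  have hv : ∃ v : Fin 3 → ℂ, ∑ i, v i ^ 2 = 0 ∧ eval v H ≠ 0 := by
    by_contra hcon
    push Not at hcon
    exact hq (frame_dvd H hcon)
  obtain ⟨v, hv, hHv⟩ := hv
  rw [Fin.sum_univ_three] at hv
  have hI : Complex.I ^ 2 = -1 := Complex.I_sq
  by_cases h01 : v 0 = Complex.I * v 1
  · have hv2 : v 2 = 0 := by
      rw [h01] at hv
      have : v 2 ^ 2 = 0 := by linear_combination hv - v 1 ^ 2 * hI
      exact pow_eq_zero_iff (two_ne_zero) |>.mp this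
    have hve : v = fun i => (v 1 / (2 * Complex.I)) * evec ℂ i := by
      funext i
      have hI0 := Complex.I_ne_zero
      fin_cases i
      · simp [evec, h01]
        field_simp
        linear_combination v 1 * hI
      · simp [evec]
      · simp [evec, hv2]
    have h1 : eval (evec ℂ) H ≠ 0 := by
      intro h0
      apply hHv
      rw [hve]
      have h2 : eval (fun i => (v 1 / (2 * Complex.I)) * evec ℂ i) H =
        (v 1 / (2 * Complex.I)) ^ d * eval (evec ℂ) H := hg_homog_aeval H d hH _ _
      rw [h2, h0, mul_zero]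
    have h3 := rkk_y_ne H d hH 1 (by rw [Matrix.one_mulVec]; exact h1)
    rwa [gv_one] at h3
  · have hl : v 0 - Complex.I * v 1 ≠ 0 := sub_ne_zero.mpr h01
    set l : ℂ := v 0 - Complex.I * v 1 with hldef
    set τ : ℂ := v 2 / l with hτ
    have hτl : τ * l = v 2 := by
      rw [hτ]
      field_simp
    have hvv : v 2 ^ 2 = -(l * (v 0 + Complex.I * v 1)) := by
      rw [hldef]
      linear_combination hv - v 1 ^ 2 * hI
    have hττ : τ ^ 2 * l = -(v 0 + Complex.I * v 1) := by
      apply mul_right_cancel₀ hl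
      rw [neg_mul, mul_comm (v 0 + Complex.I * v 1), ← hvv, ← hτl]
      ring
    have hvy : v = fun i => (l / 2) * yv τ i := by
      funext i
      fin_cases i
      · simp [yv]
        linear_combination (1 / 2 : ℂ) * hττ - (1 / 2 : ℂ) * hldef
      · simp [yv]
        linear_combination (-(Complex.I / 2)) * hττ - (Complex.I / 2) * hldef + v 1 * hI
      · simp [yv]
        linear_combination -hτl
    have h1 : eval (yv τ) H ≠ 0 := by
      intro h0
      apply hHv
      rw [hvy]
      have h2 : eval (fun i => (l / 2) * yv τ i) H = (l / 2) ^ d * eval (yv τ) H :=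
        hg_homog_aeval H d hH _ _
      rw [h2, h0, mul_zero]
    intro h0
    apply h1
    have h3 : Polynomial.aeval tk (aeval (yv (Polynomial.X : Polynomial ℂ)) H) = 0 := by
      rw [rkk_poly_tk, ← h0]
      congr 2
      funext b
      have h22 : Polynomial.aeval tk (2 : Polynomial ℂ) = 2 := map_ofNat _ 2
      fin_cases b
      · simp [yv]
      · simp [yv]
      · simp [yv, h22]
    have h4 := rkk_tk_transc _ h3
    have h5 := rkk_poly_eval (yv (Polynomial.X : Polynomial ℂ)) H τ
    rw [h4, Polynomial.eval_zero] at h5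
    rw [h5]
    congr 2
    funext b
    fin_cases b
    · simp [yv]
    · simp [yv]
    · simp [yv]

private lemma harm_comp (G : MvPolynomial (Fin 3) ℂ) (j : ℕ) (hG : G.IsHomogeneous j)
    (h : ∀ l : ℕ, 2 * l < j → (hg_phiK 1 G).coeff l = 0) :
    ∃ p : Polynomial ℂ, G = Polynomial.aeval qq p := by
  by_cases hne : G = 0
  · exact ⟨0, by rw [hne, map_zero]⟩
  obtain ⟨a, d, H, hdeg, hlead, hH, hq⟩ := exists_factor G hne
  have hGj : G.totalDegree = j := hG.totalDegree hne
  have hGl : lead G = G := by
    rw [lead, hGj]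
    exact homogeneousComponent_eq_self hG
  rw [hGl] at hlead
  rcases Nat.eq_zero_or_pos d with hd | hd
  · rw [hd] at hH
    have hc : H = C (H.coeff 0) := by
      rw [← totalDegree_eq_zero_iff_eq_C]
      rw [totalDegree_zero_iff_isHomogeneous]
      exact hH
    refine ⟨Polynomial.X ^ a * Polynomial.C (H.coeff 0), ?_⟩
    rw [map_mul, map_pow, Polynomial.aeval_X, Polynomial.aeval_C]
    conv_lhs => rw [hlead, hc]
    rfl
  · exfalso
    have h1 := h a (by omega)
    rw [hlead, hg_phiK_mul, hg_phiK_pow, hg_phiK_qq 1 (by simp), mul_pow, ← Polynomial.C_pow, mul_assoc,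
      Polynomial.coeff_C_mul, mul_comm (Polynomial.X ^ a)] at h1
    have h2 := Polynomial.coeff_mul_X_pow (hg_phiK 1 H) a 0
    rw [zero_add] at h2
    rw [h2] at h1
    rcases mul_eq_zero.mp h1 with h3 | h3
    · exact pow_ne_zero a (by norm_num) h3
    · rw [Polynomial.coeff_zero_eq_eval_zero, hg_phiK, hg_eval_linSub] at h3
      apply y_ne H d hd hH hq
      rw [← h3]
      congr 2
      funext i
      rw [gv_one, zero_mul, add_zero]

theorem harm (F : MvPolynomial (Fin 3) ℂ)
    (h : ∀ l : ℕ, ∀ q : ℚ, q < -(l : ℚ) → cf ((substF 1 F).coeff l) q = 0) :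
    ∃ p : Polynomial ℂ, F = Polynomial.aeval qq p := by
  have hj : ∀ j ∈ Finset.range (F.totalDegree + 1), ∃ p : Polynomial ℂ,
      homogeneousComponent j F = Polynomial.aeval qq p := by
    intro j hj
    apply harm_comp _ j (homogeneousComponent_isHomogeneous j F)
    intro l hl
    have hl' : 2 * (l : ℚ) < j := by exact_mod_cast hl
    have h1 := h l ((l : ℚ) - j) (by linarith)
    rw [hg_cf_substF, Finset.sum_eq_single j] at h1
    · rwa [if_pos rfl] at h1
    · intro i _ hi
      rw [if_neg]
      intro h2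
      apply hi
      have : (i : ℚ) = j := by linarith
      exact_mod_cast this
    · intro h2
      exact absurd hj h2
  choose! p hp using hj
  refine ⟨∑ j ∈ Finset.range (F.totalDegree + 1), p j, ?_⟩
  rw [map_sum]
  conv_lhs => rw [← sum_homogeneousComponent F]
  exact Finset.sum_congr rfl fun j hj => hp j hj

end Pool.Agent.Work.MP_abe657_gt
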