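import Pool.Agent.Work.MP_abe657_gt.Subst

/-!
Auxiliary facts on homogeneous polynomials and the substitution `F(g (A y(t) + X e))`,
used by Weights, Harm, Case1, RootKK.
-/

set_option autoImplicit false

namespace Pool.Agent.Work.MP_abe657_gt

open MvPolynomial

lemma hg_homog_aeval {A : Type} [CommRing A] [Algebra ℂ A] (H : MvPolynomial (Fin 3) ℂ) (d : ℕ)
    (hH : H.IsHomogeneous d) (μ : A) (x : Fin 3 → A) :
    aeval (fun i => μ * x i) H = μ ^ d * aeval x H := by
  rw [aeval_def, aeval_def, eval₂_eq', eval₂_eq', Finset.mul_sum]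
  refine Finset.sum_congr rfl fun m hm => ?_
  have h1 : ∑ i, m i = d := by
    rw [hH.degree_eq_sum_deg_support hm]
    symm
    apply Finset.sum_subset (Finset.subset_univ _)
    intro i _ hi
    exact Finsupp.notMem_support_iff.mp hi
  simp only [mul_pow]
  rw [Finset.prod_mul_distrib, Finset.prod_pow_eq_pow_sum, h1]
  ring

/-- the linear substitution `x ↦ u + X w` -/
noncomputable def hg_linSub {R : Type} [CommRing R] [Algebra ℂ R] (u w : Fin 3 → R)
    (H : MvPolynomial (Fin 3) ℂ) : Polynomial R :=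
  aeval (fun a => Polynomial.C (u a) + Polynomial.X * Polynomial.C (w a)) H

lemma hg_eval_linSub {R : Type} [CommRing R] [Algebra ℂ R] (u w : Fin 3 → R)
    (H : MvPolynomial (Fin 3) ℂ) (x : R) :
    (hg_linSub u w H).eval x = aeval (fun a => u a + x * w a) H := by
  have h : ((Polynomial.aeval x : Polynomial R →ₐ[R] R).restrictScalars ℂ).comp
      (aeval (fun a => Polynomial.C (u a) + Polynomial.X * Polynomial.C (w a)))
      = (aeval (fun a => u a + x * w a) : MvPolynomial (Fin 3) ℂ →ₐ[ℂ] R) := by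
    apply MvPolynomial.algHom_ext
    intro a
    simp only [AlgHom.comp_apply, AlgHom.restrictScalars_apply, aeval_X, map_mul,
      Polynomial.aeval_C, map_add, Polynomial.aeval_X, Algebra.algebraMap_self, RingHom.id_apply]
  have h2 := congrArg (fun f => f H) h
  simp only [AlgHom.comp_apply, AlgHom.restrictScalars_apply] at h2
  rw [← h2, hg_linSub, Polynomial.coe_aeval_eq_eval]

lemma hg_linSub_coeff {R : Type} [CommRing R] [Algebra ℂ R] (u w : Fin 3 → R)
    (H : MvPolynomial (Fin 3) ℂ) (d : ℕ) (hH : H.IsHomogeneous d) :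
    (∀ l, d < l → (hg_linSub u w H).coeff l = 0) ∧ (hg_linSub u w H).coeff d = aeval w H := by
  have hdeg : ∀ i, (Polynomial.C (u i) + Polynomial.X * Polynomial.C (w i)).natDegree ≤ 1 := by
    intro i
    refine (Polynomial.natDegree_add_le _ _).trans ?_
    rw [Polynomial.natDegree_C]
    refine max_le (by omega) ?_
    rw [mul_comm]
    exact (Polynomial.natDegree_C_mul_le _ _).trans Polynomial.natDegree_X_le
  have hc1 : ∀ i, (Polynomial.C (u i) + Polynomial.X * Polynomial.C (w i)).coeff 1 = w i := by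
    intro i
    rw [Polynomial.coeff_add, Polynomial.coeff_C_of_ne_zero one_ne_zero, zero_add, mul_comm,
      Polynomial.coeff_C_mul, Polynomial.coeff_X_one, mul_one]
  have hp : ∀ i (k : ℕ),
      ((Polynomial.C (u i) + Polynomial.X * Polynomial.C (w i)) ^ k).natDegree ≤ k := by
    intro i k
    have := Polynomial.natDegree_pow_le_of_le k (hdeg i)
    simpa using this
  have hpc : ∀ i (k : ℕ),
      ((Polynomial.C (u i) + Polynomial.X * Polynomial.C (w i)) ^ k).coeff k = w i ^ k := by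
    intro i k
    have := Polynomial.coeff_pow_of_natDegree_le (m := k) (hdeg i)
    rw [mul_one, hc1] at this
    exact this
  have hm : ∀ m ∈ H.support, m 0 + m 1 + m 2 = d := by
    intro m hm
    rw [hH.degree_eq_sum_deg_support hm, ← Fin.sum_univ_three (fun i => m i)]
    symm
    apply Finset.sum_subset (Finset.subset_univ _)
    intro i _ hi
    exact Finsupp.notMem_support_iff.mp hi
  have e : hg_linSub u w H = ∑ m ∈ H.support, Polynomial.C (algebraMap ℂ R (H.coeff m)) *
      ((Polynomial.C (u 0) + Polynomial.X * Polynomial.C (w 0)) ^ m 0 *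
      (Polynomial.C (u 1) + Polynomial.X * Polynomial.C (w 1)) ^ m 1 *
      (Polynomial.C (u 2) + Polynomial.X * Polynomial.C (w 2)) ^ m 2) := by
    rw [hg_linSub, aeval_def, eval₂_eq']
    refine Finset.sum_congr rfl fun m _ => ?_
    rw [Fin.prod_univ_three]
    rfl
  have e2 : aeval w H = ∑ m ∈ H.support, algebraMap ℂ R (H.coeff m) *
      (w 0 ^ m 0 * w 1 ^ m 1 * w 2 ^ m 2) := by
    rw [aeval_def, eval₂_eq']
    refine Finset.sum_congr rfl fun m _ => ?_
    rw [Fin.prod_univ_three]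
  have h01 : ∀ a b : ℕ, ((Polynomial.C (u 0) + Polynomial.X * Polynomial.C (w 0)) ^ a *
      (Polynomial.C (u 1) + Polynomial.X * Polynomial.C (w 1)) ^ b).natDegree ≤ a + b :=
    fun a b => Polynomial.natDegree_mul_le_of_le (hp 0 a) (hp 1 b)
  constructor
  · intro l hl
    rw [e, Polynomial.finsetSum_coeff]
    refine Finset.sum_eq_zero fun m hm' => ?_
    rw [Polynomial.coeff_C_mul, Polynomial.coeff_eq_zero_of_natDegree_lt, mul_zero]
    refine lt_of_le_of_lt (Polynomial.natDegree_mul_le_of_le (h01 _ _) (hp 2 _)) ?_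
    rw [hm m hm']
    exact hl
  · rw [e, e2, Polynomial.finsetSum_coeff]
    refine Finset.sum_congr rfl fun m hm' => ?_
    rw [Polynomial.coeff_C_mul, ← hm m hm',
      Polynomial.coeff_mul_add_eq_of_natDegree_le (h01 _ _) (hp 2 _),
      Polynomial.coeff_mul_add_eq_of_natDegree_le (hp 0 _) (hp 1 _), hpc, hpc, hpc]

/-- `g` applied to a vector over an algebra -/
noncomputable def hg_gv {R : Type} [CommRing R] [Algebra ℂ R] (g : Matrix (Fin 3) (Fin 3) ℂ)
    (z : Fin 3 → R) : Fin 3 → R :=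
  fun a => ∑ b, algebraMap ℂ R (g a b) * z b

lemma hg_gv_sq {R : Type} [CommRing R] [Algebra ℂ R] (g : Matrix (Fin 3) (Fin 3) ℂ)
    (hg : g.transpose * g = 1) (z w : Fin 3 → R) :
    ∑ a, hg_gv g z a * hg_gv g w a = ∑ a, z a * w a := by
  have h : ∀ b c, ∑ a, algebraMap ℂ R (g a b) * algebraMap ℂ R (g a c) =
      if b = c then 1 else 0 := by
    intro b c
    have h1 := congrFun (congrFun hg b) c
    rw [Matrix.mul_apply, Matrix.one_apply] at h1
    have h2 := congrArg (algebraMap ℂ R) h1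
    rw [map_sum] at h2
    simp only [Matrix.transpose_apply, map_mul] at h2
    rw [h2]
    split_ifs <;> simp
  have e : ∑ a, hg_gv g z a * hg_gv g w a = ∑ b, ∑ c, (∑ a, algebraMap ℂ R (g a b) *
      algebraMap ℂ R (g a c)) * (z b * w c) := by
    have e1 : ∀ a, hg_gv g z a * hg_gv g w a = ∑ b, ∑ c, algebraMap ℂ R (g a b) *
        algebraMap ℂ R (g a c) * (z b * w c) := by
      intro a
      simp only [hg_gv]
      rw [Finset.sum_mul_sum]
      refine Finset.sum_congr rfl fun b _ => Finset.sum_congr rfl fun c _ => ?_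
      ring
    rw [Finset.sum_congr rfl fun a _ => e1 a, Finset.sum_comm]
    refine Finset.sum_congr rfl fun b _ => ?_
    rw [Finset.sum_comm]
    refine Finset.sum_congr rfl fun c _ => ?_
    rw [Finset.sum_mul]
  rw [e]
  simp [h]

/-- the polynomial `H(g (y(t) + X e))` over the inner field -/
noncomputable def hg_phiK (g : Matrix (Fin 3) (Fin 3) ℂ) (H : MvPolynomial (Fin 3) ℂ) :
    Polynomial kk :=
  hg_linSub (hg_gv g (yv tk)) (hg_gv g (evec kk)) H

lemma hg_phiK_coeff (g : Matrix (Fin 3) (Fin 3) ℂ) (H : MvPolynomial (Fin 3) ℂ) (d : ℕ)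
    (hH : H.IsHomogeneous d) :
    (∀ l, d < l → (hg_phiK g H).coeff l = 0) ∧
      (hg_phiK g H).coeff d = algebraMap ℂ kk (eval (g.mulVec (evec ℂ)) H) := by
  have h := hg_linSub_coeff (hg_gv g (yv tk)) (hg_gv g (evec kk)) H d hH
  refine ⟨h.1, ?_⟩
  rw [hg_phiK, h.2]
  have e : hg_gv g (evec kk) = fun a => algebraMap ℂ kk (g.mulVec (evec ℂ) a) := by
    funext a
    simp only [hg_gv, Matrix.mulVec, dotProduct, map_sum, map_mul]
    refine Finset.sum_congr rfl fun b _ => ?_
    congr 1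
    have h2 : (2 : kk) = algebraMap ℂ kk 2 := (map_ofNat (algebraMap ℂ kk) 2).symm
    fin_cases b
    · simp only [evec]
      simp [h2]
    · simp only [evec]
      simp [h2]
    · simp [evec]
  rw [e]
  have h3 := aeval_algebraMap_apply (A := ℂ) kk (g.mulVec (evec ℂ)) H
  exact h3

lemma hg_eval_phiK (g : Matrix (Fin 3) (Fin 3) ℂ) (H : MvPolynomial (Fin 3) ℂ) (κ : kk) :
    (hg_phiK g H).eval κ =
      aeval (fun a => ∑ b, algebraMap ℂ kk (g a b) * (yv tk b + κ * evec kk b)) H := by
  rw [hg_phiK, hg_eval_linSub]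
  congr 2
  funext a
  simp only [hg_gv, Finset.mul_sum, ← Finset.sum_add_distrib]
  refine Finset.sum_congr rfl fun b _ => ?_
  ring

lemma hg_phiK_mul (g : Matrix (Fin 3) (Fin 3) ℂ) (H K : MvPolynomial (Fin 3) ℂ) :
    hg_phiK g (H * K) = hg_phiK g H * hg_phiK g K := by
  simp only [hg_phiK, hg_linSub, map_mul]

lemma hg_phiK_pow (g : Matrix (Fin 3) (Fin 3) ℂ) (H : MvPolynomial (Fin 3) ℂ) (n : ℕ) :
    hg_phiK g (H ^ n) = hg_phiK g H ^ n := by
  simp only [hg_phiK, hg_linSub, map_pow]

lemma hg_phiK_C (g : Matrix (Fin 3) (Fin 3) ℂ) (c : ℂ) :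
    hg_phiK g (C c) = Polynomial.C (algebraMap ℂ kk c) := by
  simp only [hg_phiK, hg_linSub, algHom_C]
  rfl

lemma hg_phiK_qq (g : Matrix (Fin 3) (Fin 3) ℂ) (hg : g.transpose * g = 1) :
    hg_phiK g qq = Polynomial.C (-8) * Polynomial.X := by
  have hI : (algebraMap ℂ kk Complex.I) ^ 2 = -1 := by
    rw [← map_pow, Complex.I_sq, map_neg, map_one]
  have h1 := hg_gv_sq g hg (yv tk) (yv tk)
  have h2 := hg_gv_sq g hg (yv tk) (evec kk)
  have h3 := hg_gv_sq g hg (evec kk) (evec kk)
  have y1 : ∑ a, yv tk a * yv tk a = 0 := by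
    simp [Fin.sum_univ_three, yv]
    linear_combination (1 + tk ^ 2) ^ 2 * hI
  have y2 : ∑ a, yv tk a * evec kk a = -4 := by
    simp [Fin.sum_univ_three, yv, evec]
    linear_combination 2 * (1 + tk ^ 2) * hI
  have y3 : ∑ a, evec kk a * evec kk a = 0 := by
    simp [Fin.sum_univ_three, evec]
    linear_combination 4 * hI
  rw [y1] at h1
  rw [y2] at h2
  rw [y3] at h3
  have e : hg_phiK g qq = Polynomial.C (∑ a, hg_gv g (yv tk) a * hg_gv g (yv tk) a) +
      Polynomial.C (2 * ∑ a, hg_gv g (yv tk) a * hg_gv g (evec kk) a) * Polynomial.X +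
      Polynomial.C (∑ a, hg_gv g (evec kk) a * hg_gv g (evec kk) a) * Polynomial.X ^ 2 := by
    simp only [hg_phiK, hg_linSub, qq, Fin.sum_univ_three, map_add, map_pow, aeval_X, map_mul,
      map_ofNat]
    ring
  rw [e, h1, h2, h3]
  simp only [map_zero, zero_add, zero_mul, add_zero]
  norm_num

lemma hg_AA_ne_zero : AA ≠ 0 := by
  intro h
  have := congrArg (fun x => HahnSeries.coeff (Γ := ℚ) (R := kk) x (-1)) h
  have h1 : HahnSeries.coeff (Γ := ℚ) (R := kk) AA (-1) = 1 :=
    HahnSeries.coeff_single_same _ _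
  have h2 : HahnSeries.coeff (Γ := ℚ) (R := kk) (0 : LL) (-1) = 0 := rfl
  simp only [h1, h2] at this
  exact one_ne_zero this

lemma hg_AA_pow (j : ℕ) : AA ^ j = (HahnSeries.single (-(j : ℚ)) (1 : kk) : HahnSeries ℚ kk) := by
  induction j with
  | zero =>
    simp
    rfl
  | succ j ih =>
    rw [pow_succ, ih]
    have : (HahnSeries.single (-(j : ℚ)) (1 : kk) : HahnSeries ℚ kk) *
        (HahnSeries.single (-1 : ℚ) (1 : kk)) =
        HahnSeries.single (-(j : ℚ) + -1) ((1 : kk) * 1) := HahnSeries.single_mul_single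
    refine this.trans ?_
    have e : (-(j : ℚ) + -1) = -((j + 1 : ℕ) : ℚ) := by
      push_cast
      ring
    rw [mul_one, e]

lemma hg_AA_inv_pow (l : ℕ) : (AA⁻¹) ^ l = (HahnSeries.single (l : ℚ) (1 : kk) : HahnSeries ℚ kk) := by
  rw [inv_pow, hg_AA_pow]
  apply inv_eq_of_mul_eq_one_right
  have : (HahnSeries.single (-(l : ℚ)) (1 : kk) : HahnSeries ℚ kk) *
        (HahnSeries.single (l : ℚ) (1 : kk)) =
        HahnSeries.single (-(l : ℚ) + l) ((1 : kk) * 1) := HahnSeries.single_mul_single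
  refine this.trans ?_
  rw [neg_add_cancel, mul_one]
  rfl

lemma hg_cf_AA (j l : ℕ) (z : kk) (q : ℚ) :
    cf (AA ^ j * (AA⁻¹) ^ l * iotaL z) q = if q = (l : ℚ) - j then z else 0 := by
  rw [hg_AA_pow, hg_AA_inv_pow]
  have h1 : (HahnSeries.single (-(j : ℚ)) (1 : kk) : HahnSeries ℚ kk) *
        (HahnSeries.single (l : ℚ) (1 : kk)) * (HahnSeries.C z : HahnSeries ℚ kk) =
        HahnSeries.single ((l : ℚ) - j) z := by
    rw [HahnSeries.C_apply, HahnSeries.single_mul_single, HahnSeries.single_mul_single,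
      mul_one, one_mul, add_zero, neg_add_eq_sub]
  have h2 : cf (AA ^ j * (AA⁻¹) ^ l * iotaL z) q =
      HahnSeries.coeff ((HahnSeries.single (-(j : ℚ)) (1 : kk) : HahnSeries ℚ kk) *
        (HahnSeries.single (l : ℚ) (1 : kk)) * (HahnSeries.C z : HahnSeries ℚ kk)) q := by
    rw [hg_AA_pow, hg_AA_inv_pow]
    rfl
  rw [hg_AA_pow, hg_AA_inv_pow] at h2
  rw [h2, h1]
  split_ifs with h
  · rw [h, HahnSeries.coeff_single_same]
  · rw [HahnSeries.coeff_single_of_ne h]

/-- `iotaL` as an algebra homomorphism -/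
noncomputable def hg_iotaLA : kk →ₐ[ℂ] LL := { iotaL with commutes' := fun _ => rfl }

lemma hg_map_linSub (u w : Fin 3 → kk) (H : MvPolynomial (Fin 3) ℂ) :
    (hg_linSub u w H).map iotaL = hg_linSub (fun a => iotaL (u a)) (fun a => iotaL (w a)) H := by
  have h : (Polynomial.mapAlgHom hg_iotaLA).comp
      (aeval (fun a => Polynomial.C (u a) + Polynomial.X * Polynomial.C (w a)))
      = (aeval (fun a => Polynomial.C (iotaL (u a)) + Polynomial.X * Polynomial.C (iotaL (w a))) :
        MvPolynomial (Fin 3) ℂ →ₐ[ℂ] Polynomial LL) := by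
    apply MvPolynomial.algHom_ext
    intro a
    rw [AlgHom.comp_apply, aeval_X, aeval_X]
    show Polynomial.map iotaL (Polynomial.C (u a) + Polynomial.X * Polynomial.C (w a)) = _
    rw [Polynomial.map_add, Polynomial.map_mul, Polynomial.map_C, Polynomial.map_C,
      Polynomial.map_X]
  have h2 := congrArg (fun f => f H) h
  exact h2

lemma hg_iotaL_gv (g : Matrix (Fin 3) (Fin 3) ℂ) (z : Fin 3 → kk) (a : Fin 3) :
    iotaL (hg_gv g z a) = hg_gv g (fun b => iotaL (z b)) a := by
  simp only [hg_gv, map_sum, map_mul]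
  rfl

lemma hg_iotaL_alg (c : ℂ) : iotaL (algebraMap ℂ kk c) = algebraMap ℂ LL c := rfl

lemma hg_iotaL_two : iotaL 2 = 2 := map_ofNat iotaL 2

lemma hg_iotaL_yv (b : Fin 3) : iotaL (yv tk b) = yv tL b := by
  fin_cases b
  · simp [yv, tL]
  · simp [yv, tL, hg_iotaL_alg]
  · simp [yv, tL, hg_iotaL_two]

lemma hg_iotaL_evec (b : Fin 3) : iotaL (evec kk b) = evec LL b := by
  fin_cases b
  · simp [evec, hg_iotaL_two]
  · simp [evec, hg_iotaL_alg, hg_iotaL_two]
  · simp [evec]

lemma hg_map_phiK (g : Matrix (Fin 3) (Fin 3) ℂ) (H : MvPolynomial (Fin 3) ℂ) :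
    (hg_phiK g H).map iotaL = hg_linSub (hg_gv g (yv tL)) (hg_gv g (evec LL)) H := by
  rw [hg_phiK, hg_map_linSub]
  congr 1
  · funext a
    rw [hg_iotaL_gv]
    congr 1
    funext b
    exact hg_iotaL_yv b
  · funext a
    rw [hg_iotaL_gv]
    congr 1
    funext b
    exact hg_iotaL_evec b

lemma hg_linSub_comp {R : Type} [CommRing R] [Algebra ℂ R] (u w : Fin 3 → R)
    (H : MvPolynomial (Fin 3) ℂ) (P : Polynomial R) :
    (hg_linSub u w H).comp P = aeval (fun a => Polynomial.C (u a) + P * Polynomial.C (w a)) H := by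
  have h : ((Polynomial.aeval P : Polynomial R →ₐ[R] Polynomial R).restrictScalars ℂ).comp
      (aeval (fun a => Polynomial.C (u a) + Polynomial.X * Polynomial.C (w a)))
      = (aeval (fun a => Polynomial.C (u a) + P * Polynomial.C (w a)) :
        MvPolynomial (Fin 3) ℂ →ₐ[ℂ] Polynomial R) := by
    apply MvPolynomial.algHom_ext
    intro a
    simp only [AlgHom.comp_apply, AlgHom.restrictScalars_apply, aeval_X, map_mul,
      Polynomial.aeval_C, map_add, Polynomial.aeval_X]
    rfl
  have h2 := congrArg (fun f => f H) h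
  simp only [AlgHom.comp_apply, AlgHom.restrictScalars_apply] at h2
  rw [← h2, hg_linSub]
  rfl

lemma hg_substF_homog (g : Matrix (Fin 3) (Fin 3) ℂ) (H : MvPolynomial (Fin 3) ℂ) (j : ℕ)
    (hH : H.IsHomogeneous j) (l : ℕ) :
    (substF g H).coeff l = AA ^ j * (AA⁻¹) ^ l * iotaL ((hg_phiK g H).coeff l) := by
  have e : substF g H = Polynomial.C (AA ^ j) *
      ((hg_phiK g H).map iotaL).comp (Polynomial.C AA⁻¹ * Polynomial.X) := by
    rw [hg_map_phiK, hg_linSub_comp, Polynomial.C_pow, ← hg_homog_aeval H j hH, substF]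
    congr 2
    funext a
    simp only [hg_gv, map_sum, mul_add, Finset.mul_sum, ← Finset.sum_add_distrib]
    refine Finset.sum_congr rfl fun b _ => ?_
    simp only [Polynomial.C_mul]
    have h : (Polynomial.C AA : Polynomial LL) * Polynomial.C AA⁻¹ = 1 := by
      rw [← Polynomial.C_mul, mul_inv_cancel₀ hg_AA_ne_zero, Polynomial.C_1]
    linear_combination (-(Polynomial.X * Polynomial.C (algebraMap ℂ LL (g a b)) *
      Polynomial.C (evec LL b))) * h
  rw [e, Polynomial.coeff_C_mul, Polynomial.comp_C_mul_X_coeff, Polynomial.coeff_map]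
  ring

/-- `cf` as an additive homomorphism -/
noncomputable def hg_cfHom (q : ℚ) : LL →+ kk where
  toFun x := cf x q
  map_zero' := rfl
  map_add' _ _ := rfl

lemma hg_cf_substF (g : Matrix (Fin 3) (Fin 3) ℂ) (F : MvPolynomial (Fin 3) ℂ) (l : ℕ) (q : ℚ) :
    cf ((substF g F).coeff l) q = ∑ j ∈ Finset.range (F.totalDegree + 1),
      if q = (l : ℚ) - j then (hg_phiK g (homogeneousComponent j F)).coeff l else 0 := by
  conv_lhs => rw [← sum_homogeneousComponent F]
  have e : substF g (∑ i ∈ Finset.range (F.totalDegree + 1), homogeneousComponent i F) =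
      ∑ i ∈ Finset.range (F.totalDegree + 1), substF g (homogeneousComponent i F) := by
    simp only [substF, map_sum]
  rw [e, Polynomial.finsetSum_coeff]
  have e2 := map_sum (hg_cfHom q) (fun i => (substF g (homogeneousComponent i F)).coeff l)
    (Finset.range (F.totalDegree + 1))
  refine Eq.trans e2 ?_
  refine Finset.sum_congr rfl fun j _ => ?_
  show cf ((substF g (homogeneousComponent j F)).coeff l) q = _
  rw [hg_substF_homog g _ j (homogeneousComponent_isHomogeneous j F), hg_cf_AA]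

end Pool.Agent.Work.MP_abe657_gt
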