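import Pool.Agent.Work.MP_abe657_gt.Defs

/-!
Module Indep (M). The vanishing ideal of a surface of rank two is generated by an irreducible `F`.

Proof. By symmetry (rename the variables) assume the minor of `X_0, X_1` is non-zero.
(1) `X_0, X_1` are algebraically independent over `ℂ`: otherwise take `r ∈ ℂ[x0,x1]`, `r ≠ 0`, of
least total degree with `r(X_0,X_1) = 0`; applying `d` and `e`: `r_0 d X_0 + r_1 d X_1 = 0` and the same
for `e`, so `r_0(X) = r_1(X) = 0` (minor non-zero), so by minimality `∂_0 r = ∂_1 r = 0`, `r` is a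
constant (char 0), contradiction. (2) Suppose `F ∤ Q`. View `F, Q` in `B[x2]`, `B = ℂ[x0,x1]`
(`MvPolynomial.finSuccEquiv` after renaming). `F` is irreducible and not in `B` (by (1), as `F(X)=0`),
so it is primitive and irreducible over `Frac B` (Gauss), and `F ∤ Q` over `Frac B`; Bezout over
`Frac B` and clearing denominators: `u F + v Q = r` with `0 ≠ r ∈ B`. Then `r(X_0,X_1) = 0`,
contradicting (1).
-/

set_option autoImplicit false

namespace Pool.Agent.Work.MP_abe657_gt

open MvPolynomial

section indep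

variable {Ω : Type} [Field Ω] [Algebra ℂ Ω]

private lemma chainI {n : ℕ} (d : Derivation ℂ Ω Ω) (Y : Fin n → Ω)
    (r : MvPolynomial (Fin n) ℂ) :
    d (aeval Y r) = ∑ i, aeval Y (pderiv i r) * d (Y i) := by
  classical
  induction r using MvPolynomial.induction_on with
  | C a => simp [aeval_C]
  | add p q hp hq => simp only [map_add, hp, hq, add_mul, Finset.sum_add_distrib]
  | mul_X p j hp =>
    rw [map_mul, aeval_X, Derivation.leibniz, hp]
    simp only [pderiv_mul, map_add, map_mul, aeval_X, pderiv_X, add_mul, Finset.sum_add_distrib,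
      smul_eq_mul]
    have h2 : ∑ i, (aeval Y) p * (aeval Y) (Pi.single (M := fun _ => MvPolynomial (Fin n) ℂ) i 1 j) *
        d (Y i) = (aeval Y) p * d (Y j) := by
      rw [Finset.sum_eq_single j]
      · simp
      · intro i _ hij
        rw [Pi.single_eq_of_ne hij.symm]
        simp
      · intro h
        exact absurd (Finset.mem_univ j) h
    rw [h2, Finset.mul_sum, add_comm]
    congr 1
    refine Finset.sum_congr rfl fun i _ => ?_
    ring

private lemma const_zero (Y : Fin 2 → Ω) (r : MvPolynomial (Fin 2) ℂ) (c : ℂ) (hr : r = C c)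
    (h : aeval Y r = 0) : r = 0 := by
  rw [hr, aeval_C] at h
  have : c = 0 := by
    apply (algebraMap ℂ Ω).injective
    rw [h, map_zero]
  rw [hr, this, C_0]

private lemma inj2 (d e : Derivation ℂ Ω Ω) (Y : Fin 2 → Ω)
    (hY : d (Y 0) * e (Y 1) - d (Y 1) * e (Y 0) ≠ 0) :
    ∀ (n : ℕ) (r : MvPolynomial (Fin 2) ℂ), r.totalDegree ≤ n → aeval Y r = 0 → r = 0 := by
  intro n
  induction n with
  | zero =>
    intro r hr h
    exact const_zero Y r _ (totalDegree_eq_zero_iff_eq_C.1 (Nat.le_zero.1 hr)) h
  | succ n ih =>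
    intro r hr h
    have hd := chainI d Y r
    have he := chainI e Y r
    rw [h, map_zero, Fin.sum_univ_two] at hd he
    have h0 : aeval Y (pderiv 0 r) = 0 := by
      have : aeval Y (pderiv 0 r) * (d (Y 0) * e (Y 1) - d (Y 1) * e (Y 0)) = 0 := by
        linear_combination -e (Y 1) * hd + d (Y 1) * he
      exact (mul_eq_zero.1 this).resolve_right hY
    have h1 : aeval Y (pderiv 1 r) = 0 := by
      have : aeval Y (pderiv 1 r) * (d (Y 0) * e (Y 1) - d (Y 1) * e (Y 0)) = 0 := by
        linear_combination e (Y 0) * hd - d (Y 0) * he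
      exact (mul_eq_zero.1 this).resolve_right hY
    have hdeg : ∀ i, (pderiv i r).totalDegree ≤ n := by
      intro i
      rw [totalDegree]
      refine Finset.sup_le fun s hs => ?_
      rw [mem_support_iff, coeff_pderiv] at hs
      have h2 : s + Finsupp.single i 1 ∈ r.support := by
        rw [mem_support_iff]
        exact left_ne_zero_of_mul hs
      have h3 := (le_totalDegree h2).trans hr
      have h4 : (s + Finsupp.single i 1).degree = s.degree + 1 := by
        rw [map_add, Finsupp.degree_single]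
      have h5 : (s + Finsupp.single i 1).degree ≤ n + 1 := h3
      have h6 : s.degree ≤ n := by omega
      exact h6
    have hp : ∀ i, pderiv i r = 0 := by
      intro i
      refine ih _ (hdeg i) ?_
      fin_cases i
      · exact h0
      · exact h1
    refine const_zero Y r (coeff 0 r) ?_ h
    ext m
    rw [coeff_C]
    split_ifs with hm
    · rw [← hm]
    · have : ∃ i, m i ≠ 0 := by
        by_contra hcon
        push Not at hcon
        exact hm (Finsupp.ext fun i => (hcon i).symm)
      obtain ⟨i, hi⟩ := this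
      have h7 := congrArg (coeff (m - Finsupp.single i 1)) (hp i)
      rw [coeff_pderiv, coeff_zero] at h7
      have h8 : m - Finsupp.single i 1 + Finsupp.single i 1 = m := by
        apply tsub_add_cancel_of_le
        rw [Finsupp.single_le_iff]
        omega
      rw [h8] at h7
      refine (mul_eq_zero.1 h7).resolve_right ?_
      exact Nat.cast_add_one_ne_zero _

omit [Algebra ℂ Ω] in
private lemma dvd_of_common_root {K : Type} [Field K] (ψ : K →+* Ω) (x : Ω)
    (p q : Polynomial K) (hp : Irreducible p) (h0 : Polynomial.eval₂ ψ x p = 0)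
    (h1 : Polynomial.eval₂ ψ x q = 0) : p ∣ q := by
  by_contra hnd
  obtain ⟨u, v, huv⟩ := (hp.coprime_iff_not_dvd).2 hnd
  have h2 := congrArg (Polynomial.eval₂ ψ x) huv
  rw [Polynomial.eval₂_add, Polynomial.eval₂_mul, Polynomial.eval₂_mul, h0, h1,
    Polynomial.eval₂_one, mul_zero, mul_zero, add_zero] at h2
  exact zero_ne_one h2

omit [Algebra ℂ Ω] in
private lemma dvd_generic {B K : Type} [CommRing B] [IsDomain B] [IsGCDMonoid B] [Field K]
    [Algebra B K] [IsFractionRing B K] (φ : B →+* Ω) (hinj : Function.Injective φ) (x : Ω)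
    (f q : Polynomial B) (hfirr : Irreducible f) (h0 : Polynomial.eval₂ φ x f = 0)
    (hQ : Polynomial.eval₂ φ x q = 0) : f ∣ q := by
  have hdeg : f.natDegree ≠ 0 := by
    intro h1
    obtain ⟨b, hb⟩ := Polynomial.natDegree_eq_zero.1 h1
    rw [← hb, Polynomial.eval₂_C] at h0
    have : b = 0 := hinj (by rw [h0, map_zero])
    rw [this, Polynomial.C_0] at hb
    exact hfirr.ne_zero hb.symm
  have hprim : f.IsPrimitive := hfirr.isPrimitive hdeg
  have hirrK : Irreducible (f.map (algebraMap B K)) :=
    (hprim.irreducible_iff_irreducible_map_fraction_map (K := K)).1 hfirr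
  let ψ : K →+* Ω := IsFractionRing.lift hinj
  have hψ : ∀ g : Polynomial B,
      Polynomial.eval₂ ψ x (g.map (algebraMap B K)) = Polynomial.eval₂ φ x g := by
    intro g
    rw [Polynomial.eval₂_map]
    have : ψ.comp (algebraMap B K) = φ :=
      RingHom.ext fun y => IsFractionRing.lift_algebraMap hinj y
    rw [this]
  have hdvdK : f.map (algebraMap B K) ∣ q.map (algebraMap B K) :=
    dvd_of_common_root ψ x _ _ hirrK (by rw [hψ, h0]) (by rw [hψ, hQ])
  exact hprim.dvd_of_fraction_map_dvd_fraction_map (K := K) hdvdK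

private lemma dvd_case (d e : Derivation ℂ Ω Ω) (X : Fin 3 → Ω)
    (hX : d (X 1) * e (X 2) - d (X 2) * e (X 1) ≠ 0) (F Q : MvPolynomial (Fin 3) ℂ)
    (hF : Irreducible F) (h0 : aeval X F = 0) (hQ : aeval X Q = 0) : F ∣ Q := by
  set φ : MvPolynomial (Fin 2) ℂ →+* Ω :=
    ((aeval (fun i : Fin 2 => X i.succ) : MvPolynomial (Fin 2) ℂ →ₐ[ℂ] Ω) :
      MvPolynomial (Fin 2) ℂ →+* Ω) with hφ
  have hinj : Function.Injective φ := by
    rw [injective_iff_map_eq_zero]
    intro r hr
    exact inj2 d e (fun i : Fin 2 => X i.succ) hX r.totalDegree r le_rfl hr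
  have hev : ∀ G : MvPolynomial (Fin 3) ℂ, aeval X G =
      Polynomial.eval₂ φ (X 0) (finSuccEquiv ℂ 2 G) := by
    intro G
    induction G using MvPolynomial.induction_on with
    | C a =>
      have : finSuccEquiv ℂ 2 (C a) = Polynomial.C (C a) := by
        rw [finSuccEquiv_apply, eval₂Hom_C]
        rfl
      rw [this, Polynomial.eval₂_C, aeval_C, hφ]
      simp
    | add p q hp hq => rw [map_add, map_add, Polynomial.eval₂_add, hp, hq]
    | mul_X p j hp =>
      rw [map_mul, map_mul, Polynomial.eval₂_mul, hp, aeval_X]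
      congr 1
      refine Fin.cases ?_ (fun j => ?_) j
      · rw [finSuccEquiv_X_zero, Polynomial.eval₂_X]
      · rw [finSuccEquiv_X_succ, Polynomial.eval₂_C, hφ]
        simp
  rw [hev] at h0 hQ
  set f := finSuccEquiv ℂ 2 F with hf
  set q := finSuccEquiv ℂ 2 Q with hq
  have hfirr : Irreducible f := (MulEquiv.irreducible_iff (finSuccEquiv ℂ 2)).2 hF
  have : IsGCDMonoid (MvPolynomial (Fin 2) ℂ) :=
    ⟨UniqueFactorizationMonoid.toGCDMonoid (MvPolynomial (Fin 2) ℂ)⟩
  have hdvd : f ∣ q := dvd_generic (K := FractionRing (MvPolynomial (Fin 2) ℂ)) φ hinj (X 0) f q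
    hfirr h0 hQ
  exact (map_dvd_iff (finSuccEquiv ℂ 2)).1 hdvd

private lemma exists_perm (a b : Fin 3) (hab : a ≠ b) :
    ∃ σ : Equiv.Perm (Fin 3), σ 1 = a ∧ σ 2 = b := by
  revert a b
  decide

end indep

theorem dvd_of_aeval_eq_zero {Ω : Type} [Field Ω] [Algebra ℂ Ω] (d e : Derivation ℂ Ω Ω)
    (X : Fin 3 → Ω) (hX : Rank2 d e X) (F Q : MvPolynomial (Fin 3) ℂ) (hF : Irreducible F)
    (h0 : aeval X F = 0) (hQ : aeval X Q = 0) : F ∣ Q := by
  obtain ⟨a, b, hab⟩ := hX
  have hne : a ≠ b := by
    rintro rfl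
    exact hab (sub_self _)
  obtain ⟨σ, h1, h2⟩ := exists_perm a b hne
  have hren : ∀ G : MvPolynomial (Fin 3) ℂ,
      aeval (fun i => X (σ i)) (rename σ.symm G) = aeval X G := by
    intro G
    rw [aeval_rename]
    congr 2
    funext i
    simp
  have hF' : Irreducible (rename σ.symm F) := by
    have := (MulEquiv.irreducible_iff (renameEquiv ℂ σ.symm)).2 hF
    exact this
  have key := dvd_case d e (fun i => X (σ i)) (by
    simp only [h1, h2]
    exact hab) (rename σ.symm F) (rename σ.symm Q) hF' (by rw [hren, h0]) (by rw [hren, hQ])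
  have key2 : renameEquiv ℂ σ.symm F ∣ renameEquiv ℂ σ.symm Q := key
  exact (map_dvd_iff (renameEquiv ℂ σ.symm)).1 key2

end Pool.Agent.Work.MP_abe657_gt
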