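import Pool.Agent.Work.MP_abe657_gt.Ord

/-!
Part II, basic calculus in `kk` and monomials `s^a t^b` of `LL` (helper32).
-/

set_option autoImplicit false

namespace Pool.Agent.Work.MP_abe657_gt

/-! ### the inner field -/

/-- the monomial `t^b` of the inner field -/
noncomputable def tp (b : ℚ) : kk := (HahnSeries.single b (1 : ℂ) : HahnSeries ℚ ℂ)

/-- coefficient of `t^q` in the inner field -/
noncomputable def ckf (x : kk) (q : ℚ) : ℂ := HahnSeries.coeff (Γ := ℚ) (R := ℂ) x q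

/-- all exponents of `x` are `≥ a` -/
def GeK (x : kk) (a : ℚ) : Prop := ∀ q : ℚ, q < a → ckf x q = 0

theorem kk_ext {x y : kk} (h : ∀ q, ckf x q = ckf y q) : x = y :=
  HahnSeries.ext (funext h)

theorem ckf_add (x y : kk) (q : ℚ) : ckf (x + y) q = ckf x q + ckf y q := rfl

theorem ckf_neg (x : kk) (q : ℚ) : ckf (-x) q = -ckf x q :=
  HahnSeries.coeff_neg (Γ := ℚ) (R := ℂ)

theorem ckf_sub (x y : kk) (q : ℚ) : ckf (x - y) q = ckf x q - ckf y q := by
  rw [sub_eq_add_neg, ckf_add, ckf_neg, sub_eq_add_neg]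

theorem ckf_zero (q : ℚ) : ckf 0 q = 0 := rfl

theorem GeK.mono {x : kk} {a b : ℚ} (h : GeK x a) (hab : b ≤ a) : GeK x b :=
  fun q hq => h q (lt_of_lt_of_le hq hab)

theorem GeK.zero (a : ℚ) : GeK 0 a := fun _ _ => rfl

theorem GeK.add {x y : kk} {a : ℚ} (hx : GeK x a) (hy : GeK y a) : GeK (x + y) a :=
  fun q hq => by rw [ckf_add, hx q hq, hy q hq, add_zero]

theorem GeK.neg {x : kk} {a : ℚ} (hx : GeK x a) : GeK (-x) a :=
  fun q hq => by rw [ckf_neg, hx q hq, neg_zero]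

theorem GeK.sub {x y : kk} {a : ℚ} (hx : GeK x a) (hy : GeK y a) : GeK (x - y) a := by
  rw [sub_eq_add_neg]
  exact hx.add hy.neg

theorem GeK.mul {x y : kk} {a b : ℚ} (hx : GeK x a) (hy : GeK y b) : GeK (x * y) (a + b) :=
  fun q hq => coeff_mul_zero_aux (R := ℂ) x y a b q hx hy hq

theorem ckf_mul_lead {x y : kk} {a b : ℚ} (hx : GeK x a) (hy : GeK y b) :
    ckf (x * y) (a + b) = ckf x a * ckf y b :=
  coeff_mul_lead_aux (R := ℂ) x y a b hx hy

theorem exists_ordK {x : kk} (hx : x ≠ 0) : ∃ a : ℚ, GeK x a ∧ ckf x a ≠ 0 := by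
  refine ⟨HahnSeries.order (Γ := ℚ) (R := ℂ) x, ?_, ?_⟩
  · intro q hq
    exact HahnSeries.coeff_eq_zero_of_lt_order (Γ := ℚ) (R := ℂ) hq
  · exact HahnSeries.coeff_order_eq_zero.not.mpr hx

theorem ne_zero_of_ckf {x : kk} {a : ℚ} (h0 : ckf x a ≠ 0) : x ≠ 0 := by
  rintro rfl
  exact h0 rfl

theorem GeK_one : GeK (1 : kk) 0 := fun _ hq =>
  HahnSeries.coeff_single_of_ne (Γ := ℚ) (R := ℂ) hq.ne

theorem ckf_one : ckf (1 : kk) 0 = 1 :=
  HahnSeries.coeff_single_same (Γ := ℚ) (R := ℂ) 0 1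

theorem invK_aux {x : kk} {a : ℚ} (hx : GeK x a) (h0 : ckf x a ≠ 0) :
    GeK x⁻¹ (-a) ∧ ckf x⁻¹ (-a) = (ckf x a)⁻¹ := by
  have hxne := ne_zero_of_ckf h0
  obtain ⟨b, hb, hb0⟩ := exists_ordK (inv_ne_zero hxne)
  have h1 := ckf_mul_lead hx hb
  have h2 := hx.mul hb
  rw [mul_inv_cancel₀ hxne] at h1 h2
  have hne : ckf (1 : kk) (a + b) ≠ 0 := by
    rw [h1]
    exact mul_ne_zero h0 hb0
  have hab : a + b = 0 := by
    rcases lt_trichotomy (a + b) 0 with h | h | h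
    · exact absurd (GeK_one _ h) hne
    · exact h
    · have := h2 0 h
      rw [ckf_one] at this
      exact absurd this one_ne_zero
  have hb' : b = -a := by linarith
  subst hb'
  refine ⟨hb, ?_⟩
  rw [hab, ckf_one] at h1
  exact eq_inv_of_mul_eq_one_right h1.symm

theorem GeK.inv {x : kk} {a : ℚ} (hx : GeK x a) (h0 : ckf x a ≠ 0) : GeK x⁻¹ (-a) :=
  (invK_aux hx h0).1

theorem ckf_inv_lead {x : kk} {a : ℚ} (hx : GeK x a) (h0 : ckf x a ≠ 0) :
    ckf x⁻¹ (-a) = (ckf x a)⁻¹ :=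
  (invK_aux hx h0).2

theorem ckf_dk (x : kk) (q : ℚ) : ckf (dk x) q = ((q + 1 : ℚ) : ℂ) * ckf x (q + 1) :=
  ddFun_coeff (R := ℂ) x q

theorem GeK.dk {x : kk} {a : ℚ} (hx : GeK x a) : GeK (dk x) (a - 1) := by
  intro q hq
  rw [ckf_dk, hx _ (by linarith), mul_zero]

/-- the leading coefficient of the derivative -/
theorem ckf_dk_lead (x : kk) (a : ℚ) : ckf (dk x) (a - 1) = (a : ℂ) * ckf x a := by
  rw [ckf_dk, sub_add_cancel]

theorem ckf_iotaK_mul (c : ℂ) (x : kk) (q : ℚ) : ckf (iotaK c * x) q = c * ckf x q :=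
  coeff_C_mul_aux (R := ℂ) c x q

theorem ckf_smul (c : ℂ) (x : kk) (q : ℚ) : ckf (c • x) q = c * ckf x q := by
  rw [Algebra.smul_def]
  exact ckf_iotaK_mul c x q

theorem GeK.smul {x : kk} {a : ℚ} (c : ℂ) (hx : GeK x a) : GeK (c • x) a := by
  intro q hq
  rw [ckf_smul, hx q hq, mul_zero]

theorem GeK_iotaK (c : ℂ) : GeK (iotaK c) 0 := fun _ hq =>
  HahnSeries.coeff_single_of_ne (Γ := ℚ) (R := ℂ) hq.ne

theorem ckf_iotaK (c : ℂ) : ckf (iotaK c) 0 = c :=
  HahnSeries.coeff_single_same (Γ := ℚ) (R := ℂ) 0 c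

theorem ckf_iotaK_of_ne (c : ℂ) {q : ℚ} (hq : q ≠ 0) : ckf (iotaK c) q = 0 :=
  HahnSeries.coeff_single_of_ne (Γ := ℚ) (R := ℂ) hq

theorem algebraMap_kk (c : ℂ) : algebraMap ℂ kk c = iotaK c := rfl

theorem dk_iotaK (c : ℂ) : dk (iotaK c) = 0 := dk.map_algebraMap c

/-- the constants of the derivation `dk` -/
theorem eq_iotaK_of_dk (x : kk) (h : dk x = 0) : x = iotaK (ckf x 0) := by
  apply kk_ext
  intro q
  by_cases hq : q = 0
  · rw [hq, ckf_iotaK]
  · rw [ckf_iotaK_of_ne _ hq]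
    have h1 := ckf_dk x (q - 1)
    rw [h, ckf_zero, sub_add_cancel] at h1
    rcases mul_eq_zero.mp h1.symm with h2 | h2
    · exact absurd (by exact_mod_cast h2) hq
    · exact h2

theorem iotaK_injective : Function.Injective iotaK := iotaK.injective

/-! monomials of the inner field -/

theorem ckf_tp (b : ℚ) : ckf (tp b) b = 1 :=
  HahnSeries.coeff_single_same (Γ := ℚ) (R := ℂ) b 1

theorem ckf_tp_of_ne {b q : ℚ} (h : q ≠ b) : ckf (tp b) q = 0 :=
  HahnSeries.coeff_single_of_ne (Γ := ℚ) (R := ℂ) h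

theorem GeK_tp (b : ℚ) : GeK (tp b) b := fun _ hq => ckf_tp_of_ne hq.ne

theorem tp_ne_zero (b : ℚ) : tp b ≠ 0 :=
  ne_zero_of_ckf (a := b) (by rw [ckf_tp]; exact one_ne_zero)

theorem tp_zero : tp 0 = 1 := rfl

theorem tp_one : tp 1 = tk := rfl

theorem tp_mul (a b : ℚ) : tp a * tp b = tp (a + b) := by
  have h : (HahnSeries.single a (1 : ℂ) : HahnSeries ℚ ℂ) * HahnSeries.single b (1 : ℂ) =
    HahnSeries.single (a + b) ((1 : ℂ) * 1) := HahnSeries.single_mul_single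
  rw [mul_one] at h
  exact h

theorem tp_inv (a : ℚ) : (tp a)⁻¹ = tp (-a) := by
  have h : tp a * tp (-a) = 1 := by rw [tp_mul, add_neg_cancel, tp_zero]
  exact (eq_inv_of_mul_eq_one_right h).symm

theorem tp_pow (a : ℚ) (n : ℕ) : tp a ^ n = tp (n * a) := by
  induction n with
  | zero => simp [tp_zero]
  | succ n ih => rw [pow_succ, ih, tp_mul]; congr 1; push_cast; ring

theorem ckf_tp_mul (b : ℚ) (x : kk) (q : ℚ) : ckf (tp b * x) q = ckf x (q - b) := by
  have h := HahnSeries.coeff_single_mul_add (Γ := ℚ) (R := ℂ) (r := 1)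
    (x := (x : HahnSeries ℚ ℂ)) (a := q - b) (b := b)
  rw [one_mul] at h
  have h2 : q - b + b = q := by ring
  rw [h2] at h
  exact h

theorem GeK_tp_mul {b a : ℚ} {x : kk} (hx : GeK x a) : GeK (tp b * x) (b + a) :=
  (GeK_tp b).mul hx

theorem dk_tp (b : ℚ) : dk (tp b) = iotaK (b : ℂ) * tp (b - 1) := by
  apply kk_ext
  intro q
  rw [ckf_dk, ckf_iotaK_mul]
  by_cases hq : q = b - 1
  · rw [hq, ckf_tp, sub_add_cancel, ckf_tp]
  · rw [ckf_tp_of_ne hq, ckf_tp_of_ne (by intro h; apply hq; linarith), mul_zero, mul_zero]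

/-- the derivation `d/dv`, `v = 1/t`, of the inner field -/
noncomputable def dv : Derivation ℂ kk kk := (-(tk ^ 2) : kk) • dk

theorem dv_apply (x : kk) : dv x = -(tk ^ 2) * dk x := rfl

theorem tk_ne_zero : tk ≠ 0 := tp_ne_zero 1

theorem dk_tk1 : dk tk = 1 := by
  rw [← tp_one, dk_tp]
  norm_num [tp_zero]

theorem dv_tp (b : ℚ) : dv (tp b) = -(iotaK (b : ℂ) * tp (b + 1)) := by
  rw [dv_apply, dk_tp, ← tp_one, tp_pow]
  have h : tp ((2 : ℕ) * 1) * tp (b - 1) = tp (b + 1) := by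
    rw [tp_mul]; congr 1; push_cast; ring
  rw [← h]
  ring

theorem dv_v : dv (tp (-1)) = 1 := by
  rw [dv_tp]
  norm_num [tp_zero]

theorem eq_iotaK_of_dv (x : kk) (h : dv x = 0) : x = iotaK (ckf x 0) := by
  apply eq_iotaK_of_dk
  rw [dv_apply] at h
  rcases mul_eq_zero.mp h with h | h
  · exact absurd h (neg_ne_zero.mpr (pow_ne_zero _ tk_ne_zero))
  · exact h

/-! ### the outer field -/

/-- the monomial `s^a t^b` of the outer field -/
noncomputable def mon (a b : ℚ) : LL := (HahnSeries.single a (tp b) : HahnSeries ℚ kk)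

theorem cf_mon (a b : ℚ) : cf (mon a b) a = tp b :=
  HahnSeries.coeff_single_same (Γ := ℚ) (R := kk) a (tp b)

theorem cf_mon_of_ne {a b q : ℚ} (h : q ≠ a) : cf (mon a b) q = 0 :=
  HahnSeries.coeff_single_of_ne (Γ := ℚ) (R := kk) h

theorem Ge_mon (a b : ℚ) : Ge (mon a b) a := fun _ hq => cf_mon_of_ne hq.ne

theorem mon_ne_zero (a b : ℚ) : mon a b ≠ 0 :=
  ne_zero_of_cf (a := a) (by rw [cf_mon]; exact tp_ne_zero b)

theorem mon_zero_zero : mon 0 0 = 1 := rfl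

theorem mon_AA : mon (-1) 0 = AA := rfl

theorem mon_tL : mon 0 1 = tL := rfl

theorem mon_zero (b : ℚ) : mon 0 b = iotaL (tp b) := rfl

theorem mon_mul (a b c d : ℚ) : mon a b * mon c d = mon (a + c) (b + d) := by
  have h : (HahnSeries.single a (tp b) : HahnSeries ℚ kk) * HahnSeries.single c (tp d) =
    HahnSeries.single (a + c) (tp b * tp d) := HahnSeries.single_mul_single
  rw [tp_mul] at h
  exact h

theorem mon_inv (a b : ℚ) : (mon a b)⁻¹ = mon (-a) (-b) := by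
  have h : mon a b * mon (-a) (-b) = 1 := by
    rw [mon_mul, add_neg_cancel, add_neg_cancel, mon_zero_zero]
  exact (eq_inv_of_mul_eq_one_right h).symm

theorem mon_pow (a b : ℚ) (n : ℕ) : mon a b ^ n = mon (n * a) (n * b) := by
  induction n with
  | zero => simp [mon_zero_zero]
  | succ n ih =>
    rw [pow_succ, ih, mon_mul]
    congr 1 <;> (push_cast; ring)

theorem cf_mon_mul (a b : ℚ) (x : LL) (q : ℚ) : cf (mon a b * x) q = tp b * cf x (q - a) := by
  have h := HahnSeries.coeff_single_mul_add (Γ := ℚ) (R := kk) (r := tp b)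
    (x := (x : HahnSeries ℚ kk)) (a := q - a) (b := a)
  have h2 : q - a + a = q := by ring
  rw [h2] at h
  exact h

theorem Ge_mon_mul {a b c : ℚ} {x : LL} (hx : Ge x c) : Ge (mon a b * x) (a + c) :=
  (Ge_mon a b).mul hx

theorem thA_mon (a b : ℚ) : thA (mon a b) = (-a : ℂ) • mon a b := by
  apply LL_ext
  intro q
  rw [cf_thA, cf_smul]
  by_cases hq : q = a
  · rw [hq]
    have : iotaK (-(a : ℂ)) = -(a : kk) := by rw [map_neg, map_ratCast]
    rw [this]
    ring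
  · rw [cf_mon_of_ne hq, mul_zero, mul_zero, neg_zero]

theorem dT_mon (a b : ℚ) : dT (mon a b) = (b : ℂ) • mon a (b - 1) := by
  apply LL_ext
  intro q
  rw [cf_dT, cf_smul]
  by_cases hq : q = a
  · rw [hq, cf_mon, cf_mon, dk_tp]
  · rw [cf_mon_of_ne hq, cf_mon_of_ne hq, mul_zero, map_zero]

theorem cf_zero (q : ℚ) : cf 0 q = 0 := rfl

theorem Ge.zero (a : ℚ) : Ge 0 a := fun _ _ => rfl

theorem cf_C (c : ℂ) : cf (algebraMap ℂ LL c) 0 = iotaK c :=
  HahnSeries.coeff_single_same (Γ := ℚ) (R := kk) 0 (iotaK c)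

theorem Ge_C (c : ℂ) : Ge (algebraMap ℂ LL c) 0 := fun _ hq =>
  HahnSeries.coeff_single_of_ne (Γ := ℚ) (R := kk) hq.ne

end Pool.Agent.Work.MP_abe657_gt
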