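import Pool.Agent.Work.MP_abe657_gt.Kit2

/-!
Part II, module LaurentT (M). A polynomial relation on a rational curve holds everywhere on it.

Proof. Let `N` be `E.totalDegree`. There is a polynomial `G` in `ℂ[Z]` with
`G(w) = w^(r N) E(v, κ)` whenever `w ≠ 0`, `v w^r = w^(q+r) + c1`,
`κ w^r = w^(2q+r)/2 + c2 w^q` in a field extension of `ℂ`: a term `e v^i κ^j`, `i + j ≤ N`, times
`w^(rN)` is `e (w^(q+r) + c1)^i (w^(2q+r)/2 + c2 w^q)^j w^(r (N - i - j))`. Now `G(ϖ) = 0`, and `ϖ` is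
not algebraic over `ℂ` as `dk ϖ ≠ 0` (a root in `kk` of a nonzero complex polynomial is a complex
number: `IsAlgClosed ℂ`, the polynomial splits, and `dk` of a constant is `0`), so `G = 0`; then
`ϖ1^(r N) E(v1, κ1) = G(ϖ1) = 0`.
-/

set_option autoImplicit false

namespace Pool.Agent.Work.MP_abe657_gt

open MvPolynomial

/-- the polynomial `Z^(r N) E(v, κ)` -/
private noncomputable def lauG (E : MvPolynomial (Fin 2) ℂ) (q r : ℕ) (c1 c2 : ℂ) :
    Polynomial ℂ :=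
  ∑ s ∈ E.support, Polynomial.C (coeff s E) *
    ((Polynomial.X ^ (q + r) + Polynomial.C c1) ^ (s 0) *
    (Polynomial.C (1 / 2) * Polynomial.X ^ (2 * q + r) + Polynomial.C c2 * Polynomial.X ^ q) ^ (s 1) *
    Polynomial.X ^ (r * (E.totalDegree - s 0 - s 1)))

private theorem lau_deg (E : MvPolynomial (Fin 2) ℂ) (s : Fin 2 →₀ ℕ) (hs : s ∈ E.support) :
    s 0 + s 1 ≤ E.totalDegree := by
  have h := le_totalDegree hs
  rw [Finsupp.sum_fintype _ _ (fun _ => rfl), Fin.sum_univ_two] at h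
  exact h

private theorem lau_eval (E : MvPolynomial (Fin 2) ℂ) (q r : ℕ) (c1 c2 : ℂ) (w v κ : kk)
    (hv : v * w ^ r = w ^ (q + r) + iotaK c1)
    (hκ : κ * w ^ r = iotaK (1 / 2) * w ^ (2 * q + r) + iotaK c2 * w ^ q) :
    Polynomial.aeval w (lauG E q r c1 c2) = w ^ (r * E.totalDegree) * aeval ![v, κ] E := by
  rw [MvPolynomial.aeval_def, MvPolynomial.eval₂_eq', Finset.mul_sum]
  unfold lauG
  rw [map_sum]
  apply Finset.sum_congr rfl
  intro s hs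
  have hd := lau_deg E s hs
  simp only [map_mul, map_add, map_pow, Polynomial.aeval_X, Polynomial.aeval_C, algebraMap_kk]
  rw [← hv, ← hκ, Fin.prod_univ_two]
  simp only [Matrix.cons_val_zero, Matrix.cons_val_one]
  have e1 : r * E.totalDegree = r * (s 0) + r * (s 1) + r * (E.totalDegree - s 0 - s 1) := by
    rw [← mul_add, ← mul_add]
    congr 1
    omega
  rw [e1, pow_add, pow_add, mul_pow, mul_pow, ← pow_mul, ← pow_mul]
  ring

private theorem lau_not_alg (ϖ : kk) (hd : dk ϖ ≠ 0) (G : Polynomial ℂ)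
    (hG : Polynomial.aeval ϖ G = 0) : G = 0 := by
  by_contra hne
  have halg : IsAlgebraic ℂ ϖ := ⟨G, hne, hG⟩
  have hint : IsIntegral ℂ ϖ := halg.isIntegral
  have h1 : (minpoly ℂ ϖ).degree = 1 :=
    IsAlgClosed.degree_eq_one_of_irreducible ℂ (minpoly.irreducible hint)
  obtain ⟨c, hc⟩ := minpoly.mem_range_of_degree_eq_one ℂ ϖ h1
  apply hd
  rw [← hc, algebraMap_kk]
  exact dk_iotaK c

theorem laurent_transfer (E : MvPolynomial (Fin 2) ℂ) (q r : ℕ) (c1 c2 : ℂ) (ϖ v κ : kk)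
    (h0 : ϖ ≠ 0) (hd : dk ϖ ≠ 0) (hv : v * ϖ ^ r = ϖ ^ (q + r) + iotaK c1)
    (hκ : κ * ϖ ^ r = iotaK (1 / 2) * ϖ ^ (2 * q + r) + iotaK c2 * ϖ ^ q)
    (hE : aeval ![v, κ] E = 0) (ϖ1 v1 κ1 : kk) (h1 : ϖ1 ≠ 0)
    (hv1 : v1 * ϖ1 ^ r = ϖ1 ^ (q + r) + iotaK c1)
    (hκ1 : κ1 * ϖ1 ^ r = iotaK (1 / 2) * ϖ1 ^ (2 * q + r) + iotaK c2 * ϖ1 ^ q) :
    aeval ![v1, κ1] E = 0 := by
  have e1 := lau_eval E q r c1 c2 ϖ v κ hv hκ
  rw [hE, mul_zero] at e1
  have e2 := lau_not_alg ϖ hd _ e1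
  have e3 := lau_eval E q r c1 c2 ϖ1 v1 κ1 hv1 hκ1
  rw [e2, map_zero] at e3
  rcases mul_eq_zero.mp e3.symm with h | h
  · exact absurd h (pow_ne_zero _ h1)
  · exact h

end Pool.Agent.Work.MP_abe657_gt
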