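import Pool.Agent.Work.MP_abe657_gt.Taylor

/-!
Consequences of `IsTaylor` (done by helper32): sums, scalar multiples, polynomials.
-/

set_option autoImplicit false

namespace Pool.Agent.Work.MP_abe657_gt

open scoped ContDiff Topology

variable {u0 : E2} {T : (E2 → ℝ) → LL}

lemma contDiffAt_pd (i : Fin 2) (f : E2 → ℝ) (hf : ContDiffAt ℝ ∞ f u0) :
    ContDiffAt ℝ ∞ (pd i f) u0 := by
  have h1 : ContDiffAt ℝ ∞ (fderiv ℝ f) u0 := hf.fderiv_right (m := ∞) (by norm_cast)
  exact h1.clm_apply contDiffAt_const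

lemma taylor_sum (hT : IsTaylor u0 T) {n : ℕ} (f : Fin n → E2 → ℝ)
    (hf : ∀ i, ContDiffAt ℝ ∞ (f i) u0) :
    T (fun u => ∑ i, f i u) = ∑ i, T (f i) := by
  induction n with
  | zero =>
    simp only [Finset.univ_eq_empty, Finset.sum_empty]
    rw [hT.const 0]
    simp
  | succ n ih =>
    simp only [Fin.sum_univ_succ]
    rw [hT.add (f 0) (fun u => ∑ i : Fin n, f i.succ u) (hf 0)
      (ContDiffAt.sum fun i _ => hf i.succ), ih (fun i => f i.succ) (fun i => hf i.succ)]

lemma taylor_const_mul (hT : IsTaylor u0 T) (c : ℝ) (f : E2 → ℝ) (hf : ContDiffAt ℝ ∞ f u0) :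
    T (fun u => c * f u) = (c : ℂ) • T f := by
  rw [hT.mul (fun _ => c) f contDiffAt_const hf, hT.const, Algebra.smul_def]

lemma taylor_poly (hT : IsTaylor u0 T) (X : Fin 3 → E2 → ℝ) (hX : ∀ a, ContDiffAt ℝ ∞ (X a) u0)
    (Q : MvPolynomial (Fin 3) ℝ) :
    ContDiffAt ℝ ∞ (fun u => MvPolynomial.eval (fun a => X a u) Q) u0 ∧
    T (fun u => MvPolynomial.eval (fun a => X a u) Q)
      = MvPolynomial.aeval (fun a => T (X a)) (MvPolynomial.map Complex.ofRealHom Q) := by
  induction Q using MvPolynomial.induction_on with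
  | C r =>
    refine ⟨by simpa using contDiffAt_const, ?_⟩
    simp only [MvPolynomial.eval_C, MvPolynomial.map_C, MvPolynomial.aeval_C]
    exact hT.const r
  | add p q hp hq =>
    refine ⟨by simpa using hp.1.add hq.1, ?_⟩
    simp only [map_add]
    rw [hT.add _ _ hp.1 hq.1, hp.2, hq.2]
  | mul_X p a hp =>
    refine ⟨by simpa using hp.1.mul (hX a), ?_⟩
    simp only [map_mul, MvPolynomial.eval_X, MvPolynomial.map_X, MvPolynomial.aeval_X]
    rw [hT.mul _ _ hp.1 (hX a), hp.2]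

/-- real and imaginary parts of a complex polynomial -/
lemma exists_re_im (G : MvPolynomial (Fin 3) ℂ) : ∃ P Q : MvPolynomial (Fin 3) ℝ,
    G = MvPolynomial.map Complex.ofRealHom P
      + MvPolynomial.C Complex.I * MvPolynomial.map Complex.ofRealHom Q := by
  induction G using MvPolynomial.induction_on with
  | C z =>
    refine ⟨MvPolynomial.C z.re, MvPolynomial.C z.im, ?_⟩
    rw [MvPolynomial.map_C, MvPolynomial.map_C, ← MvPolynomial.C_mul, ← MvPolynomial.C_add]
    congr 1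
    simp only [Complex.ofRealHom_eq_coe]
    rw [mul_comm]
    exact (Complex.re_add_im z).symm
  | add p q hp hq =>
    obtain ⟨P1, Q1, h1⟩ := hp
    obtain ⟨P2, Q2, h2⟩ := hq
    refine ⟨P1 + P2, Q1 + Q2, ?_⟩
    rw [h1, h2, map_add, map_add]
    ring
  | mul_X p a hp =>
    obtain ⟨P1, Q1, h1⟩ := hp
    refine ⟨P1 * MvPolynomial.X a, Q1 * MvPolynomial.X a, ?_⟩
    rw [h1, map_mul, map_mul, MvPolynomial.map_X]
    ring

lemma aeval_real (P : MvPolynomial (Fin 3) ℝ) (v : Fin 3 → ℝ) :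
    MvPolynomial.aeval (fun a => (v a : ℂ)) (MvPolynomial.map Complex.ofRealHom P)
      = ((MvPolynomial.eval v P : ℝ) : ℂ) := by
  induction P using MvPolynomial.induction_on with
  | C r => simp
  | add p q hp hq => simp only [map_add, hp, hq, Complex.ofReal_add]
  | mul_X p a hp => simp only [map_mul, hp, MvPolynomial.map_X, MvPolynomial.aeval_X,
      MvPolynomial.eval_X, Complex.ofReal_mul]

lemma taylor_cpoly (hT : IsTaylor u0 T) (X : Fin 3 → E2 → ℝ) (hX : ∀ a, ContDiffAt ℝ ∞ (X a) u0)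
    (G : MvPolynomial (Fin 3) ℂ)
    (h : ∀ᶠ u in 𝓝 u0, MvPolynomial.aeval (fun a => (X a u : ℂ)) G = 0) :
    MvPolynomial.aeval (fun a => T (X a)) G = 0 := by
  obtain ⟨P, Q, hPQ⟩ := exists_re_im G
  have h2 : ∀ᶠ u in 𝓝 u0, MvPolynomial.eval (fun a => X a u) P = 0 ∧
      MvPolynomial.eval (fun a => X a u) Q = 0 := by
    filter_upwards [h] with u hu
    rw [hPQ, map_add, map_mul, MvPolynomial.aeval_C, aeval_real, aeval_real] at hu
    have h3 := congrArg Complex.re hu
    have h4 := congrArg Complex.im hu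
    simp at h3 h4
    exact ⟨h3, h4⟩
  have hz : T (fun _ => (0 : ℝ)) = 0 := by rw [hT.const 0]; simp
  have hP : MvPolynomial.aeval (fun a => T (X a)) (MvPolynomial.map Complex.ofRealHom P) = 0 := by
    rw [← (taylor_poly hT X hX P).2, ← hz]
    exact hT.congr _ _ (h2.mono fun u hu => hu.1)
  have hQ : MvPolynomial.aeval (fun a => T (X a)) (MvPolynomial.map Complex.ofRealHom Q) = 0 := by
    rw [← (taylor_poly hT X hX Q).2, ← hz]
    exact hT.congr _ _ (h2.mono fun u hu => hu.2)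
  rw [hPQ, map_add, map_mul, hP, hQ]
  simp

end Pool.Agent.Work.MP_abe657_gt
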