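import Pool.Agent.Work.MP_abe657_gt.AlgMain
import Pool.Agent.Work.MP_abe657_gt.TaylorLap
import Pool.Agent.Work.MP_abe657_gt.TaylorPoly
import Pool.Agent.Work.MP_abe657_gt.EigenZero
import Pool.Agent.Work.MP_abe657_gt.SphereEnd

/-!
Final assembly (done by helper32).
-/

set_option autoImplicit false

namespace Pool.Agent.Work.MP_abe657_gt

open scoped Manifold ContDiff Topology

lemma aeval_end_eigen {V : Type} [AddCommGroup V] [Module ℂ V] (A : Module.End ℂ V) (v : V)
    (l : ℂ) (h : A v = l • v) (P : Polynomial ℂ) :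
    Polynomial.aeval A P v = P.eval l • v := by
  induction P using Polynomial.induction_on' with
  | add p q hp hq =>
    rw [map_add, LinearMap.add_apply, hp, hq, Polynomial.eval_add, add_smul]
  | monomial n c =>
    rw [Polynomial.aeval_monomial, Polynomial.eval_monomial, Module.End.mul_apply,
      Module.algebraMap_end_apply, mul_smul]
    congr 1
    induction n with
    | zero => simp
    | succ n ih => rw [pow_succ', Module.End.mul_apply, ih, map_smul, h, pow_succ, mul_smul]

theorem finite_type_algebraic {M : Type*} [TopologicalSpace M] [ChartedSpace E2 M]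
    [IsManifold (𝓡 2) ∞ M] [CompactSpace M] [ConnectedSpace M] (x : M → E3)
    (hx : ContMDiff (𝓡 2) 𝓘(ℝ, E3) ∞ x)
    (himm : ∀ p, Function.Injective (mfderiv (𝓡 2) 𝓘(ℝ, E3) x p)) (hft : FiniteType x)
    (G : MvPolynomial (Fin 3) ℂ) (hG : G ≠ 0) (hiso : NoIso G)
    (hz : ∀ p, MvPolynomial.aeval (fun a => ((x p a : ℝ) : ℂ)) G = 0) :
    ∃ (c : E3) (r : ℝ), 0 < r ∧ Set.range x = Metric.sphere c r := by
  obtain ⟨k, c, y, l, hys, hyn, hye, hyx⟩ := hft
  have hl : ∀ i, l i ≠ 0 := by
    intro i h0
    apply hyn i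
    have h1 : ∀ a, ∃ v, ∀ p, y i p a = v := by
      intro a
      have h2 := hye i a
      rw [h0] at h2
      exact eigen_zero x hx himm (y i) (hys i) a h2
    choose v hv using h1
    refine ⟨WithLp.toLp 2 v, fun p => ?_⟩
    ext a
    exact hv a p
  set P : Polynomial ℂ := ∏ i, (Polynomial.X - Polynomial.C ((l i : ℝ) : ℂ)) with hPdef
  have hPl : ∀ i, P.eval ((l i : ℝ) : ℂ) = 0 := by
    intro i
    rw [hPdef, Polynomial.eval_prod]
    exact Finset.prod_eq_zero (Finset.mem_univ i) (by simp)
  have hP0 : P.eval 0 ≠ 0 := by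
    rw [hPdef, Polynomial.eval_prod]
    refine Finset.prod_ne_zero_iff.mpr fun i _ => ?_
    simp only [Polynomial.eval_sub, Polynomial.eval_X, Polynomial.eval_C, zero_sub, neg_ne_zero]
    exact Complex.ofReal_ne_zero.mpr (hl i)
  -- the squared distance to the centre
  have hconst : ∃ v, ∀ p, (∑ a, (x p a - c a) ^ 2) = v := by
    have hsm : ∀ e ∈ atlas E2 M, ∀ a, ContDiffOn ℝ ∞ ((fun p => x p a) ∘ e.symm) e.target :=
      fun e he a => chart_contDiffOn_comp x hx a e he
    refine const_of_pd_zero (fun p => ∑ a, (x p a - c a) ^ 2) ?_ ?_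
    · intro e he
      have : ((fun p => ∑ a, (x p a - c a) ^ 2) ∘ e.symm)
          = fun u => ∑ a, (((fun p => x p a) ∘ e.symm) u - c a) ^ 2 := rfl
      rw [this]
      exact ContDiffOn.sum fun a _ => ((hsm e he a).sub contDiffOn_const).pow 2
    · intro e he u0 hu0
      have hnhds : e.target ∈ 𝓝 u0 := e.open_target.mem_nhds hu0
      obtain ⟨T, hT⟩ := exists_taylor u0
      have hXs : ContDiffAt ℝ ∞ (x ∘ e.symm) u0 := (chart_contDiffOn x hx e he).contDiffAt hnhds
      have hXa : ∀ a, ContDiffAt ℝ ∞ (fun u => (x ∘ e.symm) u a) u0 :=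
        fun a => (hsm e he a).contDiffAt hnhds
      obtain ⟨hdet, hlap⟩ := taylor_lap u0 T hT (x ∘ e.symm) hXs
        (chart_injective x hx himm e he u0 hu0)
      have hYa : ∀ i a, ContDiffAt ℝ ∞ ((fun p => y i p a) ∘ e.symm) u0 :=
        fun i a => (chart_contDiffOn_comp (y i) (hys i) a e he).contDiffAt hnhds
      have heig : ∀ i a, lapX dT dS (fun a => T (fun u => (x ∘ e.symm) u a))
          (T ((fun p => y i p a) ∘ e.symm))
          = ((l i : ℝ) : ℂ) • T ((fun p => y i p a) ∘ e.symm) := by
        intro i a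
        rw [← hlap _ (hYa i a), ← taylor_const_mul hT (l i) _ (hYa i a)]
        apply hT.congr
        filter_upwards [hnhds] with u hu
        exact hye i a e he u hu
      have hXT : ∀ a, T (fun u => (x ∘ e.symm) u a) - algebraMap ℂ LL ((c a : ℝ) : ℂ)
          = ∑ i, T ((fun p => y i p a) ∘ e.symm) := by
        intro a
        have h1 : (fun u => (x ∘ e.symm) u a)
            = fun u => (fun _ => c a) u + (fun u => ∑ i, ((fun p => y i p a) ∘ e.symm) u) u := by
          funext u
          simp only [Function.comp_apply, hyx, PiLp.add_apply]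
          congr 1
          rw [WithLp.ofLp_sum, Finset.sum_apply]
        rw [h1, hT.add _ _ contDiffAt_const (ContDiffAt.sum fun i _ => hYa i a), hT.const,
          taylor_sum hT _ (fun i => hYa i a)]
        ring
      have hPX : ∀ a, Polynomial.aeval (lapX dT dS (fun a => T (fun u => (x ∘ e.symm) u a))) P
          (T (fun u => (x ∘ e.symm) u a) - algebraMap ℂ LL ((c a : ℝ) : ℂ)) = 0 := by
        intro a
        rw [hXT a, map_sum]
        refine Finset.sum_eq_zero fun i _ => ?_
        rw [aeval_end_eigen _ _ _ (heig i a), hPl i, zero_smul]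
      have hG0 : MvPolynomial.aeval (fun a => T (fun u => (x ∘ e.symm) u a)) G = 0 :=
        taylor_cpoly hT _ hXa G (Filter.Eventually.of_forall fun u => hz (e.symm u))
      obtain ⟨r, hr⟩ := alg_main dT dS dT_dS_comm _ hdet P hP0 (fun a => ((c a : ℝ) : ℂ)) hPX G hG
        hG0 hiso
      -- Taylor series of the squared distance
      have hsq : T ((fun p => ∑ a, (x p a - c a) ^ 2) ∘ e.symm) = algebraMap ℂ LL r := by
        have h1 : ∀ a, ContDiffAt ℝ ∞ (fun u => (x ∘ e.symm) u a + -c a) u0 :=
          fun a => (hXa a).add contDiffAt_const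
        have h2 : ((fun p => ∑ a, (x p a - c a) ^ 2) ∘ e.symm)
            = fun u => ∑ a, (fun a u => (fun u => (x ∘ e.symm) u a + -c a) u
              * (fun u => (x ∘ e.symm) u a + -c a) u) a u := by
          funext u
          simp only [Function.comp_apply]
          refine Finset.sum_congr rfl fun a _ => ?_
          ring
        rw [h2, taylor_sum hT _ (fun a => (h1 a).mul (h1 a)), ← hr]
        refine Finset.sum_congr rfl fun a _ => ?_
        rw [hT.mul _ _ (h1 a) (h1 a), hT.add _ _ (hXa a) contDiffAt_const, hT.const]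
        rw [Complex.ofReal_neg, map_neg]
        ring
      have hh : ContDiffAt ℝ ∞ ((fun p => ∑ a, (x p a - c a) ^ 2) ∘ e.symm) u0 := by
        have : ((fun p => ∑ a, (x p a - c a) ^ 2) ∘ e.symm)
            = fun u => ∑ a, (((fun p => x p a) ∘ e.symm) u - c a) ^ 2 := rfl
        rw [this]
        exact ContDiffAt.sum fun a _ => ((hXa a).sub contDiffAt_const).pow 2
      have h0 : T (pd 0 ((fun p => ∑ a, (x p a - c a) ^ 2) ∘ e.symm)) = algebraMap ℂ LL 0 := by
        rw [hT.pd0 _ hh, hsq, Derivation.map_algebraMap, map_zero]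
      have h1 : T (pd 1 ((fun p => ∑ a, (x p a - c a) ^ 2) ∘ e.symm)) = algebraMap ℂ LL 0 := by
        rw [hT.pd1 _ hh, hsq, Derivation.map_algebraMap, map_zero]
      intro i
      fin_cases i
      · have h2 := hT.value _ 0 (contDiffAt_pd 0 _ hh) h0
        exact_mod_cast h2.symm
      · have h2 := hT.value _ 0 (contDiffAt_pd 1 _ hh) h1
        exact_mod_cast h2.symm
  obtain ⟨v, hv⟩ := hconst
  obtain ⟨r, hr0, hr⟩ := sphere_end x hx himm c v (by
    intro p
    rw [EuclideanSpace.norm_sq_eq, ← hv p]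
    refine Finset.sum_congr rfl fun a _ => ?_
    rw [PiLp.sub_apply, Real.norm_eq_abs, sq_abs])
  exact ⟨c, r, hr0, hr⟩

end Pool.Agent.Work.MP_abe657_gt
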