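import Pool.Agent.Work.MP_abe657_gt.Defs2
import Pool.Agent.Work.MP_abe657_gt.CoreSmall

/-!
Part II, module MetB (M). Points `(A, B, C)`, `A = s⁻¹`, `B = s^(-b) v`, `v = 1/t`,
`C = c + s^(1-2b) X`, `b > 0`, `Ge X 0`, `κ = cf X 0`: the leading coefficient satisfies the equation
of null surfaces.

`thA B = b B`, `dT B = s^(-b) v'`, `v' = -t^(-2)`; `thA C = s^(1-2b) ((2b-1) X + thA X)`,
`dT C = s^(1-2b) dT X`. Then `m11, m12, m22` have exponents `≥ -2b`, and the coefficient of `mD` at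
the exponent `-4b` is
`-16 (2 (2b-1) κ v'^2 - 2 b v v' κ' + κ'^2) = -16 t^(-4) ((dv κ)^2 - 2 b v dv κ + 2 (2b-1) κ)`
where `κ' = dk κ = v' dv κ` (recall `dv κ = -t^2 dk κ`). If this is not `0`, then `mD` has order
exactly `-4b`, `m_ij/mD` have exponents `≥ 2b > 0`, and `core_small` gives a contradiction with `Good`
(`dT B ≠ 0`).
-/

set_option autoImplicit false

namespace Pool.Agent.Work.MP_abe657_gt

open MvPolynomial

theorem MetB_cf_ofNat_mul (n : ℕ) [n.AtLeastTwo] (x : LL) (q : ℚ) :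
    cf ((OfNat.ofNat n : LL) * x) q = (OfNat.ofNat n : kk) * cf x q := by
  have h : (OfNat.ofNat n : LL) * x = (OfNat.ofNat n : ℂ) • x := by
    rw [Algebra.smul_def, map_ofNat]
  rw [h, cf_smul, map_ofNat]

theorem MetB_Ge_ofNat_mul (n : ℕ) [n.AtLeastTwo] {x : LL} {a : ℚ} (hx : Ge x a) :
    Ge ((OfNat.ofNat n : LL) * x) a := by
  intro q hq
  rw [MetB_cf_ofNat_mul, hx q hq, mul_zero]

theorem MetB_div_ge {x D : LL} {a δ : ℚ} (hx : Ge x a) (hD : Ge D δ)
    (hD0 : cf D δ ≠ 0) : Ge (x / D) (a - δ) := by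
  rw [div_eq_mul_inv, sub_eq_add_neg]
  exact hx.mul (hD.inv hD0)

theorem isotropic_ode (F : MvPolynomial (Fin 3) ℂ) (P : Polynomial ℂ) (hG : Good F P)
    (hP0 : P.eval 0 ≠ 0) (c : ℂ) (b : ℚ) (hb : 0 < b) (X : LL) (hX : Ge X 0)
    (h0 : aeval ![AA, mon (-b) (-1), mon (1 - 2 * b) 0 * X + algebraMap ℂ LL c] F = 0) :
    (dv (cf X 0)) ^ 2 - 2 * (b : kk) * tp (-1) * dv (cf X 0)
      + 2 * (2 * (b : kk) - 1) * cf X 0 = 0 := by
  by_contra hE
  set B : LL := mon (-b) (-1) with hB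
  set C : LL := mon (1 - 2 * b) 0 * X + algebraMap ℂ LL c with hC
  have hthB : thA B = ((b : ℚ) : ℂ) • mon (-b) (-1) := by
    rw [hB, thA_mon]; push_cast; rw [neg_neg]
  have hdTB : dT B = (-1 : ℂ) • mon (-b) (-2) := by
    rw [hB, dT_mon]; push_cast; norm_num
  have hthC : thA C = mon (1 - 2 * b) 0 * (thA X + ((2 * b - 1 : ℚ) : ℂ) • X) := by
    rw [hC, map_add, Derivation.map_algebraMap, add_zero, Derivation.leibniz, thA_mon]
    simp only [smul_eq_mul, Algebra.smul_def]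
    push_cast
    simp only [map_neg, map_sub, map_mul, map_one, map_ofNat]
    ring
  have hdTC : dT C = mon (1 - 2 * b) 0 * dT X := by
    rw [hC, map_add, Derivation.map_algebraMap, add_zero, Derivation.leibniz, dT_mon]
    simp
  -- orders
  have g1 : Ge (thA B) (-b) := by rw [hthB]; exact (Ge_mon _ _).smulC _
  have g2 : Ge (dT B) (-b) := by rw [hdTB]; exact (Ge_mon _ _).smulC _
  have g3' : Ge (thA X + ((2 * b - 1 : ℚ) : ℂ) • X) 0 := hX.thA.add (hX.smulC _)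
  have g3 : Ge (thA C) (1 - 2 * b) := by
    rw [hthC]
    simpa using Ge_mon_mul (a := 1 - 2 * b) (b := 0) g3'
  have g4 : Ge (dT C) (1 - 2 * b) := by
    rw [hdTC]
    simpa using Ge_mon_mul (a := 1 - 2 * b) (b := 0) hX.dT
  have g5 : Ge (AA * thA C) (-(2 * b)) := by
    have := Ge_AA.mul g3
    exact this.mono (by linarith)
  have g6 : Ge (AA * dT C) (-(2 * b)) := by
    have := Ge_AA.mul g4
    exact this.mono (by linarith)
  -- coefficients
  have c1 : cf (thA B) (-b) = (b : kk) * tp (-1) := by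
    rw [hthB, cf_smul, cf_mon, map_ratCast]
  have c2 : cf (dT B) (-b) = -tp (-2) := by
    rw [hdTB, cf_smul, cf_mon, map_neg, map_one]; ring
  have c3 : cf (AA * thA C) (-(2 * b)) = (2 * (b : kk) - 1) * cf X 0 := by
    rw [cf_AA_mul, hthC, cf_mon_mul]
    have e : -(2 * b) + 1 - (1 - 2 * b) = 0 := by ring
    rw [e, cf_add, cf_thA, cf_smul, map_ratCast, tp_zero]
    push_cast
    ring
  have c4 : cf (AA * dT C) (-(2 * b)) = dk (cf X 0) := by
    rw [cf_AA_mul, hdTC, cf_mon_mul]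
    have e : -(2 * b) + 1 - (1 - 2 * b) = 0 := by ring
    rw [e, cf_dT, tp_zero, one_mul]
  have hs : ∀ x y : LL, Ge x (-b) → Ge y (-b) → Ge (x * y) (-(2 * b)) := fun x y hx hy =>
    (hx.mul hy).mono (by linarith)
  have hsc : ∀ x y : LL, Ge x (-b) → Ge y (-b) → cf (x * y) (-(2 * b)) = cf x (-b) * cf y (-b) := by
    intro x y hx hy
    have := cf_mul_lead hx hy
    have e : -(2 * b) = -b + -b := by ring
    rw [e]
    exact this
  have M11 : Ge (m11 B C) (-(2 * b)) := by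
    unfold m11
    rw [pow_two, mul_assoc 8]
    exact (MetB_Ge_ofNat_mul 4 (hs _ _ g1 g1)).sub (MetB_Ge_ofNat_mul 8 g5)
  have M12 : Ge (m12 B C) (-(2 * b)) := by
    unfold m12
    rw [mul_assoc 4, mul_assoc 4]
    exact (MetB_Ge_ofNat_mul 4 (hs _ _ g1 g2)).sub (MetB_Ge_ofNat_mul 4 g6)
  have M22 : Ge (m22 B) (-(2 * b)) := by
    unfold m22
    rw [pow_two]
    exact MetB_Ge_ofNat_mul 4 (hs _ _ g2 g2)
  have C11 : cf (m11 B C) (-(2 * b)) = 4 * ((b : kk) * tp (-1)) ^ 2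
      - 8 * ((2 * (b : kk) - 1) * cf X 0) := by
    unfold m11
    rw [pow_two, mul_assoc 8, cf_sub, MetB_cf_ofNat_mul, MetB_cf_ofNat_mul, hsc _ _ g1 g1, c1, c3]
    ring
  have C12 : cf (m12 B C) (-(2 * b)) = 4 * ((b : kk) * tp (-1)) * (-tp (-2))
      - 4 * dk (cf X 0) := by
    unfold m12
    rw [mul_assoc 4, mul_assoc 4, cf_sub, MetB_cf_ofNat_mul, MetB_cf_ofNat_mul, hsc _ _ g1 g2, c1,
      c2, c4]
    ring
  have C22 : cf (m22 B) (-(2 * b)) = 4 * (tp (-2)) ^ 2 := by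
    unfold m22
    rw [pow_two, MetB_cf_ofNat_mul, hsc _ _ g2 g2, c2]
    ring
  have e4 : -(4 * b) = -(2 * b) + -(2 * b) := by ring
  have MD : Ge (mD B C) (-(4 * b)) := by
    unfold mD
    rw [e4, pow_two]
    exact (M11.mul M22).sub (M12.mul M12)
  have t1 : tp (-2) = tp (-1) ^ 2 := by
    rw [tp_pow]; norm_num
  have t2 : dk (cf X 0) = -(tp (-1) ^ 2 * dv (cf X 0)) := by
    rw [dv_apply]
    have : tp (-1) * tk = 1 := by
      rw [← tp_one, tp_mul]; norm_num [tp_zero]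
    linear_combination -(dk (cf X 0)) * (tp (-1) * tk + 1) * this
  have CD : cf (mD B C) (-(4 * b)) = -16 * tp (-4) * ((dv (cf X 0)) ^ 2
      - 2 * (b : kk) * tp (-1) * dv (cf X 0) + 2 * (2 * (b : kk) - 1) * cf X 0) := by
    unfold mD
    rw [e4, pow_two (m12 B C), cf_sub, cf_mul_lead M11 M22, cf_mul_lead M12 M12, C11, C12, C22]
    have t3 : tp (-4) = tp (-1) ^ 4 := by
      rw [tp_pow]; norm_num
    rw [t3, t1, t2]
    ring
  have CD0 : cf (mD B C) (-(4 * b)) ≠ 0 := by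
    rw [CD]
    refine mul_ne_zero (mul_ne_zero (by norm_num) (tp_ne_zero _)) hE
  have hdB : dT B ≠ 0 := by
    refine ne_zero_of_cf (a := -b) ?_
    rw [c2]
    exact neg_ne_zero.mpr (tp_ne_zero _)
  obtain ⟨hD, hA, -, -⟩ := hG B C hdB h0
  have E : -(2 * b) - -(4 * b) = 2 * b := by ring
  have r1 := MetB_div_ge M22 MD CD0
  have r2 := MetB_div_ge M12 MD CD0
  have r3 := MetB_div_ge M11 MD CD0
  rw [E] at r1 r2 r3
  exact core_small (m11 B C) (m12 B C) (m22 B) hD (2 * b) (by linarith) r1 r2 r3 P hP0 hA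

end Pool.Agent.Work.MP_abe657_gt
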