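import Mathlib

/-!
Part II, module NPchain (S-M). Walking along the edges of a Newton polygon.

`S` is a finite set with two weight functions `u, v`; the face at `ω` is the set of elements of `S`
with the largest `u + ω v`. Let `Q` be a property such that (start) `Q` holds for all elements of the
face at `ω1` with the smallest `v` on this face; (step) for `ω0 < ω < ω1`, if `Q` holds for all
elements of the face at `ω` with the largest `v` on the face, then it holds for all elements of the
face. Then `Q` holds for all elements of the face at `ω0` with the largest `v` on that face.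

Proof. Induction on the number of elements of `S` with `v s < v q`, where `q` is an element of the
face at `ω1` with the smallest `v`; generalise over `ω1 > ω0`. If `u s + ω0 v s ≤ u q + ω0 v q` for
all `s` with `v s < v q`: then `q` is in the face at `ω0` (for `v s ≥ v q` use
`u s + ω1 v s ≤ u q + ω1 v q` and `ω0 < ω1`), and an element `s` of the face at `ω0` with the largest
`v` has `v s ≥ v q`, hence `v s = v q` (if `v s > v q` then strictly
`u s + ω0 v s < u q + ω0 v q`) and `u s = u q`; it is then also an element of the face at `ω1` with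
smallest `v`, so `Q s` by (start). Otherwise let `ω2` be the maximum of `(u s - u q)/(v q - v s)`
over the `s` with `v s < v q`. Then `ω0 < ω2 < ω1`, `q` is in the face at `ω2`, the elements of that
face with largest `v` have the same `u, v` as `q` (so they satisfy `Q` by (start)), hence by (step)
`Q` holds for all elements of the face at `ω2`, in particular for those with the smallest `v`, and
this smallest `v` is `< v q`. Apply induction with `ω1 := ω2`.
-/

set_option autoImplicit false

namespace Pool.Agent.Work.MP_abe657_gt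

private def NFace {ι : Type} (S : Finset ι) (u v : ι → ℚ) (ω : ℚ) (s : ι) : Prop :=
  ∀ s' ∈ S, u s' + ω * v s' ≤ u s + ω * v s

private theorem np_min {ι : Type} (S : Finset ι) (hS : S.Nonempty) (u v : ι → ℚ) (ω : ℚ) :
    ∃ q ∈ S, NFace S u v ω q ∧ ∀ s' ∈ S, NFace S u v ω s' → v q ≤ v s' := by
  classical
  obtain ⟨q0, hq0, h0⟩ := Finset.exists_max_image S (fun s => u s + ω * v s) hS
  obtain ⟨q, hq, h1⟩ := Finset.exists_min_image (S.filter (fun s => NFace S u v ω s)) v
    ⟨q0, Finset.mem_filter.2 ⟨hq0, h0⟩⟩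
  rw [Finset.mem_filter] at hq
  exact ⟨q, hq.1, hq.2, fun s' hs' hf => h1 s' (Finset.mem_filter.2 ⟨hs', hf⟩)⟩

/-- `q` stays on the face, and the elements of the face with largest `v` are equal to `q`. -/
private theorem np_stay {ι : Type} (S : Finset ι) (u v : ι → ℚ) (ω ω1 : ℚ) (h : ω < ω1) (q : ι)
    (hq : q ∈ S) (hf : NFace S u v ω1 q)
    (hlow : ∀ s ∈ S, v s < v q → u s + ω * v s ≤ u q + ω * v q) :
    NFace S u v ω q ∧ ∀ s ∈ S, NFace S u v ω s → (∀ s' ∈ S, NFace S u v ω s' → v s' ≤ v s) →
      u s = u q ∧ v s = v q := by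
  have h1 : NFace S u v ω q := by
    intro s hs
    rcases lt_or_ge (v s) (v q) with h2 | h2
    · exact hlow s hs h2
    · have h3 := hf s hs
      have h4 : 0 ≤ (ω1 - ω) * (v s - v q) := mul_nonneg (by linarith) (by linarith)
      nlinarith
  refine ⟨h1, fun s hs hsf hmax => ?_⟩
  have h2 : v q ≤ v s := hmax q hq h1
  have h3 : v s = v q := by
    by_contra hne
    have h4 : v q < v s := lt_of_le_of_ne h2 (Ne.symm hne)
    have h5 := hf s hs
    have h6 := hsf q hq
    have h7 : 0 < (ω1 - ω) * (v s - v q) := mul_pos (by linarith) (by linarith)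
    nlinarith
  refine ⟨?_, h3⟩
  have h4 := hsf q hq
  have h5 := h1 s hs
  rw [h3] at h4 h5
  linarith

private theorem np_aux {ι : Type} (S : Finset ι) (hS : S.Nonempty) (u v : ι → ℚ) (Q : ι → Prop)
    (ω0 : ℚ) : ∀ n : ℕ, ∀ ω1 : ℚ, ω0 < ω1 → ∀ q ∈ S, NFace S u v ω1 q →
    (∀ s' ∈ S, NFace S u v ω1 s' → v q ≤ v s') → (S.filter (fun s => v s < v q)).card = n →
    (∀ s ∈ S, NFace S u v ω1 s → (∀ s' ∈ S, NFace S u v ω1 s' → v s ≤ v s') → Q s) →
    (∀ ω, ω0 < ω → ω < ω1 →
      (∀ s ∈ S, NFace S u v ω s → (∀ s' ∈ S, NFace S u v ω s' → v s' ≤ v s) → Q s) →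
      ∀ s ∈ S, NFace S u v ω s → Q s) →
    ∀ s ∈ S, NFace S u v ω0 s → (∀ s' ∈ S, NFace S u v ω0 s' → v s' ≤ v s) → Q s := by
  intro n
  induction n using Nat.strong_induction_on with
  | _ n ih =>
    intro ω1 h01 q hq hqf hqmin hn start step
    have hstart : ∀ s ∈ S, u s = u q → v s = v q → Q s := by
      intro s hs hu hv
      refine start s hs ?_ ?_
      · intro s' hs'
        rw [hu, hv]
        exact hqf s' hs'
      · intro s' hs' hf'
        rw [hv]
        exact hqmin s' hs' hf'
    by_cases hA : ∀ s ∈ S, v s < v q → u s + ω0 * v s ≤ u q + ω0 * v q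
    · intro s hs hsf hmax
      obtain ⟨_, h2⟩ := np_stay S u v ω0 ω1 h01 q hq hqf hA
      obtain ⟨h3, h4⟩ := h2 s hs hsf hmax
      exact hstart s hs h3 h4
    · push Not at hA
      obtain ⟨s1, hs1, hv1, hu1⟩ := hA
      obtain ⟨s2, hs2, hmax2⟩ := Finset.exists_max_image (S.filter (fun s => v s < v q))
        (fun s => (u s - u q) / (v q - v s)) ⟨s1, Finset.mem_filter.2 ⟨hs1, hv1⟩⟩
      rw [Finset.mem_filter] at hs2
      obtain ⟨hs2S, hs2v⟩ := hs2
      set ω2 : ℚ := (u s2 - u q) / (v q - v s2) with hω2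
      have hd2 : 0 < v q - v s2 := by linarith
      have hω2eq : ω2 * (v q - v s2) = u s2 - u q := by
        rw [hω2]
        field_simp
      have h02 : ω0 < ω2 := by
        have h3 := hmax2 s1 (Finset.mem_filter.2 ⟨hs1, hv1⟩)
        have hd1 : 0 < v q - v s1 := by linarith
        refine lt_of_lt_of_le ?_ h3
        rw [lt_div_iff₀ hd1]
        nlinarith
      have h21 : ω2 < ω1 := by
        have h3 := hqf s2 hs2S
        by_contra hge
        push Not at hge
        have h4 : ω1 * (v q - v s2) ≤ ω2 * (v q - v s2) := mul_le_mul_of_nonneg_right hge hd2.le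
        have h5 : u s2 + ω1 * v s2 = u q + ω1 * v q := by nlinarith
        have h6 : NFace S u v ω1 s2 := by
          intro s' hs'
          rw [h5]
          exact hqf s' hs'
        have h7 := hqmin s2 hs2S h6
        linarith
      have hlow : ∀ s ∈ S, v s < v q → u s + ω2 * v s ≤ u q + ω2 * v q := by
        intro s hs hvs
        have h3 := hmax2 s (Finset.mem_filter.2 ⟨hs, hvs⟩)
        have hd : 0 < v q - v s := by linarith
        rw [div_le_iff₀ hd] at h3
        nlinarith
      obtain ⟨hqf2, hsame⟩ := np_stay S u v ω2 ω1 h21 q hq hqf hlow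
      have hall : ∀ s ∈ S, NFace S u v ω2 s → Q s := by
        refine step ω2 h02 h21 ?_
        intro s hs hsf hmax
        obtain ⟨h3, h4⟩ := hsame s hs hsf hmax
        exact hstart s hs h3 h4
      have hs2f : NFace S u v ω2 s2 := by
        intro s' hs'
        have h3 := hqf2 s' hs'
        have h4 : u q + ω2 * v q = u s2 + ω2 * v s2 := by nlinarith
        rw [← h4]
        exact h3
      obtain ⟨q', hq', hq'f, hq'min⟩ := np_min S hS u v ω2
      have hq'v : v q' < v q := lt_of_le_of_lt (hq'min s2 hs2S hs2f) hs2v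
      refine ih _ ?_ ω2 h02 q' hq' hq'f hq'min rfl (fun s hs hsf _ => hall s hs hsf)
        (fun ω h3 h4 h5 => step ω h3 (h4.trans h21) h5)
      rw [← hn]
      apply Finset.card_lt_card
      rw [Finset.ssubset_iff_of_subset]
      · refine ⟨q', Finset.mem_filter.2 ⟨hq', hq'v⟩, ?_⟩
        rw [Finset.mem_filter]
        rintro ⟨_, h3⟩
        exact lt_irrefl _ h3
      · intro s hs
        rw [Finset.mem_filter] at hs ⊢
        exact ⟨hs.1, hs.2.trans hq'v⟩

theorem np_chain {ι : Type} (S : Finset ι) (hS : S.Nonempty) (u v : ι → ℚ) (Q : ι → Prop)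
    (ω0 ω1 : ℚ) (h01 : ω0 < ω1)
    (start : ∀ s ∈ S, (∀ s' ∈ S, u s' + ω1 * v s' ≤ u s + ω1 * v s) →
      (∀ s' ∈ S, (∀ s'' ∈ S, u s'' + ω1 * v s'' ≤ u s' + ω1 * v s') → v s ≤ v s') → Q s)
    (step : ∀ ω, ω0 < ω → ω < ω1 →
      (∀ s ∈ S, (∀ s' ∈ S, u s' + ω * v s' ≤ u s + ω * v s) →
        (∀ s' ∈ S, (∀ s'' ∈ S, u s'' + ω * v s'' ≤ u s' + ω * v s') → v s' ≤ v s) → Q s) →
      ∀ s ∈ S, (∀ s' ∈ S, u s' + ω * v s' ≤ u s + ω * v s) → Q s) :
    ∀ s ∈ S, (∀ s' ∈ S, u s' + ω0 * v s' ≤ u s + ω0 * v s) →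
      (∀ s' ∈ S, (∀ s'' ∈ S, u s'' + ω0 * v s'' ≤ u s' + ω0 * v s') → v s' ≤ v s) → Q s := by
  obtain ⟨q, hq, hqf, hqmin⟩ := np_min S hS u v ω1
  exact np_aux S hS u v Q ω0 _ ω1 h01 q hq hqf hqmin rfl start step

end Pool.Agent.Work.MP_abe657_gt
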