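import Pool.Agent.Work.MP_abe657_gt.Kit2
import Pool.Agent.Work.MP_abe657_gt.Lift

/-!
Part II, module NearCone (M). The end of a null surface near the cone.

With `v = tp (-1)`. Existence of `ϖ`: put `ϖ = tp (-1/q) ξ`; the equation
`v ϖ^r = ϖ^(q+r) + c1` becomes, after multiplication by `tp ((q+r)/q)`,
`ξ^(q+r) - ξ^r + c1 tp ((q+r)/q) = 0`. Its coefficients have no negative exponents, and the reduction
at `t = 0` is `ξ^(q+r) - ξ^r`, nonzero, with the root `1`: `hahn_lift ℂ` gives `ξ` with no negative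
exponents and constant coefficient `1`.

The last claim: `κ = ϖ^(2q)/2 + c2 ϖ^q/ϖ^r` and `v = ϖ^q + c1/ϖ^r`, so
`κ - v^2/2 = (c2 - c1) ϖ^q/ϖ^r - (c1^2/2)/ϖ^(2r)`. With `ν = (r - q)/q`:
`ϖ^q/ϖ^r = tp (ν) ξ^q/ξ^r` and `1/ϖ^(2r) = tp (2r/q) / ξ^(2r)`, and `2r/q - ν = (q+r)/q > 0`; so
`tp (-ν) (κ - v^2/2) = (c2 - c1) ξ^q/ξ^r - (c1^2/2) tp ((q+r)/q)/ξ^(2r)` has no negative exponents and
constant coefficient `c2 - c1`.
-/

set_option autoImplicit false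

namespace Pool.Agent.Work.MP_abe657_gt

private theorem nc_pow {x : kk} (hx : GeK x 0) (h0 : ckf x 0 = 1) (n : ℕ) :
    GeK (x ^ n) 0 ∧ ckf (x ^ n) 0 = 1 := by
  induction n with
  | zero => rw [pow_zero]; exact ⟨GeK_one, ckf_one⟩
  | succ n ih =>
    rw [pow_succ]
    have h1 := ih.1.mul hx
    have h2 := ckf_mul_lead ih.1 hx
    rw [add_zero] at h1 h2
    exact ⟨h1, by rw [h2, ih.2, h0, mul_one]⟩

private theorem nc_inv {x : kk} (hx : GeK x 0) (h0 : ckf x 0 = 1) :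
    GeK x⁻¹ 0 ∧ ckf x⁻¹ 0 = 1 := by
  have hne : ckf x 0 ≠ 0 := by rw [h0]; exact one_ne_zero
  have h1 := hx.inv hne
  have h2 := ckf_inv_lead hx hne
  rw [neg_zero] at h1 h2
  exact ⟨h1, by rw [h2, h0, inv_one]⟩

private theorem nc_root [IsAlgClosed kk] (q r : ℕ) (hq : 0 < q) (hr : 0 < r) (c1 : ℂ) :
    ∃ ξ : kk, ξ ^ (q + r) - ξ ^ r + iotaK c1 * tp (((q : ℚ) + r) / q) = 0 ∧ GeK ξ 0 ∧
      ckf ξ 0 = 1 := by
  have ha : (0 : ℚ) < ((q : ℚ) + r) / q := by positivity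
  set T : kk := iotaK c1 * tp (((q : ℚ) + r) / q) with hT
  have hT0 : ∀ x : ℚ, x ≤ 0 → ckf T x = 0 := by
    intro x hx
    have hne : x ≠ ((q : ℚ) + r) / q := by
      rintro rfl
      linarith
    rw [hT, ckf_iotaK_mul, ckf_tp_of_ne hne, mul_zero]
  set H : Polynomial kk := Polynomial.X ^ (q + r) - Polynomial.X ^ r + Polynomial.C T with hH
  have hcoeff : ∀ l : ℕ, H.coeff l = (if l = q + r then 1 else 0) - (if l = r then 1 else 0) +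
      (if l = 0 then T else 0) := by
    intro l
    rw [hH, Polynomial.coeff_add, Polynomial.coeff_sub, Polynomial.coeff_X_pow,
      Polynomial.coeff_X_pow, Polynomial.coeff_C]
  have hone : ∀ (P : Prop) [Decidable P] (x : ℚ), x < 0 → ckf (if P then (1 : kk) else 0) x = 0 := by
    intro P _ x hx
    split_ifs
    · exact GeK_one x hx
    · exact ckf_zero x
  have hone0 : ∀ (P : Prop) [Decidable P], ckf (if P then (1 : kk) else 0) 0 = if P then 1 else 0 := by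
    intro P _
    split_ifs
    · exact ckf_one
    · exact ckf_zero 0
  have hT' : ∀ (P : Prop) [Decidable P] (x : ℚ), x ≤ 0 → ckf (if P then T else 0) x = 0 := by
    intro P _ x hx
    split_ifs
    · exact hT0 x hx
    · exact ckf_zero x
  have h1 : ∀ l : ℕ, ∀ x : ℚ, x < 0 → ckf (H.coeff l) x = 0 := by
    intro l x hx
    rw [hcoeff, ckf_add, ckf_sub, hone _ x hx, hone _ x hx, hT' _ x hx.le]
    ring
  have h2 : ∀ l : ℕ, (Polynomial.X ^ (q + r) - Polynomial.X ^ r : Polynomial ℂ).coeff l =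
      ckf (H.coeff l) 0 := by
    intro l
    rw [hcoeff, ckf_add, ckf_sub, hone0, hone0, hT' _ 0 le_rfl, Polynomial.coeff_sub,
      Polynomial.coeff_X_pow, Polynomial.coeff_X_pow, add_zero]
  have h3 : (Polynomial.X ^ (q + r) - Polynomial.X ^ r : Polynomial ℂ) ≠ 0 := by
    intro h
    have h4 := congrArg (fun P : Polynomial ℂ => P.coeff (q + r)) h
    simp only [Polynomial.coeff_sub, Polynomial.coeff_X_pow, Polynomial.coeff_zero] at h4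
    rw [if_pos trivial, if_neg (by omega)] at h4
    norm_num at h4
  have h5 : (Polynomial.X ^ (q + r) - Polynomial.X ^ r : Polynomial ℂ).eval 1 = 0 := by simp
  have hac : IsAlgClosed (HahnSeries ℚ ℂ) := ‹IsAlgClosed kk›
  obtain ⟨ξ, e1, e2, e3⟩ : ∃ ξ : kk, H.eval ξ = 0 ∧ (∀ x : ℚ, x < 0 → ckf ξ x = 0) ∧
      ckf ξ 0 = 1 := hahn_lift ℂ H h1 _ h2 h3 1 h5
  refine ⟨ξ, ?_, e2, e3⟩
  rw [hH] at e1
  simpa using e1

theorem near_cone [IsAlgClosed kk] (q r : ℕ) (hq : 0 < q) (hr : 0 < r) (c1 c2 : ℂ)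
    (hc1 : c1 ≠ 0) :
    ∃ ϖ : kk, ϖ ≠ 0 ∧ tp (-1) * ϖ ^ r = ϖ ^ (q + r) + iotaK c1 ∧
      ∀ κ : kk, κ * ϖ ^ r = iotaK (1 / 2) * ϖ ^ (2 * q + r) + iotaK c2 * ϖ ^ q →
        GeK (tp (-(((r : ℚ) - q) / q)) * (κ - iotaK (1 / 2) * tp (-2))) 0 ∧
        ckf (tp (-(((r : ℚ) - q) / q)) * (κ - iotaK (1 / 2) * tp (-2))) 0 = c2 - c1 := by
  have _ := hc1
  obtain ⟨ξ, hξ, hξ0, hξ1⟩ := nc_root q r hq hr c1
  have hqQ : (q : ℚ) ≠ 0 := by positivity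
  have hξne : ξ ≠ 0 := ne_zero_of_ckf (a := 0) (by rw [hξ1]; exact one_ne_zero)
  set ϖ : kk := tp (-1 / q) * ξ with hϖ
  have hϖne : ϖ ≠ 0 := mul_ne_zero (tp_ne_zero _) hξne
  have hpw : ∀ n : ℕ, ϖ ^ n = tp (-(n : ℚ) / q) * ξ ^ n := by
    intro n
    rw [hϖ, mul_pow, tp_pow]
    congr 2
    ring
  have hv : tp (-1) * ϖ ^ r = ϖ ^ (q + r) + iotaK c1 := by
    rw [hpw, hpw, ← mul_assoc, tp_mul]
    have e1 : (-1 : ℚ) + -(r : ℚ) / q = -((q + r : ℕ) : ℚ) / q := by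
      push_cast
      field_simp
      ring
    rw [e1]
    have e2 : iotaK c1 = tp (-((q + r : ℕ) : ℚ) / q) * (iotaK c1 * tp (((q : ℚ) + r) / q)) := by
      rw [mul_left_comm, tp_mul]
      have e3 : -((q + r : ℕ) : ℚ) / q + ((q : ℚ) + r) / q = 0 := by
        push_cast
        ring
      rw [e3, tp_zero, mul_one]
    linear_combination (-(tp (-((q + r : ℕ) : ℚ) / q))) * hξ - e2
  refine ⟨ϖ, hϖne, hv, fun κ hκ => ?_⟩
  have hϖr : ϖ ^ r ≠ 0 := pow_ne_zero _ hϖne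
  set ν : ℚ := ((r : ℚ) - q) / q with hν
  -- the identity
  have key : tp (-ν) * (κ - iotaK (1 / 2) * tp (-2)) =
      iotaK (c2 - c1) * (ξ ^ q * (ξ ^ r)⁻¹) -
        iotaK (c1 ^ 2 / 2) * (tp (((q : ℚ) + r) / q) * ((ξ ^ r)⁻¹ * (ξ ^ r)⁻¹)) := by
    have hξr : ξ ^ r ≠ 0 := pow_ne_zero _ hξne
    have e1 : (κ - iotaK (1 / 2) * tp (-2)) * (ϖ ^ r * ϖ ^ r) =
        iotaK (c2 - c1) * ϖ ^ q * ϖ ^ r - iotaK (c1 ^ 2 / 2) := by
      have e2 : tp (-2) = tp (-1) * tp (-1) := by rw [tp_mul]; norm_num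
      have e3 : ϖ ^ (2 * q + r) = ϖ ^ q * ϖ ^ q * ϖ ^ r := by rw [pow_add, two_mul, pow_add]
      have e4 : ϖ ^ (q + r) = ϖ ^ q * ϖ ^ r := pow_add _ _ _
      have e5 : iotaK (c2 - c1) = iotaK c2 - iotaK c1 := map_sub _ _ _
      have e6 : iotaK (c1 ^ 2 / 2) = iotaK (1 / 2) * iotaK c1 * iotaK c1 := by
        rw [← map_mul, ← map_mul]
        congr 1
        ring
      have e7 : (2 : kk) * iotaK (1 / 2) = 1 := by
        have : (2 : kk) = iotaK 2 := by rw [map_ofNat]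
        rw [this, ← map_mul, ← map_one iotaK]
        congr 1
        norm_num
      rw [e3] at hκ
      rw [e4] at hv
      rw [e2, e5, e6]
      linear_combination ϖ ^ r * hκ - iotaK (1 / 2) * (tp (-1) * ϖ ^ r + ϖ ^ q * ϖ ^ r + iotaK c1) * hv
        - (iotaK c1 * ϖ ^ q * ϖ ^ r) * e7
    have e8 : ϖ ^ r * ϖ ^ r = tp (-(2 * (r : ℚ) / q)) * (ξ ^ r * ξ ^ r) := by
      rw [hpw]
      have : -(2 * (r : ℚ) / q) = -(r : ℚ) / q + -(r : ℚ) / q := by ring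
      rw [this, ← tp_mul]
      ring
    have e9 : ϖ ^ q * ϖ ^ r = tp (-((q : ℚ) + r) / q) * (ξ ^ q * ξ ^ r) := by
      rw [hpw, hpw]
      have : -((q : ℚ) + r) / q = -(q : ℚ) / q + -(r : ℚ) / q := by ring
      rw [this, ← tp_mul]
      ring
    rw [mul_assoc, e9, e8] at e1
    have e10 : κ - iotaK (1 / 2) * tp (-2) = tp (2 * (r : ℚ) / q) * ((ξ ^ r)⁻¹ * (ξ ^ r)⁻¹) *
        (iotaK (c2 - c1) * (tp (-((q : ℚ) + r) / q) * (ξ ^ q * ξ ^ r)) - iotaK (c1 ^ 2 / 2)) := by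
      rw [← e1]
      have e11 : tp (2 * (r : ℚ) / q) * tp (-(2 * (r : ℚ) / q)) = 1 := by
        rw [tp_mul, add_neg_cancel, tp_zero]
      have e12 : ξ ^ r * (ξ ^ r)⁻¹ = 1 := mul_inv_cancel₀ hξr
      calc κ - iotaK (1 / 2) * tp (-2) = (κ - iotaK (1 / 2) * tp (-2)) *
            ((tp (2 * (r : ℚ) / q) * tp (-(2 * (r : ℚ) / q))) * (ξ ^ r * (ξ ^ r)⁻¹) *
              (ξ ^ r * (ξ ^ r)⁻¹)) := by rw [e11, e12]; ring
        _ = _ := by ring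
    rw [e10]
    have e13 : tp (-ν) * (tp (2 * (r : ℚ) / q) * tp (-((q : ℚ) + r) / q)) = 1 := by
      rw [tp_mul, tp_mul, hν]
      have : -(((r : ℚ) - q) / q) + (2 * (r : ℚ) / q + -((q : ℚ) + r) / q) = 0 := by
        field_simp
        ring
      rw [this, tp_zero]
    have e14 : tp (-ν) * tp (2 * (r : ℚ) / q) = tp (((q : ℚ) + r) / q) := by
      rw [tp_mul, hν]
      congr 1
      field_simp
      ring
    have e12 : ξ ^ r * (ξ ^ r)⁻¹ = 1 := mul_inv_cancel₀ hξr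
    calc tp (-ν) * (tp (2 * (r : ℚ) / q) * ((ξ ^ r)⁻¹ * (ξ ^ r)⁻¹) *
          (iotaK (c2 - c1) * (tp (-((q : ℚ) + r) / q) * (ξ ^ q * ξ ^ r)) - iotaK (c1 ^ 2 / 2)))
        = iotaK (c2 - c1) * (ξ ^ q * (ξ ^ r)⁻¹) *
            (tp (-ν) * (tp (2 * (r : ℚ) / q) * tp (-((q : ℚ) + r) / q))) * (ξ ^ r * (ξ ^ r)⁻¹) -
          iotaK (c1 ^ 2 / 2) * ((tp (-ν) * tp (2 * (r : ℚ) / q)) * ((ξ ^ r)⁻¹ * (ξ ^ r)⁻¹)) := by
          ring
      _ = _ := by rw [e13, e14, e12]; ring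
  rw [key]
  obtain ⟨p1, p2⟩ := nc_pow hξ0 hξ1 q
  obtain ⟨p3, p4⟩ := nc_pow hξ0 hξ1 r
  obtain ⟨p5, p6⟩ := nc_inv p3 p4
  have p7 := p1.mul p5
  have p8 := ckf_mul_lead p1 p5
  have p9 := p5.mul p5
  rw [add_zero] at p7 p8 p9
  rw [p2, p6, mul_one] at p8
  have hapos : (0 : ℚ) < ((q : ℚ) + r) / q := by positivity
  have p10 : GeK (tp (((q : ℚ) + r) / q) * ((ξ ^ r)⁻¹ * (ξ ^ r)⁻¹)) (((q : ℚ) + r) / q) := by
    have := GeK_tp_mul (b := ((q : ℚ) + r) / q) p9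
    rwa [add_zero] at this
  constructor
  · refine GeK.sub ?_ ?_
    · intro x hx
      rw [ckf_iotaK_mul, p7 x hx, mul_zero]
    · intro x hx
      rw [ckf_iotaK_mul, p10 x (hx.trans hapos), mul_zero]
  · rw [ckf_sub, ckf_iotaK_mul, ckf_iotaK_mul, p8, p10 0 hapos, mul_zero, mul_one, sub_zero]

end Pool.Agent.Work.MP_abe657_gt
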