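import Pool.Agent.Work.MP_abe657_gt.Kit2

/-!
Part II, module OdeK (M). Isotropic (null) surfaces: solutions in `kk` of the equation
`(κ')^2 - 2 b v κ' + 2 (2b - 1) κ = 0`, `' = d/dv = dv`, `v = 1/t = tp (-1)`, `0 < b < 1`.

(a) `ode_half` (`b = 1/2`): `κ' (κ' - v) = 0`. If `κ' = v` then `κ - v^2/2` is a constant
(`eq_iotaK_of_dv`, `dv_tp`), so `κ` has the exponent `-2`, excluded by `GeK κ y`, `y > -2`. So
`κ' = 0` and `κ` is constant.

(b) `ode_sigma` (`b ≠ 1/2`, `κ ≠ 0`). Put `p = κ'`. If `p = 0` then `(2b-1) κ = 0`, excluded. Apply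
`dv` to the equation: `p' (p - b v) = (1 - b) p`. Write `b = r/(q+r)` with `q, r ≥ 1`
(`r = b.num.toNat`, `q + r = b.den`), and choose `ϖ` with `ϖ^q = p` (`IsAlgClosed.exists_pow_nat_eq`).
Then `q p ϖ' = ϖ p'` (from `q ϖ^(q-1) ϖ' = p'`). Put `W = (v - p) ϖ^r`. Then
`q p W' = ϖ^r (q p (1 - p') + r (v - p) p') = ϖ^r (q p - (q + r) p' (p - b v))
= ϖ^r (q p - (q+r)(1-b) p) = 0`, as `(q+r) b = r`, so `W' = 0` and `W = iotaK c1`. If `c1 = 0`, then
`p = v` and the equation gives `κ = v^2/2`, excluded as in (a). So `v ϖ^r = ϖ^(q+r) + c1`, and the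
equation `2 (2b-1) κ = 2 b v p - p^2` times `ϖ^r` gives
`2 (2b-1) κ ϖ^r = 2 b (ϖ^(q+r) + c1) ϖ^q - ϖ^(2q+r)`, i.e.
`κ ϖ^r = ϖ^(2q+r)/2 + (b c1/(2b-1)) ϖ^q`. Finally `dk ϖ ≠ 0`: otherwise `ϖ` is a constant and then
`v` would be a constant.
-/

set_option autoImplicit false

namespace Pool.Agent.Work.MP_abe657_gt

private theorem odeK_iota_mul (c : ℂ) (x : kk) : dv (iotaK c * x) = iotaK c * dv x := by
  rw [Derivation.leibniz, smul_eq_mul, smul_eq_mul]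
  have h : dv (iotaK c) = 0 := dv.map_algebraMap c
  rw [h, mul_zero, add_zero]

private theorem odeK_sq (κ : kk) (y : ℚ) (hy : -2 < y) (hκ : GeK κ y) (h : dv κ = tp (-1)) :
    False := by
  have h1 : dv (κ - iotaK (1 / 2) * tp (-2)) = 0 := by
    rw [map_sub, odeK_iota_mul, dv_tp, h]
    have h2 : (-2 + 1 : ℚ) = -1 := by norm_num
    rw [h2]
    have h3 : iotaK (1 / 2) * -(iotaK ((-2 : ℚ) : ℂ) * tp (-1)) = tp (-1) := by
      have h4 : iotaK (1 / 2) * iotaK ((-2 : ℚ) : ℂ) = -1 := by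
        rw [← map_mul, ← map_one iotaK, ← map_neg]
        congr 1
        push_cast
        norm_num
      linear_combination (-tp (-1)) * h4
    rw [h3, sub_self]
  have h2 := eq_iotaK_of_dv _ h1
  have h3 : ckf κ (-2) = 0 := hκ (-2) hy
  have h4 := congrArg (fun z => ckf z (-2)) h2
  beta_reduce at h4
  rw [ckf_sub, ckf_iotaK_mul, ckf_tp, h3, ckf_iotaK_of_ne _ (by norm_num : (-2 : ℚ) ≠ 0)] at h4
  norm_num at h4

theorem ode_half (κ : kk) (y : ℚ) (hy : -2 < y) (hκ : GeK κ y)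
    (h : (dv κ) ^ 2 - tp (-1) * dv κ = 0) : ∃ c : ℂ, κ = iotaK c := by
  have h1 : dv κ * (dv κ - tp (-1)) = 0 := by linear_combination h
  rcases mul_eq_zero.1 h1 with h2 | h2
  · exact ⟨_, eq_iotaK_of_dv κ h2⟩
  · exact (odeK_sq κ y hy hκ (sub_eq_zero.1 h2)).elim

theorem ode_sigma [IsAlgClosed kk] (b : ℚ) (hb0 : 0 < b) (hb1 : b < 1) (hb : b ≠ 1 / 2) (κ : kk)
    (hκ0 : κ ≠ 0) (y : ℚ) (hy : -2 < y) (hκ : GeK κ y)
    (h : (dv κ) ^ 2 - 2 * (b : kk) * tp (-1) * dv κ + 2 * (2 * (b : kk) - 1) * κ = 0) :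
    ∃ (q r : ℕ) (c1 : ℂ) (ϖ : kk), 0 < q ∧ 0 < r ∧ b * ((q : ℚ) + r) = r ∧ c1 ≠ 0 ∧ ϖ ≠ 0 ∧
      dk ϖ ≠ 0 ∧ tp (-1) * ϖ ^ r = ϖ ^ (q + r) + iotaK c1 ∧
      κ * ϖ ^ r = iotaK (1 / 2) * ϖ ^ (2 * q + r) + iotaK (b * c1 / (2 * b - 1)) * ϖ ^ q := by
  have hBcast : (b : kk) = iotaK (b : ℂ) := (map_ratCast iotaK b).symm
  have hbC : (2 * (b : ℂ) - 1) ≠ 0 := by
    intro h0
    apply hb
    have h1 : ((2 * b - 1 : ℚ) : ℂ) = 0 := by push_cast; exact h0
    have h2 : (2 * b - 1 : ℚ) = 0 := by exact_mod_cast h1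
    linarith
  have h2b : (2 * iotaK (b : ℂ) - 1 : kk) ≠ 0 := by
    have h1 : (2 * iotaK (b : ℂ) - 1 : kk) = iotaK (2 * (b : ℂ) - 1) := by
      rw [map_sub, map_mul, map_one, map_ofNat]
    rw [h1]
    intro h0
    rw [← map_zero iotaK] at h0
    exact hbC (iotaK_injective h0)
  have h2 : (2 : kk) ≠ 0 := by
    intro h0
    have h1 : iotaK (2 : ℂ) = iotaK 0 := by rw [map_ofNat, map_zero, h0]
    have h3 := iotaK_injective h1
    norm_num at h3
  rw [hBcast] at h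
  set B : kk := iotaK (b : ℂ) with hB
  set v : kk := tp (-1) with hv
  set p : kk := dv κ with hp
  have hp0 : p ≠ 0 := by
    intro h0
    rw [h0] at h
    have h1 : 2 * (2 * B - 1) * κ = 0 := by linear_combination h
    rcases mul_eq_zero.1 h1 with h3 | h3
    · exact (mul_ne_zero h2 h2b) h3
    · exact hκ0 h3
  have hdB : ∀ x : kk, dv (B * x) = B * dv x := fun x => odeK_iota_mul _ x
  have hd2 : ∀ x : kk, dv (2 * x) = 2 * dv x := by
    intro x
    have h1 : (2 : kk) = iotaK 2 := by rw [map_ofNat]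
    rw [h1, odeK_iota_mul]
  -- derivative of the equation
  have hder : dv p * (p - B * v) = (1 - B) * p := by
    have h1 := congrArg dv h
    have e1 : p ^ 2 - 2 * B * v * p + 2 * (2 * B - 1) * κ =
        p * p - 2 * (B * (v * p)) + (2 * (2 * (B * κ)) - 2 * κ) := by ring
    rw [e1, map_add, map_sub, map_sub, Derivation.leibniz, hd2, hdB, Derivation.leibniz, hd2, hd2,
      hdB, hd2, map_zero] at h1
    simp only [smul_eq_mul] at h1
    rw [← hp, dv_v] at h1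
    have h3 : 2 * (dv p * (p - B * v) - (1 - B) * p) = 0 := by linear_combination h1
    rcases mul_eq_zero.1 h3 with h4 | h4
    · exact (h2 h4).elim
    · exact sub_eq_zero.1 h4
  -- q, r
  obtain ⟨r, hr⟩ : ∃ r : ℕ, (r : ℤ) = b.num := ⟨b.num.toNat, Int.toNat_of_nonneg (Rat.num_nonneg.2 hb0.le)⟩
  have hr0 : 0 < r := by
    have := Rat.num_pos.2 hb0
    omega
  have hrden : r < b.den := by
    have h1 := Rat.num_lt_denom_iff.2 hb1
    omega
  obtain ⟨q, hq⟩ : ∃ q : ℕ, q + r = b.den := ⟨b.den - r, by omega⟩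
  have hq0 : 0 < q := by omega
  have hqr : b * ((q : ℚ) + r) = r := by
    have h1 : ((q : ℚ) + r) = b.den := by exact_mod_cast hq
    rw [h1, Rat.mul_den_eq_num, ← hr]
    simp
  have hBqr : B * ((q : kk) + r) = r := by
    have h1 : B * ((q : kk) + r) = ((b * ((q : ℚ) + r) : ℚ) : kk) := by
      push_cast
      rw [hBcast]
    rw [h1, hqr]
    simp
  obtain ⟨ϖ, hϖ⟩ := IsAlgClosed.exists_pow_nat_eq p hq0
  have hϖ0 : ϖ ≠ 0 := by
    rintro rfl
    rw [zero_pow hq0.ne'] at hϖ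
    exact hp0 hϖ.symm
  have hqp : (q : kk) * p * dv ϖ = ϖ * dv p := by
    have h1 : dv p = (q : kk) * ϖ ^ (q - 1) * dv ϖ := by
      rw [← hϖ, Derivation.leibniz_pow]
      simp only [smul_eq_mul, nsmul_eq_mul]
      ring
    rw [h1, ← hϖ]
    obtain ⟨q', rfl⟩ : ∃ q', q = q' + 1 := ⟨q - 1, by omega⟩
    rw [Nat.add_sub_cancel]
    ring
  have hqk : (q : kk) ≠ 0 := by
    intro h0
    have h1 : iotaK (q : ℂ) = iotaK 0 := by rw [map_natCast, map_zero, h0]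
    have h3 := iotaK_injective h1
    exact hq0.ne' (by exact_mod_cast h3)
  have hW : dv ((v - p) * ϖ ^ r) = 0 := by
    obtain ⟨r', rfl⟩ : ∃ r', r = r' + 1 := ⟨r - 1, by omega⟩
    have h1 : dv ((v - p) * ϖ ^ (r' + 1)) =
        (v - p) * (((r' + 1 : ℕ) : kk) * ϖ ^ r' * dv ϖ) + ϖ ^ (r' + 1) * (1 - dv p) := by
      rw [Derivation.leibniz, Derivation.leibniz_pow, map_sub, dv_v]
      simp only [smul_eq_mul, nsmul_eq_mul, Nat.add_sub_cancel]
      ring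
    have h3 : (q : kk) * p * dv ((v - p) * ϖ ^ (r' + 1)) = 0 := by
      rw [h1]
      linear_combination ((v - p) * ((r' + 1 : ℕ) : kk) * ϖ ^ r') * hqp -
        (ϖ ^ (r' + 1) * (((q : kk) + ((r' + 1 : ℕ) : kk)))) * hder -
        (ϖ ^ (r' + 1) * (v * dv p - p)) * hBqr
    rcases mul_eq_zero.1 h3 with h4 | h4
    · exact (mul_ne_zero hqk hp0 h4).elim
    · exact h4
  have hWc := eq_iotaK_of_dv _ hW
  set c1 : ℂ := ckf ((v - p) * ϖ ^ r) 0 with hc1
  have hc10 : c1 ≠ 0 := by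
    intro h0
    rw [h0, map_zero] at hWc
    rcases mul_eq_zero.1 hWc with h3 | h3
    · exact odeK_sq κ y hy hκ (sub_eq_zero.1 h3).symm
    · exact pow_ne_zero _ hϖ0 h3
  have hvr : v * ϖ ^ r = ϖ ^ (q + r) + iotaK c1 := by
    rw [pow_add, hϖ]
    linear_combination hWc
  refine ⟨q, r, c1, ϖ, hq0, hr0, hqr, hc10, hϖ0, ?_, hvr, ?_⟩
  · intro h0
    have h1 := eq_iotaK_of_dk ϖ h0
    rw [h1, ← map_pow, ← map_pow, ← map_add, mul_comm] at hvr
    have h3 := congrArg (fun z => ckf z (-1)) hvr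
    beta_reduce at h3
    rw [ckf_iotaK_mul, hv, ckf_tp, ckf_iotaK_of_ne _ (by norm_num : (-1 : ℚ) ≠ 0), mul_one] at h3
    have h4 : ckf ϖ 0 ≠ 0 := by
      intro h5
      rw [h5, map_zero] at h1
      exact hϖ0 h1
    exact pow_ne_zero _ h4 h3
  · have h3 : iotaK (b * c1 / (2 * b - 1)) = B * iotaK c1 / (2 * B - 1) := by
      rw [map_div₀, map_mul, map_sub, map_mul, map_one, map_ofNat]
    have h4 : iotaK (1 / 2) = (1 : kk) / 2 := by
      rw [map_div₀, map_one, map_ofNat]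
    rw [h3, h4]
    have h5 : 2 * (2 * B - 1) * (κ * ϖ ^ r) =
        (2 * B - 1) * ϖ ^ (2 * q + r) + 2 * (B * iotaK c1) * ϖ ^ q := by
      have e1 : ϖ ^ (2 * q + r) = p * p * ϖ ^ r := by
        rw [pow_add, two_mul, pow_add, hϖ]
      have e2 : ϖ ^ (q + r) = p * ϖ ^ r := by rw [pow_add, hϖ]
      rw [e1, hϖ]
      rw [e2] at hvr
      linear_combination ϖ ^ r * h + 2 * B * p * hvr
    field_simp
    linear_combination h5

end Pool.Agent.Work.MP_abe657_gt
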