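import Pool.Agent.Work.MP_abe657_gt.Defs

/-!
Module Ord (S-M). Calculus of leading exponents in `LL` (thin wrappers around
`HahnSeries` lemmas: `coeff_mul`, `order_mul`, `leadingCoeff_mul`, `coeff_eq_zero_of_lt_order`, ...).
-/

set_option autoImplicit false

namespace Pool.Agent.Work.MP_abe657_gt

section generalR

variable {R : Type} [Field R]

theorem coeff_mul_zero_aux (x y : HahnSeries ℚ R) (a b q : ℚ) (hx : ∀ p, p < a → x.coeff p = 0)
    (hy : ∀ p, p < b → y.coeff p = 0) (hq : q < a + b) : (x * y).coeff q = 0 := by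
  rw [HahnSeries.coeff_mul]
  apply Finset.sum_eq_zero
  intro ij hij
  have h : ij.1 + ij.2 = q := (Finset.mem_antidiagonal.mp hij).2.2
  by_cases h1 : ij.1 < a
  · rw [hx _ h1, zero_mul]
  · have h2 : ij.2 < b := by linarith
    rw [hy _ h2, mul_zero]

theorem coeff_mul_lead_aux (x y : HahnSeries ℚ R) (a b : ℚ) (hx : ∀ p, p < a → x.coeff p = 0)
    (hy : ∀ p, p < b → y.coeff p = 0) :
    (x * y).coeff (a + b) = x.coeff a * y.coeff b := by
  rw [HahnSeries.coeff_mul]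
  rw [Finset.sum_eq_single (a, b)]
  · intro ij hij hne
    have h : ij.1 + ij.2 = a + b := (Finset.mem_antidiagonal.mp hij).2.2
    by_cases h1 : ij.1 < a
    · rw [hx _ h1, zero_mul]
    · have h2 : ij.2 < b := by
        rcases lt_or_eq_of_le (not_lt.mp h1) with h3 | h3
        · linarith
        · exfalso
          apply hne
          have h4 : ij.2 = b := by linarith
          exact Prod.ext h3.symm h4
      rw [hy _ h2, mul_zero]
  · intro hnot
    by_contra hne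
    apply hnot
    rw [Finset.mem_antidiagonal]
    refine ⟨?_, ?_, rfl⟩
    · rw [HahnSeries.mem_support]
      exact left_ne_zero_of_mul hne
    · rw [HahnSeries.mem_support]
      exact right_ne_zero_of_mul hne

theorem coeff_C_mul_aux (c : R) (x : HahnSeries ℚ R) (q : ℚ) :
    (HahnSeries.C c * x).coeff q = c * x.coeff q := by
  rw [HahnSeries.C_mul_eq_smul, HahnSeries.coeff_smul, smul_eq_mul]

end generalR

/-- all exponents of `x` are `≥ a` -/
def Ge (x : LL) (a : ℚ) : Prop := ∀ q : ℚ, q < a → cf x q = 0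

theorem Ge.mono {x : LL} {a b : ℚ} (h : Ge x a) (hab : b ≤ a) : Ge x b :=
  fun q hq => h q (lt_of_lt_of_le hq hab)

theorem Ge.add {x y : LL} {a : ℚ} (hx : Ge x a) (hy : Ge y a) : Ge (x + y) a :=
  fun q hq => by rw [cf_add, hx q hq, hy q hq, add_zero]

theorem cf_neg (x : LL) (q : ℚ) : cf (-x) q = -cf x q :=
  HahnSeries.coeff_neg (Γ := ℚ) (R := kk)

theorem Ge.neg {x : LL} {a : ℚ} (hx : Ge x a) : Ge (-x) a :=
  fun q hq => by rw [cf_neg, hx q hq, neg_zero]

theorem Ge.sub {x y : LL} {a : ℚ} (hx : Ge x a) (hy : Ge y a) : Ge (x - y) a := by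
  rw [sub_eq_add_neg]
  exact hx.add hy.neg

theorem cf_sub (x y : LL) (q : ℚ) : cf (x - y) q = cf x q - cf y q := by
  rw [sub_eq_add_neg, cf_add, cf_neg, sub_eq_add_neg]

theorem Ge.mul {x y : LL} {a b : ℚ} (hx : Ge x a) (hy : Ge y b) : Ge (x * y) (a + b) :=
  fun q hq => coeff_mul_zero_aux (R := kk) x y a b q hx hy hq

theorem cf_mul_lead {x y : LL} {a b : ℚ} (hx : Ge x a) (hy : Ge y b) :
    cf (x * y) (a + b) = cf x a * cf y b :=
  coeff_mul_lead_aux (R := kk) x y a b hx hy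

theorem exists_ord {x : LL} (hx : x ≠ 0) : ∃ a : ℚ, Ge x a ∧ cf x a ≠ 0 := by
  refine ⟨HahnSeries.order (Γ := ℚ) (R := kk) x, ?_, ?_⟩
  · intro q hq
    exact HahnSeries.coeff_eq_zero_of_lt_order (Γ := ℚ) (R := kk) hq
  · exact HahnSeries.coeff_order_eq_zero.not.mpr hx

theorem ne_zero_of_cf {x : LL} {a : ℚ} (h0 : cf x a ≠ 0) : x ≠ 0 := by
  rintro rfl
  exact h0 rfl

theorem Ge_cf_one : Ge (1 : LL) 0 ∧ cf 1 0 = 1 := by
  constructor
  · intro q hq
    exact HahnSeries.coeff_single_of_ne (Γ := ℚ) (R := kk) hq.ne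
  · exact HahnSeries.coeff_single_same (Γ := ℚ) (R := kk) 0 1

theorem inv_aux {x : LL} {a : ℚ} (hx : Ge x a) (h0 : cf x a ≠ 0) :
    Ge x⁻¹ (-a) ∧ cf x⁻¹ (-a) = (cf x a)⁻¹ := by
  have hxne := ne_zero_of_cf h0
  obtain ⟨b, hb, hb0⟩ := exists_ord (inv_ne_zero hxne)
  have h1 := cf_mul_lead hx hb
  have h2 := hx.mul hb
  rw [mul_inv_cancel₀ hxne] at h1 h2
  have hne : cf (1 : LL) (a + b) ≠ 0 := by
    rw [h1]
    exact mul_ne_zero h0 hb0
  have hab : a + b = 0 := by
    rcases lt_trichotomy (a + b) 0 with h | h | h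
    · exact absurd (Ge_cf_one.1 _ h) hne
    · exact h
    · have := h2 0 h
      rw [Ge_cf_one.2] at this
      exact absurd this one_ne_zero
  have hb' : b = -a := by linarith
  subst hb'
  refine ⟨hb, ?_⟩
  rw [hab, Ge_cf_one.2] at h1
  exact eq_inv_of_mul_eq_one_right h1.symm

theorem Ge.inv {x : LL} {a : ℚ} (hx : Ge x a) (h0 : cf x a ≠ 0) : Ge x⁻¹ (-a) :=
  (inv_aux hx h0).1

theorem cf_inv_lead {x : LL} {a : ℚ} (hx : Ge x a) (h0 : cf x a ≠ 0) :
    cf x⁻¹ (-a) = (cf x a)⁻¹ :=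
  (inv_aux hx h0).2

/-- `x = 0` if all exponents are `≥ a` for every `a` -/
theorem eq_zero_of_forall_Ge {x : LL} (h : ∀ a, Ge x a) : x = 0 := by
  apply LL_ext
  intro q
  exact h (q + 1) q (by linarith)

theorem Ge.thA {x : LL} {a : ℚ} (hx : Ge x a) : Ge (thA x) a := by
  intro q hq
  rw [cf_thA, hx q hq, mul_zero, neg_zero]

theorem Ge.dT {x : LL} {a : ℚ} (hx : Ge x a) : Ge (dT x) a := by
  intro q hq
  rw [cf_dT, hx q hq, map_zero]

theorem Ge_AA : Ge AA (-1) := by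
  intro q hq
  exact HahnSeries.coeff_single_of_ne (Γ := ℚ) (R := kk) hq.ne

theorem cf_AA : cf AA (-1) = 1 :=
  HahnSeries.coeff_single_same (Γ := ℚ) (R := kk) (-1) 1

theorem Ge_iotaL (c : kk) : Ge (iotaL c) 0 := by
  intro q hq
  exact HahnSeries.coeff_single_of_ne (Γ := ℚ) (R := kk) hq.ne

theorem cf_iotaL (c : kk) : cf (iotaL c) 0 = c :=
  HahnSeries.coeff_single_same (Γ := ℚ) (R := kk) 0 c

theorem cf_iotaL_mul (c : kk) (x : LL) (q : ℚ) : cf (iotaL c * x) q = c * cf x q :=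
  coeff_C_mul_aux (R := kk) c x q

theorem cf_smul (c : ℂ) (x : LL) (q : ℚ) : cf (c • x) q = iotaK c * cf x q := by
  rw [Algebra.smul_def]
  exact cf_iotaL_mul (iotaK c) x q

theorem cf_AA_mul (x : LL) (q : ℚ) : cf (AA * x) q = cf x (q + 1) := by
  have h := HahnSeries.coeff_single_mul_add (Γ := ℚ) (R := kk) (r := 1)
    (x := (x : HahnSeries ℚ kk)) (a := q + 1) (b := -1)
  rw [one_mul] at h
  have h2 : q + 1 + -1 = q := by ring
  rw [h2] at h
  exact h

end Pool.Agent.Work.MP_abe657_gt
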