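import Pool.Agent.Work.MP_abe657_gt.Defs

/-!
Module Plane (S-M). A polynomial vanishing on the plane `⟨v, x⟩ = 0` is divisible by the linear form.

Proof. Choose `a` with `v a ≠ 0`. The algebra endomorphism `σ` of `ℂ[x]` with
`X a ↦ X a - (v a)⁻¹ linForm v` and `X b ↦ X b` for `b ≠ a` satisfies `linForm v ∣ H - σ H` for all `H`
(induction), and the values of `σ H` at `x` are those of `H` at the point of the plane obtained
from `x` by changing the coordinate `a`, so `σ H = 0` (`MvPolynomial.funext`).
-/

set_option autoImplicit false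

namespace Pool.Agent.Work.MP_abe657_gt

open MvPolynomial

theorem plane_dvd (H : MvPolynomial (Fin 3) ℂ) (v : Fin 3 → ℂ) (hv : v ≠ 0)
    (h : ∀ x : Fin 3 → ℂ, ∑ i, v i * x i = 0 → eval x H = 0) : linForm v ∣ H := by
  classical
  obtain ⟨a, ha⟩ : ∃ a, v a ≠ 0 := by
    by_contra hcon
    push Not at hcon
    exact hv (funext hcon)
  set σ : MvPolynomial (Fin 3) ℂ →ₐ[ℂ] MvPolynomial (Fin 3) ℂ :=
    aeval (fun b : Fin 3 => if b = a then X a - C (v a)⁻¹ * linForm v else X b) with hσ
  have hdvd : ∀ G : MvPolynomial (Fin 3) ℂ, linForm v ∣ G - σ G := by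
    intro G
    induction G using MvPolynomial.induction_on with
    | C c =>
      rw [hσ, algHom_C]
      simp
    | add p q hp hq =>
      rw [map_add]
      have : p + q - (σ p + σ q) = (p - σ p) + (q - σ q) := by ring
      rw [this]
      exact dvd_add hp hq
    | mul_X p n hp =>
      rw [map_mul]
      have h1 : linForm v ∣ X n - σ (X n) := by
        rw [hσ, aeval_X]
        split_ifs with hn
        · subst hn
          rw [sub_sub_cancel]
          exact dvd_mul_left _ _
        · simp
      have : p * X n - σ p * σ (X n) = (p - σ p) * X n + σ p * (X n - σ (X n)) := by ring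
      rw [this]
      exact dvd_add (dvd_mul_of_dvd_left hp _) (dvd_mul_of_dvd_right h1 _)
  have hσ0 : σ H = 0 := by
    apply MvPolynomial.funext
    intro x
    rw [map_zero]
    have hcomp : (eval x : MvPolynomial (Fin 3) ℂ →+* ℂ).comp (σ : MvPolynomial (Fin 3) ℂ →+* MvPolynomial (Fin 3) ℂ) =
        eval (fun b : Fin 3 => if b = a then x a - (v a)⁻¹ * ∑ i, v i * x i else x b) := by
      apply MvPolynomial.ringHom_ext
      · intro c
        simp [hσ]
      · intro n
        simp only [RingHom.comp_apply, RingHom.coe_coe, hσ, aeval_X, eval_X]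
        split_ifs with hn
        · simp [linForm]
        · simp
    have h1 : eval x (σ H) = eval (fun b : Fin 3 => if b = a then x a - (v a)⁻¹ * ∑ i, v i * x i
        else x b) H := by
      rw [← hcomp]
      rfl
    rw [h1]
    apply h
    have h2 : ∀ i : Fin 3, v i * (if i = a then x a - (v a)⁻¹ * ∑ i, v i * x i else x i) =
        v i * x i - (if i = a then ∑ i, v i * x i else 0) := by
      intro i
      split_ifs with hi
      · subst hi
        field_simp
      · ring
    rw [Finset.sum_congr rfl (fun i _ => h2 i), Finset.sum_sub_distrib]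
    simp
  have := hdvd H
  rwa [hσ0, sub_zero] at this

end Pool.Agent.Work.MP_abe657_gt
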