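import Pool.Agent.Work.MP_abe657_gt.Frame
import Pool.Agent.Work.MP_abe657_gt.Plane
import Pool.Agent.Work.MP_abe657_gt.Homog

/-!
Module RootKK (M-L). The root at infinity in the inner field.

Setting: `H` homogeneous of degree `d > 0`, `g` orthogonal with `H(g e) ≠ 0`. Then the polynomial
`h(κ) = H(g (y(t) + κ e)) ∈ kk[κ]` has degree exactly `d` (its `κ^d` coefficient is `H(g e)`), and
`h(0) = H(g y(t)) ≠ 0`: it is a polynomial in `t` whose `t^(2d)` coefficient is
`H(g y₂) = 2^(-d) H(g e) ≠ 0`, `y₂ = (-1, i, 0) = e/2`, and `tk` is transcendental over `ℂ`.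
As `kk` is algebraically closed there is a root `κ`, and `κ ≠ 0`.

Claim: `κ` does not satisfy `(dk κ)^2 = -2 κ`, if no isotropic linear form divides `H`. Suppose it
does. Differentiate: `2 κ' κ'' = -2 κ'`, `κ' ≠ 0` (as `κ ≠ 0`), so `κ'' = -1`, so `κ' + t` is a constant
`t₀ ∈ ℂ` (kernel of `dk` is `ℂ`: look at coefficients), `κ = -(t - t₀)^2/2`. Then
`y(t) + κ e = u₀ + t u₁` with `u₀ = (1+t₀², i(1-t₀²), 0)`, `u₁ = (-2t₀, 2it₀, 2)`, and
`H(g(u₀ + t u₁)) = 0` in `kk`; since `t` is transcendental, `H(g(u₀ + τ u₁)) = 0` for all `τ ∈ ℂ`, by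
homogeneity (and continuity/polynomial identity) `H(g(α u₀ + β u₁)) = 0` for all `α, β ∈ ℂ`. The
vectors `g u₀, g u₁` span the plane `⟨v, x⟩ = 0` with `v = g y(t₀)`, which is isotropic and non-zero:
by `plane_dvd`, `linForm v ∣ H`. Contradiction.
-/

set_option autoImplicit false

namespace Pool.Agent.Work.MP_abe657_gt

open MvPolynomial

lemma rkk_poly_eval (w : Fin 3 → Polynomial ℂ) (H : MvPolynomial (Fin 3) ℂ) (τ : ℂ) :
    (aeval w H).eval τ = eval (fun a => (w a).eval τ) H := by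
  have h : ((Polynomial.aeval τ : Polynomial ℂ →ₐ[ℂ] ℂ)).comp (aeval w)
      = (aeval (fun a => (w a).eval τ) : MvPolynomial (Fin 3) ℂ →ₐ[ℂ] ℂ) := by
    apply MvPolynomial.algHom_ext
    intro a
    simp only [AlgHom.comp_apply, aeval_X, Polynomial.coe_aeval_eq_eval]
  have h2 := congrArg (fun f => f H) h
  exact h2

lemma rkk_poly_tk (w : Fin 3 → Polynomial ℂ) (H : MvPolynomial (Fin 3) ℂ) :
    Polynomial.aeval tk (aeval w H) = aeval (fun a => Polynomial.aeval tk (w a)) H := by
  have h : ((Polynomial.aeval tk : Polynomial ℂ →ₐ[ℂ] kk)).comp (aeval w)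
      = (aeval (fun a => Polynomial.aeval tk (w a)) : MvPolynomial (Fin 3) ℂ →ₐ[ℂ] kk) := by
    apply MvPolynomial.algHom_ext
    intro a
    simp only [AlgHom.comp_apply, aeval_X]
  have h2 := congrArg (fun f => f H) h
  exact h2

/-- coefficient in the inner field -/
private noncomputable def ck (q : ℚ) : kk →+ ℂ where
  toFun x := HahnSeries.coeff (Γ := ℚ) (R := ℂ) x q
  map_zero' := rfl
  map_add' _ _ := rfl

private lemma tk_pow (n : ℕ) : tk ^ n = (HahnSeries.single (n : ℚ) (1 : ℂ) : HahnSeries ℚ ℂ) := by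
  induction n with
  | zero =>
    simp
    rfl
  | succ n ih =>
    rw [pow_succ, ih]
    have : (HahnSeries.single (n : ℚ) (1 : ℂ) : HahnSeries ℚ ℂ) *
        (HahnSeries.single (1 : ℚ) (1 : ℂ)) =
        HahnSeries.single ((n : ℚ) + 1) ((1 : ℂ) * 1) := HahnSeries.single_mul_single
    refine this.trans ?_
    rw [mul_one]
    push_cast
    rfl

private lemma ck_aeval (P : Polynomial ℂ) (n : ℕ) :
    ck (n : ℚ) (Polynomial.aeval tk P) = P.coeff n := by
  rw [Polynomial.aeval_eq_sum_range, map_sum]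
  have h : ∀ i, ck (n : ℚ) (P.coeff i • tk ^ i) = if n = i then P.coeff i else 0 := by
    intro i
    have h1 : P.coeff i • tk ^ i =
        (show kk from (HahnSeries.single (i : ℚ) (P.coeff i) : HahnSeries ℚ ℂ)) := by
      rw [Algebra.smul_def, tk_pow]
      have h2 : (HahnSeries.C (P.coeff i) : HahnSeries ℚ ℂ) *
          (HahnSeries.single (i : ℚ) (1 : ℂ)) = HahnSeries.single (i : ℚ) (P.coeff i) := by
        rw [HahnSeries.C_apply, HahnSeries.single_mul_single, zero_add, mul_one]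
      exact h2
    rw [h1]
    show HahnSeries.coeff (HahnSeries.single (i : ℚ) (P.coeff i) : HahnSeries ℚ ℂ) (n : ℚ) = _
    split_ifs with h
    · rw [h, HahnSeries.coeff_single_same]
    · rw [HahnSeries.coeff_single_of_ne]
      intro h'
      exact h (by exact_mod_cast h')
  simp only [h]
  rw [Finset.sum_ite_eq]
  split_ifs with h
  · rfl
  · rw [Polynomial.coeff_eq_zero_of_natDegree_lt]
    simpa using h

lemma rkk_tk_transc (P : Polynomial ℂ) (h : Polynomial.aeval tk P = 0) : P = 0 := by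
  ext n
  rw [← ck_aeval, h, map_zero, Polynomial.coeff_zero]

private lemma dk_tk : dk tk = 1 := by
  have h : (ddFun (HahnSeries.single (1 : ℚ) (1 : ℂ)) : HahnSeries ℚ ℂ) = 1 := by
    ext q
    rw [ddFun_coeff]
    by_cases hq : q = 0
    · subst hq
      simp
    · rw [HahnSeries.coeff_one, if_neg hq, HahnSeries.coeff_single_of_ne, mul_zero]
      intro h
      apply hq
      linarith
  exact h

private lemma dk_ker (x : kk) (h : dk x = 0) : ∃ c : ℂ, x = algebraMap ℂ kk c := by
  refine ⟨ck 0 x, ?_⟩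
  have h1 : ∀ q : ℚ, q ≠ 0 → ck q x = 0 := by
    intro q hq
    have h2 : (ddFun (R := ℂ) x).coeff (q - 1) = 0 := by
      have h3 : ddFun (R := ℂ) x = (0 : HahnSeries ℚ ℂ) := h
      rw [h3]
      rfl
    rw [ddFun_coeff] at h2
    have e : q - 1 + 1 = q := by ring
    rw [e] at h2
    rcases mul_eq_zero.mp h2 with h4 | h4
    · exfalso
      apply hq
      exact_mod_cast h4
    · exact h4
  apply HahnSeries.ext
  funext q
  show ck q x = HahnSeries.coeff (HahnSeries.C (ck 0 x) : HahnSeries ℚ ℂ) q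
  rw [HahnSeries.C_apply]
  by_cases hq : q = 0
  · subst hq
    rw [HahnSeries.coeff_single_same]
  · rw [h1 q hq, HahnSeries.coeff_single_of_ne hq]

private lemma vanish_zero (P : Polynomial ℂ) (h : ∀ τ : ℂ, τ ≠ 0 → P.eval τ = 0) : P = 0 := by
  have : P * Polynomial.X = 0 := by
    apply Polynomial.funext
    intro τ
    rw [Polynomial.eval_mul, Polynomial.eval_X, Polynomial.eval_zero]
    by_cases hτ : τ = 0
    · rw [hτ, mul_zero]
    · rw [h τ hτ, zero_mul]
  rcases mul_eq_zero.mp this with h | h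
  · exact h
  · exact absurd h Polynomial.X_ne_zero

lemma rkk_y_ne (H : MvPolynomial (Fin 3) ℂ) (d : ℕ)
    (hH : H.IsHomogeneous d) (g : Matrix (Fin 3) (Fin 3) ℂ)
    (hge : eval (g.mulVec (evec ℂ)) H ≠ 0) : aeval (hg_gv g (yv tk)) H ≠ 0 := by
  intro h0
  -- the polynomial in `t`
  set w : Fin 3 → Polynomial ℂ := hg_gv g (yv Polynomial.X) with hw
  have h1 : Polynomial.aeval tk (aeval w H) = 0 := by
    rw [rkk_poly_tk, ← h0]
    congr 2
    funext a
    simp only [hw, hg_gv, map_sum, map_mul, Polynomial.algebraMap_eq, Polynomial.aeval_C]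
    refine Finset.sum_congr rfl fun b _ => ?_
    congr 1
    have h22 : Polynomial.aeval tk (2 : Polynomial ℂ) = 2 := map_ofNat _ 2
    fin_cases b
    · simp [yv]
    · simp [yv]
    · simp [yv, h22]
  have h2 := rkk_tk_transc _ h1
  have h3 : ∀ τ : ℂ, eval (hg_gv g (yv τ)) H = 0 := by
    intro τ
    have := rkk_poly_eval w H τ
    rw [h2, Polynomial.eval_zero] at this
    rw [this]
    congr 2
    funext a
    simp only [hw, hg_gv, Polynomial.eval_finsetSum, Polynomial.eval_mul, Polynomial.algebraMap_eq,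
      Polynomial.eval_C]
    refine Finset.sum_congr rfl fun b _ => ?_
    congr 1
    fin_cases b
    · simp [yv]
    · simp [yv]
    · simp [yv]
  -- the reversed polynomial
  set z : Fin 3 → Polynomial ℂ :=
    ![Polynomial.X ^ 2 - 1, Polynomial.C Complex.I * (Polynomial.X ^ 2 + 1), 2 * Polynomial.X]
    with hz
  have h4 : aeval (hg_gv g z) H = 0 := by
    apply vanish_zero
    intro σ hσ
    rw [rkk_poly_eval]
    have e : (fun a => (hg_gv g z a).eval σ) = fun a => (σ ^ 2) * hg_gv g (yv σ⁻¹) a := by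
      funext a
      simp only [hg_gv, Polynomial.eval_finsetSum, Polynomial.eval_mul, Polynomial.algebraMap_eq,
        Polynomial.eval_C, Finset.mul_sum]
      refine Finset.sum_congr rfl fun b _ => ?_
      fin_cases b
      · simp [yv, hz]
        field_simp
      · simp [yv, hz]
        field_simp
      · simp [yv, hz]
        field_simp
    rw [e]
    have := hg_homog_aeval H d hH (σ ^ 2) (hg_gv g (yv σ⁻¹))
    have h5 : eval (fun a => (σ ^ 2) * hg_gv g (yv σ⁻¹) a) H = (σ ^ 2) ^ d *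
      eval (hg_gv g (yv σ⁻¹)) H := this
    rw [h5, h3, mul_zero]
  have h5 := rkk_poly_eval (hg_gv g z) H 0
  rw [h4, Polynomial.eval_zero] at h5
  have e : (fun a => (hg_gv g z a).eval 0) = fun a => (1 / 2 : ℂ) * g.mulVec (evec ℂ) a := by
    funext a
    simp only [hg_gv, Polynomial.eval_finsetSum, Polynomial.eval_mul, Polynomial.algebraMap_eq,
      Polynomial.eval_C, Matrix.mulVec, dotProduct, Finset.mul_sum]
    refine Finset.sum_congr rfl fun b _ => ?_
    fin_cases b
    · simp [hz, evec]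
      ring
    · simp [hz, evec]
      ring
    · simp [hz, evec]
  rw [e] at h5
  have h6 : eval (fun a => (1 / 2 : ℂ) * g.mulVec (evec ℂ) a) H =
      (1 / 2) ^ d * eval (g.mulVec (evec ℂ)) H := hg_homog_aeval H d hH (1 / 2) _
  rw [h6] at h5
  exact mul_ne_zero (pow_ne_zero _ (by norm_num)) hge h5.symm

theorem root_kk [IsAlgClosed kk] (H : MvPolynomial (Fin 3) ℂ) (d : ℕ) (hd : 0 < d)
    (hH : H.IsHomogeneous d) (g : Matrix (Fin 3) (Fin 3) ℂ) (hg : g.transpose * g = 1)
    (hge : eval (g.mulVec (evec ℂ)) H ≠ 0)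
    (hiso : ∀ v : Fin 3 → ℂ, v ≠ 0 → ∑ i, v i ^ 2 = 0 → ¬ (linForm v ∣ H)) :
    ∃ κ : kk, κ ≠ 0 ∧
      aeval (fun a => ∑ b, algebraMap ℂ kk (g a b) * (yv tk b + κ * evec kk b)) H = 0 ∧
      (dk κ) ^ 2 ≠ -2 * κ := by
  have hc := hg_phiK_coeff g H d hH
  have hcd : (hg_phiK g H).coeff d ≠ 0 := by
    rw [hc.2, Ne, map_eq_zero]
    exact hge
  have hdeg : (hg_phiK g H).degree ≠ 0 := by
    intro h0
    have := Polynomial.le_degree_of_ne_zero hcd
    rw [h0] at this
    have h1 : d ≤ 0 := by exact_mod_cast this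
    omega
  obtain ⟨κ, hκ⟩ := IsAlgClosed.exists_root (hg_phiK g H) hdeg
  have hκ' : (hg_phiK g H).eval κ = 0 := hκ
  have hroot := hg_eval_phiK g H κ
  rw [hκ'] at hroot
  have hκ0 : κ ≠ 0 := by
    rintro rfl
    apply rkk_y_ne H d hH g hge
    rw [hg_phiK, hg_eval_linSub] at hκ'
    simpa using hκ'
  refine ⟨κ, hκ0, hroot.symm, ?_⟩
  intro hdk
  have hd1 : dk κ ≠ 0 := by
    intro h0
    rw [h0] at hdk
    apply hκ0
    have h2 : (2 : kk) ≠ 0 := two_ne_zero
    have : (2 : kk) * κ = 0 := by linear_combination hdk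
    exact (mul_eq_zero.mp this).resolve_left h2
  have hd2 : dk (dk κ) = -1 := by
    have h1 := congrArg dk hdk
    have h2 : dk (-2 * κ) = -2 * dk κ := by
      have h3 : (-2 : kk) * κ = ((-2 : ℂ)) • κ := by
        rw [Algebra.smul_def, map_neg, map_ofNat]
      have h4 : (-2 : kk) * dk κ = ((-2 : ℂ)) • dk κ := by
        rw [Algebra.smul_def, map_neg, map_ofNat]
      rw [h3, h4, dk.map_smul]
    rw [h2, sq, Derivation.leibniz, smul_eq_mul] at h1
    have h5 : (2 * dk κ) * dk (dk κ) = (2 * dk κ) * (-1) := by linear_combination h1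
    exact mul_left_cancel₀ (mul_ne_zero two_ne_zero hd1) h5
  obtain ⟨t₀, ht₀⟩ := dk_ker (dk κ + tk) (by rw [map_add, hd2, dk_tk]; ring)
  have hI : (algebraMap ℂ kk Complex.I) ^ 2 = -1 := by
    rw [← map_pow, Complex.I_sq, map_neg, map_one]
  set T : kk := algebraMap ℂ kk t₀ with hT
  have hκeq : 2 * κ = -(tk - T) ^ 2 := by
    have h1 : dk κ = T - tk := by linear_combination ht₀
    rw [h1] at hdk
    linear_combination hdk
  set u₀ : Fin 3 → ℂ := ![1 + t₀ ^ 2, Complex.I * (1 - t₀ ^ 2), 0] with hu₀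
  set u₁ : Fin 3 → ℂ := ![-2 * t₀, 2 * Complex.I * t₀, 2] with hu₁
  -- the polynomial in the plane
  set w : Fin 3 → Polynomial ℂ := fun a => Polynomial.C (hg_gv g u₀ a) +
    Polynomial.X * Polynomial.C (hg_gv g u₁ a) with hw
  have h1 : Polynomial.aeval tk (aeval w H) = 0 := by
    rw [rkk_poly_tk, hroot]
    congr 2
    funext a
    have e1 : Polynomial.aeval tk (w a) =
        ∑ b, algebraMap ℂ kk (g a b) * (algebraMap ℂ kk (u₀ b) + tk * algebraMap ℂ kk (u₁ b)) := by
      simp only [hw, map_add, map_mul, Polynomial.aeval_C, Polynomial.aeval_X, hg_gv, map_sum,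
        Algebra.algebraMap_self, RingHom.id_apply, Finset.mul_sum, mul_add,
        Finset.sum_add_distrib]
      congr 1
      refine Finset.sum_congr rfl fun b _ => ?_
      ring
    rw [e1]
    refine Finset.sum_congr rfl fun b _ => ?_
    congr 1
    have hm2 : algebraMap ℂ kk 2 = 2 := map_ofNat _ 2
    fin_cases b
    · simp [hu₀, hu₁, yv, evec, hm2]
      linear_combination hκeq
    · simp [hu₀, hu₁, yv, evec, hm2]
      linear_combination (-(algebraMap ℂ kk Complex.I)) * hκeq
    · simp [hu₀, hu₁, yv, evec, hm2]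
      ring
  have h2 := rkk_tk_transc _ h1
  have h3 : ∀ τ : ℂ, eval (fun a => hg_gv g u₀ a + τ * hg_gv g u₁ a) H = 0 := by
    intro τ
    have := rkk_poly_eval w H τ
    rw [h2, Polynomial.eval_zero] at this
    rw [this]
    congr 2
    funext a
    simp [hw]
    ring
  have h4 : ∀ α β : ℂ, α ≠ 0 → eval (fun a => α * hg_gv g u₀ a + β * hg_gv g u₁ a) H = 0 := by
    intro α β hα
    have e : (fun a => α * hg_gv g u₀ a + β * hg_gv g u₁ a) =
        fun a => α * (hg_gv g u₀ a + (β / α) * hg_gv g u₁ a) := by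
      funext a
      field_simp
    have h5 : eval (fun a => α * (hg_gv g u₀ a + (β / α) * hg_gv g u₁ a)) H =
      α ^ d * eval (fun a => hg_gv g u₀ a + (β / α) * hg_gv g u₁ a) H := hg_homog_aeval H d hH α _
    rw [e, h5, h3, mul_zero]
  have h5 : ∀ α β : ℂ, eval (fun a => α * hg_gv g u₀ a + β * hg_gv g u₁ a) H = 0 := by
    intro α β
    have h6 : aeval (fun a => Polynomial.X * Polynomial.C (hg_gv g u₀ a) +
        Polynomial.C (β * hg_gv g u₁ a)) H = (0 : Polynomial ℂ) := by
      apply vanish_zero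
      intro τ hτ
      rw [rkk_poly_eval, ← h4 τ β hτ]
      congr 2
      funext a
      simp
      ring
    have h7 := rkk_poly_eval (fun a => Polynomial.X * Polynomial.C (hg_gv g u₀ a) +
        Polynomial.C (β * hg_gv g u₁ a)) H α
    rw [h6, Polynomial.eval_zero] at h7
    rw [h7]
    congr 2
    funext a
    simp
    ring
  -- the isotropic vector
  set v : Fin 3 → ℂ := hg_gv g (yv t₀) with hv
  have hyy : ∑ a, (yv t₀ : Fin 3 → ℂ) a * yv t₀ a = 0 := by
    simp [Fin.sum_univ_three, yv]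
    linear_combination (1 + t₀ ^ 2) ^ 2 * Complex.I_sq
  have hviso : ∑ i, v i ^ 2 = 0 := by
    rw [← hyy, ← hg_gv_sq g hg]
    refine Finset.sum_congr rfl fun a _ => ?_
    rw [hv, sq]
  have hggT : g * g.transpose = 1 := mul_eq_one_comm.mp hg
  have hgv : ∀ z : Fin 3 → ℂ, hg_gv g z = g.mulVec z := fun z => rfl
  have hv0 : v ≠ 0 := by
    intro h0
    have h6 : g.transpose.mulVec v = yv t₀ := by
      rw [hv, hgv, Matrix.mulVec_mulVec, hg, Matrix.one_mulVec]
    rw [h0, Matrix.mulVec_zero] at h6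
    have h7 := congrFun h6 0
    have h8 := congrFun h6 1
    simp [yv] at h7 h8
    have h9 : (2 : ℂ) = 0 := by linear_combination h8 - h7
    exact two_ne_zero h9
  apply hiso v hv0 hviso
  apply plane_dvd H v hv0
  intro x hx
  set z : Fin 3 → ℂ := g.transpose.mulVec x with hz
  have hxz : x = hg_gv g z := by
    rw [hgv, hz, Matrix.mulVec_mulVec, hggT, Matrix.one_mulVec]
  have hyz : ∑ a, (yv t₀ : Fin 3 → ℂ) a * z a = 0 := by
    rw [← hg_gv_sq g hg, ← hx, ← hv, ← hxz]
  rw [Fin.sum_univ_three] at hyz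
  have hyz' : (1 - t₀ ^ 2) * z 0 + Complex.I * (1 + t₀ ^ 2) * z 1 + 2 * t₀ * z 2 = 0 := by
    simpa [yv] using hyz
  have hxe : x = fun a => ((z 0 - Complex.I * z 1) / 2) * hg_gv g u₀ a + (z 2 / 2) * hg_gv g u₁ a := by
    have hzz : z = fun b => ((z 0 - Complex.I * z 1) / 2) * u₀ b + (z 2 / 2) * u₁ b := by
      funext b
      fin_cases b
      · simp [hu₀, hu₁]
        linear_combination (1 / 2 : ℂ) * hyz'
      · simp [hu₀, hu₁]
        linear_combination (-(Complex.I / 2)) * hyz' + z 1 * Complex.I_sq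
      · simp [hu₀, hu₁]
    funext a
    rw [hxz]
    have h6 : hg_gv g z a = hg_gv g (fun b => ((z 0 - Complex.I * z 1) / 2) * u₀ b +
      (z 2 / 2) * u₁ b) a := by rw [← hzz]
    rw [h6]
    simp only [hg_gv, Finset.mul_sum, ← Finset.sum_add_distrib]
    refine Finset.sum_congr rfl fun b _ => ?_
    ring
  rw [hxe]
  exact h5 _ _

end Pool.Agent.Work.MP_abe657_gt
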