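import Mathlib

/-!
Module Slope (M). A Newton polygon lemma.

Proof. Suppose the first alternative fails. `φ ≠ 0`; write `φ = c₀ ∏_S (X - C_j) ∏_L (X - C_j)` with
`S` the roots that are `0` or of order `≥ 1`, `L` the (non-zero) roots of order `≤ -1`; let
`b = card S`. Put `B₀ = c₀ ∏_L (-C_j) ≠ 0`. The coefficient of `X^j` in `∏_L (1 - X/C_j)` has order
`≥ j` (and is `1` for `j = 0`), the coefficient of `X^i` in `∏_S (X - C_j)` has order `≥ b - i`
(and is `1` for `i = b`) (inductions on multisets). Hence, with `v` the order (`v 0 = ∞`),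
`v(φ_l) ≥ v(B₀) + |l - b|` for all `l`, and `v(φ_b) = v(B₀)` exactly (the term `i = b, j = 0` is `B₀`
and all others have order `≥ v(B₀) + 2`). By h3, h1: `v(φ_a) = -a`, so `-a ≥ v(B₀) + |a - b|`. If
`b ≠ a`, then by h1, h2 `v(B₀) = v(φ_b) > -(2a - b)`, so `-a > -(2a - b) + |a - b|`, i.e.
`-a > 2b - 3a` (if `b > a`) or `-a > -a` (if `b < a`): contradiction. So `b = a`, `v(B₀) = -a` and
`v(φ_l) ≥ -a + |l - a| ≥ -l`.
-/

set_option autoImplicit false

namespace Pool.Agent.Work.MP_abe657_gt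

/-- all exponents are `≥ a` -/
private def GqS {k : Type} [Field k] (x : HahnSeries ℚ k) (a : ℚ) : Prop :=
  ∀ q : ℚ, q < a → x.coeff q = 0

private lemma GqS_mul_gen {R : Type} [Field R] (x y : HahnSeries ℚ R) (a b : ℚ)
    (hx : GqS x a) (hy : GqS y b) :
    GqS (x * y) (a + b) ∧ (x * y).coeff (a + b) = x.coeff a * y.coeff b := by
  constructor
  · intro q hq
    rw [HahnSeries.coeff_mul]
    refine Finset.sum_eq_zero fun ij hij => ?_
    have h : ij.1 + ij.2 = q := (Finset.mem_antidiagonal.mp hij).2.2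
    by_cases h1 : ij.1 < a
    · rw [hx _ h1, zero_mul]
    · rw [hy _ (by linarith), mul_zero]
  · rw [HahnSeries.coeff_mul]
    by_cases hab : x.coeff a = 0 ∨ y.coeff b = 0
    · have h0 : x.coeff a * y.coeff b = 0 := by
        rcases hab with h | h <;> simp [h]
      rw [h0]
      refine Finset.sum_eq_zero fun ij hij => ?_
      have h : ij.1 + ij.2 = a + b := (Finset.mem_antidiagonal.mp hij).2.2
      rcases lt_trichotomy ij.1 a with h1 | h1 | h1
      · rw [hx _ h1, zero_mul]
      · have h2 : ij.2 = b := by linarith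
        rw [h1, h2, h0]
      · rw [hy _ (by linarith), mul_zero]
    · push Not at hab
      rw [Finset.sum_eq_single (a, b)]
      · intro ij hij hne
        have h : ij.1 + ij.2 = a + b := (Finset.mem_antidiagonal.mp hij).2.2
        rcases lt_trichotomy ij.1 a with h1 | h1 | h1
        · rw [hx _ h1, zero_mul]
        · have h2 : ij.2 = b := by linarith
          exact absurd (Prod.ext h1 h2) hne
        · rw [hy _ (by linarith), mul_zero]
      · intro hnot
        exfalso
        apply hnot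
        rw [Finset.mem_antidiagonal]
        exact ⟨hab.1, hab.2, rfl⟩

section
variable {k : Type} [Field k]

private lemma GqS_mul {x y : HahnSeries ℚ k} {a b : ℚ} (hx : GqS x a) (hy : GqS y b) :
    GqS (x * y) (a + b) := (GqS_mul_gen x y a b hx hy).1

private lemma GqS_coeff_mul {x y : HahnSeries ℚ k} {a b : ℚ} (hx : GqS x a) (hy : GqS y b) :
    (x * y).coeff (a + b) = x.coeff a * y.coeff b := (GqS_mul_gen x y a b hx hy).2

private lemma GqS_add {x y : HahnSeries ℚ k} {a : ℚ} (hx : GqS x a) (hy : GqS y a) :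
    GqS (x + y) a := fun q hq => by
  rw [HahnSeries.coeff_add, hx q hq, hy q hq, add_zero]

private lemma GqS_neg {x : HahnSeries ℚ k} {a : ℚ} (hx : GqS x a) :
    GqS (-x) a := fun q hq => by
  rw [HahnSeries.coeff_neg, hx q hq, neg_zero]

private lemma GqS_zero (a : ℚ) : GqS (0 : HahnSeries ℚ k) a := fun _ _ => rfl

private lemma GqS_mono {x : HahnSeries ℚ k} {a b : ℚ} (hx : GqS x a) (h : b ≤ a) :
    GqS x b := fun q hq => hx q (lt_of_lt_of_le hq h)

private lemma GqS_sum {ι : Type*} (s : Finset ι) (f : ι → HahnSeries ℚ k) (a : ℚ)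
    (h : ∀ i ∈ s, GqS (f i) a) : GqS (∑ i ∈ s, f i) a := by
  classical
  induction s using Finset.induction_on with
  | empty => simpa using GqS_zero a
  | insert i s his ih =>
    rw [Finset.sum_insert his]
    exact GqS_add (h i (Finset.mem_insert_self i s))
      (ih fun j hj => h j (Finset.mem_insert_of_mem hj))

private lemma GqS_C (c : k) : GqS (HahnSeries.C c : HahnSeries ℚ k) 0 := by
  intro q hq
  rw [HahnSeries.C_apply, HahnSeries.coeff_single_of_ne (ne_of_lt hq)]

private lemma GqS_one : GqS (1 : HahnSeries ℚ k) 0 := by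
  have := GqS_C (1 : k)
  rwa [map_one] at this

private lemma GqS_iff {x : HahnSeries ℚ k} (hx : x ≠ 0) (a : ℚ) : GqS x a ↔ a ≤ x.order :=
  (HahnSeries.le_order_iff_forall hx).symm

private lemma order_invS {x : HahnSeries ℚ k} (hx : x ≠ 0) : (x⁻¹).order = -x.order := by
  have h := HahnSeries.order_mul hx (inv_ne_zero hx)
  rw [mul_inv_cancel₀ hx, HahnSeries.order_one] at h
  linarith

private lemma GqS_inv {x : HahnSeries ℚ k} (hx : x ≠ 0) {a : ℚ} (h : x.order ≤ -a) :
    GqS x⁻¹ a := by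
  rw [GqS_iff (inv_ne_zero hx), order_invS hx]
  linarith

end

private lemma stepS {k : Type} [Field k] (κ : HahnSeries ℚ k) (hκ : GqS κ 1)
    (P : Polynomial (HahnSeries ℚ k)) (b : ℕ)
    (hP : ∀ l : ℕ, GqS (P.coeff l) |(l : ℚ) - b|) (hb : (P.coeff b).coeff 0 = 1) :
    (∀ l : ℕ, GqS (((Polynomial.X - Polynomial.C κ) * P).coeff l) |(l : ℚ) - (b + 1 : ℕ)|) ∧
      ((((Polynomial.X - Polynomial.C κ) * P).coeff (b + 1)).coeff 0 = 1) := by
  have hk : ∀ l : ℕ, GqS (κ * P.coeff l) (1 + |(l : ℚ) - b|) := fun l => GqS_mul hκ (hP l)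
  constructor
  · intro l
    rw [sub_mul, Polynomial.coeff_sub, Polynomial.coeff_C_mul, sub_eq_add_neg]
    have h2 : GqS (-(κ * P.coeff l)) |(l : ℚ) - (b + 1 : ℕ)| := by
      refine GqS_neg (GqS_mono (hk l) ?_)
      push_cast
      rw [abs_le]
      constructor
      · linarith [neg_abs_le ((l : ℚ) - b)]
      · linarith [le_abs_self ((l : ℚ) - b)]
    refine GqS_add ?_ h2
    cases l with
    | zero => rw [Polynomial.coeff_X_mul_zero]; exact GqS_zero _
    | succ l =>
      rw [Polynomial.coeff_X_mul]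
      refine GqS_mono (hP l) (le_of_eq ?_)
      congr 1
      push_cast
      ring
  · rw [sub_mul, Polynomial.coeff_sub, Polynomial.coeff_C_mul, Polynomial.coeff_X_mul,
      HahnSeries.coeff_sub, hb, hk (b + 1) 0 (by
        push_cast
        rw [show (b : ℚ) + 1 - b = 1 by ring]
        norm_num), sub_zero]

private lemma stepL {k : Type} [Field k] (κ : HahnSeries ℚ k) (hκ : GqS κ 1)
    (P : Polynomial (HahnSeries ℚ k)) (b : ℕ)
    (hP : ∀ l : ℕ, GqS (P.coeff l) |(l : ℚ) - b|) (hb : (P.coeff b).coeff 0 = 1) :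
    (∀ l : ℕ, GqS (((1 - Polynomial.C κ * Polynomial.X) * P).coeff l) |(l : ℚ) - b|) ∧
      ((((1 - Polynomial.C κ * Polynomial.X) * P).coeff b).coeff 0 = 1) := by
  have hk : ∀ l : ℕ, GqS (κ * P.coeff l) (1 + |(l : ℚ) - b|) := fun l => GqS_mul hκ (hP l)
  have hx : ∀ l : ℕ, GqS (κ * (Polynomial.X * P).coeff l) |(l : ℚ) - b| ∧
      (κ * (Polynomial.X * P).coeff b).coeff 0 = 0 := by
    intro l
    constructor
    · cases l with
      | zero => rw [Polynomial.coeff_X_mul_zero, mul_zero]; exact GqS_zero _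
      | succ l =>
        rw [Polynomial.coeff_X_mul]
        refine GqS_mono (hk l) ?_
        push_cast
        rw [abs_le]
        constructor
        · linarith [neg_abs_le ((l : ℚ) - b)]
        · linarith [le_abs_self ((l : ℚ) - b)]
    · cases b with
      | zero => rw [Polynomial.coeff_X_mul_zero, mul_zero]; rfl
      | succ b =>
        rw [Polynomial.coeff_X_mul]
        refine hk b 0 ?_
        have := abs_nonneg ((b : ℚ) - (b + 1 : ℕ))
        linarith
  have e : (1 - Polynomial.C κ * Polynomial.X) * P =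
      P - Polynomial.C κ * (Polynomial.X * P) := by ring
  rw [e]
  constructor
  · intro l
    rw [Polynomial.coeff_sub, Polynomial.coeff_C_mul, sub_eq_add_neg]
    exact GqS_add (hP l) (GqS_neg (hx l).1)
  · rw [Polynomial.coeff_sub, Polynomial.coeff_C_mul, HahnSeries.coeff_sub, hb, (hx b).2, sub_zero]

theorem hahn_slope (k : Type) [Field k] [IsAlgClosed (HahnSeries ℚ k)]
    (φ : Polynomial (HahnSeries ℚ k)) (a : ℕ)
    (h1 : ∀ l : ℕ, ∀ q : ℚ, q < -(2 * (a : ℚ) - l) → (φ.coeff l).coeff q = 0)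
    (h2 : ∀ l : ℕ, l ≠ a → (φ.coeff l).coeff (-(2 * (a : ℚ) - l)) = 0)
    (h3 : (φ.coeff a).coeff (-(a : ℚ)) ≠ 0) :
    (∃ x : HahnSeries ℚ k, x ≠ 0 ∧ φ.eval x = 0 ∧ -1 < x.order ∧ x.order < 1) ∨
      (∀ l : ℕ, ∀ q : ℚ, q < -(l : ℚ) → (φ.coeff l).coeff q = 0) := by
  classical
  by_cases hcon : ∃ x : HahnSeries ℚ k, x ≠ 0 ∧ φ.eval x = 0 ∧ -1 < x.order ∧ x.order < 1
  · exact Or.inl hcon
  right
  push Not at hcon
  have hφ0 : φ ≠ 0 := by
    rintro rfl
    apply h3
    simp
  have hroot : ∀ κ ∈ φ.roots, GqS κ 1 ∨ (κ ≠ 0 ∧ GqS κ⁻¹ 1) := by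
    intro κ hκ
    rw [Polynomial.mem_roots hφ0, Polynomial.IsRoot.def] at hκ
    by_cases h0 : κ = 0
    · left
      rw [h0]
      exact GqS_zero 1
    · by_cases h1 : -1 < κ.order
      · left
        rw [GqS_iff h0]
        exact hcon κ h0 hκ h1
      · right
        refine ⟨h0, GqS_inv h0 ?_⟩
        push Not at h1
        exact h1
  have key : ∀ s : Multiset (HahnSeries ℚ k), (∀ κ ∈ s, GqS κ 1 ∨ (κ ≠ 0 ∧ GqS κ⁻¹ 1)) →
      ∃ (b : ℕ) (B : HahnSeries ℚ k) (P : Polynomial (HahnSeries ℚ k)), B ≠ 0 ∧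
        (∀ l : ℕ, GqS (P.coeff l) |(l : ℚ) - b|) ∧ (P.coeff b).coeff 0 = 1 ∧
        (s.map (fun a => Polynomial.X - Polynomial.C a)).prod = Polynomial.C B * P := by
    intro s
    induction s using Multiset.induction_on with
    | empty =>
      intro _
      refine ⟨0, 1, 1, one_ne_zero, ?_, by simp, by simp⟩
      intro l
      rw [Polynomial.coeff_one]
      split_ifs with hl
      · subst hl
        simpa using GqS_one
      · exact GqS_zero _
    | cons a s ih =>
      intro hs
      obtain ⟨b, B, P, hB, hP, hb, hPe⟩ := ih fun κ hκ => hs κ (Multiset.mem_cons_of_mem hκ)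
      rcases hs a (Multiset.mem_cons_self a s) with h | ⟨h0, h⟩
      · obtain ⟨h4, h5⟩ := stepS a h P b hP hb
        refine ⟨b + 1, B, (Polynomial.X - Polynomial.C a) * P, hB, h4, h5, ?_⟩
        rw [Multiset.map_cons, Multiset.prod_cons, hPe]
        ring
      · obtain ⟨h4, h5⟩ := stepL a⁻¹ h P b hP hb
        refine ⟨b, -a * B, (1 - Polynomial.C a⁻¹ * Polynomial.X) * P,
          mul_ne_zero (neg_ne_zero.2 h0) hB, h4, h5, ?_⟩
        have h6 : Polynomial.C a * Polynomial.C a⁻¹ = 1 := by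
          rw [← Polynomial.C_mul, mul_inv_cancel₀ h0, Polynomial.C_1]
        rw [Multiset.map_cons, Multiset.prod_cons, hPe, Polynomial.C_mul, Polynomial.C_neg]
        have h7 : Polynomial.X - Polynomial.C a =
            -Polynomial.C a * (1 - Polynomial.C a⁻¹ * Polynomial.X) := by
          have h8 : -Polynomial.C a * (1 - Polynomial.C a⁻¹ * Polynomial.X) =
              Polynomial.C a * Polynomial.C a⁻¹ * Polynomial.X - Polynomial.C a := by ring
          rw [h8, h6, one_mul]
        rw [h7]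
        ring
  obtain ⟨b, B, P, hB, hP, hb, hPe⟩ := key φ.roots hroot
  have hsp := (IsAlgClosed.splits φ).eq_prod_roots
  rw [hPe, ← mul_assoc, ← Polynomial.C_mul] at hsp
  set B₀ : HahnSeries ℚ k := φ.leadingCoeff * B with hB₀
  have hB₀0 : B₀ ≠ 0 := mul_ne_zero (Polynomial.leadingCoeff_ne_zero.2 hφ0) hB
  have hco : ∀ l, φ.coeff l = B₀ * P.coeff l := by
    intro l
    conv_lhs => rw [hsp]
    rw [Polynomial.coeff_C_mul]
  have hG0 : GqS B₀ B₀.order := (GqS_iff hB₀0 _).2 le_rfl
  have hφG : ∀ l : ℕ, GqS (φ.coeff l) (B₀.order + |(l : ℚ) - b|) := by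
    intro l
    rw [hco]
    exact GqS_mul hG0 (hP l)
  have hφb : (φ.coeff b).coeff B₀.order ≠ 0 := by
    rw [hco]
    have hPb : GqS (P.coeff b) 0 := by
      have := hP b
      rwa [sub_self, abs_zero] at this
    have := GqS_coeff_mul hG0 hPb
    rw [add_zero, hb, mul_one] at this
    rw [this]
    exact fun h => hB₀0 (HahnSeries.coeff_order_eq_zero.1 h)
  have ha1 : B₀.order + |(a : ℚ) - b| ≤ -(a : ℚ) := by
    by_contra hlt
    push Not at hlt
    exact h3 (hφG a _ hlt)
  have hb1 : -(2 * (a : ℚ) - b) ≤ B₀.order := by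
    by_contra hlt
    push Not at hlt
    exact hφb (h1 b _ hlt)
  have hab : b = a := by
    by_contra hne
    have h4 : B₀.order ≠ -(2 * (a : ℚ) - b) := by
      intro h5
      rw [h5] at hφb
      exact hφb (h2 b hne)
    have h6 : -(2 * (a : ℚ) - b) < B₀.order := lt_of_le_of_ne hb1 (Ne.symm h4)
    have := le_abs_self ((a : ℚ) - b)
    linarith
  subst hab
  have hord : B₀.order = -(b : ℚ) := by
    rw [sub_self, abs_zero] at ha1
    linarith
  intro l
  refine GqS_mono (hφG l) ?_
  rw [hord]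
  have := neg_abs_le ((l : ℚ) - b)
  linarith

end Pool.Agent.Work.MP_abe657_gt
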