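import Pool.Agent.Work.MP_abe657_gt.Homog

/-!
Module Weights (M). Degrees in `A` of the coefficients of `F(A y(t) + X e)` when the leading form is
`c qq^a`.

Proof. If `H` is homogeneous of degree `j`, then `H(A y(t) + X e) = ∑_l A^(j-l) X^l h_l` with
`h_l ∈ iotaL kk` (`h_l = 0` for `l > j`), so `cf` of the `l`-th coefficient is supported at
`-(j - l)`. Sum over the homogeneous components of `F`, of degrees `j ≤ 2a`: exponents
`≥ -(2a - l)`, and the coefficient at exactly `-(2a - l)` comes from `lead F = c qq^a`, and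
`qq(A y(t) + X e) = -8 A X` (because `⟨y,y⟩ = ⟨e,e⟩ = 0`, `⟨y,e⟩ = -4`), so it is `c (-8)^a` if `l = a`
and `0` otherwise.
-/

set_option autoImplicit false

namespace Pool.Agent.Work.MP_abe657_gt

open MvPolynomial

private lemma phiK_lead (F : MvPolynomial (Fin 3) ℂ) (a : ℕ) (c : ℂ)
    (hdeg : F.totalDegree = 2 * a) (hlead : lead F = C c * qq ^ a) (l : ℕ) :
    (hg_phiK 1 (homogeneousComponent (2 * a) F)).coeff l =
      if l = a then algebraMap ℂ kk c * (-8) ^ a else 0 := by
  have h1 : homogeneousComponent (2 * a) F = C c * qq ^ a := by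
    rw [← hlead, lead, hdeg]
  rw [h1, hg_phiK_mul, hg_phiK_pow, hg_phiK_C, hg_phiK_qq 1 (by simp), mul_pow, ← Polynomial.C_pow,
    ← mul_assoc, ← Polynomial.C_mul, Polynomial.coeff_C_mul, Polynomial.coeff_X_pow]
  split_ifs with h
  · rw [mul_one]
  · rw [mul_zero]

theorem weights (F : MvPolynomial (Fin 3) ℂ) (a : ℕ) (c : ℂ) (hc : c ≠ 0)
    (hdeg : F.totalDegree = 2 * a) (hlead : lead F = C c * qq ^ a) :
    (∀ l : ℕ, ∀ q : ℚ, q < -(2 * (a : ℚ) - l) → cf ((substF 1 F).coeff l) q = 0) ∧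
    (∀ l : ℕ, l ≠ a → cf ((substF 1 F).coeff l) (-(2 * (a : ℚ) - l)) = 0) ∧
    cf ((substF 1 F).coeff a) (-(a : ℚ)) ≠ 0 := by
  have key : ∀ l : ℕ, cf ((substF 1 F).coeff l) (-(2 * (a : ℚ) - l)) =
      (hg_phiK 1 (homogeneousComponent (2 * a) F)).coeff l := by
    intro l
    rw [hg_cf_substF, hdeg, Finset.sum_eq_single (2 * a)]
    · rw [if_pos]
      push_cast
      ring
    · intro j _ hj
      rw [if_neg]
      intro h
      apply hj
      have : (j : ℚ) = ((2 * a : ℕ) : ℚ) := by
        push_cast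
        linarith
      exact_mod_cast this
    · intro h
      exact absurd (Finset.mem_range.mpr (by omega)) h
  refine ⟨?_, ?_, ?_⟩
  · intro l q hq
    rw [hg_cf_substF, hdeg]
    refine Finset.sum_eq_zero fun j hj => ?_
    rw [if_neg]
    intro h
    have hj' : j ≤ 2 * a := by
      have := Finset.mem_range.mp hj
      omega
    have hj2 : (j : ℚ) ≤ 2 * (a : ℚ) := by exact_mod_cast hj'
    linarith
  · intro l hl
    rw [key, phiK_lead F a c hdeg hlead, if_neg hl]
  · have h := key a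
    have e : -(2 * (a : ℚ) - a) = -(a : ℚ) := by ring
    rw [e, phiK_lead F a c hdeg hlead, if_pos rfl] at h
    rw [h]
    refine mul_ne_zero ?_ (pow_ne_zero _ (by norm_num))
    rw [Ne, map_eq_zero]
    exact hc

end Pool.Agent.Work.MP_abe657_gt
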