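import Pool.Agent.Work.MP_abe657_gt.Case1
import Pool.Agent.Work.MP_abe657_gt.RootKK
import Pool.Agent.Work.MP_abe657_gt.Slope
import Pool.Agent.Work.MP_abe657_gt.Weights
import Pool.Agent.Work.MP_abe657_gt.Harm
import Pool.Agent.Work.MP_abe657_gt.HomFactor
import Pool.Agent.Work.MP_abe657_gt.Ord

/-!
Assembly Root (done by helper32).
-/

set_option autoImplicit false

namespace Pool.Agent.Work.MP_abe657_gt

open MvPolynomial

theorem slopeL [IsAlgClosed LL] (φ : Polynomial LL) (a : ℕ)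
    (h1 : ∀ l : ℕ, ∀ q : ℚ, q < -(2 * (a : ℚ) - l) → cf (φ.coeff l) q = 0)
    (h2 : ∀ l : ℕ, l ≠ a → cf (φ.coeff l) (-(2 * (a : ℚ) - l)) = 0)
    (h3 : cf (φ.coeff a) (-(a : ℚ)) ≠ 0) :
    (∃ (x : LL) (m : ℚ), φ.eval x = 0 ∧ -1 < m ∧ m < 1 ∧ Ge x m ∧ cf x m ≠ 0) ∨
      (∀ l : ℕ, ∀ q : ℚ, q < -(l : ℚ) → cf (φ.coeff l) q = 0) := by
  have hi : IsAlgClosed (HahnSeries ℚ kk) := inferInstanceAs (IsAlgClosed LL)
  rcases hahn_slope kk φ a h1 h2 h3 with h | h
  · left
    obtain ⟨x, hx0, hx, hm1, hm2⟩ := h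
    refine ⟨x, HahnSeries.order x, hx, hm1, hm2, ?_, ?_⟩
    · intro q hq
      exact HahnSeries.coeff_eq_zero_of_lt_order hq
    · intro h4
      exact hx0 (HahnSeries.coeff_order_eq_zero.mp h4)
  · right
    exact h

theorem exists_root [IsAlgClosed kk] [IsAlgClosed LL] (F : MvPolynomial (Fin 3) ℂ) (hF : F ≠ 0)
    (hiso : NoIso F) (hnot : ¬ ∃ p : Polynomial ℂ, F = Polynomial.aeval qq p) :
    ∃ (g : Matrix (Fin 3) (Fin 3) ℂ) (C : LL) (m : ℚ), g.transpose * g = 1 ∧
      aeval (xi g C) F = 0 ∧ -2 ≤ m ∧ m < 0 ∧ Ge (-8 * AA * C) m ∧ cf (-8 * AA * C) m ≠ 0 ∧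
      (m = -2 → (dk (cf (-8 * AA * C) m)) ^ 2 ≠ 16 * cf (-8 * AA * C) m) := by
  obtain ⟨a, d, H, hdeg, hlead, hH, hq⟩ := exists_factor F hF
  have hcf : ∀ (C : LL) (q : ℚ), cf (-8 * AA * C) q = -8 * cf C (q + 1) := by
    intro C q
    have h1 : (-8 * AA * C : LL) = iotaL (-8) * (AA * C) := by
      rw [map_neg, map_ofNat]; ring
    rw [h1, cf_iotaL_mul, cf_AA_mul]
  rcases Nat.eq_zero_or_pos d with hd | hd
  · -- spherical at infinity
    subst hd
    have hHc : H = C (coeff 0 H) := by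
      have := hH.totalDegree_le
      rw [Nat.le_zero] at this
      exact totalDegree_eq_zero_iff_eq_C.mp this
    have hc0 : coeff 0 H ≠ 0 := by
      intro h0
      apply hq
      rw [hHc, h0, C_0]
      exact dvd_zero _
    have hlead' : lead F = C (coeff 0 H) * qq ^ a := by
      rw [hlead, mul_comm]
      rw [← hHc]
    obtain ⟨w1, w2, w3⟩ := weights F a (coeff 0 H) hc0 (by omega) hlead'
    rcases slopeL (substF 1 F) a w1 w2 w3 with h | h
    · obtain ⟨x, m, hx, h1, h2, hx1, hx2⟩ := h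
      refine ⟨1, x, m - 1, by simp, ?_, ?_, ?_, ?_, ?_, ?_⟩
      · rw [← eval_substF]
        exact hx
      · linarith
      · linarith
      · intro q hqq
        rw [hcf, hx1 _ (by linarith), mul_zero]
      · rw [hcf, sub_add_cancel]
        exact mul_ne_zero (by norm_num) hx2
      · intro h3
        exfalso
        linarith
    · exact absurd (harm F h) hnot
  · obtain ⟨g, hg, hge⟩ := frame H d hd hH hq
    have hisoH : ∀ v : Fin 3 → ℂ, v ≠ 0 → ∑ i, v i ^ 2 = 0 → ¬ (linForm v ∣ H) := by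
      intro v hv hv2 hdv
      refine hiso v hv hv2 ?_
      rw [hlead]
      exact Dvd.dvd.mul_left hdv _
    obtain ⟨κ, hκ0, hκ1, hκ2⟩ := root_kk H d hd hH g hg hge hisoH
    obtain ⟨C, hC1, hC2, hC3⟩ := case1 F H a d hd hdeg hlead hH g hg hge κ hκ0 hκ1
    refine ⟨g, C, -2, hg, hC1, le_refl _, by norm_num, ?_, ?_, ?_⟩
    · intro q hqq
      rw [hcf, hC2 _ (by linarith), mul_zero]
    · rw [hcf]
      have : (-2 : ℚ) + 1 = -1 := by norm_num
      rw [this, hC3]
      exact mul_ne_zero (by norm_num) hκ0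
    · intro _
      rw [hcf]
      have : (-2 : ℚ) + 1 = -1 := by norm_num
      rw [this, hC3]
      intro h
      apply hκ2
      have h1 : dk (-8 * κ) = -8 * dk κ := by
        have h2 : (-8 * κ : kk) = (-8 : ℂ) • κ := by
          rw [Algebra.smul_def, map_neg, map_ofNat]
        rw [h2, dk.map_smul, Algebra.smul_def, map_neg, map_ofNat]
      rw [h1] at h
      have h3 : (64 : kk) * (dk κ ^ 2 - -2 * κ) = 0 := by linear_combination h
      have h4 : (64 : kk) ≠ 0 := by norm_num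
      have h5 := (mul_eq_zero.mp h3).resolve_left h4
      linear_combination h5

end Pool.Agent.Work.MP_abe657_gt
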