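import Pool.Agent.Work.MP_abe657_gt.Defs2
import Pool.Agent.Work.MP_abe657_gt.CoreSmall

/-!
Part II, module StepSig (M). Points near the cone, `T = s^ω t`, `A = s⁻¹`, `B = T A`,
`C = c + C' + T^2 A/2`, `C' = T^(-ν) Y`, `0 < ω`, `(2 + ν) ω < 1`, `ν > -1`.

Metric: `m11 = 4 (A^2 (thA T)^2 - 2 A thA C')`, `m12 = 4 (A^2 thA T dT T - A dT C')`,
`m22 = 4 A^2 (dT T)^2`, `thA T = -ω T`, `dT T = T/t`, hence
`mD = -32 A^3 T^2 t^(-2) (thA C' + ω t dT C') - 16 A^2 (dT C')^2`, and as `thA + ω t dT` kills `T`: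
`thA C' + ω t dT C' = T^(-ν) (thA Y + ω t dT Y)`, with coefficient `ω t dk (cf Y 0)` times `t^(-ν)` at
the exponent `-ν ω` (`thA Y` has coefficient `0` at exponent `0`). Suppose `dk (cf Y 0) ≠ 0`. The
exponents of `s`: first term of `mD` exactly `δ = -3 + (2 - ν) ω`; second term at least
`-2 - 2 ν ω > δ`. So `mD` has order `δ`. All of `m11, m12, m22` have exponents `≥ -2 + 2 ω` (note
`-1 - ν ω ≥ -2 + 2 ω`), so `m_ij / mD` have exponents `≥ 1 + ν ω =: ε > 0` (`ν > -1` and `ω < 1`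
because `(2 + ν) ω < 1`, `2 + ν > 1`). By `core_small` (with `Good`) this is a contradiction.
-/

set_option autoImplicit false

namespace Pool.Agent.Work.MP_abe657_gt

open MvPolynomial

theorem StepSig_cf_ofNat_mul (n : ℕ) [n.AtLeastTwo] (x : LL) (q : ℚ) :
    cf ((OfNat.ofNat n : LL) * x) q = (OfNat.ofNat n : kk) * cf x q := by
  have h : (OfNat.ofNat n : LL) * x = (OfNat.ofNat n : ℂ) • x := by
    rw [Algebra.smul_def, map_ofNat]
  rw [h, cf_smul, map_ofNat]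

theorem StepSig_Ge_ofNat_mul (n : ℕ) [n.AtLeastTwo] {x : LL} {a : ℚ} (hx : Ge x a) :
    Ge ((OfNat.ofNat n : LL) * x) a := by
  intro q hq
  rw [StepSig_cf_ofNat_mul, hx q hq, mul_zero]

theorem StepSig_div_ge {x D : LL} {a δ : ℚ} (hx : Ge x a) (hD : Ge D δ)
    (hD0 : cf D δ ≠ 0) : Ge (x / D) (a - δ) := by
  rw [div_eq_mul_inv, sub_eq_add_neg]
  exact hx.mul (hD.inv hD0)

theorem StepSig_smul (q : ℚ) (x : LL) : ((q : ℚ) : ℂ) • x = (q : LL) * x := by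
  rw [Algebra.smul_def, map_ratCast]

theorem StepSig_Ge_rat_mul (q : ℚ) {x : LL} {a : ℚ} (hx : Ge x a) : Ge ((q : LL) * x) a := by
  rw [← StepSig_smul]
  exact hx.smulC _

theorem StepSig_cf_rat_mul (r : ℚ) (x : LL) (q : ℚ) : cf ((r : LL) * x) q = (r : kk) * cf x q := by
  rw [← StepSig_smul, cf_smul, map_ratCast]

theorem step_sig (F : MvPolynomial (Fin 3) ℂ) (P : Polynomial ℂ) (hG : Good F P)
    (hP0 : P.eval 0 ≠ 0) (c : ℂ) (ν ω : ℚ) (hν : -1 < ν) (hω : 0 < ω) (hω2 : (2 + ν) * ω < 1)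
    (Y : LL) (hY : Ge Y 0)
    (h0 : aeval ![AA, mon (ω - 1) 1, mon (-(ω * ν)) (-ν) * Y
      + algebraMap ℂ LL (1 / 2) * mon (2 * ω - 1) 2 + algebraMap ℂ LL c] F = 0) :
    dk (cf Y 0) = 0 := by
  by_contra hdk
  have half : (algebraMap ℂ LL (1 / 2)) = 1 / 2 := by
    rw [map_div₀, map_one, map_ofNat]
  rw [half] at h0
  set B : LL := mon (ω - 1) 1 with hB
  set N : LL := mon (-(ω * ν)) (-ν) with hN
  set C : LL := N * Y + 1 / 2 * mon (2 * ω - 1) 2 + algebraMap ℂ LL c with hC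
  have hthB : thA B = (1 - (ω : LL)) * B := by
    rw [hB, thA_mon, ← Rat.cast_neg, StepSig_smul]; push_cast; ring
  have hdTB : dT B = mon (ω - 1) 0 := by
    rw [hB, dT_mon]; norm_num
  have hthN : thA N = (ω : LL) * ν * N := by
    rw [hN, thA_mon, ← Rat.cast_neg, StepSig_smul]; push_cast; ring
  have hdTN : dT N = -(ν : LL) * mon (-(ω * ν)) (-ν - 1) := by
    rw [hN, dT_mon, StepSig_smul]; push_cast; ring
  have hD2 : ∀ (D : Derivation ℂ LL LL) (x : LL), D (1 / 2 * x) = 1 / 2 * D x := by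
    intro D x
    rw [← half, Derivation.leibniz, Derivation.map_algebraMap, smul_zero, add_zero, smul_eq_mul]
  have hthM : thA (mon (2 * ω - 1) 2) = (1 - 2 * (ω : LL)) * mon (2 * ω - 1) 2 := by
    rw [thA_mon, ← Rat.cast_neg, StepSig_smul]; push_cast; ring
  have hdTM : dT (mon (2 * ω - 1) 2) = 2 * mon (2 * ω - 1) 1 := by
    rw [dT_mon, StepSig_smul]; push_cast; norm_num
  have hthC : thA C = N * thA Y + ω * ν * N * Y + 1 / 2 * ((1 - 2 * (ω : LL)) * mon (2 * ω - 1) 2) := by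
    rw [hC, map_add, map_add, Derivation.map_algebraMap, add_zero, Derivation.leibniz,
      hD2, hthM, hthN, smul_eq_mul, smul_eq_mul]
    ring
  have hdTC : dT C = N * dT Y - ν * mon (-(ω * ν)) (-ν - 1) * Y + mon (2 * ω - 1) 1 := by
    rw [hC, map_add, map_add, Derivation.map_algebraMap, add_zero, Derivation.leibniz,
      hD2, hdTM, hdTN, smul_eq_mul, smul_eq_mul]
    ring
  -- basic monomials
  set E : LL := mon (ω - 1) 0 with hE
  set N' : LL := mon (-(ω * ν)) (-ν - 1) with hN'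
  set S : LL := mon 1 0 with hS
  have aS : AA * S = 1 := by
    rw [← mon_AA, hS, mon_mul, ← mon_zero_zero]; congr 1 <;> norm_num
  have eB : B = E * tL := by
    rw [← mon_tL, hE, mon_mul, hB]; congr 1 <;> ring
  have eN : N = N' * tL := by
    rw [← mon_tL, hN', mon_mul, hN]; congr 1 <;> ring
  have eM2 : mon (2 * ω - 1) 2 = E ^ 2 * S * tL ^ 2 := by
    rw [← mon_tL, hE, hS, mon_pow, mon_pow, mon_mul, mon_mul]; congr 1 <;> push_cast <;> ring
  have eM1 : mon (2 * ω - 1) 1 = E ^ 2 * S * tL := by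
    rw [← mon_tL, hE, hS, mon_pow, mon_mul, mon_mul]; congr 1 <;> push_cast <;> ring
  have q11 : m11 B C = 4 * ((ω : LL) ^ 2 * (E ^ 2 * tL ^ 2))
      - 8 * ((AA * N') * (tL * (thA Y + ω * ν * Y))) := by
    unfold m11
    rw [hthB, hthC, eB, eN, eM2]
    linear_combination (-4 * (1 - 2 * (ω : LL)) * E ^ 2 * tL ^ 2) * aS
  have q12 : m12 B C = -(4 * ((ω : LL) * (E ^ 2 * tL)))
      - 4 * ((AA * N') * (tL * dT Y - ν * Y)) := by
    unfold m12
    rw [hthB, hdTB, hdTC, eB, eN, eM1]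
    linear_combination (-4 * E ^ 2 * tL) * aS
  have q22 : m22 B = 4 * E ^ 2 := by
    unfold m22
    rw [hdTB]
  have qD : mD B C = -(32 * ((AA * E ^ 2 * N') * (tL * (thA Y + ω * (tL * dT Y)))))
      - 16 * ((AA ^ 2 * N' ^ 2) * ((tL * dT Y - ν * Y) * (tL * dT Y - ν * Y))) := by
    unfold mD
    rw [q11, q12, q22]
    ring
  -- monomial values
  have v1 : E ^ 2 * tL ^ 2 = mon (2 * ω - 2) 2 := by
    rw [← mon_tL, hE, mon_pow, mon_pow, mon_mul]; congr 1 <;> push_cast <;> ring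
  have v2 : E ^ 2 * tL = mon (2 * ω - 2) 1 := by
    rw [← mon_tL, hE, mon_pow, mon_mul]; congr 1 <;> push_cast <;> ring
  have v3 : E ^ 2 = mon (2 * ω - 2) 0 := by
    rw [hE, mon_pow]; congr 1 <;> push_cast <;> ring
  have v4 : AA * N' = mon (-1 - ω * ν) (-ν - 1) := by
    rw [← mon_AA, hN', mon_mul]; congr 1 <;> ring
  have v5 : AA * E ^ 2 * N' = mon (-3 + (2 - ν) * ω) (-ν - 1) := by
    rw [← mon_AA, hE, hN', mon_pow, mon_mul, mon_mul]; congr 1 <;> push_cast <;> ring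
  have v6 : AA ^ 2 * N' ^ 2 = mon (-2 - 2 * (ω * ν)) (-2 * ν - 2) := by
    rw [← mon_AA, hN', mon_pow, mon_pow, mon_mul]; congr 1 <;> push_cast <;> ring
  rw [v1, v4] at q11
  rw [v2, v4] at q12
  rw [v3] at q22
  rw [v5, v6] at qD
  have gt : Ge tL 0 := Ge_iotaL _
  have w1 : Ge (tL * (thA Y + ω * ν * Y)) 0 := by
    have h2 : Ge (ω * ν * Y) 0 := by
      rw [← Rat.cast_mul]; exact StepSig_Ge_rat_mul _ hY
    simpa using gt.mul (hY.thA.add h2)
  have w2 : Ge (tL * dT Y - ν * Y) 0 :=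
    (by simpa using gt.mul hY.dT : Ge (tL * dT Y) 0).sub (StepSig_Ge_rat_mul _ hY)
  have w3 : Ge (tL * dT Y) 0 := by simpa using gt.mul hY.dT
  have w4 : Ge (tL * (thA Y + ω * (tL * dT Y))) 0 := by
    simpa using gt.mul (hY.thA.add (StepSig_Ge_rat_mul _ w3))
  have hω1 : ω < 1 := by nlinarith
  have G11 : Ge (m11 B C) (2 * ω - 2) := by
    rw [q11, ← Rat.cast_pow]
    refine (StepSig_Ge_ofNat_mul 4 (StepSig_Ge_rat_mul _ (Ge_mon _ _))).sub ?_
    refine StepSig_Ge_ofNat_mul 8 ((Ge_mon_mul w1).mono ?_)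
    nlinarith
  have G12 : Ge (m12 B C) (2 * ω - 2) := by
    rw [q12]
    refine (StepSig_Ge_ofNat_mul 4 (StepSig_Ge_rat_mul _ (Ge_mon _ _))).neg.sub ?_
    refine StepSig_Ge_ofNat_mul 4 ((Ge_mon_mul w2).mono ?_)
    nlinarith
  have G22 : Ge (m22 B) (2 * ω - 2) := by
    rw [q22]
    exact StepSig_Ge_ofNat_mul 4 (Ge_mon _ _)
  have w22 : Ge ((tL * dT Y - ν * Y) * (tL * dT Y - ν * Y)) 0 := by
    simpa using w2.mul w2
  have z1 : Ge (mon (-2 - 2 * (ω * ν)) (-2 * ν - 2)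
      * ((tL * dT Y - ν * Y) * (tL * dT Y - ν * Y))) (-2 - 2 * (ω * ν)) := by
    simpa using Ge_mon_mul (a := -2 - 2 * (ω * ν)) (b := -2 * ν - 2) w22
  have z2 : Ge (mon (-3 + (2 - ν) * ω) (-ν - 1) * (tL * (thA Y + ω * (tL * dT Y))))
      (-3 + (2 - ν) * ω) := by
    simpa using Ge_mon_mul (a := -3 + (2 - ν) * ω) (b := -ν - 1) w4
  have lt : -3 + (2 - ν) * ω < -2 - 2 * (ω * ν) := by nlinarith
  have GD : Ge (mD B C) (-3 + (2 - ν) * ω) := by
    rw [qD]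
    exact (StepSig_Ge_ofNat_mul 32 z2).neg.sub (StepSig_Ge_ofNat_mul 16 (z1.mono lt.le))
  have CD : cf (mD B C) (-3 + (2 - ν) * ω) ≠ 0 := by
    rw [qD, cf_sub, cf_neg, StepSig_cf_ofNat_mul, StepSig_cf_ofNat_mul, z1 _ lt, mul_zero, sub_zero,
      cf_mon_mul, sub_self]
    have t1 : cf (tL * (thA Y + ω * (tL * dT Y))) 0 = tk * (ω * (tk * dk (cf Y 0))) := by
      rw [tL, cf_iotaL_mul, cf_add, cf_thA, StepSig_cf_rat_mul, cf_iotaL_mul, cf_dT]
      push_cast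
      ring
    rw [t1]
    refine neg_ne_zero.mpr (mul_ne_zero (by norm_num) (mul_ne_zero (tp_ne_zero _)
      (mul_ne_zero tk_ne_zero (mul_ne_zero ?_ (mul_ne_zero tk_ne_zero hdk)))))
    exact_mod_cast hω.ne'
  have hdB : dT B ≠ 0 := by
    rw [hdTB]
    exact mon_ne_zero _ _
  obtain ⟨hD, hA, -, -⟩ := hG B C hdB h0
  have r1 := StepSig_div_ge G22 GD CD
  have r2 := StepSig_div_ge G12 GD CD
  have r3 := StepSig_div_ge G11 GD CD
  have E1 : 2 * ω - 2 - (-3 + (2 - ν) * ω) = 1 + ν * ω := by ring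
  rw [E1] at r1 r2 r3
  exact core_small (m11 B C) (m12 B C) (m22 B) hD (1 + ν * ω) (by nlinarith) r1 r2 r3 P hP0 hA

end Pool.Agent.Work.MP_abe657_gt
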