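import Pool.Agent.Work.MP_abe657_gt.SigRoot
import Pool.Agent.Work.MP_abe657_gt.ChainL
import Pool.Agent.Work.MP_abe657_gt.StepSig
import Pool.Agent.Work.MP_abe657_gt.EndSig
import Pool.Agent.Work.MP_abe657_gt.MetB

/-!
Part II, assembly SigContra (helper32): null surfaces do not occur at infinity.
-/

set_option autoImplicit false

namespace Pool.Agent.Work.MP_abe657_gt

open MvPolynomial

lemma good_pt (F : MvPolynomial (Fin 3) ℂ) (P : Polynomial ℂ) (hG : Good F P) (c : ℂ) :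
    aeval ![AA, tL, algebraMap ℂ LL c] F ≠ 0 := by
  intro h
  have hd : dT tL ≠ 0 := by
    rw [dT_tL]; exact one_ne_zero
  obtain ⟨h1, -⟩ := hG tL _ hd h
  apply h1
  unfold mD m11 m12 m22
  rw [thA_tL, Derivation.map_algebraMap, Derivation.map_algebraMap]
  ring

lemma shC_ne_zero (F : MvPolynomial (Fin 3) ℂ) (P : Polynomial ℂ) (hG : Good F P) (c : ℂ) :
    shC c F ≠ 0 := by
  intro h
  have h1 := aeval_shC c F AA tL 0
  rw [h, map_zero, zero_add] at h1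
  exact good_pt F P hG c h1.symm

lemma tauSub_ne_zero (F : MvPolynomial (Fin 3) ℂ) (P : Polynomial ℂ) (hG : Good F P) (c : ℂ) :
    tauSub (shC c F) ≠ 0 := by
  intro h
  have h1 := aeval_tauSub (shC c F) AA (tL * AA⁻¹)
    (-(algebraMap ℂ LL (1 / 2) * ((tL * AA⁻¹) ^ 2 * AA)))
  rw [h, map_zero] at h1
  have e1 : tL * AA⁻¹ * AA = tL := by
    rw [mul_assoc, inv_mul_cancel₀ AA_ne_zero, mul_one]
  have e2 : -(algebraMap ℂ LL (1 / 2) * ((tL * AA⁻¹) ^ 2 * AA))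
      + algebraMap ℂ LL (1 / 2) * ((tL * AA⁻¹) ^ 2 * AA) = 0 := by ring
  rw [e1, e2, aeval_shC, zero_add] at h1
  exact good_pt F P hG c h1.symm

/-- at the weight `b ≠ 1/2` the coordinate `C - c` is of lower order -/
theorem sig_contra [IsAlgClosed kk] [IsAlgClosed LL] (F : MvPolynomial (Fin 3) ℂ)
    (P : Polynomial ℂ) (hG : Good F P) (hP0 : P.eval 0 ≠ 0) (c : ℂ) (b : ℚ) (hb0 : 0 < b)
    (hb1 : b < 1) (hb : b ≠ 1 / 2) (Z : LL) (hZ : Near 0 Z)
    (h0 : aeval (ptc (-1) 1 2 b Z) (shC c F) = 0) : cf Z 0 = 0 := by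
  by_contra hne
  have hX := ptc_X Z hZ.1
  have h1 : aeval ![AA, mon (-b) (-1), mon (1 - 2 * b) 0 * (mon 0 (-2) * Z)
      + algebraMap ℂ LL c] F = 0 := by
    rw [ptc_eq, aeval_shC] at h0
    exact h0
  have hode := isotropic_ode F P hG hP0 c b hb0 _ hX.1 h1
  rw [hX.2] at hode
  obtain ⟨z0, Y, hz0, hY, hY0⟩ :=
    sig_root (shC c F) (shC_ne_zero F P hG c) b hb0 hb1 hb Z hZ hne h0 hode
  have h1b : (0 : ℚ) < 1 - b := by linarith
  set ν : ℚ := (2 * b - 1) / (1 - b) with hν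
  have hν1 : -1 < ν := by
    rw [hν, lt_div_iff₀ h1b]
    linarith
  have hν0 : ν ≠ 0 := by
    rw [hν]
    refine div_ne_zero ?_ h1b.ne'
    intro h
    apply hb
    linarith
  have hν2 : (2 + ν) * (1 - b) = 1 := by
    rw [hν]
    field_simp
    ring
  have hpt : ∀ (ω : ℚ) (W : LL), aeval (ptc 0 (-1) ν ω W) (tauSub (shC c F)) =
      aeval ![AA, mon (ω - 1) 1, mon (-(ω * ν)) (-ν) * W
        + algebraMap ℂ LL (1 / 2) * mon (2 * ω - 1) 2 + algebraMap ℂ LL c] F := by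
    intro ω W
    have e1 : mon (-(ω * -1)) (- -1) * AA = mon (ω - 1) 1 := by
      rw [← mon_AA, mon_mul]
      congr 1 <;> ring
    have e2 : mon (-(ω * -1)) (- -1) ^ 2 * AA = mon (2 * ω - 1) 2 := by
      rw [mon_pow, ← mon_AA, mon_mul]
      congr 1 <;> (push_cast; ring)
    have e3 : mon (-0 - ω * ν) (-ν) = mon (-(ω * ν)) (-ν) := by
      congr 1; ring
    rw [ptc, aeval_tauSub, aeval_shC, e1, e2, e3]
  obtain ⟨W, hW, hW0⟩ := chainL (tauSub (shC c F)) (tauSub_ne_zero F P hG c) 0 (-1) ν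
    (by norm_num) z0 0 (1 - b) h1b
    (fun s hs hbot => face_back _ _ _ _ _ z0 Y hY hY0 s hs hbot)
    (by
      intro ω hω0 hω1 W hW hW0
      rw [hpt] at hW0
      have hω2 : (2 + ν) * ω < 1 := by
        have h2ν : 0 < 2 + ν := by linarith
        calc (2 + ν) * ω < (2 + ν) * (1 - b) := by
              exact mul_lt_mul_of_pos_left hω1 h2ν
          _ = 1 := hν2
      have h3 := step_sig F P hG hP0 c ν ω hν1 hω0 hω2 W hW.1 hW0
      rw [eq_iotaK_of_dk _ h3, hW.2.2])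
  rw [hpt] at hW0
  have e4 : mon (0 - 1) 1 = mon (-1) 1 := by norm_num
  have e5 : mon (-(0 * ν)) (-ν) = mon 0 (-ν) := by
    congr 1; ring
  have e6 : mon (2 * 0 - 1) 2 = mon (-1) 2 := by norm_num
  rw [e4, e5, e6] at hW0
  exact end_sig F P hG hP0 c ν hν0 z0 hz0 W hW hW0

end Pool.Agent.Work.MP_abe657_gt
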