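import Pool.Agent.Work.MP_abe657_gt.OdeK
import Pool.Agent.Work.MP_abe657_gt.NearCone
import Pool.Agent.Work.MP_abe657_gt.LaurentT
import Pool.Agent.Work.MP_abe657_gt.FaceOne

/-!
Part II, assembly SigRoot (helper32): from a nonzero solution of the equation of null surfaces to a
point near the cone.
-/

set_option autoImplicit false

namespace Pool.Agent.Work.MP_abe657_gt

open MvPolynomial

lemma near_order {Z : LL} (hZ : Near 0 Z) (hne : cf Z 0 ≠ 0) :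
    ∃ y : ℚ, -2 < y ∧ GeK (tp (-2) * cf Z 0) y := by
  obtain ⟨a, ha, ha0⟩ := exists_ordK hne
  refine ⟨-2 + a, ?_, GeK_tp_mul ha⟩
  have h1 : 0 ≤ a := by
    by_contra h
    exact ha0 (hZ.2.1 a (not_le.mp h))
  have h2 : a ≠ 0 := by
    rintro rfl
    exact ha0 hZ.2.2
  have h3 : 0 < a := lt_of_le_of_ne h1 (Ne.symm h2)
  linarith

lemma ptc_eq (b : ℚ) (Z : LL) :
    ptc (-1) 1 2 b Z = ![AA, mon (-b) (-1), mon (1 - 2 * b) 0 * (mon 0 (-2) * Z)] := by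
  unfold ptc
  have h1 : mon (-(b * 1)) (-1) = mon (-b) (-1) := by rw [mul_one]
  have h2 : mon (-(-1) - b * 2) (-2) * Z = mon (1 - 2 * b) 0 * (mon 0 (-2) * Z) := by
    rw [← mul_assoc, mon_mul]
    congr 2 <;> ring
  rw [h1, h2]

lemma ptc_X (Z : LL) (hZ : Ge Z 0) : Ge (mon 0 (-2) * Z) 0 ∧
    cf (mon 0 (-2) * Z) 0 = tp (-2) * cf Z 0 := by
  refine ⟨?_, ?_⟩
  · have := Ge_mon_mul (a := 0) (b := -2) hZ
    rwa [add_zero] at this
  · rw [cf_mon_mul, sub_zero]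

theorem sig_root [IsAlgClosed kk] [IsAlgClosed LL] (F : MvPolynomial (Fin 3) ℂ) (hF : F ≠ 0)
    (b : ℚ) (hb0 : 0 < b) (hb1 : b < 1) (hb : b ≠ 1 / 2) (Z : LL) (hZ : Near 0 Z)
    (hne : cf Z 0 ≠ 0) (h0 : aeval (ptc (-1) 1 2 b Z) F = 0)
    (hode : (dv (tp (-2) * cf Z 0)) ^ 2 - 2 * (b : kk) * tp (-1) * dv (tp (-2) * cf Z 0)
      + 2 * (2 * (b : kk) - 1) * (tp (-2) * cf Z 0) = 0) :
    ∃ (z0 : ℂ) (Y : LL), z0 ≠ 0 ∧ Near z0 Y ∧
      aeval (ptcInv 0 (-1) ((2 * b - 1) / (1 - b)) (1 - b) Y) (tauSub F) = 0 := by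
  obtain ⟨y, hy, hκy⟩ := near_order hZ hne
  have hκ0 : tp (-2) * cf Z 0 ≠ 0 := mul_ne_zero (tp_ne_zero _) hne
  obtain ⟨q, r, c1, ϖ, hq, hr, hbqr, hc1, hϖ, hdϖ, hv, hκ⟩ :=
    ode_sigma b hb0 hb1 hb _ hκ0 y hy hκy hode
  set c2 : ℂ := b * c1 / (2 * b - 1) with hc2
  obtain ⟨ϖ1, hϖ1, hv1, hcone⟩ := near_cone q r hq hr c1 c2 hc1
  set κ1 : kk := (iotaK (1 / 2) * ϖ1 ^ (2 * q + r) + iotaK c2 * ϖ1 ^ q) / ϖ1 ^ r with hκ1def
  have hκ1 : κ1 * ϖ1 ^ r = iotaK (1 / 2) * ϖ1 ^ (2 * q + r) + iotaK c2 * ϖ1 ^ q := by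
    rw [hκ1def, div_mul_cancel₀ _ (pow_ne_zero _ hϖ1)]
  rw [ptc_eq] at h0
  have hX := ptc_X Z hZ.1
  have hE := face_root F b _ hX.1 h0
  rw [hX.2] at hE
  have hE1 := laurent_transfer (facePoly F b) q r c1 c2 ϖ _ _ hϖ hdϖ hv hκ hE ϖ1 (tp (-1)) κ1 hϖ1
    hv1 hκ1
  obtain ⟨X1, hX1, hX1c, hX10⟩ := face_lift1 F hF b κ1 hE1
  have hqr : ((q : ℚ) + r) ≠ 0 := by positivity
  have hq0 : (q : ℚ) ≠ 0 := by positivity
  have h1b : (1 - b) * ((q : ℚ) + r) = q := by linarith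
  have h1b0 : (1 - b) ≠ 0 := by linarith
  have hν : ((r : ℚ) - q) / q = (2 * b - 1) / (1 - b) := by
    rw [div_eq_div_iff hq0 h1b0]
    linear_combination (-1) * hbqr
  have h2b0 : (2 * (b : ℂ) - 1) ≠ 0 := by
    intro h
    apply hb
    have h3 : (2 * b - 1 : ℚ) = 0 := by exact_mod_cast h
    linarith
  have hz0 : c2 - c1 ≠ 0 := by
    rw [hc2]
    have h1 : (b : ℂ) * c1 / (2 * b - 1) - c1 = c1 * (1 - b) / (2 * b - 1) := by
      rw [eq_div_iff h2b0, sub_mul, div_mul_cancel₀ _ h2b0]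
      ring
    rw [h1]
    refine div_ne_zero (mul_ne_zero hc1 ?_) h2b0
    intro h
    apply h1b0
    exact_mod_cast h
  have hcone1 := hcone κ1 hκ1
  rw [hν] at hcone1
  set ν : ℚ := (2 * b - 1) / (1 - b) with hνdef
  have hbν : (1 - b) * ν = 2 * b - 1 := by
    rw [hνdef]; field_simp
  set Y : LL := mon 0 (-ν) * (X1 - algebraMap ℂ LL (1 / 2) * mon 0 (-2)) with hYdef
  have hXm : Ge (X1 - algebraMap ℂ LL (1 / 2) * mon 0 (-2)) 0 := by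
    refine hX1.sub ?_
    have := (Ge_C (1 / 2)).mul (Ge_mon 0 (-2))
    rwa [add_zero] at this
  have hYc : cf Y 0 = tp (-ν) * (κ1 - iotaK (1 / 2) * tp (-2)) := by
    rw [hYdef, cf_mon_mul, sub_zero, cf_sub, hX1c]
    congr 2
    have := cf_iotaL_mul (iotaK (1 / 2)) (mon 0 (-2)) 0
    rw [cf_mon] at this
    exact this
  refine ⟨c2 - c1, Y, hz0, ⟨?_, ?_, ?_⟩, ?_⟩
  · have := Ge_mon_mul (a := 0) (b := -ν) hXm
    rwa [add_zero] at this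
  · rw [hYc]; exact hcone1.1
  · rw [hYc]; exact hcone1.2
  · have e1 : mon (-((1 - b) * -1)) (-1) * AA = mon (-b) (-1) := by
      rw [← mon_AA, mon_mul]
      congr 1 <;> ring
    have e2 : mon (-0 - (1 - b) * ν) ν * Y + algebraMap ℂ LL (1 / 2)
        * (mon (-((1 - b) * -1)) (-1) ^ 2 * AA) = mon (1 - 2 * b) 0 * X1 := by
      have e3 : mon (-((1 - b) * -1)) (-1) ^ 2 * AA = mon (1 - 2 * b) 0 * mon 0 (-2) := by
        rw [mon_pow, ← mon_AA, mon_mul, mon_mul]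
        congr 1 <;> (push_cast; ring)
      have e4 : mon (-0 - (1 - b) * ν) ν * Y = mon (1 - 2 * b) 0 *
          (X1 - algebraMap ℂ LL (1 / 2) * mon 0 (-2)) := by
        rw [hYdef, ← mul_assoc, mon_mul]
        congr 2
        · rw [hbν]; ring
        · ring
      rw [e3, e4]
      ring
    rw [ptcInv, aeval_tauSub, e1, e2]
    exact hX10

end Pool.Agent.Work.MP_abe657_gt
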