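import Pool.Agent.Work.MP_abe657_gt.SurfDefs

/-!
Module StrongMax (M-L). E. Hopf's strong maximum principle in the plane.

Proof. Let `m = f u0`. Suppose `f` is not locally constant `= m` near `u0`. Choose a closed ball
`B(u0, 2ρ) ⊆ U`, and `z` with `|z - u0| < ρ` and `f z < m`. The set `K = {f = m} ∩ closedBall z ρ` is compact and
contains `u0`; let `R = dist(z, K) > 0`, attained at `q₀ ∈ K` (`R < ρ`). Replace `z` by the midpoint
`z' = (z + q₀)/2`, `R' = R/2`: the closed ball `B(z', R')` meets `{f = m}` only at `q₀`. Let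
`v(u) = exp(-α|u - z'|²) - exp(-α R'²)`. Since `L v = exp(-α|u-z'|²)(4α² ⟨a (u-z'), u-z'⟩ - 2α (tr a
+ ⟨b, u - z'⟩))`, for `α` large `L v > 0` on the small closed ball `B = B(q₀, η)`, `η < R'/2`, `B ⊆ U`
(there `|u - z'| ≥ R'/2`, `a` is uniformly positive definite and `a, b` are bounded by compactness).
On `∂B ∩ closedBall z' R'` (compact, `f < m`) we have `f + ε v < m` for small `ε > 0`; on
`∂B \ closedBall z' R'` we have `v < 0`, `f ≤ m`, so `f + ε v < m`. But `(f + ε v)(q₀) = m`, so `f + ε v`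
has an interior maximum over `B` at some `u₁` in the open ball; there the gradient vanishes and the
Hessian is negative semidefinite, so `L (f + ε v) ≤ 0` (trace of the product of a positive definite
and a negative semidefinite matrix), but `L (f + ε v) = ε L v > 0`. Contradiction.
(`L f = 0` is the hypothesis; only `L f ≥ 0` is needed.)
-/

set_option autoImplicit false

namespace Pool.Agent.Work.MP_abe657_gt

open scoped ContDiff Topology

namespace StrongMaxAux

private theorem pd_eq {f : E2 → ℝ} {f' : E2 →L[ℝ] ℝ} {u : E2} (h : HasFDerivAt f f' u) (i : Fin 2) :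
    pd i f u = f' (EuclideanSpace.single i 1) := by
  unfold pd
  rw [h.fderiv]

private theorem pd_congr {f g : E2 → ℝ} {u : E2} (h : f =ᶠ[𝓝 u] g) (i : Fin 2) :
    pd i f u = pd i g u := by
  unfold pd
  rw [h.fderiv_eq]

private theorem pd_add_smul {f v : E2 → ℝ} {u : E2} (ε : ℝ) (hf : DifferentiableAt ℝ f u)
    (hv : DifferentiableAt ℝ v u) (i : Fin 2) :
    pd i (fun w => f w + ε * v w) u = pd i f u + ε * pd i v u := by
  have h : HasFDerivAt (fun w => f w + ε * v w) (fderiv ℝ f u + ε • fderiv ℝ v u) u :=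
    hf.hasFDerivAt.add (hv.hasFDerivAt.const_mul ε)
  rw [pd_eq h]
  simp [pd]

private theorem pd_smooth {f : E2 → ℝ} {u : E2} (hf : ContDiffAt ℝ ∞ f u) (i : Fin 2) :
    ContDiffAt ℝ ∞ (pd i f) u := by
  have h1 : ContDiffAt ℝ ∞ (fderiv ℝ f) u := hf.fderiv_right (by simp)
  exact h1.clm_apply contDiffAt_const

private theorem lin_apply (L : E2 →L[ℝ] ℝ) (s t : ℝ) :
    L (s • EuclideanSpace.single 0 1 + t • EuclideanSpace.single 1 1) =
      s * L (EuclideanSpace.single 0 1) + t * L (EuclideanSpace.single 1 1) := by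
  simp

private theorem pd_symm {g : E2 → ℝ} {u : E2} (hg : ContDiffAt ℝ ∞ g u) :
    pd 1 (pd 0 g) u = pd 0 (pd 1 g) u := by
  have h1 : ContDiffAt ℝ ∞ (fderiv ℝ g) u := hg.fderiv_right (by simp)
  have hd : DifferentiableAt ℝ (fderiv ℝ g) u := h1.differentiableAt (by simp)
  have key : ∀ i j : Fin 2, pd i (pd j g) u =
      fderiv ℝ (fderiv ℝ g) u (EuclideanSpace.single i 1) (EuclideanSpace.single j 1) := by
    intro i j
    have h2 : HasFDerivAt (fun y => fderiv ℝ g y (EuclideanSpace.single j 1))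
        ((fderiv ℝ (fderiv ℝ g) u).flip (EuclideanSpace.single j 1)) u := by
      have := hd.hasFDerivAt.clm_apply (hasFDerivAt_const (EuclideanSpace.single j (1 : ℝ) : E2) u)
      simpa using this
    refine (pd_eq h2 i).trans ?_
    simp
  rw [key, key]
  exact hg.isSymmSndFDerivAt (by simp; exact WithTop.coe_le_coe.2 le_top) _ _

private theorem hess {g : E2 → ℝ} {V : Set E2} (hV : IsOpen V) (hg : ContDiffOn ℝ ∞ g V) {u : E2}
    (hu : u ∈ V) (hmax : IsLocalMax g u) :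
    pd 0 g u = 0 ∧ pd 1 g u = 0 ∧ ∀ s t : ℝ, s ^ 2 * pd 0 (pd 0 g) u + 2 * s * t * pd 0 (pd 1 g) u
      + t ^ 2 * pd 1 (pd 1 g) u ≤ 0 := by
  have hga : ∀ w ∈ V, ContDiffAt ℝ ∞ g w := fun w hw => hg.contDiffAt (hV.mem_nhds hw)
  have hf0 : fderiv ℝ g u = 0 := hmax.fderiv_eq_zero
  refine ⟨by simp [pd, hf0], by simp [pd, hf0], fun s t => ?_⟩
  set w : E2 := s • EuclideanSpace.single 0 1 + t • EuclideanSpace.single 1 1 with hw
  set γ : ℝ → E2 := fun τ => u + τ • w with hγ
  have hγd : ∀ τ, HasDerivAt γ w τ := by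
    intro τ
    have := ((hasDerivAt_id τ).smul_const w).const_add u
    simpa [hγ] using this
  have hγc : Continuous γ := by
    rw [hγ]; fun_prop
  have hγ0 : γ 0 = u := by simp [hγ]
  have hev : ∀ᶠ τ in 𝓝 (0 : ℝ), γ τ ∈ V :=
    hγc.continuousAt.eventually_mem (by rw [hγ0]; exact hV.mem_nhds hu)
  set φ : ℝ → ℝ := fun τ => g (γ τ) with hφ
  have hφd : ∀ᶠ τ in 𝓝 (0 : ℝ), HasDerivAt φ (fderiv ℝ g (γ τ) w) τ := by
    filter_upwards [hev] with τ hτ
    exact (((hga _ hτ).differentiableAt (by simp)).hasFDerivAt).comp_hasDerivAt τ (hγd τ)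
  have hder : deriv φ =ᶠ[𝓝 0] fun τ => s * pd 0 g (γ τ) + t * pd 1 g (γ τ) := by
    filter_upwards [hφd] with τ hτ
    rw [hτ.deriv, hw, lin_apply]
    rfl
  have hp : ∀ i : Fin 2, HasDerivAt (fun τ => pd i g (γ τ)) (fderiv ℝ (pd i g) u w) 0 := by
    intro i
    have h1 : HasFDerivAt (pd i g) (fderiv ℝ (pd i g) (γ 0)) (γ 0) := by
      rw [hγ0]
      exact ((pd_smooth (hga u hu) i).differentiableAt (by simp)).hasFDerivAt
    have := h1.comp_hasDerivAt (0 : ℝ) (hγd 0)
    rw [hγ0] at this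
    exact this
  have hdd : deriv (deriv φ) 0 = s * (fderiv ℝ (pd 0 g) u w) + t * (fderiv ℝ (pd 1 g) u w) := by
    rw [hder.deriv_eq]
    exact (((hp 0).const_mul s).add ((hp 1).const_mul t)).deriv
  have hexp : deriv (deriv φ) 0 = s ^ 2 * pd 0 (pd 0 g) u + 2 * s * t * pd 0 (pd 1 g) u
      + t ^ 2 * pd 1 (pd 1 g) u := by
    rw [hdd, hw, lin_apply, lin_apply]
    have hs := pd_symm (hga u hu)
    unfold pd at hs ⊢
    rw [hs]
    ring
  rw [← hexp]
  by_contra hcon
  push Not at hcon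
  have hd0 : deriv φ 0 = 0 := by
    have h1 := hφd.self_of_nhds
    rw [h1.deriv, hγ0, hf0]
    simp
  have hcφ : ContinuousAt φ 0 := (hφd.self_of_nhds).continuousAt
  have hmin : IsLocalMin φ 0 := isLocalMin_of_deriv_deriv_pos hcon hd0 hcφ
  have hmaxφ : IsLocalMax φ 0 := by
    have h1 : Filter.Tendsto γ (𝓝 0) (𝓝 u) := by
      have := hγc.tendsto 0
      rwa [hγ0] at this
    have h2 : ∀ᶠ τ in 𝓝 (0 : ℝ), g (γ τ) ≤ g u := h1.eventually hmax
    have h3 : φ 0 = g u := by simp [hφ, hγ0]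
    filter_upwards [h2] with τ hτ
    rw [h3]
    exact hτ
  have hconst : φ =ᶠ[𝓝 0] fun _ => φ 0 := by
    filter_upwards [hmin, hmaxφ] with τ h1 h2
    exact le_antisymm h2 h1
  have h4 : deriv φ =ᶠ[𝓝 0] deriv (fun _ : ℝ => φ 0) := hconst.deriv
  have h5 : deriv (deriv φ) 0 = 0 := by
    rw [h4.deriv_eq]
    simp
  rw [h5] at hcon
  exact lt_irrefl _ hcon

private theorem trace_le {a11 a12 a22 p q r : ℝ} (h1 : 0 < a11) (h2 : 0 < a11 * a22 - a12 ^ 2)
    (hH : ∀ s t : ℝ, s ^ 2 * p + 2 * s * t * q + t ^ 2 * r ≤ 0) :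
    a11 * p + 2 * a12 * q + a22 * r ≤ 0 := by
  have e1 := hH 1 (a12 / a11)
  have e2 := hH 0 1
  have e3 : a11 * p + 2 * a12 * q + a22 * r =
      a11 * (1 ^ 2 * p + 2 * 1 * (a12 / a11) * q + (a12 / a11) ^ 2 * r) +
      ((a11 * a22 - a12 ^ 2) / a11) * (0 ^ 2 * p + 2 * 0 * 1 * q + 1 ^ 2 * r) := by
    field_simp
    ring
  rw [e3]
  have e4 : 0 < (a11 * a22 - a12 ^ 2) / a11 := div_pos h2 h1
  have e5 := mul_nonneg_of_nonpos_of_nonpos (neg_nonpos.2 h1.le) e1
  have e6 := mul_nonneg_of_nonpos_of_nonpos (neg_nonpos.2 e4.le) e2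
  nlinarith

/-- the exponential barrier -/
private noncomputable def Ex (α : ℝ) (z : E2) (u : E2) : ℝ :=
  Real.exp (-α * ((u 0 - z 0) ^ 2 + (u 1 - z 1) ^ 2))

private theorem coord_has (i : Fin 2) (u : E2) :
    HasFDerivAt (fun w : E2 => w i) (EuclideanSpace.proj i : E2 →L[ℝ] ℝ) u :=
  (EuclideanSpace.proj i : E2 →L[ℝ] ℝ).hasFDerivAt

private theorem Ex_has (α : ℝ) (z u : E2) :
    HasFDerivAt (Ex α z) (Ex α z u • (-α) • ((2 * (u 0 - z 0)) • (EuclideanSpace.proj 0 : E2 →L[ℝ] ℝ)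
      + (2 * (u 1 - z 1)) • (EuclideanSpace.proj 1 : E2 →L[ℝ] ℝ))) u := by
  have h0 := ((coord_has 0 u).sub_const (z 0)).pow 2
  have h1 := ((coord_has 1 u).sub_const (z 1)).pow 2
  have h2 := ((h0.add h1).const_mul (-α)).exp
  change HasFDerivAt (fun u : E2 => Real.exp (-α * ((u 0 - z 0) ^ 2 + (u 1 - z 1) ^ 2))) _ u
  refine h2.congr_fderiv ?_
  ext w
  simp [Ex]

private theorem pd0_Ex (α : ℝ) (z : E2) :
    pd 0 (Ex α z) = fun u => (-2 * α * (u 0 - z 0)) * Ex α z u := by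
  funext u
  rw [pd_eq (Ex_has α z u)]
  simp
  ring

private theorem pd1_Ex (α : ℝ) (z : E2) :
    pd 1 (Ex α z) = fun u => (-2 * α * (u 1 - z 1)) * Ex α z u := by
  funext u
  rw [pd_eq (Ex_has α z u)]
  simp
  ring

private theorem pd00_Ex (α : ℝ) (z u : E2) :
    pd 0 (pd 0 (Ex α z)) u = (4 * α ^ 2 * (u 0 - z 0) ^ 2 - 2 * α) * Ex α z u := by
  rw [pd0_Ex]
  have h := (((coord_has 0 u).sub_const (z 0)).const_mul (-2 * α)).mul (Ex_has α z u)
  refine (pd_eq h _).trans ?_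
  simp
  ring

private theorem pd01_Ex (α : ℝ) (z u : E2) :
    pd 0 (pd 1 (Ex α z)) u = (4 * α ^ 2 * (u 0 - z 0) * (u 1 - z 1)) * Ex α z u := by
  rw [pd1_Ex]
  have h := (((coord_has 1 u).sub_const (z 1)).const_mul (-2 * α)).mul (Ex_has α z u)
  refine (pd_eq h _).trans ?_
  simp
  ring

private theorem pd11_Ex (α : ℝ) (z u : E2) :
    pd 1 (pd 1 (Ex α z)) u = (4 * α ^ 2 * (u 1 - z 1) ^ 2 - 2 * α) * Ex α z u := by
  rw [pd1_Ex]
  have h := (((coord_has 1 u).sub_const (z 1)).const_mul (-2 * α)).mul (Ex_has α z u)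
  refine (pd_eq h _).trans ?_
  simp
  ring

private theorem Ex_smooth (α : ℝ) (z : E2) : ContDiff ℝ ∞ (Ex α z) := by
  unfold Ex
  fun_prop

private theorem Ex_dist (α : ℝ) (z u : E2) : Ex α z u = Real.exp (-α * dist u z ^ 2) := by
  unfold Ex
  rw [EuclideanSpace.dist_sq_eq]
  simp [Fin.sum_univ_two, Real.dist_eq, sq_abs]

/-- the barrier inequality on a compact set away from the centre -/
private theorem barrier (B : Set E2) (hB : IsCompact B) (hne : B.Nonempty) (z : E2)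
    (hz : ∀ u ∈ B, u ≠ z) (a11 a12 a22 b1 b2 : E2 → ℝ)
    (h11 : ContinuousOn a11 B) (h12 : ContinuousOn a12 B) (h22 : ContinuousOn a22 B)
    (hb1 : ContinuousOn b1 B) (hb2 : ContinuousOn b2 B)
    (hell : ∀ u ∈ B, 0 < a11 u ∧ 0 < a11 u * a22 u - a12 u ^ 2) :
    ∃ α : ℝ, 0 < α ∧ ∀ u ∈ B, 0 < a11 u * pd 0 (pd 0 (Ex α z)) u + 2 * a12 u * pd 0 (pd 1 (Ex α z)) u
      + a22 u * pd 1 (pd 1 (Ex α z)) u + b1 u * pd 0 (Ex α z) u + b2 u * pd 1 (Ex α z) u := by
  have hc0 : Continuous fun u : E2 => u 0 := by fun_prop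
  have hc1 : Continuous fun u : E2 => u 1 := by fun_prop
  have hX : ContinuousOn (fun u : E2 => u 0 - z 0) B := (hc0.sub continuous_const).continuousOn
  have hY : ContinuousOn (fun u : E2 => u 1 - z 1) B := (hc1.sub continuous_const).continuousOn
  set Q : E2 → ℝ := fun u => a11 u * (u 0 - z 0) ^ 2 + 2 * a12 u * (u 0 - z 0) * (u 1 - z 1)
    + a22 u * (u 1 - z 1) ^ 2 with hQ
  set T : E2 → ℝ := fun u => a11 u + a22 u + b1 u * (u 0 - z 0) + b2 u * (u 1 - z 1) with hT
  have hQc : ContinuousOn Q B := by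
    rw [hQ]
    exact ((h11.mul (hX.pow 2)).add (((continuousOn_const.mul h12).mul hX).mul hY)).add
      (h22.mul (hY.pow 2))
  have hTc : ContinuousOn T B := by
    rw [hT]
    exact ((h11.add h22).add (hb1.mul hX)).add (hb2.mul hY)
  have hQpos : ∀ u ∈ B, 0 < Q u := by
    intro u hu
    obtain ⟨p1, p2⟩ := hell u hu
    have hne' : u 0 - z 0 ≠ 0 ∨ u 1 - z 1 ≠ 0 := by
      by_contra hcon
      push Not at hcon
      apply hz u hu
      ext i
      fin_cases i
      · simpa [sub_eq_zero] using hcon.1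
      · simpa [sub_eq_zero] using hcon.2
    have e : a11 u * Q u = (a11 u * (u 0 - z 0) + a12 u * (u 1 - z 1)) ^ 2 +
        (a11 u * a22 u - a12 u ^ 2) * (u 1 - z 1) ^ 2 := by
      rw [hQ]; ring
    have hpos : 0 < a11 u * Q u := by
      rw [e]
      by_cases hy : u 1 - z 1 = 0
      · have hx : u 0 - z 0 ≠ 0 := by
          rcases hne' with h | h
          · exact h
          · exact absurd hy h
        rw [hy]
        have : a11 u * (u 0 - z 0) ≠ 0 := mul_ne_zero p1.ne' hx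
        have h9 : 0 < (a11 u * (u 0 - z 0)) ^ 2 := by positivity
        have h10 : (a11 u * (u 0 - z 0) + a12 u * 0) ^ 2 + (a11 u * a22 u - a12 u ^ 2) * 0 ^ 2 =
            (a11 u * (u 0 - z 0)) ^ 2 := by ring
        rw [h10]
        exact h9
      · have h6 : 0 < (u 1 - z 1) ^ 2 := by positivity
        have h7 := mul_pos p2 h6
        have h8 := sq_nonneg (a11 u * (u 0 - z 0) + a12 u * (u 1 - z 1))
        linarith
    exact (mul_pos_iff_of_pos_left p1).1 hpos
  obtain ⟨um, hum, hmin⟩ := hB.exists_isMinOn hne hQc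
  obtain ⟨uM, huM, hmaxT⟩ := hB.exists_isMaxOn hne hTc
  set c := Q um with hc
  have hcpos : 0 < c := hQpos um hum
  set α : ℝ := (|T uM| + 1) / c with hα
  have hαpos : 0 < α := by positivity
  refine ⟨α, hαpos, fun u hu => ?_⟩
  rw [pd00_Ex, pd01_Ex, pd11_Ex, pd0_Ex, pd1_Ex]
  have e : a11 u * ((4 * α ^ 2 * (u 0 - z 0) ^ 2 - 2 * α) * Ex α z u)
      + 2 * a12 u * ((4 * α ^ 2 * (u 0 - z 0) * (u 1 - z 1)) * Ex α z u)
      + a22 u * ((4 * α ^ 2 * (u 1 - z 1) ^ 2 - 2 * α) * Ex α z u)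
      + b1 u * ((fun u => (-2 * α * (u 0 - z 0)) * Ex α z u) u)
      + b2 u * ((fun u => (-2 * α * (u 1 - z 1)) * Ex α z u) u)
      = Ex α z u * (2 * α * (2 * (α * Q u) - T u)) := by
    rw [hQ, hT]; ring
  rw [e]
  have hE : 0 < Ex α z u := Real.exp_pos _
  have h1 : c ≤ Q u := hmin hu
  have h2 : T u ≤ T uM := hmaxT hu
  have h3 : |T uM| + 1 ≤ α * Q u := by
    calc |T uM| + 1 = α * c := by rw [hα]; field_simp
      _ ≤ α * Q u := by gcongr
  have h4 : T uM ≤ |T uM| := le_abs_self _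
  have h5 : 0 ≤ |T uM| := abs_nonneg _
  have h6 : 0 < 2 * (α * Q u) - T u := by linarith
  positivity

end StrongMaxAux

open StrongMaxAux in
theorem strong_max (U : Set E2) (hU : IsOpen U) (a11 a12 a22 b1 b2 : E2 → ℝ)
    (h11 : ContinuousOn a11 U) (h12 : ContinuousOn a12 U) (h22 : ContinuousOn a22 U)
    (hb1 : ContinuousOn b1 U) (hb2 : ContinuousOn b2 U)
    (hell : ∀ u ∈ U, 0 < a11 u ∧ 0 < a11 u * a22 u - a12 u ^ 2)
    (f : E2 → ℝ) (hf : ContDiffOn ℝ ∞ f U)
    (hL : ∀ u ∈ U, a11 u * pd 0 (pd 0 f) u + 2 * a12 u * pd 0 (pd 1 f) u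
      + a22 u * pd 1 (pd 1 f) u + b1 u * pd 0 f u + b2 u * pd 1 f u = 0)
    (u0 : E2) (hu0 : u0 ∈ U) (hmax : ∀ u ∈ U, f u ≤ f u0) :
    ∀ᶠ u in 𝓝 u0, f u = f u0 := by
  by_contra hcon
  set m := f u0 with hm
  obtain ⟨r, hr, hrU⟩ : ∃ r > 0, Metric.closedBall u0 (2 * r) ⊆ U := by
    obtain ⟨s, hs, hsU⟩ := Metric.isOpen_iff.1 hU u0 hu0
    refine ⟨s / 4, by positivity, ?_⟩
    refine (Metric.closedBall_subset_ball ?_).trans hsU
    linarith
  obtain ⟨z, hzr, hfz⟩ : ∃ z, dist z u0 < r ∧ f z ≠ m := by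
    have h1 : ∃ᶠ u in 𝓝 u0, ¬ f u = m := Filter.not_eventually.1 hcon
    have h2 := h1.and_eventually (Metric.ball_mem_nhds u0 hr)
    obtain ⟨z, hz1, hz2⟩ := h2.exists
    exact ⟨z, Metric.mem_ball.1 hz2, hz1⟩
  have hzU : Metric.closedBall z r ⊆ U := by
    intro u hu
    apply hrU
    rw [Metric.mem_closedBall] at hu ⊢
    have := dist_triangle u z u0
    linarith
  have hfc : ContinuousOn f U := hf.continuousOn
  set K : Set E2 := Metric.closedBall z r ∩ f ⁻¹' {m} with hK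
  have hKc : IsCompact K := by
    have h1 : IsCompact (Metric.closedBall z r) := isCompact_closedBall z r
    have h2 : IsClosed K :=
      (hfc.mono hzU).preimage_isClosed_of_isClosed Metric.isClosed_closedBall isClosed_singleton
    exact h1.of_isClosed_subset h2 Set.inter_subset_left
  have hu0K : u0 ∈ K := by
    refine ⟨?_, rfl⟩
    rw [Metric.mem_closedBall, dist_comm]
    exact hzr.le
  obtain ⟨q, hqK, hqmin⟩ := hKc.exists_isMinOn ⟨u0, hu0K⟩
    (f := fun u => dist u z) (by fun_prop : Continuous fun u : E2 => dist u z).continuousOn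
  have hfq : f q = m := hqK.2
  set R := dist q z with hR
  have hRpos : 0 < R := by
    rw [hR, dist_pos]
    rintro rfl
    exact hfz hfq
  have hRr : R < r := by
    have h1 : R ≤ dist u0 z := hqmin hu0K
    rw [dist_comm] at h1
    linarith
  have hin : ∀ u, dist u z < R → f u < m := by
    intro u hu
    have h1 : u ∈ Metric.closedBall z r := by
      rw [Metric.mem_closedBall]; linarith
    refine lt_of_le_of_ne (hmax u (hzU h1)) fun h => ?_
    have h2 : R ≤ dist u z := hqmin (show u ∈ K from ⟨h1, h⟩)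
    linarith
  -- midpoint
  set z' : E2 := (1 / 2 : ℝ) • (z + q) with hz'
  have hq' : dist q z' = R / 2 := by
    rw [dist_eq_norm, hR, dist_eq_norm]
    have : q - z' = (1 / 2 : ℝ) • (q - z) := by
      rw [hz']; module
    rw [this, norm_smul]
    norm_num
    ring
  have hclosed : ∀ u, dist u z' ≤ R / 2 → u ≠ q → f u < m := by
    intro u hu huq
    apply hin
    have hp := parallelogram_law_with_norm ℝ (u - z') (z' - z)
    have e1 : u - z' + (z' - z) = u - z := by abel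
    have e2 : u - z' - (z' - z) = u - q := by rw [hz']; module
    rw [e1, e2] at hp
    have e3 : ‖z' - z‖ = R / 2 := by
      rw [hR, dist_eq_norm]
      have : z' - z = (1 / 2 : ℝ) • (q - z) := by
        rw [hz']; module
      rw [this, norm_smul]
      norm_num
      ring
    rw [e3] at hp
    rw [dist_eq_norm] at hu ⊢
    have e4 : 0 < ‖u - q‖ := norm_pos_iff.2 (sub_ne_zero.2 huq)
    have e5 : ‖u - z'‖ * ‖u - z'‖ ≤ (R / 2) * (R / 2) :=
      mul_self_le_mul_self (norm_nonneg _) hu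
    have e6 : 0 < ‖u - q‖ * ‖u - q‖ := mul_pos e4 e4
    have e7 : ‖u - z‖ * ‖u - z‖ < R * R := by nlinarith
    exact lt_of_mul_self_lt_mul_self₀ hRpos.le e7
  -- small ball
  have hqU : q ∈ U := hzU hqK.1
  obtain ⟨η, hη, hηR, hηU⟩ : ∃ η > 0, η ≤ R / 4 ∧ Metric.closedBall q η ⊆ U := by
    obtain ⟨s, hs, hsU⟩ := Metric.isOpen_iff.1 hU q hqU
    refine ⟨min (s / 2) (R / 4), by positivity, min_le_right _ _, ?_⟩
    refine (Metric.closedBall_subset_ball ?_).trans hsU
    have := min_le_left (s / 2) (R / 4)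
    linarith
  set B := Metric.closedBall q η with hB
  have hBc : IsCompact B := isCompact_closedBall q η
  have hqB : q ∈ B := Metric.mem_closedBall_self hη.le
  have hBz : ∀ u ∈ B, u ≠ z' := by
    rintro u hu rfl
    rw [hB, Metric.mem_closedBall, dist_comm, hq'] at hu
    linarith
  obtain ⟨α, hα, hbar⟩ := barrier B hBc ⟨q, hqB⟩ z' hBz a11 a12 a22 b1 b2 (h11.mono hηU)
    (h12.mono hηU) (h22.mono hηU) (hb1.mono hηU) (hb2.mono hηU) (fun u hu => hell u (hηU hu))
  set c0 : ℝ := Real.exp (-α * (R / 2) ^ 2) with hc0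
  -- choice of ε
  obtain ⟨ε, hε, hεS⟩ : ∃ ε > 0, ∀ u ∈ Metric.sphere q η ∩ Metric.closedBall z' (R / 2),
      f u + ε < m := by
    set S := Metric.sphere q η ∩ Metric.closedBall z' (R / 2) with hS
    have hSc : IsCompact S := (isCompact_sphere q η).inter_right Metric.isClosed_closedBall
    rcases S.eq_empty_or_nonempty with h0 | hne
    · exact ⟨1, one_pos, fun u hu => by rw [h0] at hu; exact absurd hu (Set.notMem_empty u)⟩
    · have hSU : S ⊆ U := by
        intro u hu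
        apply hηU
        exact Metric.sphere_subset_closedBall hu.1
      obtain ⟨s, hs, hsmax⟩ := hSc.exists_isMaxOn hne (hfc.mono hSU)
      have hsm : f s < m := by
        apply hclosed s (Metric.mem_closedBall.1 hs.2)
        rintro rfl
        have := hs.1
        rw [Metric.mem_sphere, dist_self] at this
        linarith
      refine ⟨(m - f s) / 2, by linarith, fun u hu => ?_⟩
      have : f u ≤ f s := hsmax hu
      linarith
  set g : E2 → ℝ := fun u => f u + ε * (Ex α z' u - c0) with hg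
  have hgc : ContinuousOn g B := by
    have h1 : ContinuousOn f B := hfc.mono hηU
    have h2 : ContinuousOn (fun u => ε * (Ex α z' u - c0)) B :=
      (continuous_const.mul ((Ex_smooth α z').continuous.sub continuous_const)).continuousOn
    exact h1.add h2
  obtain ⟨u1, hu1B, hu1max⟩ := hBc.exists_isMaxOn ⟨q, hqB⟩ hgc
  have hgq : g q = m := by
    rw [hg]
    simp only
    rw [Ex_dist, hq', hfq, hc0]
    ring
  have hgu1 : m ≤ g u1 := by
    rw [← hgq]; exact hu1max hqB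
  have hu1lt : dist u1 q < η := by
    refine lt_of_le_of_ne (Metric.mem_closedBall.1 hu1B) fun hsph => ?_
    have hu1q : u1 ≠ q := by
      rintro rfl
      rw [dist_self] at hsph
      linarith
    have : g u1 < m := by
      rw [hg]
      simp only
      rw [Ex_dist]
      rcases le_or_gt (dist u1 z') (R / 2) with h | h
      · have h1 := hεS u1 ⟨Metric.mem_sphere.2 hsph, Metric.mem_closedBall.2 h⟩
        have h2 : Real.exp (-α * dist u1 z' ^ 2) - c0 ≤ 1 := by
          have h3 : Real.exp (-α * dist u1 z' ^ 2) ≤ 1 := by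
            rw [Real.exp_le_one_iff]
            have : 0 ≤ α * dist u1 z' ^ 2 := by positivity
            linarith
          have h4 : 0 < c0 := Real.exp_pos _
          linarith
        have h5 : ε * (Real.exp (-α * dist u1 z' ^ 2) - c0) ≤ ε * 1 := by gcongr
        linarith
      · have h1 : f u1 ≤ m := hmax u1 (hηU hu1B)
        have h2 : Real.exp (-α * dist u1 z' ^ 2) < c0 := by
          rw [hc0, Real.exp_lt_exp]
          have : (R / 2) ^ 2 < dist u1 z' ^ 2 := by gcongr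
          nlinarith
        have h5 : ε * (Real.exp (-α * dist u1 z' ^ 2) - c0) < 0 :=
          mul_neg_of_pos_of_neg hε (by linarith)
        linarith
    linarith
  have hloc : IsLocalMax g u1 := by
    have h1 : B ∈ 𝓝 u1 := by
      rw [hB]
      exact Filter.mem_of_superset (Metric.isOpen_ball.mem_nhds (Metric.mem_ball.2 hu1lt))
        Metric.ball_subset_closedBall
    filter_upwards [h1] with u hu
    exact hu1max hu
  have hu1U : u1 ∈ U := hηU hu1B
  have hgs : ContDiffOn ℝ ∞ g U := by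
    have h2 : ContDiff ℝ ∞ (fun u => ε * (Ex α z' u - c0)) :=
      contDiff_const.mul ((Ex_smooth α z').sub contDiff_const)
    exact hf.add h2.contDiffOn
  obtain ⟨hg0, hg1, hH⟩ := hess hU hgs hu1U hloc
  obtain ⟨p1, p2⟩ := hell u1 hu1U
  have htr := trace_le p1 p2 hH
  -- linearity
  have hfa : ∀ w ∈ U, ContDiffAt ℝ ∞ f w := fun w hw => hf.contDiffAt (hU.mem_nhds hw)
  have hEa : ∀ w, ContDiffAt ℝ ∞ (Ex α z') w := fun w => (Ex_smooth α z').contDiffAt
  have hpdg : ∀ i : Fin 2, ∀ w ∈ U, pd i g w = pd i f w + ε * pd i (Ex α z') w := by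
    intro i w hw
    have e1 : g = fun w => (f w + ε * Ex α z' w) + (-(ε * c0)) := by
      funext w; rw [hg]; ring
    have hd1 : DifferentiableAt ℝ f w := (hfa w hw).differentiableAt (by simp)
    have hd2 : DifferentiableAt ℝ (Ex α z') w := (hEa w).differentiableAt (by simp)
    rw [← pd_add_smul ε hd1 hd2 i, e1]
    unfold pd
    rw [fderiv_add_const]
  have hpdpd : ∀ i j : Fin 2, pd i (pd j g) u1 = pd i (pd j f) u1 + ε * pd i (pd j (Ex α z')) u1 := by
    intro i j
    have e1 : pd j g =ᶠ[𝓝 u1] fun w => pd j f w + ε * pd j (Ex α z') w := by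
      filter_upwards [hU.mem_nhds hu1U] with w hw
      exact hpdg j w hw
    rw [pd_congr e1 i]
    exact pd_add_smul ε ((pd_smooth (hfa u1 hu1U) j).differentiableAt (by simp))
      ((pd_smooth (hEa u1) j).differentiableAt (by simp)) i
  rw [hpdg 0 u1 hu1U] at hg0
  rw [hpdg 1 u1 hu1U] at hg1
  rw [hpdpd, hpdpd, hpdpd] at htr
  have hLu := hL u1 hu1U
  have hbu := hbar u1 hu1B
  set A0 := a11 u1 * pd 0 (pd 0 (Ex α z')) u1 + 2 * a12 u1 * pd 0 (pd 1 (Ex α z')) u1
      + a22 u1 * pd 1 (pd 1 (Ex α z')) u1 + b1 u1 * pd 0 (Ex α z') u1 + b2 u1 * pd 1 (Ex α z') u1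
      with hA0
  have h9 : 0 < ε * A0 := mul_pos hε hbu
  have h10 : ε * A0 = (a11 u1 * (pd 0 (pd 0 f) u1 + ε * pd 0 (pd 0 (Ex α z')) u1)
      + 2 * a12 u1 * (pd 0 (pd 1 f) u1 + ε * pd 0 (pd 1 (Ex α z')) u1)
      + a22 u1 * (pd 1 (pd 1 f) u1 + ε * pd 1 (pd 1 (Ex α z')) u1)) := by
    rw [hA0]
    linear_combination b1 u1 * hg0 + b2 u1 * hg1 - hLu
  linarith

end Pool.Agent.Work.MP_abe657_gt
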