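import Pool.Agent.Work.MP_abe657_gt.Defs

/-!
Common definition: the polynomial `F(g (A y(t) + X e))` in the variable `X` over `LL`.
-/

set_option autoImplicit false

namespace Pool.Agent.Work.MP_abe657_gt

open MvPolynomial

/-- `F(g (A y(t) + X e))` as a polynomial in `X` with coefficients in `LL` -/
noncomputable def substF (g : Matrix (Fin 3) (Fin 3) ℂ) (F : MvPolynomial (Fin 3) ℂ) :
    Polynomial LL :=
  aeval (fun a => ∑ b, Polynomial.C (algebraMap ℂ LL (g a b))
    * (Polynomial.C (AA * yv tL b) + Polynomial.X * Polynomial.C (evec LL b))) F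

lemma eval_substF (g : Matrix (Fin 3) (Fin 3) ℂ) (F : MvPolynomial (Fin 3) ℂ) (C : LL) :
    (substF g F).eval C = aeval (xi g C) F := by
  have h : ((Polynomial.aeval C : Polynomial LL →ₐ[LL] LL).restrictScalars ℂ).comp
      (aeval (fun a => ∑ b, Polynomial.C (algebraMap ℂ LL (g a b))
    * (Polynomial.C (AA * yv tL b) + Polynomial.X * Polynomial.C (evec LL b))))
      = (aeval (xi g C) : MvPolynomial (Fin 3) ℂ →ₐ[ℂ] LL) := by
    apply MvPolynomial.algHom_ext
    intro a
    simp only [AlgHom.comp_apply, AlgHom.restrictScalars_apply, aeval_X, map_sum, map_mul,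
      Polynomial.aeval_C, map_add, Polynomial.aeval_X, xi, Algebra.algebraMap_self, RingHom.id_apply]
  have h2 := congrArg (fun f => f F) h
  simp only [AlgHom.comp_apply, AlgHom.restrictScalars_apply] at h2
  rw [← h2, substF, Polynomial.coe_aeval_eq_eval]

end Pool.Agent.Work.MP_abe657_gt
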