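import Pool.Agent.Work.MP_abe657_gt.Defs

/-!
Module Univ. The Laplacian of functions of `X` on the level set `F = 0`, universal formula.
-/

set_option autoImplicit false

namespace Pool.Agent.Work.MP_abe657_gt

open MvPolynomial

section univaux

variable {Ω : Type} [Field Ω] [Algebra ℂ Ω]

private lemma univ_expand (d e : Derivation ℂ Ω Ω) (g11 g12 g22 u : Ω) :
    lapFun d e g11 g12 g22 u =
      -((g22 / (g11 * g22 - g12 ^ 2)) * d (d u)
        - (g12 / (g11 * g22 - g12 ^ 2)) * (d (e u) + e (d u))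
        + (g11 / (g11 * g22 - g12 ^ 2)) * e (e u))
      + -(d (g22 / (g11 * g22 - g12 ^ 2)) - e (g12 / (g11 * g22 - g12 ^ 2))
          + d (g11 * g22 - g12 ^ 2) / (2 * (g11 * g22 - g12 ^ 2))
            * (g22 / (g11 * g22 - g12 ^ 2))
          - e (g11 * g22 - g12 ^ 2) / (2 * (g11 * g22 - g12 ^ 2))
            * (g12 / (g11 * g22 - g12 ^ 2))) * d u
      + -(e (g11 / (g11 * g22 - g12 ^ 2)) - d (g12 / (g11 * g22 - g12 ^ 2))
          + e (g11 * g22 - g12 ^ 2) / (2 * (g11 * g22 - g12 ^ 2))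
            * (g11 / (g11 * g22 - g12 ^ 2))
          - d (g11 * g22 - g12 ^ 2) / (2 * (g11 * g22 - g12 ^ 2))
            * (g12 / (g11 * g22 - g12 ^ 2))) * e u := by
  generalize hD : g11 * g22 - g12 ^ 2 = D
  simp only [lapFun, hD]
  have h1 : (g22 * d u - g12 * e u) / D = (g22 / D) * d u - (g12 / D) * e u := by ring
  have h2 : (g11 * e u - g12 * d u) / D = (g11 / D) * e u - (g12 / D) * d u := by ring
  rw [h1, h2, map_sub, map_sub, Derivation.leibniz, Derivation.leibniz, Derivation.leibniz,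
    Derivation.leibniz]
  simp only [smul_eq_mul]
  ring

private lemma univ_chain {σ : Type} (Z : σ → Ω)
    (D : Fin 3 → Derivation ℂ (MvPolynomial σ ℂ) (MvPolynomial σ ℂ)) (d : Derivation ℂ Ω Ω)
    (v : Fin 3 → Ω) (h : ∀ i, d (Z i) = ∑ a, aeval Z (D a (X i)) * v a)
    (φ : MvPolynomial σ ℂ) : d (aeval Z φ) = ∑ a, aeval Z (D a φ) * v a := by
  induction φ using MvPolynomial.induction_on with
  | C c =>
    have h1 : ∀ a, D a (C c) = 0 := fun a => (D a).map_algebraMap c
    rw [aeval_C, d.map_algebraMap]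
    simp [h1]
  | add p q hp hq =>
    rw [map_add, map_add, hp, hq, ← Finset.sum_add_distrib]
    refine Finset.sum_congr rfl fun a _ => ?_
    rw [map_add, map_add]
    ring
  | mul_X p i hp =>
    rw [map_mul, aeval_X, Derivation.leibniz, hp, h i, smul_eq_mul, smul_eq_mul,
      Finset.mul_sum, Finset.mul_sum, ← Finset.sum_add_distrib]
    refine Finset.sum_congr rfl fun a _ => ?_
    rw [Derivation.leibniz, map_add, smul_eq_mul, smul_eq_mul, map_mul, map_mul, aeval_X]
    ring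

private lemma univ_chain3 (X' : Fin 3 → Ω) (d : Derivation ℂ Ω Ω) (P : MvPolynomial (Fin 3) ℂ) :
    d (aeval X' P) = ∑ a, aeval X' (pderiv a P) * d (X' a) := by
  refine univ_chain X' (fun a => pderiv a) d (fun a => d (X' a)) (fun i => ?_) P
  rw [Finset.sum_eq_single i]
  · simp
  · intro b _ hb
    rw [pderiv_X_of_ne hb.symm]
    simp
  · simp

omit [Algebra ℂ Ω] in
/-- the matrix identity `g^{ij} X_i X_j + N N / w = 1` -/
private lemma univ_matrix (p q N : Fin 3 → Ω) (hpN : ∑ a, p a * N a = 0)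
    (hqN : ∑ a, q a * N a = 0) (g11 g12 g22 w : Ω) (h11 : g11 = ∑ a, p a * p a)
    (h12 : g12 = ∑ a, p a * q a) (h22 : g22 = ∑ a, q a * q a) (hw : w = ∑ a, N a * N a)
    (hD : g11 * g22 - g12 ^ 2 ≠ 0) (hw0 : w ≠ 0) (a b : Fin 3) :
    g22 / (g11 * g22 - g12 ^ 2) * (p a * p b)
      - g12 / (g11 * g22 - g12 ^ 2) * (p a * q b + q a * p b)
      + g11 / (g11 * g22 - g12 ^ 2) * (q a * q b) = (if a = b then 1 else 0) - N a * N b / w := by
  rw [Fin.sum_univ_three] at hpN hqN h11 h12 h22 hw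
  generalize hDdef : g11 * g22 - g12 ^ 2 = D at hD ⊢
  let A : Matrix (Fin 3) (Fin 3) Ω := !![p 0, p 1, p 2; q 0, q 1, q 2; N 0, N 1, N 2]
  let H : Matrix (Fin 3) (Fin 3) Ω := !![g22 / D, -g12 / D, 0; -g12 / D, g11 / D, 0;
    0, 0, 1 / w]
  have hG : A * A.transpose = !![g11, g12, 0; g12, g22, 0; 0, 0, w] := by
    ext i j
    fin_cases i <;> fin_cases j <;>
      simp [Matrix.mul_apply, Fin.sum_univ_three, A, h11, h12, h22, hw]
    · exact hpN
    · ring
    · exact hqN
    · linear_combination hpN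
    · linear_combination hqN
  have hGH : A * (A.transpose * H) = 1 := by
    rw [← Matrix.mul_assoc, hG]
    ext i j
    fin_cases i <;> fin_cases j <;>
      simp [Matrix.mul_apply, Fin.sum_univ_three, H, hw0]
    · field_simp
      linear_combination hDdef
    · field_simp
      ring
    · field_simp
      ring
    · field_simp
      linear_combination hDdef
  have hHG : A.transpose * H * A = 1 := mul_eq_one_comm.mp hGH
  have hab := congrFun (congrFun hHG a) b
  have hA0 : ∀ c, A 0 c = p c := by intro c; fin_cases c <;> rfl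
  have hA1 : ∀ c, A 1 c = q c := by intro c; fin_cases c <;> rfl
  have hA2 : ∀ c, A 2 c = N c := by intro c; fin_cases c <;> rfl
  rw [Matrix.mul_apply, Fin.sum_univ_three, Matrix.mul_apply, Matrix.mul_apply, Matrix.mul_apply,
    Fin.sum_univ_three, Fin.sum_univ_three, Fin.sum_univ_three, Matrix.one_apply] at hab
  simp only [Matrix.transpose_apply, hA0, hA1, hA2] at hab
  have e00 : H 0 0 = g22 / D := rfl
  have e01 : H 0 1 = -g12 / D := rfl
  have e02 : H 0 2 = 0 := rfl
  have e10 : H 1 0 = -g12 / D := rfl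
  have e11 : H 1 1 = g11 / D := rfl
  have e12 : H 1 2 = 0 := rfl
  have e20 : H 2 0 = 0 := rfl
  have e21 : H 2 1 = 0 := rfl
  have e22 : H 2 2 = 1 / w := rfl
  rw [e00, e01, e02, e10, e11, e12, e20, e21, e22] at hab
  linear_combination hab

omit [Algebra ℂ Ω] in
/-- the vector of Laplacians of the coordinates is tangentially zero -/
private lemma univ_tang (g11 g12 g22 a11 a12 a22 b11 b12 b22 D ad bd : Ω)
    (hDdef : D = g11 * g22 - g12 ^ 2) (hD : D ≠ 0) (h2 : (2 : Ω) ≠ 0)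
    (had : ad = a11 * g22 + g11 * a22 - 2 * g12 * a12)
    (hbd : bd = b11 * g22 + g11 * b22 - 2 * g12 * b12) :
    -(g22 / D * (a11 / 2) - g12 / D * (b11 / 2 + b11 / 2) + g11 / D * (b12 - a22 / 2))
      + -((a22 * D - g22 * ad) / D ^ 2 - (b12 * D - g12 * bd) / D ^ 2
          + ad / (2 * D) * (g22 / D) - bd / (2 * D) * (g12 / D)) * g11
      + -((b11 * D - g11 * bd) / D ^ 2 - (a12 * D - g12 * ad) / D ^ 2
          + bd / (2 * D) * (g11 / D) - ad / (2 * D) * (g12 / D)) * g12 = 0 := by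
  field_simp
  subst had hbd hDdef
  ring

private lemma univ_div (d : Derivation ℂ Ω Ω) (x y : Ω) (hy : y ≠ 0) :
    d (x / y) = (d x * y - x * d y) / y ^ 2 := by
  have h : d x = (x / y) * d y + y * d (x / y) := by
    conv_lhs => rw [← div_mul_cancel₀ x hy]
    rw [Derivation.leibniz]
    rfl
  rw [h]
  field_simp
  ring

private lemma univ_two : (2 : Ω) ≠ 0 := by
  have h := (algebraMap ℂ Ω).injective
  intro h2
  have h3 : algebraMap ℂ Ω 2 = algebraMap ℂ Ω 0 := by
    rw [map_zero, map_ofNat]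
    exact h2
  exact two_ne_zero (h h3)

/-- the Laplacian of the position vector -/
private lemma univ_lapX (d e : Derivation ℂ Ω Ω) (hde : ∀ u, d (e u) = e (d u))
    (x N : Fin 3 → Ω) (FF : Fin 3 → Fin 3 → Ω)
    (hdN : ∀ a, d (N a) = ∑ b, FF a b * d (x b)) (heN : ∀ a, e (N a) = ∑ b, FF a b * e (x b))
    (hpN : ∑ a, d (x a) * N a = 0) (hqN : ∑ a, e (x a) * N a = 0) (w : Ω)
    (hw : w = ∑ a, N a * N a) (hw0 : w ≠ 0) (hD : detM d e x ≠ 0) (a : Fin 3) :
    lapFun d e (met d d x) (met d e x) (met e e x) (x a) =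
      ((∑ b, FF b b) / w - (∑ b, ∑ c, FF b c * (N b * N c)) / w ^ 2) * N a := by
  have h2 : (2 : Ω) ≠ 0 := univ_two
  have : CharZero Ω := charZero_of_injective_algebraMap (algebraMap ℂ Ω).injective
  have hM := univ_matrix (fun a => d (x a)) (fun a => e (x a)) N hpN hqN (met d d x) (met d e x)
    (met e e x) w rfl rfl rfl hw hD hw0
  rw [detM] at hD
  generalize hg11 : met d d x = g11 at hD hM ⊢
  generalize hg12 : met d e x = g12 at hD hM ⊢
  generalize hg22 : met e e x = g22 at hD hM ⊢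
  rw [met, Fin.sum_univ_three] at hg11 hg12 hg22
  have a11 : d g11 = 2 * (d (x 0) * d (d (x 0)) + d (x 1) * d (d (x 1))
      + d (x 2) * d (d (x 2))) := by
    rw [← hg11]; simp only [map_add, Derivation.leibniz, smul_eq_mul]; ring
  have b11 : e g11 = 2 * (d (x 0) * d (e (x 0)) + d (x 1) * d (e (x 1))
      + d (x 2) * d (e (x 2))) := by
    rw [← hg11]; simp only [map_add, Derivation.leibniz, smul_eq_mul, hde]; ring
  have a12 : d g12 = d (d (x 0)) * e (x 0) + d (x 0) * d (e (x 0))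
      + (d (d (x 1)) * e (x 1) + d (x 1) * d (e (x 1)))
      + (d (d (x 2)) * e (x 2) + d (x 2) * d (e (x 2))) := by
    rw [← hg12]; simp only [map_add, Derivation.leibniz, smul_eq_mul]; ring
  have b12 : e g12 = d (e (x 0)) * e (x 0) + d (x 0) * e (e (x 0))
      + (d (e (x 1)) * e (x 1) + d (x 1) * e (e (x 1)))
      + (d (e (x 2)) * e (x 2) + d (x 2) * e (e (x 2))) := by
    rw [← hg12]; simp only [map_add, Derivation.leibniz, smul_eq_mul, hde]; ring
  have a22 : d g22 = 2 * (e (x 0) * d (e (x 0)) + e (x 1) * d (e (x 1))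
      + e (x 2) * d (e (x 2))) := by
    rw [← hg22]; simp only [map_add, Derivation.leibniz, smul_eq_mul]; ring
  have b22 : e g22 = 2 * (e (x 0) * e (e (x 0)) + e (x 1) * e (e (x 1))
      + e (x 2) * e (e (x 2))) := by
    rw [← hg22]; simp only [map_add, Derivation.leibniz, smul_eq_mul]; ring
  have hdD : d (g11 * g22 - g12 ^ 2) = d g11 * g22 + g11 * d g22 - 2 * g12 * d g12 := by
    rw [map_sub, Derivation.leibniz, Derivation.leibniz_pow]
    simp only [smul_eq_mul, nsmul_eq_mul]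
    push_cast
    ring
  have heD : e (g11 * g22 - g12 ^ 2) = e g11 * g22 + g11 * e g22 - 2 * g12 * e g12 := by
    rw [map_sub, Derivation.leibniz, Derivation.leibniz_pow]
    simp only [smul_eq_mul, nsmul_eq_mul]
    push_cast
    ring
  have hL := fun c : Fin 3 => univ_expand d e g11 g12 g22 (x c)
  simp only [univ_div d _ _ hD, univ_div e _ _ hD, ← hde] at hL
  have t1 := univ_tang g11 g12 g22 (d g11) (d g12) (d g22) (e g11) (e g12) (e g22)
    (g11 * g22 - g12 ^ 2) _ _ rfl hD h2 hdD heD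
  have t2 := univ_tang g22 g12 g11 (e g22) (e g12) (e g11) (d g22) (d g12) (d g11)
    (g11 * g22 - g12 ^ 2) (e (g11 * g22 - g12 ^ 2)) (d (g11 * g22 - g12 ^ 2)) (by ring) hD h2
    (by rw [heD]; ring) (by rw [hdD]; ring)
  generalize hDdef : g11 * g22 - g12 ^ 2 = D at hD hM hL t1 t2
  generalize hβ1 : -((d g22 * D - g22 * d D) / D ^ 2 - (e g12 * D - g12 * e D) / D ^ 2 +
      d D / (2 * D) * (g22 / D) - e D / (2 * D) * (g12 / D)) = β1 at hL t1 t2
  generalize hβ2 : -((e g11 * D - g11 * e D) / D ^ 2 - (d g12 * D - g12 * d D) / D ^ 2 +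
      e D / (2 * D) * (g11 / D) - d D / (2 * D) * (g12 / D)) = β2 at hL t1 t2
  rw [a11, b11, b12, a22] at t1
  rw [b22, a22, a12, b11] at t2
  generalize hLd : (fun c : Fin 3 => lapFun d e g11 g12 g22 (x c)) = L
  have hLc : ∀ c, lapFun d e g11 g12 g22 (x c) = L c := fun c => congrFun hLd c
  simp only [hLc] at hL ⊢
  have hp : d (x 0) * L 0 + d (x 1) * L 1 + d (x 2) * L 2 = 0 := by
    rw [hL 0, hL 1, hL 2]
    linear_combination t1 + β1 * hg11 + β2 * hg12
  have hq : e (x 0) * L 0 + e (x 1) * L 1 + e (x 2) * L 2 = 0 := by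
    rw [hL 0, hL 1, hL 2]
    linear_combination t2 + β2 * hg22 + β1 * hg12
  have n1 : d (∑ a, d (x a) * N a) = 0 := by rw [hpN, map_zero]
  have n2 : e (∑ a, d (x a) * N a) = 0 := by rw [hpN, map_zero]
  have n3 : d (∑ a, e (x a) * N a) = 0 := by rw [hqN, map_zero]
  have n4 : e (∑ a, e (x a) * N a) = 0 := by rw [hqN, map_zero]
  simp only [Fin.sum_univ_three, map_add, Derivation.leibniz, smul_eq_mul, hdN, heN, ← hde]
    at n1 n2 n3 n4 hpN hqN
  have hN : N 0 * L 0 + N 1 * L 1 + N 2 * L 2 =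
      (∑ b, FF b b) - (∑ b, ∑ c, FF b c * (N b * N c)) / w := by
    have m00 := hM 0 0
    have m01 := hM 0 1
    have m02 := hM 0 2
    have m10 := hM 1 0
    have m11 := hM 1 1
    have m12 := hM 1 2
    have m20 := hM 2 0
    have m21 := hM 2 1
    have m22 := hM 2 2
    simp only [Fin.isValue, if_true] at m00 m01 m02 m10 m11 m12 m20 m21 m22
    rw [if_neg (by decide)] at m01 m02 m10 m12 m20 m21
    rw [hL 0, hL 1, hL 2]
    simp only [Fin.sum_univ_three]
    linear_combination -(g22 / D) * n1 + (g12 / D) * n2 + (g12 / D) * n3 - (g11 / D) * n4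
      + β1 * hpN + β2 * hqN + FF 0 0 * m00 + FF 0 1 * m01 + FF 0 2 * m02 + FF 1 0 * m10
      + FF 1 1 * m11 + FF 1 2 * m12 + FF 2 0 * m20 + FF 2 1 * m21 + FF 2 2 * m22
  have hfin : L a = (g22 / D * d (x a) - g12 / D * e (x a))
        * (d (x 0) * L 0 + d (x 1) * L 1 + d (x 2) * L 2)
      + (g11 / D * e (x a) - g12 / D * d (x a))
        * (e (x 0) * L 0 + e (x 1) * L 1 + e (x 2) * L 2)
      + N a / w * (N 0 * L 0 + N 1 * L 1 + N 2 * L 2) := by
    have h1 : L a = ∑ b, (if a = b then 1 else 0) * L b := by simp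
    have h3 : ∀ b, (if a = b then (1 : Ω) else 0) =
        g22 / D * (d (x a) * d (x b)) - g12 / D * (d (x a) * e (x b) + e (x a) * d (x b))
          + g11 / D * (e (x a) * e (x b)) + N a * N b / w := by
      intro b
      rw [hM a b]
      ring
    rw [h1]
    simp only [h3, Fin.sum_univ_three]
    ring
  rw [hfin, hp, hq, hN]
  ring

/-- assembly: a function with given first and second derivatives -/
private lemma univ_comb (d e : Derivation ℂ Ω Ω) (hde : ∀ u, d (e u) = e (d u))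
    (x N : Fin 3 → Ω) (hpN : ∑ a, d (x a) * N a = 0) (hqN : ∑ a, e (x a) * N a = 0) (w : Ω)
    (hw : w = ∑ a, N a * N a) (hw0 : w ≠ 0) (hD : detM d e x ≠ 0) (u : Ω) (p1 : Fin 3 → Ω)
    (p2 : Fin 3 → Fin 3 → Ω) (h1 : d u = ∑ a, p1 a * d (x a)) (h2 : e u = ∑ a, p1 a * e (x a))
    (h3 : ∀ a, d (p1 a) = ∑ b, p2 a b * d (x b)) (h4 : ∀ a, e (p1 a) = ∑ b, p2 a b * e (x b)) :
    lapFun d e (met d d x) (met d e x) (met e e x) u =
      -(∑ a, p2 a a - (∑ a, ∑ b, p2 a b * (N a * N b)) / w)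
        + ∑ a, p1 a * lapFun d e (met d d x) (met d e x) (met e e x) (x a) := by
  have hM := univ_matrix (fun a => d (x a)) (fun a => e (x a)) N hpN hqN (met d d x) (met d e x)
    (met e e x) w rfl rfl rfl hw hD hw0
  rw [detM] at hD
  generalize met d d x = g11 at hD hM ⊢
  generalize met d e x = g12 at hD hM ⊢
  generalize met e e x = g22 at hD hM ⊢
  have hL := fun c : Fin 3 => univ_expand d e g11 g12 g22 (x c)
  have hU := univ_expand d e g11 g12 g22 u
  have hdu : d (d u) = ∑ a, ((∑ b, p2 a b * d (x b)) * d (x a) + p1 a * d (d (x a))) := by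
    rw [h1, map_sum]
    refine Finset.sum_congr rfl fun a _ => ?_
    rw [Derivation.leibniz, h3, smul_eq_mul, smul_eq_mul]
    ring
  have hdeu : d (e u) = ∑ a, ((∑ b, p2 a b * d (x b)) * e (x a) + p1 a * d (e (x a))) := by
    rw [h2, map_sum]
    refine Finset.sum_congr rfl fun a _ => ?_
    rw [Derivation.leibniz, h3, smul_eq_mul, smul_eq_mul]
    ring
  have hedu : e (d u) = ∑ a, ((∑ b, p2 a b * e (x b)) * d (x a) + p1 a * e (d (x a))) := by
    rw [h1, map_sum]
    refine Finset.sum_congr rfl fun a _ => ?_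
    rw [Derivation.leibniz, h4, smul_eq_mul, smul_eq_mul]
    ring
  have heu : e (e u) = ∑ a, ((∑ b, p2 a b * e (x b)) * e (x a) + p1 a * e (e (x a))) := by
    rw [h2, map_sum]
    refine Finset.sum_congr rfl fun a _ => ?_
    rw [Derivation.leibniz, h4, smul_eq_mul, smul_eq_mul]
    ring
  generalize hDdef : g11 * g22 - g12 ^ 2 = D at hD hM hL hU
  generalize hβ1 : -(d (g22 / D) - e (g12 / D) +
      d D / (2 * D) * (g22 / D) - e D / (2 * D) * (g12 / D)) = β1 at hL hU
  generalize hβ2 : -(e (g11 / D) - d (g12 / D) +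
      e D / (2 * D) * (g11 / D) - d D / (2 * D) * (g12 / D)) = β2 at hL hU
  rw [hU, hdu, hdeu, hedu, heu, h1, h2]
  simp only [hL]
  have m00 := hM 0 0
  have m01 := hM 0 1
  have m02 := hM 0 2
  have m10 := hM 1 0
  have m11 := hM 1 1
  have m12 := hM 1 2
  have m20 := hM 2 0
  have m21 := hM 2 1
  have m22 := hM 2 2
  simp only [Fin.isValue, if_true] at m00 m01 m02 m10 m11 m12 m20 m21 m22
  rw [if_neg (by decide)] at m01 m02 m10 m12 m20 m21
  simp only [Fin.sum_univ_three]
  linear_combination -(p2 0 0) * m00 - p2 0 1 * m01 - p2 0 2 * m02 - p2 1 0 * m10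
    - p2 1 1 * m11 - p2 1 2 * m12 - p2 2 0 * m20 - p2 2 1 * m21 - p2 2 2 * m22

end univaux

theorem exists_univ (F : MvPolynomial (Fin 3) ℂ) :
    ∃ 𝓛 : MvPolynomial (Fin 4) ℂ → MvPolynomial (Fin 4) ℂ,
      ∀ (Ω : Type) [Field Ω] [Algebra ℂ Ω] (d e : Derivation ℂ Ω Ω),
        (∀ u, d (e u) = e (d u)) → ∀ X : Fin 3 → Ω,
        aeval X F = 0 → detM d e X ≠ 0 → gradsq F X ≠ 0 →
        ∀ φ, lapX d e X (aeval (Fin.snoc X (gradsq F X)⁻¹ : Fin 4 → Ω) φ)
          = aeval (Fin.snoc X (gradsq F X)⁻¹ : Fin 4 → Ω) (𝓛 φ) := by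
  classical
  let W : MvPolynomial (Fin 3) ℂ := ∑ a, pderiv a F ^ 2
  let ρ : MvPolynomial (Fin 3) ℂ →ₐ[ℂ] MvPolynomial (Fin 4) ℂ := rename Fin.castSucc
  let y : MvPolynomial (Fin 4) ℂ := X (Fin.last 3)
  let DD : Fin 3 → Derivation ℂ (MvPolynomial (Fin 4) ℂ) (MvPolynomial (Fin 4) ℂ) := fun a =>
    mkDerivation ℂ (Fin.snoc (fun b : Fin 3 => if b = a then 1 else 0)
      (-(y ^ 2 * ρ (pderiv a W))) : Fin 4 → MvPolynomial (Fin 4) ℂ)
  let 𝓛 : MvPolynomial (Fin 4) ℂ → MvPolynomial (Fin 4) ℂ := fun φ =>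
    -((∑ a, DD a (DD a φ)) - (∑ a, ∑ b, DD b (DD a φ) * (ρ (pderiv a F) * ρ (pderiv b F))) * y)
      + ∑ a, DD a φ * (((∑ b, ρ (pderiv b (pderiv b F))) * y
        - (∑ b, ∑ c, ρ (pderiv c (pderiv b F)) * (ρ (pderiv b F) * ρ (pderiv c F))) * y ^ 2)
          * ρ (pderiv a F))
  refine ⟨𝓛, ?_⟩
  intro Ω _ _ d e hde x hF hD hw φ
  set w := gradsq F x with hwdef
  set Z : Fin 4 → Ω := Fin.snoc x w⁻¹ with hZ
  have hρ : ∀ P, aeval Z (ρ P) = aeval x P := by
    intro P
    show aeval Z (rename Fin.castSucc P) = aeval x P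
    rw [aeval_rename]
    congr 2
    rw [hZ]
    funext i
    simp
  have hy : aeval Z y = w⁻¹ := by
    show aeval Z (X (Fin.last 3)) = w⁻¹
    rw [aeval_X, hZ, Fin.snoc_last]
  have hW : aeval x W = w := by
    rw [hwdef, gradsq, map_sum]
    simp only [map_pow]
  -- chain rule
  have hchain : ∀ (δ : Derivation ℂ Ω Ω) (ψ : MvPolynomial (Fin 4) ℂ),
      δ (aeval Z ψ) = ∑ a, aeval Z (DD a ψ) * δ (x a) := by
    intro δ ψ
    refine univ_chain Z DD δ (fun a => δ (x a)) (fun i => ?_) ψ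
    refine Fin.lastCases ?_ (fun b => ?_) i
    · have h1 : Z (Fin.last 3) = w⁻¹ := by rw [hZ, Fin.snoc_last]
      rw [h1]
      have h2 : δ w⁻¹ = -(w⁻¹ ^ 2 * δ w) := by
        rw [Derivation.leibniz_inv, smul_eq_mul]
        ring
      rw [h2, ← hW, univ_chain3 x δ W, Finset.mul_sum, ← Finset.sum_neg_distrib]
      refine Finset.sum_congr rfl fun a _ => ?_
      have h3 : DD a (X (Fin.last 3)) = -(y ^ 2 * ρ (pderiv a W)) := by
        show mkDerivation ℂ _ (X (Fin.last 3)) = _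
        rw [mkDerivation_X, Fin.snoc_last]
      rw [h3, map_neg, map_mul, map_pow, hρ, hy, hW]
      ring
    · have h1 : Z b.castSucc = x b := by rw [hZ, Fin.snoc_castSucc]
      have h3 : ∀ a, DD a (X b.castSucc) = if b = a then 1 else 0 := by
        intro a
        show mkDerivation ℂ _ (X b.castSucc) = _
        rw [mkDerivation_X, Fin.snoc_castSucc]
      rw [h1]
      simp only [h3]
      rw [Finset.sum_eq_single b]
      · simp
      · intro a _ hab
        rw [if_neg hab.symm]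
        simp
      · simp
  let N : Fin 3 → Ω := fun a => aeval x (pderiv a F)
  have hpN : ∀ δ : Derivation ℂ Ω Ω, ∑ a, δ (x a) * N a = 0 := by
    intro δ
    have h1 := univ_chain3 x δ F
    rw [hF, map_zero] at h1
    rw [h1]
    exact Finset.sum_congr rfl fun a _ => mul_comm _ _
  have hwN : w = ∑ a, N a * N a := by
    rw [hwdef, gradsq]
    exact Finset.sum_congr rfl fun a _ => by rw [sq]
  have hcomb := univ_comb d e hde x N (hpN d) (hpN e) w hwN hw hD (aeval Z φ)
    (fun a => aeval Z (DD a φ)) (fun a b => aeval Z (DD b (DD a φ))) (hchain d φ) (hchain e φ)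
    (fun a => hchain d (DD a φ)) (fun a => hchain e (DD a φ))
  have hlap := univ_lapX d e hde x N (fun a b => aeval x (pderiv b (pderiv a F)))
    (fun a => univ_chain3 x d (pderiv a F)) (fun a => univ_chain3 x e (pderiv a F)) (hpN d)
    (hpN e) w hwN hw hD
  show lapFun d e (met d d x) (met d e x) (met e e x) (aeval Z φ) = aeval Z (𝓛 φ)
  rw [hcomb]
  simp only [hlap]
  simp only [𝓛, map_add, map_neg, map_sub, map_sum, map_mul, map_pow, hρ, hy, N]
  simp only [div_eq_mul_inv, inv_pow]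

end Pool.Agent.Work.MP_abe657_gt
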